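import Mathlib

set_option autoImplicit false

namespace Pool.Agent.Helper99

open MvPolynomial

section AlgFun

variable {τ : Type} (D : Set (τ → ℝ))

/-- Evaluation of polynomials as functions on `D`. -/
noncomputable def evD : MvPolynomial τ ℝ →+* (D → ℝ) :=
  RingHom.pi (fun x : D => MvPolynomial.eval x.1)

/-- `f` is algebraic on `D`: it is a root of one nonzero polynomial with polynomial
coefficients. -/
def AlgOn (f : (τ → ℝ) → ℝ) : Prop :=
  ∃ p : Polynomial (MvPolynomial τ ℝ), p ≠ 0 ∧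
    ∀ x ∈ D, (p.map (MvPolynomial.eval x)).eval (f x) = 0

theorem algOn_iff (f : (τ → ℝ) → ℝ) :
    AlgOn D f ↔ @IsAlgebraic (MvPolynomial τ ℝ) (D → ℝ) _ _ (evD D).toAlgebra
      (fun x : D => f x.1) := by
  let _ := (evD D).toAlgebra
  have key : ∀ (p : Polynomial (MvPolynomial τ ℝ)) (x : D),
      (Polynomial.aeval (fun x : D => f x.1) p) x
        = (p.map (MvPolynomial.eval x.1)).eval (f x.1) := by
    intro p x
    have h1 : (Polynomial.aeval (fun x : D => f x.1) p) =
        Polynomial.eval₂ (evD D) (fun x : D => f x.1) p := rfl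
    rw [h1]
    have h2 : (Polynomial.eval₂ (evD D) (fun x : D => f x.1) p) x =
      (Pi.evalRingHom (fun _ : D => ℝ) x) (Polynomial.eval₂ (evD D) (fun x : D => f x.1) p) := rfl
    rw [h2, Polynomial.hom_eval₂, Polynomial.eval_map]
    rfl
  constructor
  · rintro ⟨p, hp, h⟩
    refine ⟨p, hp, ?_⟩
    funext x
    rw [key]
    exact h x.1 x.2
  · rintro ⟨p, hp, h⟩
    refine ⟨p, hp, ?_⟩
    intro x hx
    have := congrFun h ⟨x, hx⟩
    rw [key] at this
    exact this

variable {D}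

theorem AlgOn.congr {f g : (τ → ℝ) → ℝ} (hf : AlgOn D f) (h : ∀ x ∈ D, g x = f x) :
    AlgOn D g := by
  obtain ⟨p, hp, h'⟩ := hf
  exact ⟨p, hp, fun x hx => by rw [h x hx]; exact h' x hx⟩

theorem AlgOn.add {f g : (τ → ℝ) → ℝ} (hf : AlgOn D f) (hg : AlgOn D g) :
    AlgOn D (fun x => f x + g x) := by
  rw [algOn_iff] at *
  let _ := (evD D).toAlgebra
  exact hf.add hg

theorem AlgOn.mul {f g : (τ → ℝ) → ℝ} (hf : AlgOn D f) (hg : AlgOn D g) :
    AlgOn D (fun x => f x * g x) := by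
  rw [algOn_iff] at *
  let _ := (evD D).toAlgebra
  exact hf.mul hg

theorem AlgOn.neg {f : (τ → ℝ) → ℝ} (hf : AlgOn D f) :
    AlgOn D (fun x => - f x) := by
  rw [algOn_iff] at *
  let _ := (evD D).toAlgebra
  exact hf.neg

theorem AlgOn.sub {f g : (τ → ℝ) → ℝ} (hf : AlgOn D f) (hg : AlgOn D g) :
    AlgOn D (fun x => f x - g x) := by
  rw [algOn_iff] at *
  let _ := (evD D).toAlgebra
  exact hf.sub hg

theorem AlgOn.pow {f : (τ → ℝ) → ℝ} (hf : AlgOn D f) (n : ℕ) :
    AlgOn D (fun x => f x ^ n) := by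
  rw [algOn_iff] at *
  let _ := (evD D).toAlgebra
  exact hf.pow n

theorem AlgOn.of_sq {f : (τ → ℝ) → ℝ} (hf : AlgOn D (fun x => f x ^ 2)) :
    AlgOn D f := by
  rw [algOn_iff] at *
  let _ := (evD D).toAlgebra
  exact IsAlgebraic.of_pow (n := 2) (by norm_num) hf

theorem AlgOn.of_poly (q : MvPolynomial τ ℝ) : AlgOn D (fun x => MvPolynomial.eval x q) := by
  refine ⟨Polynomial.X - Polynomial.C q, Polynomial.X_sub_C_ne_zero q, ?_⟩
  intro x _
  simp

theorem AlgOn.const (c : ℝ) : AlgOn D (fun _ => c) :=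
  (AlgOn.of_poly (MvPolynomial.C c)).congr (by intro x _; simp)

theorem AlgOn.coord (i : τ) : AlgOn D (fun x => x i) :=
  (AlgOn.of_poly (MvPolynomial.X i)).congr (by intro x _; simp)

theorem AlgOn.inv {f : (τ → ℝ) → ℝ} (hf : AlgOn D f) (h0 : ∀ x ∈ D, f x ≠ 0) :
    AlgOn D (fun x => (f x)⁻¹) := by
  rw [algOn_iff] at *
  let _ := (evD D).toAlgebra
  let _ : Invertible (fun x : D => f x.1) :=
    { invOf := fun x : D => (f x.1)⁻¹
      invOf_mul_self := by funext x; simp [h0 x.1 x.2]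
      mul_invOf_self := by funext x; simp [h0 x.1 x.2] }
  exact IsAlgebraic.invOf hf

theorem AlgOn.div {f g : (τ → ℝ) → ℝ} (hf : AlgOn D f) (hg : AlgOn D g)
    (h0 : ∀ x ∈ D, g x ≠ 0) : AlgOn D (fun x => f x / g x) :=
  (hf.mul (hg.inv h0)).congr (by intro x _; exact div_eq_mul_inv _ _)

/-- Gluing: a function that agrees at each point with one of two algebraic functions. -/
theorem AlgOn.glue {f g h : (τ → ℝ) → ℝ} (hf : AlgOn D f) (hg : AlgOn D g)
    (hh : ∀ x ∈ D, h x = f x ∨ h x = g x) : AlgOn D h := by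
  obtain ⟨p, hp, hp'⟩ := hf
  obtain ⟨q, hq, hq'⟩ := hg
  refine ⟨p * q, mul_ne_zero hp hq, ?_⟩
  intro x hx
  rw [Polynomial.map_mul, Polynomial.eval_mul]
  rcases hh x hx with h1 | h1
  · rw [h1, hp' x hx, zero_mul]
  · rw [h1, hq' x hx, mul_zero]

theorem AlgOn.max {f g : (τ → ℝ) → ℝ} (hf : AlgOn D f) (hg : AlgOn D g) :
    AlgOn D (fun x => max (f x) (g x)) :=
  AlgOn.glue hf hg (fun x _ => by
    rcases le_total (f x) (g x) with h | h
    · right; exact max_eq_right h
    · left; exact max_eq_left h)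

theorem AlgOn.min {f g : (τ → ℝ) → ℝ} (hf : AlgOn D f) (hg : AlgOn D g) :
    AlgOn D (fun x => min (f x) (g x)) :=
  AlgOn.glue hf hg (fun x _ => by
    rcases le_total (f x) (g x) with h | h
    · left; exact min_eq_left h
    · right; exact min_eq_right h)

theorem AlgOn.sum {ι : Type*} (s : Finset ι) {f : ι → (τ → ℝ) → ℝ}
    (hf : ∀ i ∈ s, AlgOn D (f i)) : AlgOn D (fun x => ∑ i ∈ s, f i x) := by
  classical
  induction s using Finset.induction_on with
  | empty => simpa using AlgOn.const (D := D) 0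
  | insert a s ha ih =>
    have h1 := (hf a (Finset.mem_insert_self a s)).add
      (ih (fun i hi => hf i (Finset.mem_insert_of_mem hi)))
    exact h1.congr (fun x _ => Finset.sum_insert ha)

/-- A real polynomial of an algebraic function. -/
theorem AlgOn.polyComp (P : Polynomial ℝ) {f : (τ → ℝ) → ℝ} (hf : AlgOn D f) :
    AlgOn D (fun x => P.eval (f x)) := by
  have : ∀ x, P.eval (f x) = ∑ i ∈ Finset.range (P.natDegree + 1), P.coeff i * f x ^ i :=
    fun x => Polynomial.eval_eq_sum_range (f x)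
  exact (AlgOn.sum _ (fun i _ => (AlgOn.const (P.coeff i)).mul (hf.pow i))).congr
    (fun x _ => this x)

/-- Removing the restriction to `D` when `D` is the complement of a hypersurface. -/
theorem AlgOn.extend {f : (τ → ℝ) → ℝ} (hf : AlgOn D f) (q : MvPolynomial τ ℝ) (hq : q ≠ 0)
    (h : ∀ x, x ∉ D → MvPolynomial.eval x q = 0) : AlgOn Set.univ f := by
  obtain ⟨p, hp, hp'⟩ := hf
  refine ⟨Polynomial.C q * p, mul_ne_zero (by simpa using hq) hp, ?_⟩
  intro x _
  by_cases hx : x ∈ D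
  · rw [Polynomial.map_mul, Polynomial.eval_mul, hp' x hx, mul_zero]
  · rw [Polynomial.map_mul, Polynomial.eval_mul]
    simp [h x hx]

end AlgFun

end Pool.Agent.Helper99
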