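import Mathlib

/-!
# Lipschitz extension for maps from `L²` into `L¹`

Every `K`-Lipschitz map from a subset of a real inner product space into `L¹(μ)` (`μ` finite)
extends to an `18 K`-Lipschitz map.  Proof: layer-cake embedding `T : L¹ → L²(μ × ℝ)` of the
snowflake of `L¹`, Kirszbraun's theorem for the negative-type kernel
`√(‖x-y‖² + r_x² + r_y²) - (r_x + r_y)/√2` (`r` = distance to the subset), and a smooth truncation
giving a Lipschitz left inverse of `T` near its range.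
-/

set_option autoImplicit false
open MeasureTheory Set Filter Topology
open scoped RealInnerProductSpace ENNReal NNReal

namespace Pool.Agent.Helper99.Ball


theorem weak_limit {E : Type*} [NormedAddCommGroup E] [InnerProductSpace ℝ E] [CompleteSpace E]
    {ι : Type*} (U : Ultrafilter ι) (q : ι → E) (R : ℝ)
    (hR : ∀ᶠ i in (U : Filter ι), ‖q i‖ ≤ R) :
    ∃ q' : E, ∀ v : E, Tendsto (fun i => ⟪q i, v⟫) (U : Filter ι) (𝓝 ⟪q', v⟫) := by
  have hex : ∀ v : E, ∃ L : ℝ, Tendsto (fun i => (⟪q i, v⟫ : ℝ)) (U : Filter ι) (𝓝 L) := by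
    intro v
    have h1 : ∀ᶠ i in (U : Filter ι), (⟪q i, v⟫ : ℝ) ∈ Icc (-(R * ‖v‖)) (R * ‖v‖) := by
      filter_upwards [hR] with i hi
      have h2 : |(⟪q i, v⟫ : ℝ)| ≤ R * ‖v‖ :=
        (abs_real_inner_le_norm (q i) v).trans (mul_le_mul_of_nonneg_right hi (norm_nonneg v))
      exact abs_le.mp h2
    have h3 : ((U.map (fun i => (⟪q i, v⟫ : ℝ)) : Ultrafilter ℝ) : Filter ℝ)
        ≤ 𝓟 (Icc (-(R * ‖v‖)) (R * ‖v‖)) := by
      rw [le_principal_iff]
      exact h1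
    obtain ⟨L, -, hL⟩ := isCompact_Icc.ultrafilter_le_nhds _ h3
    exact ⟨L, hL⟩
  choose L hL using hex
  have hadd : ∀ v w, L (v + w) = L v + L w := by
    intro v w
    refine tendsto_nhds_unique (hL (v + w)) ?_
    refine ((hL v).add (hL w)).congr (fun i => ?_)
    exact (inner_add_right _ _ _).symm
  have hsmul : ∀ (c : ℝ) v, L (c • v) = c * L v := by
    intro c v
    refine tendsto_nhds_unique (hL (c • v)) ?_
    refine ((hL v).const_mul c).congr (fun i => ?_)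
    exact (real_inner_smul_right _ _ _).symm
  have hbd : ∀ v, ‖L v‖ ≤ R * ‖v‖ := by
    intro v
    refine le_of_tendsto (hL v).norm ?_
    filter_upwards [hR] with i hi
    exact (abs_real_inner_le_norm (q i) v).trans (mul_le_mul_of_nonneg_right hi (norm_nonneg v))
  let l : E →ₗ[ℝ] ℝ :=
    { toFun := L
      map_add' := hadd
      map_smul' := fun c v => hsmul c v }
  let l' : E →L[ℝ] ℝ := l.mkContinuous R hbd
  refine ⟨(InnerProductSpace.toDual ℝ E).symm l', fun v => ?_⟩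
  rw [InnerProductSpace.toDual_symm_apply]
  exact hL v


lemma bary_id {E : Type*} [NormedAddCommGroup E] [InnerProductSpace ℝ E]
    {ι : Type*} [Fintype ι] (τ : ι → E) (l : ι → ℝ) (h1 : ∑ i, l i = 1) (q : E)
    (hq : q = ∑ i, l i • τ i) :
    2 * ∑ i, l i * ‖q - τ i‖^2 = ∑ i, ∑ j, l i * l j * ‖τ i - τ j‖^2 := by
  have hin : ∑ i, l i * ⟪q, τ i⟫ = ‖q‖^2 := by
    have : ∑ i, l i * ⟪q, τ i⟫ = ⟪q, ∑ i, l i • τ i⟫ := by
      rw [inner_sum]
      refine Finset.sum_congr rfl fun i _ => ?_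
      rw [inner_smul_right]
    rw [this, ← hq, real_inner_self_eq_norm_sq]
  have hA : ∑ i, l i * ‖q - τ i‖^2 = (∑ i, l i * ‖τ i‖^2) - ‖q‖^2 := by
    have : ∀ i, l i * ‖q - τ i‖^2 = l i * ‖q‖^2 - 2 * (l i * ⟪q, τ i⟫) + l i * ‖τ i‖^2 := by
      intro i
      rw [norm_sub_sq_real]; ring
    rw [Finset.sum_congr rfl fun i _ => this i, Finset.sum_add_distrib, Finset.sum_sub_distrib,
      ← Finset.sum_mul, h1, ← Finset.mul_sum, hin]
    ring
  have hB : ∑ i, ∑ j, l i * l j * ⟪τ i, τ j⟫ = ‖q‖^2 := by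
    have : ∀ i, ∑ j, l i * l j * ⟪τ i, τ j⟫ = l i * ⟪q, τ i⟫ := by
      intro i
      rw [real_inner_comm, hq, inner_sum, Finset.mul_sum]
      refine Finset.sum_congr rfl fun j _ => ?_
      rw [inner_smul_right]; ring
    rw [Finset.sum_congr rfl fun i _ => this i, hin]
  have hC : ∑ i, ∑ j, l i * l j * ‖τ i - τ j‖^2
      = 2 * (∑ i, l i * ‖τ i‖^2) - 2 * ‖q‖^2 := by
    have : ∀ i j, l i * l j * ‖τ i - τ j‖^2
        = (l i * ‖τ i‖^2) * l j - 2 * (l i * l j * ⟪τ i, τ j⟫) + l i * (l j * ‖τ j‖^2) := by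
      intro i j
      rw [norm_sub_sq_real]; ring
    simp_rw [this, Finset.sum_add_distrib, Finset.sum_sub_distrib, ← Finset.mul_sum, hB, h1,
      ← Finset.sum_mul, h1]
    ring
  rw [hA, hC]; ring

theorem one_point_eps {E : Type*} [NormedAddCommGroup E] [InnerProductSpace ℝ E]
    {ι : Type*} [Fintype ι] [Nonempty ι] (τ : ι → E) (ρ : ι → ℝ)
    (H : ∀ l : ι → ℝ, (∀ i, 0 ≤ l i) → ∑ i, l i = 1 →
      ∑ i, ∑ j, l i * l j * ‖τ i - τ j‖^2 ≤ 2 * ∑ i, l i * ρ i) (ε : ℝ) (hε : 0 < ε) :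
    ∃ q : E, ∀ i, ‖q - τ i‖^2 < ρ i + ε := by
  classical
  set U : Set (ι → ℝ) := {u | ∃ q : E, ∀ i, ‖q - τ i‖^2 - ρ i < u i} with hU
  by_contra hcon
  have hx : (fun _ => ε : ι → ℝ) ∉ U := by
    rintro ⟨q, hq⟩
    exact hcon ⟨q, fun i => by have := hq i; simp only at this; linarith⟩
  have hconv : Convex ℝ U := by
    rintro u ⟨q1, h1⟩ v ⟨q2, h2⟩ a b ha hb hab
    refine ⟨a • q1 + b • q2, fun i => ?_⟩
    have e1 : a • q1 + b • q2 - τ i = a • (q1 - τ i) + b • (q2 - τ i) := by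
      rw [smul_sub, smul_sub]
      have : τ i = a • τ i + b • τ i := by rw [← add_smul, hab, one_smul]
      nth_rewrite 1 [this]
      abel
    have e2 : ‖a • q1 + b • q2 - τ i‖^2 ≤ a * ‖q1 - τ i‖^2 + b * ‖q2 - τ i‖^2 := by
      have hn : ‖a • q1 + b • q2 - τ i‖ ≤ a * ‖q1 - τ i‖ + b * ‖q2 - τ i‖ := by
        rw [e1]
        refine (norm_add_le _ _).trans ?_
        rw [norm_smul, norm_smul, Real.norm_of_nonneg ha, Real.norm_of_nonneg hb]
      have hs : ‖a • q1 + b • q2 - τ i‖^2 ≤ (a * ‖q1 - τ i‖ + b * ‖q2 - τ i‖)^2 :=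
        pow_le_pow_left₀ (norm_nonneg _) hn 2
      have hb' : b = 1 - a := by linarith
      have : (a * ‖q1 - τ i‖ + b * ‖q2 - τ i‖)^2 ≤ a * ‖q1 - τ i‖^2 + b * ‖q2 - τ i‖^2 := by
        have h3 : a * ‖q1 - τ i‖^2 + b * ‖q2 - τ i‖^2 - (a * ‖q1 - τ i‖ + b * ‖q2 - τ i‖)^2
            = a * b * (‖q1 - τ i‖ - ‖q2 - τ i‖)^2 := by
          subst hb'; ring
        have h4 : 0 ≤ a * b * (‖q1 - τ i‖ - ‖q2 - τ i‖)^2 := by positivity
        linarith
      linarith
    have f1 := h1 i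
    have f2 := h2 i
    show ‖a • q1 + b • q2 - τ i‖^2 - ρ i < a * u i + b * v i
    have hρ : ρ i = a * ρ i + b * ρ i := by rw [← add_mul, hab, one_mul]
    rcases eq_or_lt_of_le ha with h0 | h0
    · have hb1 : b = 1 := by linarith
      subst hb1
      rw [← h0] at e2 ⊢
      linarith
    · have g1 : a * (‖q1 - τ i‖^2 - ρ i) < a * u i := mul_lt_mul_of_pos_left f1 h0
      have g2 : b * (‖q2 - τ i‖^2 - ρ i) ≤ b * v i := mul_le_mul_of_nonneg_left f2.le hb
      nlinarith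
  have hopen : IsOpen U := by
    have : U = ⋃ q : E, ⋂ i, {u : ι → ℝ | ‖q - τ i‖^2 - ρ i < u i} := by
      ext u; simp [hU]
    rw [this]
    refine isOpen_iUnion fun q => isOpen_iInter_of_finite fun i => ?_
    exact isOpen_lt continuous_const (continuous_apply i)
  obtain ⟨f, hf⟩ := geometric_hahn_banach_open_point hconv hopen hx
  have hfs : ∀ u : ι → ℝ, f u = ∑ i, u i * f (Pi.single i 1) := by
    intro u
    have : u = ∑ i, u i • (Pi.single i (1 : ℝ) : ι → ℝ) := by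
      ext j
      simp [Finset.sum_apply, Pi.single_apply]
    conv_lhs => rw [this]
    rw [map_sum]
    refine Finset.sum_congr rfl fun i _ => ?_
    rw [map_smul, smul_eq_mul]
  set u0 : ι → ℝ := fun i => ‖(0 : E) - τ i‖^2 - ρ i + 1 with hu0
  have hu0U : u0 ∈ U := ⟨0, fun i => by simp only [hu0]; linarith⟩
  set L : ι → ℝ := fun i => - f (Pi.single i 1) with hL
  have hL0 : ∀ i, 0 ≤ L i := by
    intro i
    by_contra hneg
    have hp : 0 < f (Pi.single i 1) := by simp only [hL] at hneg; linarith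
    set t : ℝ := max 0 ((f (fun _ => ε) - f u0) / f (Pi.single i 1)) with ht
    have ht0 : 0 ≤ t := le_max_left _ _
    have ht1 : (f (fun _ => ε) - f u0) / f (Pi.single i 1) ≤ t := le_max_right _ _
    have hm : u0 + t • (Pi.single i (1 : ℝ) : ι → ℝ) ∈ U := by
      refine ⟨0, fun j => ?_⟩
      have h5 : 0 ≤ t * (Pi.single i (1 : ℝ) : ι → ℝ) j := by
        apply mul_nonneg ht0
        by_cases hij : j = i
        · subst hij; simp
        · simp [Pi.single_apply, hij]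
      show ‖(0 : E) - τ j‖^2 - ρ j < u0 j + t * (Pi.single i (1 : ℝ) : ι → ℝ) j
      simp only [hu0]
      linarith
    have h6 := hf _ hm
    rw [map_add, map_smul, smul_eq_mul] at h6
    rw [div_le_iff₀ hp] at ht1
    linarith
  have hS : 0 < ∑ i, L i := by
    rcases eq_or_lt_of_le (Finset.sum_nonneg fun i _ => hL0 i) with h | h
    · exfalso
      have hz : ∀ i, L i = 0 := by
        intro i
        exact (Finset.sum_eq_zero_iff_of_nonneg fun i _ => hL0 i).1 h.symm i (Finset.mem_univ i)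
      have hz' : ∀ i, f (Pi.single i 1) = 0 := fun i => by
        have := hz i; simp only [hL] at this; linarith
      have h7 := hf _ hu0U
      rw [hfs u0, hfs (fun _ => ε)] at h7
      simp [hz'] at h7
    · exact h
  set S : ℝ := ∑ i, L i with hSdef
  set l : ι → ℝ := fun i => L i / S with hl
  have hl0 : ∀ i, 0 ≤ l i := fun i => div_nonneg (hL0 i) hS.le
  have hl1 : ∑ i, l i = 1 := by
    simp only [hl]
    rw [← Finset.sum_div, ← hSdef, div_self hS.ne']
  set q : E := ∑ i, l i • τ i with hq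
  have hid := bary_id τ l hl1 q hq
  have hH := H l hl0 hl1
  have hu : (fun i => ‖q - τ i‖^2 - ρ i + ε / 2 : ι → ℝ) ∈ U := ⟨q, fun i => by simp only; linarith⟩
  have h8 := hf _ hu
  rw [hfs, hfs (fun _ => ε)] at h8
  have hLl : ∀ i, f (Pi.single i 1) = -(S * l i) := by
    intro i
    simp only [hl, hL]
    field_simp
  simp_rw [hLl] at h8
  have h9 : ∑ i, (‖q - τ i‖^2 - ρ i + ε / 2) * -(S * l i)
      = -S * ((∑ i, l i * ‖q - τ i‖^2) - (∑ i, l i * ρ i) + ε / 2) := by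
    have : ∀ i, (‖q - τ i‖^2 - ρ i + ε / 2) * -(S * l i)
        = -S * (l i * ‖q - τ i‖^2) + S * (l i * ρ i) - S * (ε / 2) * l i := by
      intro i; ring
    rw [Finset.sum_congr rfl fun i _ => this i, Finset.sum_sub_distrib, Finset.sum_add_distrib,
      ← Finset.mul_sum, ← Finset.mul_sum, ← Finset.mul_sum, hl1]
    ring
  have h10 : ∑ i, ε * -(S * l i) = -S * ε := by
    have : ∀ i, ε * -(S * l i) = -S * ε * l i := by intro i; ring
    rw [Finset.sum_congr rfl fun i _ => this i, ← Finset.mul_sum, hl1, mul_one]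
  rw [h9, h10] at h8
  have h11 : ε < (∑ i, l i * ‖q - τ i‖^2) - (∑ i, l i * ρ i) + ε / 2 := by
    by_contra h12
    push Not at h12
    have := mul_le_mul_of_nonneg_left h12 hS.le
    linarith
  linarith
theorem weak_norm_le {E : Type*} [NormedAddCommGroup E] [InnerProductSpace ℝ E]
    {ι : Type*} (U : Ultrafilter ι) (q p : ι → E) (q' p' : E)
    (hq : ∀ v : E, Tendsto (fun i => ⟪q i, v⟫) (U : Filter ι) (𝓝 ⟪q', v⟫))
    (hp : ∀ v : E, Tendsto (fun i => ⟪p i, v⟫) (U : Filter ι) (𝓝 ⟪p', v⟫))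
    (c : ι → ℝ) (c' : ℝ) (hc : Tendsto c (U : Filter ι) (𝓝 c'))
    (h : ∀ᶠ i in (U : Filter ι), ‖q i - p i‖^2 ≤ c i) : ‖q' - p'‖^2 ≤ c' := by
  set v := q' - p' with hv
  have h1 : Tendsto (fun i => 2 * (⟪q i, v⟫ - ⟪p i, v⟫)) (U : Filter ι)
      (𝓝 (2 * (⟪q', v⟫ - ⟪p', v⟫))) := ((hq v).sub (hp v)).const_mul 2
  have h2 : Tendsto (fun i => c i + ‖v‖^2) (U : Filter ι) (𝓝 (c' + ‖v‖^2)) :=
    hc.add tendsto_const_nhds
  have h3 : 2 * (⟪q', v⟫ - ⟪p', v⟫) ≤ c' + ‖v‖^2 := by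
    apply le_of_tendsto_of_tendsto h1 h2
    filter_upwards [h] with i hi
    have h4 : ⟪q i, v⟫ - ⟪p i, v⟫ = ⟪q i - p i, v⟫ := by rw [inner_sub_left]
    rw [h4]
    have h5 := real_inner_le_norm (q i - p i) v
    nlinarith [sq_nonneg (‖q i - p i‖ - ‖v‖)]
  rw [← inner_sub_left, ← hv, real_inner_self_eq_norm_sq] at h3
  linarith

theorem one_point_finset {X E : Type*} [NormedAddCommGroup E] [InnerProductSpace ℝ E]
    [CompleteSpace E] (s : Finset X) (hs : s.Nonempty) (τ : X → E) (ρ : X → ℝ)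
    (H : ∀ c : X → ℝ, (∀ i ∈ s, 0 ≤ c i) → ∑ i ∈ s, c i = 1 →
      ∑ i ∈ s, ∑ j ∈ s, c i * c j * ‖τ i - τ j‖^2 ≤ 2 * ∑ i ∈ s, c i * ρ i) :
    ∃ q : E, ∀ i ∈ s, ‖q - τ i‖^2 ≤ ρ i := by
  classical
  have : Nonempty s := hs.to_subtype
  have key : ∀ n : ℕ, ∃ q : E, ∀ i : s, ‖q - τ i‖^2 < ρ i + 1/((n:ℝ)+1) := by
    intro n
    apply one_point_eps (fun i : s => τ i) (fun i : s => ρ i) _ _ (by positivity)
    intro l hl hl1
    let c : X → ℝ := Function.extend Subtype.val l 0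
    have hc : ∀ i : s, c i = l i := fun i => Subtype.val_injective.extend_apply l 0 i
    have := H c (fun i hi => by
      rw [show c i = l ⟨i,hi⟩ from hc ⟨i,hi⟩]; exact hl _) (by
      rw [← Finset.sum_coe_sort]; simpa [hc] using hl1)
    simp_rw [← Finset.sum_coe_sort s] at this
    simpa [hc] using this
  choose q hq using key
  obtain ⟨i₀, hi₀⟩ := hs
  obtain ⟨q', hq'⟩ := weak_limit (Filter.hyperfilter ℕ) q (‖τ i₀‖ + (ρ i₀ + 2)) (by
    refine Eventually.of_forall fun n => ?_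
    have h1 := hq n ⟨i₀, hi₀⟩
    simp only at h1
    have h2 : 1/((n:ℝ)+1) ≤ 1 := by
      rw [div_le_one (by positivity)]; linarith [(Nat.cast_nonneg n : (0:ℝ) ≤ n)]
    have h3 : ‖q n - τ i₀‖ ≤ ρ i₀ + 2 := by nlinarith [sq_nonneg (‖q n - τ i₀‖ - 1)]
    calc ‖q n‖ = ‖(q n - τ i₀) + τ i₀‖ := by simp
      _ ≤ ‖q n - τ i₀‖ + ‖τ i₀‖ := norm_add_le _ _
      _ ≤ _ := by linarith)
  refine ⟨q', fun i hi => ?_⟩
  apply weak_norm_le (Filter.hyperfilter ℕ) q (fun _ => τ i) q' (τ i) hq'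
    (fun v => tendsto_const_nhds) (fun n => ρ i + 1/((n:ℝ)+1)) (ρ i)
  · have h := (tendsto_one_div_add_atTop_nhds_zero_nat (𝕜 := ℝ)).mono_left Nat.hyperfilter_le_atTop
    simpa using h.const_add (ρ i)
  · exact Eventually.of_forall fun n => (hq n ⟨i, hi⟩).le

theorem kirszbraun_finite {X E : Type*} [NormedAddCommGroup E] [InnerProductSpace ℝ E]
    [CompleteSpace E] (N : X → X → ℝ) (hN0 : ∀ x, N x x = 0) (hsymm : ∀ x y, N x y = N y x)
    (hneg : ∀ (s : Finset X) (c : X → ℝ), ∑ x ∈ s, c x = 0 →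
      ∑ x ∈ s, ∑ y ∈ s, c x * c y * N x y ≤ 0)
    (τ : X → E) (B : Finset X) (hτ : ∀ a ∈ B, ∀ b ∈ B, ‖τ a - τ b‖^2 ≤ N a b) [DecidableEq X]
    (s : Finset X) :
    ∃ Φ : X → E, (∀ a ∈ B, Φ a = τ a) ∧ ∀ x ∈ B ∪ s, ∀ y ∈ B ∪ s, ‖Φ x - Φ y‖^2 ≤ N x y := by
  induction s using Finset.induction_on with
  | empty => exact ⟨τ, fun _ _ => rfl, by simpa using hτ⟩
  | insert x s hx ih =>
    obtain ⟨Φ, hΦ, hΦ2⟩ := ih
    by_cases hxs : x ∈ B ∪ s
    · refine ⟨Φ, hΦ, ?_⟩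
      have : B ∪ insert x s = B ∪ s := by
        rw [Finset.union_insert, Finset.insert_eq_of_mem hxs]
      rwa [this]
    · rcases (B ∪ s).eq_empty_or_nonempty with he | hne
      · have hB : B = ∅ := by
          rw [Finset.union_eq_empty] at he; exact he.1
        have hs' : s = ∅ := by
          rw [Finset.union_eq_empty] at he; exact he.2
        refine ⟨Φ, hΦ, ?_⟩
        subst hB; subst hs'
        simp [hN0]
      · obtain ⟨q, hq⟩ := one_point_finset (B ∪ s) hne Φ (fun i => N x i) (by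
          intro c hc hc1
          have h1 : ∑ i ∈ B ∪ s, ∑ j ∈ B ∪ s, c i * c j * ‖Φ i - Φ j‖^2
              ≤ ∑ i ∈ B ∪ s, ∑ j ∈ B ∪ s, c i * c j * N i j := by
            apply Finset.sum_le_sum; intro i hi
            apply Finset.sum_le_sum; intro j hj
            exact mul_le_mul_of_nonneg_left (hΦ2 i hi j hj) (mul_nonneg (hc i hi) (hc j hj))
          have h2 := hneg (insert x (B ∪ s)) (Function.update c x (-1)) (by
            rw [Finset.sum_insert hxs]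
            rw [Finset.sum_congr rfl (g := c)]
            · simp [hc1]
            · intro i hi
              exact Function.update_of_ne (ne_of_mem_of_not_mem hi hxs) _ _)
          rw [Finset.sum_insert hxs] at h2
          simp_rw [Finset.sum_insert hxs] at h2
          have hup : ∀ i ∈ B ∪ s, Function.update c x (-1) i = c i := fun i hi =>
            Function.update_of_ne (ne_of_mem_of_not_mem hi hxs) _ _
          have hupx : Function.update c x (-1) x = -1 := Function.update_self _ _ _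
          rw [hupx, hN0] at h2
          have e1 : ∑ y ∈ B ∪ s, (-1:ℝ) * Function.update c x (-1) y * N x y
              = - ∑ y ∈ B ∪ s, c y * N x y := by
            rw [← Finset.sum_neg_distrib]
            apply Finset.sum_congr rfl; intro i hi; rw [hup i hi]; ring
          have e2 : ∑ i ∈ B ∪ s, (Function.update c x (-1) i * (-1) * N i x +
              ∑ j ∈ B ∪ s, Function.update c x (-1) i * Function.update c x (-1) j * N i j)
              = - ∑ y ∈ B ∪ s, c y * N x y + ∑ i ∈ B ∪ s, ∑ j ∈ B ∪ s, c i * c j * N i j := by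
            rw [Finset.sum_add_distrib, ← Finset.sum_neg_distrib]
            congr 1
            · apply Finset.sum_congr rfl; intro i hi; rw [hup i hi, hsymm i x]; ring
            · apply Finset.sum_congr rfl; intro i hi
              apply Finset.sum_congr rfl; intro j hj
              rw [hup i hi, hup j hj]
          rw [e1, e2] at h2
          linarith)
        refine ⟨Function.update Φ x q, ?_, ?_⟩
        · intro a ha
          rw [Function.update_of_ne (ne_of_mem_of_not_mem (Finset.mem_union_left _ ha) hxs)]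
          exact hΦ a ha
        · have hup : ∀ i ∈ B ∪ s, Function.update Φ x q i = Φ i := fun i hi =>
            Function.update_of_ne (ne_of_mem_of_not_mem hi hxs) _ _
          have hupx : Function.update Φ x q x = q := Function.update_self _ _ _
          intro y hy z hz
          rw [Finset.union_insert, Finset.mem_insert] at hy hz
          rcases hy with rfl | hy
          · rcases hz with rfl | hz
            · simp [hN0]
            · rw [hupx, hup z hz]; exact hq z hz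
          · rcases hz with rfl | hz
            · rw [hupx, hup y hy, norm_sub_rev, hsymm]; exact hq y hy
            · rw [hup y hy, hup z hz]; exact hΦ2 y hy z hz

theorem kirszbraun_kernel {X E : Type*} [NormedAddCommGroup E] [InnerProductSpace ℝ E]
    [CompleteSpace E] (N : X → X → ℝ) (hN0 : ∀ x, N x x = 0) (hsymm : ∀ x y, N x y = N y x)
    (hneg : ∀ (s : Finset X) (c : X → ℝ), ∑ x ∈ s, c x = 0 →
      ∑ x ∈ s, ∑ y ∈ s, c x * c y * N x y ≤ 0)
    (A : Set X) (hA : A.Nonempty) (τ : X → E) (hτ : ∀ a ∈ A, ∀ b ∈ A, ‖τ a - τ b‖^2 ≤ N a b) :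
    ∃ Φ : X → E, (∀ a ∈ A, Φ a = τ a) ∧ ∀ x y, ‖Φ x - Φ y‖^2 ≤ N x y := by
  classical
  obtain ⟨a₀, ha₀⟩ := hA
  have hfin : ∀ S : Finset X, ∃ Φ : X → E, (∀ a ∈ S, a ∈ A → Φ a = τ a) ∧
      ∀ x ∈ S, ∀ y ∈ S, ‖Φ x - Φ y‖^2 ≤ N x y := by
    intro S
    obtain ⟨Φ, h1, h2⟩ := kirszbraun_finite N hN0 hsymm hneg τ (S.filter (· ∈ A)) (by
      intro a ha b hb
      exact hτ a (Finset.mem_filter.1 ha).2 b (Finset.mem_filter.1 hb).2) S
    refine ⟨Φ, fun a ha haA => h1 a (Finset.mem_filter.2 ⟨ha, haA⟩), fun x hx y hy =>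
      h2 x (Finset.mem_union_right _ hx) y (Finset.mem_union_right _ hy)⟩
  choose Ψ hΨ1 hΨ2 using hfin
  let U : Ultrafilter (Finset X) := Ultrafilter.of atTop
  have hU : ∀ x : X, ∀ᶠ S in (U : Filter (Finset X)), x ∈ S := by
    intro x
    have : ∀ᶠ S in (atTop : Filter (Finset X)), x ∈ S := by
      filter_upwards [eventually_ge_atTop {x}] with S hS
      exact hS (Finset.mem_singleton_self x)
    exact (Ultrafilter.of_le (f := (atTop : Filter (Finset X)))) this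
  have hlim : ∀ x : X, ∃ q' : E, ∀ v : E,
      Tendsto (fun S => ⟪Ψ S x, v⟫) (U : Filter (Finset X)) (𝓝 ⟪q', v⟫) := by
    intro x
    apply weak_limit U (fun S => Ψ S x) (‖τ a₀‖ + (N x a₀ + 1))
    filter_upwards [hU x, hU a₀] with S hxS haS
    have h1 := hΨ2 S x hxS a₀ haS
    rw [hΨ1 S a₀ haS ha₀] at h1
    have h3 : ‖Ψ S x - τ a₀‖ ≤ N x a₀ + 1 := by nlinarith [sq_nonneg (‖Ψ S x - τ a₀‖ - 1)]
    calc ‖Ψ S x‖ = ‖(Ψ S x - τ a₀) + τ a₀‖ := by simp
      _ ≤ ‖Ψ S x - τ a₀‖ + ‖τ a₀‖ := norm_add_le _ _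
      _ ≤ _ := by linarith
  choose Φ hΦ using hlim
  refine ⟨Φ, fun a ha => ?_, fun x y => ?_⟩
  · have h := weak_norm_le U (fun S => Ψ S a) (fun _ => τ a) (Φ a) (τ a) (hΦ a)
      (fun v => tendsto_const_nhds) (fun _ => 0) 0 tendsto_const_nhds (by
        filter_upwards [hU a] with S hS
        rw [hΨ1 S a hS ha]; simp)
    have h' : ‖Φ a - τ a‖ = 0 := by
      have := norm_nonneg (Φ a - τ a)
      nlinarith
    exact sub_eq_zero.1 (norm_eq_zero.1 h')
  · exact weak_norm_le U (fun S => Ψ S x) (fun S => Ψ S y) (Φ x) (Φ y) (hΦ x) (hΦ y)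
      (fun _ => N x y) (N x y) tendsto_const_nhds (by
        filter_upwards [hU x, hU y] with S hxS hyS
        exact hΨ2 S x hxS y hyS)



theorem gram_pow_psd {H : Type*} [NormedAddCommGroup H] [InnerProductSpace ℝ H] (s : Finset H) (n : ℕ) :
    (Matrix.of (fun x y : s => (inner ℝ (x : H) (y : H) : ℝ) ^ n)).PosSemidef := by
  classical
  induction n with
  | zero =>
    have h := Matrix.posSemidef_gram ℝ (fun _ : s => (1 : ℝ))
    have e : (Matrix.of (fun x y : s => (inner ℝ (x : H) (y : H) : ℝ) ^ 0)) =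
        Matrix.gram ℝ (fun _ : s => (1 : ℝ)) := by
      ext i j
      rw [Matrix.of_apply, pow_zero, Matrix.gram_apply]
      exact (by simp : (inner ℝ (1 : ℝ) (1 : ℝ) : ℝ) = 1).symm
    rw [e]
    exact h
  | succ n ih =>
    have h := ih.hadamard (Matrix.posSemidef_gram ℝ (fun x : s => (x : H)))
    have e : (Matrix.of (fun x y : s => (inner ℝ (x : H) (y : H) : ℝ) ^ (n + 1))) =
        Matrix.hadamard (Matrix.of (fun x y : s => (inner ℝ (x : H) (y : H) : ℝ) ^ n))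
          (Matrix.gram ℝ (fun x : s => (x : H))) := by
      ext i j
      rw [Matrix.of_apply, Matrix.hadamard_apply, Matrix.of_apply, Matrix.gram_apply, pow_succ]
    rw [e]
    exact h

theorem gram_pow_form {H : Type*} [NormedAddCommGroup H] [InnerProductSpace ℝ H] (s : Finset H) (n : ℕ)
    (a : H → ℝ) : 0 ≤ ∑ x ∈ s, ∑ y ∈ s, a x * a y * (inner ℝ x y : ℝ) ^ n := by
  classical
  have h := (gram_pow_psd s n).dotProduct_mulVec_nonneg (fun x : s => a x)
  have e : ∑ x ∈ s, ∑ y ∈ s, a x * a y * (inner ℝ x y : ℝ) ^ n =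
      dotProduct (star (fun x : s => a x))
        (Matrix.mulVec (Matrix.of (fun x y : s => (inner ℝ (x : H) (y : H) : ℝ) ^ n)) (fun x : s => a x)) := by
    rw [← Finset.sum_coe_sort]
    unfold dotProduct
    refine Finset.sum_congr rfl fun x _ => ?_
    rw [← Finset.sum_coe_sort]
    unfold Matrix.mulVec dotProduct
    rw [Finset.mul_sum]
    refine Finset.sum_congr rfl fun y _ => ?_
    simp
    ring
  rw [e]
  exact h


theorem gauss_pd {H : Type*} [NormedAddCommGroup H] [InnerProductSpace ℝ H] (s : Finset H)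
    (c : H → ℝ) (t : ℝ) (ht : 0 ≤ t) :
    0 ≤ ∑ x ∈ s, ∑ y ∈ s, c x * c y * Real.exp (-t * ‖x - y‖^2) := by 
  have e1 : ∀ x y : H, c x * c y * Real.exp (-t * ‖x - y‖ ^ 2) =
      (c x * Real.exp (-t * ‖x‖ ^ 2)) * (c y * Real.exp (-t * ‖y‖ ^ 2)) *
        Real.exp (2 * t * (inner ℝ x y : ℝ)) := by
    intro x y
    have e2 : -t * ‖x - y‖ ^ 2 = -t * ‖x‖ ^ 2 + -t * ‖y‖ ^ 2 + 2 * t * (inner ℝ x y : ℝ) := by
      rw [@norm_sub_sq_real]
      ring
    rw [e2, Real.exp_add, Real.exp_add]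
    ring
  simp_rw [e1]
  set a : H → ℝ := fun x => c x * Real.exp (-t * ‖x‖ ^ 2) with ha
  have hs : HasSum (fun n : ℕ => ∑ x ∈ s, ∑ y ∈ s,
      a x * a y * ((2 * t * (inner ℝ x y : ℝ)) ^ n / (n.factorial : ℝ)))
      (∑ x ∈ s, ∑ y ∈ s, a x * a y * Real.exp (2 * t * (inner ℝ x y : ℝ))) := by
    apply hasSum_sum
    intro x _
    apply hasSum_sum
    intro y _
    apply HasSum.mul_left
    have := NormedSpace.expSeries_div_hasSum_exp (2 * t * (inner ℝ x y : ℝ))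
    rwa [← Real.exp_eq_exp_ℝ] at this
  refine hs.nonneg fun n => ?_
  have e3 : ∑ x ∈ s, ∑ y ∈ s, a x * a y * ((2 * t * (inner ℝ x y : ℝ)) ^ n / (n.factorial : ℝ)) =
      ((2 * t) ^ n / (n.factorial : ℝ)) * ∑ x ∈ s, ∑ y ∈ s, a x * a y * (inner ℝ x y : ℝ) ^ n := by
    rw [Finset.mul_sum]
    refine Finset.sum_congr rfl fun x _ => ?_
    rw [Finset.mul_sum]
    refine Finset.sum_congr rfl fun y _ => ?_
    rw [mul_pow]
    ring
  rw [e3]
  exact mul_nonneg (by positivity) (gram_pow_form s n a)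


theorem sr_pos {A s : ℝ} (hA : 0 ≤ A) (hs : 0 < s) :
    0 ≤ 1 - Real.exp (-s * A) ∧ 1 - Real.exp (-s * A) ≤ 1 ∧ 1 - Real.exp (-s * A) ≤ s * A := by
  have h1 : Real.exp (-s * A) ≤ 1 := by
    rw [Real.exp_le_one_iff]
    have : 0 ≤ s * A := by positivity
    linarith
  have h2 := Real.exp_pos (-s * A)
  have h3 := Real.add_one_le_exp (-s * A)
  refine ⟨by linarith, by linarith, by linarith⟩

theorem sr_int (A : ℝ) (hA : 0 ≤ A) :
    IntegrableOn (fun s : ℝ => (1 - Real.exp (-s * A)) * s ^ (-(3/2) : ℝ)) (Ioi 0) := by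
  have hm : Measurable (fun s : ℝ => (1 - Real.exp (-s * A)) * s ^ (-(3/2) : ℝ)) := by
    have h1 : Measurable (fun s : ℝ => Real.exp (-s * A)) :=
      Real.measurable_exp.comp (measurable_neg.mul_const A)
    exact (measurable_const.sub h1).mul (measurable_id.pow_const _)
  have h0 : Ioi (0:ℝ) = Ioc 0 1 ∪ Ioi 1 := (Ioc_union_Ioi_eq_Ioi zero_le_one).symm
  rw [h0]
  apply IntegrableOn.union
  · have h1 : IntegrableOn (fun s : ℝ => A * s ^ (-(1/2) : ℝ)) (Ioc 0 1) := by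
      have h2 : IntervalIntegrable (fun s : ℝ => s ^ (-(1/2) : ℝ)) volume 0 1 :=
        intervalIntegral.intervalIntegrable_rpow' (by norm_num)
      have h3 := (intervalIntegrable_iff_integrableOn_Ioc_of_le zero_le_one).1 h2
      exact h3.const_mul A
    refine Integrable.mono' h1 hm.aestronglyMeasurable ?_
    refine (ae_restrict_iff' measurableSet_Ioc).2 (Filter.Eventually.of_forall fun s hs => ?_)
    obtain ⟨a1, a2, a3⟩ := sr_pos hA hs.1
    have hp : (0:ℝ) ≤ s ^ (-(3/2) : ℝ) := Real.rpow_nonneg hs.1.le _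
    rw [Real.norm_eq_abs, abs_of_nonneg (mul_nonneg a1 hp)]
    have h4 : A * s ^ (-(1/2) : ℝ) = (s * A) * s ^ (-(3/2) : ℝ) := by
      have h5 : s ^ (-(1/2) : ℝ) = s * s ^ (-(3/2) : ℝ) := by
        have h6 : s ^ (1 + -(3/2) : ℝ) = s ^ (1:ℝ) * s ^ (-(3/2) : ℝ) := Real.rpow_add hs.1 _ _
        rw [Real.rpow_one] at h6
        rw [← h6]
        norm_num
      rw [h5]
      ring
    rw [h4]
    exact mul_le_mul_of_nonneg_right a3 hp
  · have h1 : IntegrableOn (fun s : ℝ => s ^ (-(3/2) : ℝ)) (Ioi 1) :=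
      integrableOn_Ioi_rpow_of_lt (by norm_num) one_pos
    refine Integrable.mono' h1 hm.aestronglyMeasurable ?_
    refine (ae_restrict_iff' measurableSet_Ioi).2 (Filter.Eventually.of_forall fun s hs => ?_)
    have hs0 : 0 < s := lt_trans one_pos hs
    obtain ⟨a1, a2, a3⟩ := sr_pos hA hs0
    have hp : (0:ℝ) ≤ s ^ (-(3/2) : ℝ) := Real.rpow_nonneg hs0.le _
    rw [Real.norm_eq_abs, abs_of_nonneg (mul_nonneg a1 hp)]
    calc (1 - Real.exp (-s * A)) * s ^ (-(3/2) : ℝ) ≤ 1 * s ^ (-(3/2) : ℝ) :=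
          mul_le_mul_of_nonneg_right a2 hp
      _ = s ^ (-(3/2) : ℝ) := one_mul _

theorem sr_scale (A : ℝ) (hA : 0 < A) :
    ∫ s in Ioi (0:ℝ), (1 - Real.exp (-s * A)) * s ^ (-(3/2) : ℝ) =
      (∫ s in Ioi (0:ℝ), (1 - Real.exp (-s * 1)) * s ^ (-(3/2) : ℝ)) * Real.sqrt A := by
  have h1 := integral_comp_mul_left_Ioi
    (fun s : ℝ => (1 - Real.exp (-s * 1)) * s ^ (-(3/2) : ℝ)) 0 hA
  rw [mul_zero] at h1
  have h2 : ∫ s in Ioi (0:ℝ), (1 - Real.exp (-(A * s) * 1)) * (A * s) ^ (-(3/2) : ℝ) =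
      A ^ (-(3/2) : ℝ) * ∫ s in Ioi (0:ℝ), (1 - Real.exp (-s * A)) * s ^ (-(3/2) : ℝ) := by
    rw [← integral_const_mul]
    refine setIntegral_congr_fun measurableSet_Ioi fun s hs => ?_
    have hs0 : 0 < s := hs
    show (1 - Real.exp (-(A * s) * 1)) * (A * s) ^ (-(3/2) : ℝ) =
      A ^ (-(3/2) : ℝ) * ((1 - Real.exp (-s * A)) * s ^ (-(3/2) : ℝ))
    rw [Real.mul_rpow hA.le hs0.le, show -(A * s) * 1 = -s * A by ring]
    ring
  rw [h2, smul_eq_mul] at h1
  have h3 : A ^ ((3/2) : ℝ) * A ^ (-(3/2) : ℝ) = 1 := by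
    rw [← Real.rpow_add hA]
    norm_num
  have h4 : A ^ ((3/2) : ℝ) * A⁻¹ = Real.sqrt A := by
    rw [Real.sqrt_eq_rpow, ← Real.rpow_neg_one, ← Real.rpow_add hA]
    norm_num
  calc ∫ s in Ioi (0:ℝ), (1 - Real.exp (-s * A)) * s ^ (-(3/2) : ℝ)
      = (A ^ ((3/2) : ℝ) * A ^ (-(3/2) : ℝ)) *
          ∫ s in Ioi (0:ℝ), (1 - Real.exp (-s * A)) * s ^ (-(3/2) : ℝ) := by rw [h3, one_mul]
    _ = A ^ ((3/2) : ℝ) * (A⁻¹ *
          ∫ s in Ioi (0:ℝ), (1 - Real.exp (-s * 1)) * s ^ (-(3/2) : ℝ)) := by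
        rw [mul_assoc, h1]
    _ = (∫ s in Ioi (0:ℝ), (1 - Real.exp (-s * 1)) * s ^ (-(3/2) : ℝ)) * Real.sqrt A := by
        rw [← h4]
        ring

theorem sr_kpos : 0 < ∫ s in Ioi (0:ℝ), (1 - Real.exp (-s * 1)) * s ^ (-(3/2) : ℝ) := by
  rw [setIntegral_pos_iff_support_of_nonneg_ae]
  · have h1 : Ioi (0:ℝ) ⊆ Function.support
        (fun s : ℝ => (1 - Real.exp (-s * 1)) * s ^ (-(3/2) : ℝ)) ∩ Ioi 0 := by
      intro s hs
      have hs0 : 0 < s := hs
      refine ⟨?_, hs⟩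
      rw [Function.mem_support]
      have h2 : Real.exp (-s * 1) < 1 := by
        rw [Real.exp_lt_one_iff]
        linarith
      have h3 : 0 < s ^ (-(3/2) : ℝ) := Real.rpow_pos_of_pos hs0 _
      have h4 : 0 < 1 - Real.exp (-s * 1) := by linarith
      exact (mul_pos h4 h3).ne'
    refine lt_of_lt_of_le ?_ (measure_mono h1)
    rw [Real.volume_Ioi]
    exact ENNReal.zero_lt_top
  · refine (ae_restrict_iff' measurableSet_Ioi).2 (Filter.Eventually.of_forall fun s hs => ?_)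
    have hs0 : 0 < s := hs
    exact mul_nonneg (sr_pos zero_le_one hs0).1 (Real.rpow_nonneg hs0.le _)
  · exact sr_int 1 zero_le_one

theorem sqrt_rep : ∃ κ : ℝ, 0 < κ ∧ ∀ A : ℝ, 0 ≤ A →
    IntegrableOn (fun s : ℝ => (1 - Real.exp (-s * A)) * s ^ (-(3/2) : ℝ)) (Ioi 0) ∧
    ∫ s in Ioi (0:ℝ), (1 - Real.exp (-s * A)) * s ^ (-(3/2) : ℝ) = κ * Real.sqrt A := by
  refine ⟨∫ s in Ioi (0:ℝ), (1 - Real.exp (-s * 1)) * s ^ (-(3/2) : ℝ), sr_kpos, fun A hA =>
    ⟨sr_int A hA, ?_⟩⟩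
  rcases hA.eq_or_lt with rfl | hA'
  · simp
  · exact sr_scale A hA'



noncomputable def hs (u : ℝ) : ℝ := 3 * (max 0 (min u 1))^2 - 2 * (max 0 (min u 1))^3

theorem hs_bound (u v w : ℝ) (hw : w = 0 ∨ w = 1) :
    |hs u - hs v| ≤ 6 * |u - v| * (|u - w| + |u - v|) := by
  have clip1 : ∀ a b : ℝ, |max 0 (min a 1) - max 0 (min b 1)| ≤ |a - b| := by
    intro a b
    calc |max 0 (min a 1) - max 0 (min b 1)| ≤ |min a 1 - min b 1| := by
          have := abs_max_sub_max_le_max 0 (min a 1) 0 (min b 1)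
          simpa using this
      _ ≤ |a - b| := by
          have := abs_min_sub_min_le_max a 1 b 1
          simpa using this
  unfold hs
  set p := max 0 (min u 1) with hp
  set q := max 0 (min v 1) with hq
  have hp0 : 0 ≤ p := le_max_left _ _
  have hp1 : p ≤ 1 := max_le zero_le_one (min_le_right _ _)
  have hq0 : 0 ≤ q := le_max_left _ _
  have hq1 : q ≤ 1 := max_le zero_le_one (min_le_right _ _)
  have hpq : |p - q| ≤ |u - v| := clip1 u v
  have hpw : |p - w| ≤ |u - w| := by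
    have h := clip1 u w
    have hw' : max 0 (min w 1) = w := by
      rcases hw with rfl | rfl <;> simp
    rwa [hw'] at h
  have hfac : (3 * p^2 - 2 * p^3) - (3 * q^2 - 2*q^3) = (p - q) * (3*(p+q) - 2*(p^2+p*q+q^2)) := by ring
  rw [hfac, abs_mul]
  have hg0 : 0 ≤ 3*(p+q) - 2*(p^2+p*q+q^2) := by nlinarith [mul_nonneg hp0 hq0, mul_nonneg hp0 (sub_nonneg.2 hp1), mul_nonneg hq0 (sub_nonneg.2 hq1), mul_nonneg hp0 (sub_nonneg.2 hq1), mul_nonneg hq0 (sub_nonneg.2 hp1)]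
  have hg1 : 3*(p+q) - 2*(p^2+p*q+q^2) ≤ 6 * (|p - w| + |p - q|) := by
    rcases hw with rfl | rfl
    · rw [sub_zero, abs_of_nonneg hp0]
      have : q ≤ p + |p - q| := by linarith [neg_abs_le (p - q)]
      nlinarith [mul_nonneg hp0 hq0, abs_nonneg (p-q)]
    · have h1 : |p - 1| = 1 - p := by rw [abs_sub_comm, abs_of_nonneg (by linarith)]
      rw [h1]
      have : p - q ≤ |p - q| := le_abs_self _
      nlinarith [mul_nonneg (sub_nonneg.2 hp1) (sub_nonneg.2 hq1), abs_nonneg (p-q)]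
  rw [abs_of_nonneg hg0]
  calc |p - q| * (3*(p+q) - 2*(p^2+p*q+q^2)) ≤ |u - v| * (6 * (|u - w| + |u - v|)) := by
        apply mul_le_mul hpq _ hg0 (abs_nonneg _)
        linarith
    _ = 6 * |u - v| * (|u - w| + |u - v|) := by ring



noncomputable def ind {Ω : Type*} (g : Ω → ℝ) (p : Ω × ℝ) : ℝ := if p.2 < g p.1 then 1 else 0

theorem h445_ind_meas {Ω : Type*} [MeasurableSpace Ω] (g : Ω → ℝ) (hg : Measurable g) :
    Measurable (ind g) :=
  Measurable.ite (measurableSet_lt measurable_snd (hg.comp measurable_fst))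
    measurable_const measurable_const

theorem h445_inner (a b : ℝ) :
    ∫⁻ t : ℝ, ‖(if t < a then (1 : ℝ) else 0) - (if t < b then (1 : ℝ) else 0)‖ₑ
      = ENNReal.ofReal |a - b| := by
  have h0 : (fun t : ℝ => ‖(if t < a then (1 : ℝ) else 0) - (if t < b then (1 : ℝ) else 0)‖ₑ)
      = Set.indicator (Set.Ico (min a b) (max a b)) (fun _ => (1 : ℝ≥0∞)) := by
    funext t
    rcases le_total a b with h | h
    · rw [min_eq_left h, max_eq_right h]
      by_cases h1 : t < a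
      · have h2 : t < b := lt_of_lt_of_le h1 h
        simp [h1, h2, Set.indicator, not_le.2 h1]
      · by_cases h2 : t < b
        · simp [h1, h2, Set.indicator, not_lt.1 h1]
        · simp [h1, h2, Set.indicator]
    · rw [min_eq_right h, max_eq_left h]
      by_cases h1 : t < b
      · have h2 : t < a := lt_of_lt_of_le h1 h
        simp [h1, h2, Set.indicator, not_le.2 h1]
      · by_cases h2 : t < a
        · simp [h1, h2, Set.indicator, not_lt.1 h1]
        · simp [h1, h2, Set.indicator]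
  rw [h0, lintegral_indicator measurableSet_Ico, setLIntegral_const, one_mul, Real.volume_Ico,
    max_sub_min_eq_abs']

theorem h445_lint {Ω : Type*} [MeasurableSpace Ω] (μ : Measure Ω) [IsFiniteMeasure μ]
    (g g' : Ω → ℝ) (hg : Measurable g) (hg' : Measurable g') :
    ∫⁻ p, ‖ind g p - ind g' p‖ₑ ^ (2 : ℝ) ∂(μ.prod (volume : Measure ℝ))
      = ∫⁻ w, ‖g w - g' w‖ₑ ∂μ := by
  have e : ∀ p, ‖ind g p - ind g' p‖ₑ ^ (2 : ℝ) = ‖ind g p - ind g' p‖ₑ := by
    intro p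
    unfold ind
    split_ifs <;> simp
  simp_rw [e]
  have hm : Measurable (fun p : Ω × ℝ => ‖ind g p - ind g' p‖ₑ) :=
    ((h445_ind_meas g hg).sub (h445_ind_meas g' hg')).enorm
  rw [lintegral_prod _ hm.aemeasurable]
  apply lintegral_congr
  intro w
  show ∫⁻ t : ℝ, ‖(if t < g w then (1 : ℝ) else 0) - (if t < g' w then (1 : ℝ) else 0)‖ₑ = _
  rw [h445_inner, Real.enorm_eq_ofReal_abs]

theorem h445_eLp {Ω : Type*} [MeasurableSpace Ω] (μ : Measure Ω) [IsFiniteMeasure μ]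
    (g g' : Ω → ℝ) (hg : Measurable g) (hg' : Measurable g') :
    eLpNorm (fun p => ind g p - ind g' p) 2 (μ.prod (volume : Measure ℝ))
      = (∫⁻ w, ‖g w - g' w‖ₑ ∂μ) ^ (1 / 2 : ℝ) := by
  rw [eLpNorm_eq_lintegral_rpow_enorm_toReal (by norm_num) (by norm_num)]
  simp only [ENNReal.toReal_ofNat]
  rw [h445_lint μ g g' hg hg']

theorem exists_T {Ω : Type*} [MeasurableSpace Ω] (μ : Measure Ω) [IsFiniteMeasure μ] :
    ∃ T : Lp ℝ 1 μ → Lp ℝ 2 (μ.prod (volume : Measure ℝ)),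
      (∀ g : Lp ℝ 1 μ, T g =ᵐ[μ.prod volume] fun p => ind g p - ind 0 p) ∧
      ∀ g g' : Lp ℝ 1 μ, ‖T g - T g'‖^2 = ‖g - g'‖ := by
  have hmem : ∀ g : Lp ℝ 1 μ, MemLp (fun p => ind g p - ind 0 p) 2 (μ.prod (volume : Measure ℝ)) := by
    intro g
    have hg : Measurable (g : Ω → ℝ) := (Lp.stronglyMeasurable g).measurable
    have h0 : Measurable (0 : Ω → ℝ) := measurable_const
    refine ⟨((h445_ind_meas g hg).sub (h445_ind_meas 0 h0)).aestronglyMeasurable, ?_⟩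
    rw [h445_eLp μ g 0 hg h0]
    apply ENNReal.rpow_lt_top_of_nonneg (by norm_num)
    have h1 := (Lp.memLp g).2
    rw [eLpNorm_one_eq_lintegral_enorm] at h1
    simpa using h1.ne
  refine ⟨fun g => (hmem g).toLp _, fun g => (hmem g).coeFn_toLp, ?_⟩
  intro g g'
  have hg : Measurable (g : Ω → ℝ) := (Lp.stronglyMeasurable g).measurable
  have hg' : Measurable (g' : Ω → ℝ) := (Lp.stronglyMeasurable g').measurable
  rw [Lp.norm_def, Lp.norm_def]
  have e1 : eLpNorm (((hmem g).toLp _ - (hmem g').toLp _ : Lp ℝ 2 (μ.prod (volume : Measure ℝ))) :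
      Ω × ℝ → ℝ) 2 (μ.prod (volume : Measure ℝ))
      = eLpNorm (fun p => ind g p - ind g' p) 2 (μ.prod (volume : Measure ℝ)) := by
    apply eLpNorm_congr_ae
    filter_upwards [Lp.coeFn_sub ((hmem g).toLp _) ((hmem g').toLp _), (hmem g).coeFn_toLp,
      (hmem g').coeFn_toLp] with p h1 h2 h3
    rw [h1, Pi.sub_apply, h2, h3]
    ring
  have e2 : eLpNorm ((g - g' : Lp ℝ 1 μ) : Ω → ℝ) 1 μ = ∫⁻ w, ‖g w - g' w‖ₑ ∂μ := by
    rw [eLpNorm_one_eq_lintegral_enorm]
    apply lintegral_congr_ae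
    filter_upwards [Lp.coeFn_sub g g'] with w hw
    rw [hw, Pi.sub_apply]
  rw [e1, e2, h445_eLp μ g g' hg hg', ← ENNReal.toReal_pow, ← ENNReal.rpow_natCast,
    ← ENNReal.rpow_mul]
  norm_num


theorem hs_cont : Continuous hs := by
  unfold hs
  fun_prop

theorem hs_zero : hs 0 = 0 := by simp [hs]

theorem hs_one : hs 1 = 1 := by
  simp [hs]; norm_num

theorem ind_zero_or_one {Ω : Type*} (g : Ω → ℝ) (p : Ω × ℝ) : ind g p = 0 ∨ ind g p = 1 := by
  unfold ind
  split_ifs <;> simp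

theorem hs_ind {Ω : Type*} (g : Ω → ℝ) (p : Ω × ℝ) : hs (ind g p) = ind g p := by
  rcases ind_zero_or_one g p with h | h
  · rw [h, hs_zero]
  · rw [h, hs_one]

theorem measurable_ind0 {Ω : Type*} [MeasurableSpace Ω] :
    Measurable (fun p : Ω × ℝ => ind (0 : Ω → ℝ) p) := by
  unfold ind
  apply Measurable.ite
  · exact measurableSet_lt measurable_snd measurable_const
  · exact measurable_const
  · exact measurable_const

/-- the integrand -/
noncomputable def FF {Ω : Type*} (φ : Ω × ℝ → ℝ) (p : Ω × ℝ) : ℝ :=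
  hs (φ p + ind (0 : Ω → ℝ) p) - ind (0 : Ω → ℝ) p

theorem FF_bound {Ω : Type*} (φ : Ω × ℝ → ℝ) (p : Ω × ℝ) : |FF φ p| ≤ 12 * (φ p) ^ 2 := by
  have := hs_bound (φ p + ind (0 : Ω → ℝ) p) (ind (0 : Ω → ℝ) p) (ind (0 : Ω → ℝ) p)
    (ind_zero_or_one _ _)
  rw [hs_ind] at this
  have e : φ p + ind (0 : Ω → ℝ) p - ind (0 : Ω → ℝ) p = φ p := by ring
  rw [e] at this
  unfold FF
  calc _ ≤ 6 * |φ p| * (|φ p| + |φ p|) := this
    _ = 12 * |φ p| ^ 2 := by ring
    _ = 12 * (φ p) ^ 2 := by rw [sq_abs]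

theorem FF_diff {Ω : Type*} (φ ψ : Ω × ℝ → ℝ) (g : Ω → ℝ) (p : Ω × ℝ) :
    |FF φ p - FF ψ p| ≤ 6 * |φ p - ψ p| *
      (|φ p - (ind g p - ind (0 : Ω → ℝ) p)| + |φ p - ψ p|) := by
  have := hs_bound (φ p + ind (0 : Ω → ℝ) p) (ψ p + ind (0 : Ω → ℝ) p) (ind g p)
    (ind_zero_or_one _ _)
  have e1 : φ p + ind (0 : Ω → ℝ) p - (ψ p + ind (0 : Ω → ℝ) p) = φ p - ψ p := by ring
  have e2 : φ p + ind (0 : Ω → ℝ) p - ind g p = φ p - (ind g p - ind (0 : Ω → ℝ) p) := by ring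
  have e3 : FF φ p - FF ψ p = hs (φ p + ind (0 : Ω → ℝ) p) - hs (ψ p + ind (0 : Ω → ℝ) p) := by
    unfold FF; ring
  rw [e1, e2] at this
  rw [e3]
  exact this

theorem FF_meas {Ω : Type*} [MeasurableSpace Ω] (μ : Measure Ω)
    (φ : Lp ℝ 2 (μ.prod (volume : Measure ℝ))) :
    AEStronglyMeasurable (FF φ) (μ.prod (volume : Measure ℝ)) :=
  (hs_cont.comp_aestronglyMeasurable ((Lp.aestronglyMeasurable φ).add
    measurable_ind0.aestronglyMeasurable)).sub measurable_ind0.aestronglyMeasurable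

theorem FF_int {Ω : Type*} [MeasurableSpace Ω] (μ : Measure Ω)
    (φ : Lp ℝ 2 (μ.prod (volume : Measure ℝ))) :
    Integrable (FF φ) (μ.prod (volume : Measure ℝ)) := by
  apply Integrable.mono' (g := fun p => 12 * (φ p) ^ 2)
  · exact ((Lp.memLp φ).integrable_sq).const_mul 12
  · exact FF_meas μ φ
  · exact Eventually.of_forall (fun p => FF_bound φ p)

theorem integral_step (a : ℝ) :
    (∫ t : ℝ, ((if t < a then (1 : ℝ) else 0) - (if t < 0 then 1 else 0))) = a := by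
  rcases le_total 0 a with h | h
  · have e : (fun t : ℝ => ((if t < a then (1 : ℝ) else 0) - (if t < 0 then 1 else 0))) =
        (Set.Ico 0 a).indicator (fun _ => (1 : ℝ)) := by
      funext t
      simp only [Set.indicator_apply, Set.mem_Ico]
      split_ifs <;> first | linarith | (exfalso; grind)
    rw [e, integral_indicator measurableSet_Ico]
    simp [h]
  · have e : (fun t : ℝ => ((if t < a then (1 : ℝ) else 0) - (if t < 0 then 1 else 0))) =
        (Set.Ico a 0).indicator (fun _ => (-1 : ℝ)) := by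
      funext t
      simp only [Set.indicator_apply, Set.mem_Ico]
      split_ifs <;> first | linarith | (exfalso; grind)
    rw [e, integral_indicator measurableSet_Ico]
    simp [h]

theorem exists_S {Ω : Type*} [MeasurableSpace Ω] (μ : Measure Ω) [IsFiniteMeasure μ]
    (T : Lp ℝ 1 μ → Lp ℝ 2 (μ.prod (volume : Measure ℝ)))
    (hT : ∀ g : Lp ℝ 1 μ, T g =ᵐ[μ.prod volume] fun p => ind g p - ind 0 p) :
    ∃ S : Lp ℝ 2 (μ.prod (volume : Measure ℝ)) → Lp ℝ 1 μ, (∀ g, S (T g) = g) ∧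
      ∀ (φ ψ : Lp ℝ 2 (μ.prod (volume : Measure ℝ))) (g : Lp ℝ 1 μ),
        ‖S φ - S ψ‖ ≤ 6 * ‖φ - ψ‖ * (‖φ - T g‖ + ‖φ - ψ‖) := by 
  classical
  have hFl : ∀ φ : Lp ℝ 2 (μ.prod (volume : Measure ℝ)),
      Integrable (fun w => ∫ t, FF φ (w, t)) μ := fun φ => (FF_int μ φ).integral_prod_left
  refine ⟨fun φ => (hFl φ).toL1 _, ?_, ?_⟩
  · intro g
    apply Lp.ext
    have h1 : ∀ᵐ p ∂(μ.prod (volume : Measure ℝ)), FF (T g) p = ind g p - ind (0 : Ω → ℝ) p := by
      filter_upwards [hT g] with p hp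
      unfold FF
      rw [hp, sub_add_cancel, hs_ind]
    have h2 := Measure.ae_ae_of_ae_prod h1
    filter_upwards [Integrable.coeFn_toL1 (hFl (T g)), h2] with w hw1 hw2
    rw [hw1, integral_congr_ae hw2]
    have := integral_step (g w)
    simpa [ind] using this
  · intro φ ψ g
    have e1 : ((hFl φ).toL1 _ : Lp ℝ 1 μ) - (hFl ψ).toL1 _ =
        ((hFl φ).sub (hFl ψ)).toL1 _ := (Integrable.toL1_sub _ _ (hFl φ) (hFl ψ)).symm
    have e2 : ‖((hFl φ).toL1 _ : Lp ℝ 1 μ) - (hFl ψ).toL1 _‖ =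
        ∫ w, ‖(∫ t, FF φ (w, t)) - ∫ t, FF ψ (w, t)‖ ∂μ := by
      rw [e1]
      exact L1.norm_of_fun_eq_integral_norm ((hFl φ).sub (hFl ψ))
    have hsub : Integrable (fun p => FF φ p - FF ψ p) (μ.prod (volume : Measure ℝ)) :=
      (FF_int μ φ).sub (FF_int μ ψ)
    have e3 : (∫ w, ‖(∫ t, FF φ (w, t)) - ∫ t, FF ψ (w, t)‖ ∂μ) ≤
        ∫ w, (∫ t, ‖FF φ (w, t) - FF ψ (w, t)‖) ∂μ := by
      apply integral_mono_ae
      · exact ((hFl φ).sub (hFl ψ)).norm
      · exact hsub.norm.integral_prod_left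
      · filter_upwards [(FF_int μ φ).prod_right_ae, (FF_int μ ψ).prod_right_ae] with w h1 h2
        rw [← integral_sub h1 h2]
        exact norm_integral_le_integral_norm _
    have e4 : (∫ w, (∫ t, ‖FF φ (w, t) - FF ψ (w, t)‖) ∂μ) =
        ∫ p, ‖FF φ p - FF ψ p‖ ∂(μ.prod (volume : Measure ℝ)) := by
      rw [integral_prod _ hsub.norm]
    set A : Lp ℝ 2 (μ.prod (volume : Measure ℝ)) := |φ - ψ| with hA
    set B : Lp ℝ 2 (μ.prod (volume : Measure ℝ)) := |φ - T g| with hB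
    have e5 : (∫ p, ‖FF φ p - FF ψ p‖ ∂(μ.prod (volume : Measure ℝ))) ≤
        ∫ p, 6 * ⟪A p, (B + A : Lp ℝ 2 (μ.prod (volume : Measure ℝ))) p⟫
          ∂(μ.prod (volume : Measure ℝ)) := by
      apply integral_mono_ae
      · exact hsub.norm
      · exact (L2.integrable_inner A (B + A)).const_mul 6
      · filter_upwards [hT g, Lp.coeFn_abs (φ - ψ), Lp.coeFn_abs (φ - T g), Lp.coeFn_sub φ ψ,
          Lp.coeFn_sub φ (T g), Lp.coeFn_add B A] with p h1 h2 h3 h4 h5 h6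
        have hd := FF_diff φ ψ g p
        rw [← h1] at hd
        rw [h6]
        simp only [Pi.add_apply]
        rw [hA, hB, h2, h3, h4, h5]
        simp only [Pi.sub_apply, RCLike.inner_apply, conj_trivial, Real.norm_eq_abs]
        linarith
    have e6 : (∫ p, 6 * ⟪A p, (B + A : Lp ℝ 2 (μ.prod (volume : Measure ℝ))) p⟫
          ∂(μ.prod (volume : Measure ℝ))) = 6 * ⟪A, B + A⟫ := by
      rw [integral_const_mul, L2.inner_def]
    have e7 : ⟪A, B + A⟫ ≤ ‖A‖ * ‖B + A‖ := real_inner_le_norm _ _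
    have e8 : ‖B + A‖ ≤ ‖B‖ + ‖A‖ := norm_add_le _ _
    have e9 : ‖A‖ = ‖φ - ψ‖ := by rw [hA, norm_abs_eq_norm]
    have e10 : ‖B‖ = ‖φ - T g‖ := by rw [hB, norm_abs_eq_norm]
    have e11 : ‖A‖ * ‖B + A‖ ≤ ‖A‖ * (‖B‖ + ‖A‖) := mul_le_mul_of_nonneg_left e8 (norm_nonneg _)
    rw [e9, e10] at e11
    rw [e9] at e7
    rw [e2]
    calc _ ≤ _ := e3
      _ = _ := e4
      _ ≤ _ := e5
      _ = _ := e6
      _ ≤ 6 * ‖φ - ψ‖ * (‖φ - T g‖ + ‖φ - ψ‖) := by
        have := e7.trans e11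
        linarith

theorem neg_type {H : Type*} [NormedAddCommGroup H] [InnerProductSpace ℝ H] (r : H → ℝ)
    (s : Finset H) (c : H → ℝ) (hc : ∑ x ∈ s, c x = 0) :
    ∑ x ∈ s, ∑ y ∈ s, c x * c y * Real.sqrt (‖x - y‖^2 + r x^2 + r y^2) ≤ 0 := by
  obtain ⟨κ, hκ, hrep⟩ := sqrt_rep
  have hA : ∀ x y : H, 0 ≤ ‖x - y‖^2 + r x^2 + r y^2 := by intros; positivity
  have key : κ * ∑ x ∈ s, ∑ y ∈ s, c x * c y * Real.sqrt (‖x - y‖^2 + r x^2 + r y^2)
      = ∫ u in Ioi (0:ℝ), ∑ x ∈ s, ∑ y ∈ s, c x * c y *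
        ((1 - Real.exp (-u * (‖x - y‖^2 + r x^2 + r y^2))) * u ^ (-(3/2):ℝ)) := by
    rw [integral_finsetSum]
    · rw [Finset.mul_sum]
      apply Finset.sum_congr rfl
      intro x hx
      rw [integral_finsetSum]
      · rw [Finset.mul_sum]
        apply Finset.sum_congr rfl
        intro y hy
        rw [integral_const_mul, (hrep _ (hA x y)).2]
        ring
      · intro y hy
        exact ((hrep _ (hA x y)).1).const_mul _
    · intro x hx
      apply integrable_finsetSum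
      intro y hy
      exact ((hrep _ (hA x y)).1).const_mul _
  have hle : ∫ u in Ioi (0:ℝ), ∑ x ∈ s, ∑ y ∈ s, c x * c y *
        ((1 - Real.exp (-u * (‖x - y‖^2 + r x^2 + r y^2))) * u ^ (-(3/2):ℝ)) ≤ 0 := by
    apply setIntegral_nonpos measurableSet_Ioi
    intro u hu
    have hu0 : 0 < u := hu
    have hpw : 0 ≤ u ^ (-(3/2):ℝ) := Real.rpow_nonneg hu0.le _
    have e : ∑ x ∈ s, ∑ y ∈ s, c x * c y *
        ((1 - Real.exp (-u * (‖x - y‖^2 + r x^2 + r y^2))) * u ^ (-(3/2):ℝ))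
        = ((∑ x ∈ s, c x) * (∑ y ∈ s, c y) - ∑ x ∈ s, ∑ y ∈ s,
          (c x * Real.exp (-u * r x^2)) * (c y * Real.exp (-u * r y^2)) *
            Real.exp (-u * ‖x - y‖^2)) * u ^ (-(3/2):ℝ) := by
      rw [Finset.sum_mul_sum, ← Finset.sum_sub_distrib, Finset.sum_mul]
      apply Finset.sum_congr rfl; intro x hx
      rw [← Finset.sum_sub_distrib, Finset.sum_mul]
      apply Finset.sum_congr rfl; intro y hy
      have : Real.exp (-u * (‖x - y‖^2 + r x^2 + r y^2)) =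
          Real.exp (-u * r x^2) * Real.exp (-u * r y^2) * Real.exp (-u * ‖x - y‖^2) := by
        rw [← Real.exp_add, ← Real.exp_add]; congr 1; ring
      rw [this]; ring
    rw [e, hc]
    have hg := gauss_pd s (fun x => c x * Real.exp (-u * r x^2)) u hu0.le
    have : (0 * 0 - ∑ x ∈ s, ∑ y ∈ s,
          (c x * Real.exp (-u * r x^2)) * (c y * Real.exp (-u * r y^2)) *
            Real.exp (-u * ‖x - y‖^2)) ≤ 0 := by linarith
    exact mul_nonpos_of_nonpos_of_nonneg this hpw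
  rw [← key] at hle
  by_contra hcon
  push Not at hcon
  have := mul_pos hκ hcon
  linarith

noncomputable def kn (d p q : ℝ) : ℝ := Real.sqrt (d^2 + p^2 + q^2) - (p + q) / Real.sqrt 2

theorem kn_bounds (d p q : ℝ) (hd : 0 ≤ d) (hp : 0 ≤ p) (hq : 0 ≤ q) (h1 : p ≤ q + d)
    (h2 : q ≤ p + d) : 0 ≤ kn d p q ∧ kn d p q ≤ 5/4 * d ∧ kn d p q * (p + q) * (7/5) ≤ 3/2 * d^2 := by
  unfold kn
  have hs2 : Real.sqrt 2 ^ 2 = 2 := Real.sq_sqrt (by norm_num)
  have hs2pos : 0 < Real.sqrt 2 := Real.sqrt_pos.2 (by norm_num)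
  have hs2ge : 7/5 ≤ Real.sqrt 2 := by
    apply Real.le_sqrt_of_sq_le; norm_num
  set P := Real.sqrt (d^2 + p^2 + q^2) with hP
  have hP2 : P^2 = d^2 + p^2 + q^2 := Real.sq_sqrt (by positivity)
  have hP0 : 0 ≤ P := Real.sqrt_nonneg _
  set Q := (p + q) / Real.sqrt 2 with hQ
  have hQ0 : 0 ≤ Q := by positivity
  have hQ2 : Q^2 = (p+q)^2/2 := by rw [hQ, div_pow, hs2]
  have hdiff : P^2 - Q^2 ≤ 3/2 * d^2 := by
    rw [hP2, hQ2]; nlinarith [mul_nonneg (sub_nonneg.2 h1) (sub_nonneg.2 h2)]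
  have hPQ : Q ≤ P := by
    apply le_of_sq_le_sq _ hP0
    rw [hP2, hQ2]; nlinarith [sq_nonneg (p - q), sq_nonneg d]
  have hsum : p + q = Q * Real.sqrt 2 := by
    rw [hQ]; field_simp
  refine ⟨by linarith, ?_, ?_⟩
  · apply le_of_sq_le_sq _ (by positivity)
    nlinarith [mul_nonneg (sub_nonneg.2 hPQ) hQ0, sq_nonneg d]
  · rw [hsum]
    have h3 : (P - Q) * (2 * Q) ≤ 3/2 * d^2 := by nlinarith [mul_nonneg (sub_nonneg.2 hPQ) (sub_nonneg.2 hPQ)]
    have h4 : Real.sqrt 2 * (7/5) ≤ 2 := by nlinarith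
    have h5 : 0 ≤ (P - Q) * Q := mul_nonneg (sub_nonneg.2 hPQ) hQ0
    calc (P - Q) * (Q * Real.sqrt 2) * (7/5) = ((P - Q) * Q) * (Real.sqrt 2 * (7/5)) := by ring
      _ ≤ ((P - Q) * Q) * 2 := mul_le_mul_of_nonneg_left h4 h5
      _ ≤ _ := by linarith

theorem main_ext {Ω : Type*} [MeasurableSpace Ω] (μ : Measure Ω) [IsFiniteMeasure μ]
    {H : Type*} [NormedAddCommGroup H] [InnerProductSpace ℝ H]
    (A : Set H) (f : H → Lp ℝ 1 μ) (K : ℝ≥0) (hf : LipschitzOnWith K f A) :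
    ∃ F : H → Lp ℝ 1 μ, LipschitzWith (18 * K) F ∧ Set.EqOn F f A := by
  rcases A.eq_empty_or_nonempty with rfl | hA
  · exact ⟨fun _ => 0, LipschitzWith.const' 0, fun x hx => absurd hx (Set.notMem_empty x)⟩
  obtain ⟨T, hT, hT2⟩ := exists_T μ
  obtain ⟨S, hS, hS2⟩ := exists_S μ T hT
  set r : H → ℝ := fun x => Metric.infDist x A with hr
  have hr0 : ∀ x, 0 ≤ r x := fun x => Metric.infDist_nonneg
  have hrA : ∀ a ∈ A, r a = 0 := fun a ha => Metric.infDist_zero_of_mem ha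
  have hrd : ∀ x y, r x ≤ r y + ‖x - y‖ := fun x y => by
    rw [← dist_eq_norm]; exact Metric.infDist_le_infDist_add_dist
  set N : H → H → ℝ := fun x y => (K:ℝ) * kn ‖x - y‖ (r x) (r y) with hN
  have hs2 : Real.sqrt 2 ^ 2 = 2 := Real.sq_sqrt (by norm_num)
  have hs2pos : 0 < Real.sqrt 2 := Real.sqrt_pos.2 (by norm_num)
  obtain ⟨Φ, hΦ1, hΦ2⟩ := kirszbraun_kernel N (by
      intro x
      simp only [hN, kn, sub_self, norm_zero]
      have : Real.sqrt (0^2 + r x^2 + r x^2) = Real.sqrt 2 * r x := by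
        rw [show (0:ℝ)^2 + r x^2 + r x^2 = 2 * (r x)^2 by ring, Real.sqrt_mul (by norm_num),
          Real.sqrt_sq (hr0 x)]
      rw [this]
      have : (r x + r x) / Real.sqrt 2 = Real.sqrt 2 * r x := by
        rw [div_eq_iff hs2pos.ne']; linear_combination (-(r x)) * hs2
      rw [this]; ring) (by
      intro x y
      simp only [hN, kn]
      rw [norm_sub_rev, add_comm (r x) (r y), add_assoc, add_comm (r x^2) (r y^2), ← add_assoc]) (by
      intro s c hc
      have h1 := neg_type r s c hc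
      have h2 : ∑ x ∈ s, ∑ y ∈ s, c x * c y * N x y =
          K * ∑ x ∈ s, ∑ y ∈ s, c x * c y * Real.sqrt (‖x - y‖^2 + r x^2 + r y^2)
          - K / Real.sqrt 2 * ((∑ x ∈ s, c x * r x) * (∑ y ∈ s, c y)
            + (∑ x ∈ s, c x) * (∑ y ∈ s, c y * r y)) := by
        rw [Finset.sum_mul_sum, Finset.sum_mul_sum, ← Finset.sum_add_distrib, Finset.mul_sum,
          Finset.mul_sum, ← Finset.sum_sub_distrib]
        apply Finset.sum_congr rfl; intro x hx
        rw [← Finset.sum_add_distrib, Finset.mul_sum,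
          Finset.mul_sum, ← Finset.sum_sub_distrib]
        apply Finset.sum_congr rfl; intro y hy
        simp only [hN, kn]; ring
      rw [h2, hc]
      have := mul_nonpos_of_nonneg_of_nonpos K.coe_nonneg h1
      simpa using this) A hA (fun x => T (f x)) (by
      intro a ha b hb
      rw [hT2]
      simp only [hN, kn, hrA a ha, hrA b hb]
      have h1 := hf.dist_le_mul a ha b hb
      rw [dist_eq_norm, dist_eq_norm] at h1
      simpa [Real.sqrt_sq (norm_nonneg (a - b))] using h1)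
  refine ⟨fun x => S (Φ x), ?_, fun a ha => by simp only [hΦ1 a ha, hS]⟩
  apply LipschitzWith.of_dist_le_mul
  intro x y
  rw [dist_eq_norm, dist_eq_norm]
  push_cast
  rcases eq_or_ne x y with rfl | hxy
  · simp
  have hd : 0 < ‖x - y‖ := norm_pos_iff.2 (sub_ne_zero.2 hxy)
  obtain ⟨a, ha, hxa⟩ := (Metric.infDist_lt_iff (x := x) (r := r x + ‖x - y‖) hA).1 (by
    change r x < _; linarith)
  have h1 := hS2 (Φ x) (Φ y) (f a)
  have h2 := hΦ2 x y
  have h3 := hΦ2 x a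
  rw [hΦ1 a ha] at h3
  obtain ⟨b1, b2, b3⟩ := kn_bounds ‖x - y‖ (r x) (r y) (norm_nonneg _) (hr0 x) (hr0 y) (hrd x y)
    (by have := hrd y x; rwa [norm_sub_rev] at this)
  obtain ⟨c1, c2, c3⟩ := kn_bounds ‖x - a‖ (r x) (r a) (norm_nonneg _) (hr0 x) (hr0 a) (hrd x a)
    (by have := hrd a x; rwa [norm_sub_rev] at this)
  rw [dist_eq_norm] at hxa
  simp only [hN] at h2 h3
  set X := ‖Φ x - Φ y‖ with hX
  set Y := ‖Φ x - T (f a)‖ with hY
  set d := ‖x - y‖ with hd'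
  set n := kn d (r x) (r y) with hn
  set m := kn ‖x - a‖ (r x) (r a) with hm
  have hX0 : 0 ≤ X := norm_nonneg _
  have hY0 : 0 ≤ Y := norm_nonneg _
  have hK : (0:ℝ) ≤ K := K.coe_nonneg
  have hm2 : m ≤ 5/4 * (r x + d) := by linarith
  have hnm : n * m ≤ 5/4 * (15/14 + 5/4) * d^2 := by
    have e1 : n * m ≤ n * (5/4 * (r x + d)) := mul_le_mul_of_nonneg_left hm2 b1
    have e2 : n * r x ≤ n * (r x + r y) := mul_le_mul_of_nonneg_left (by linarith [hr0 y]) b1
    have e3 : n * d ≤ 5/4 * d * d := mul_le_mul_of_nonneg_right b2 hd.le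
    nlinarith
  have hXY2 : (X * Y)^2 ≤ (K:ℝ)^2 * (5/4 * (15/14 + 5/4) * d^2) := by
    calc (X*Y)^2 = X^2 * Y^2 := by ring
      _ ≤ (K * n) * (K * m) := mul_le_mul h2 h3 (sq_nonneg _) (by positivity)
      _ = (K:ℝ)^2 * (n * m) := by ring
      _ ≤ _ := mul_le_mul_of_nonneg_left hnm (by positivity)
  have hXY : X * Y ≤ 7/4 * K * d := by
    apply le_of_sq_le_sq _ (by positivity)
    nlinarith [mul_nonneg (sq_nonneg (K:ℝ)) (sq_nonneg d)]
  have hX2 : X^2 ≤ 5/4 * K * d := by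
    have := mul_le_mul_of_nonneg_left b2 hK
    linarith
  calc ‖S (Φ x) - S (Φ y)‖ ≤ 6 * X * (Y + X) := h1
    _ = 6 * (X * Y) + 6 * X^2 := by ring
    _ ≤ 18 * K * d := by linarith

end Pool.Agent.Helper99.Ball
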