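import Mathlib

set_option autoImplicit false

namespace Pool.Agent.Helper99

open MeasureTheory

theorem exists_split {E : Type*} [NormedAddCommGroup E] [InnerProductSpace ℝ E]
    [FiniteDimensional ℝ E] [MeasurableSpace E] [BorelSpace E] {N : ℕ}
    (hN : Module.finrank ℝ E = N + 1) (v : Fin (N + 1) → E) (s : Set (Fin (N + 1)))
    (hv : Orthonormal ℝ (s.domRestrict v)) :
    ∃ Ψ : E ≃ᵐ ℝ × (Fin N → ℝ), MeasurePreserving Ψ volume volume ∧
      (∀ x, ‖x‖ ^ 2 = (Ψ x).1 ^ 2 + ∑ i, (Ψ x).2 i ^ 2) ∧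
      (0 ∈ s → ∀ x, (Ψ x).1 = inner ℝ (v 0) x) ∧
      ∀ i : Fin N, i.succ ∈ s → ∀ x, (Ψ x).2 i = inner ℝ (v i.succ) x := by
  obtain ⟨b, hb⟩ := Orthonormal.exists_orthonormalBasis_extension_of_card_eq
    (ι := Fin (N + 1)) (by simpa using hN) hv
  let Ψ : E ≃ᵐ ℝ × (Fin N → ℝ) := b.measurableEquiv.trans
    ((MeasurableEquiv.toLp 2 (Fin (N + 1) → ℝ)).symm.trans
      (MeasurableEquiv.piFinSuccAbove (fun _ => ℝ) 0))
  have h1 : ∀ x, (Ψ x).1 = inner ℝ (b 0) x := by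
    intro x
    have : (Ψ x).1 = b.repr x 0 := rfl
    rw [this, b.repr_apply_apply]
  have h2 : ∀ x, ∀ i : Fin N, (Ψ x).2 i = inner ℝ (b i.succ) x := by
    intro x i
    have : (Ψ x).2 i = b.repr x i.succ := by
      simp [Ψ, MeasurableEquiv.piFinSuccAbove, OrthonormalBasis.measurableEquiv]
      rfl
    rw [this, b.repr_apply_apply]
  refine ⟨Ψ, ?_, ?_, ?_, ?_⟩
  · exact (b.measurePreserving_measurableEquiv).trans
      ((EuclideanSpace.volume_preserving_symm_measurableEquiv_toLp (Fin (N + 1))).trans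
        (volume_preserving_piFinSuccAbove (fun _ => ℝ) 0))
  · intro x
    rw [← b.sum_sq_norm_inner_right x, Fin.sum_univ_succ, h1]
    simp [h2]
  · intro h0 x
    rw [h1, hb 0 h0]
  · intro i hi x
    rw [h2, hb i.succ hi]

end Pool.Agent.Helper99
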