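import Mathlib

set_option autoImplicit false

namespace Pool.Agent.Helper99

open MeasureTheory

/-- volume of the unit ball in dimension `2 l` -/
noncomputable def kap (l : ℕ) : ℝ := (√Real.pi ^ (2 * l) / Real.Gamma (((2 * l : ℕ) : ℝ) / 2 + 1))

theorem kap_pos (l : ℕ) : 0 < kap l := by
  unfold kap
  have : 0 < Real.Gamma (((2 * l : ℕ) : ℝ) / 2 + 1) := Real.Gamma_pos_of_pos (by positivity)
  positivity

theorem kap_zero : kap 0 = 1 := by
  simp [kap]

theorem volume_sum_sq_le {l : ℕ} (hl : 1 ≤ l) (ρ : ℝ) :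
    volume {w : Fin (2 * l) → ℝ | ∑ i, w i ^ 2 ≤ ρ} = ENNReal.ofReal (kap l * (max ρ 0) ^ l) := by
  have : Nonempty (Fin (2 * l)) := ⟨⟨0, by omega⟩⟩
  rcases lt_or_ge ρ 0 with h | h
  · have h1 : {w : Fin (2 * l) → ℝ | ∑ i, w i ^ 2 ≤ ρ} = ∅ := by
      ext w
      simp only [Set.mem_ofPred_eq, Set.mem_empty_iff_false, iff_false, not_le]
      exact lt_of_lt_of_le h (Finset.sum_nonneg fun i _ => sq_nonneg _)
    rw [h1, max_eq_right h.le, zero_pow (by omega)]
    simp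
  · have h1 := EuclideanSpace.volume_closedBall (Fin (2 * l)) 0 (√ρ)
    rw [← (PiLp.volume_preserving_toLp (Fin (2 * l))).measure_preimage
      measurableSet_closedBall.nullMeasurableSet] at h1
    have h2 : (WithLp.toLp 2 : (Fin (2 * l) → ℝ) → EuclideanSpace ℝ (Fin (2 * l))) ⁻¹'
        Metric.closedBall 0 (√ρ) = {w : Fin (2 * l) → ℝ | ∑ i, w i ^ 2 ≤ ρ} := by
      ext w
      simp only [Set.mem_preimage, Metric.mem_closedBall, dist_zero_right, Set.mem_ofPred_eq]
      rw [EuclideanSpace.norm_eq]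
      simp only [Real.norm_eq_abs, sq_abs]
      exact Real.sqrt_le_sqrt_iff h
    rw [h2] at h1
    rw [h1, Fintype.card_fin, max_eq_left h, mul_comm, ← ENNReal.ofReal_pow (Real.sqrt_nonneg _),
      ← ENNReal.ofReal_mul (by have := kap_pos l; exact this.le)]
    congr 1
    rw [pow_mul (√ρ), Real.sq_sqrt h]
    rfl

theorem volume_sum_sq_le_zero (ρ : ℝ) :
    volume {w : Fin (2 * 0) → ℝ | ∑ i, w i ^ 2 ≤ ρ} = if 0 ≤ ρ then 1 else 0 := by
  have hE : IsEmpty (Fin (2 * 0)) := by simpa using Fin.isEmpty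
  have hv : volume (Set.univ : Set (Fin (2 * 0) → ℝ)) = 1 := by
    rw [Measure.volume_pi_eq_dirac (fun _ => 0 : Fin (2 * 0) → ℝ)]
    simp
  split_ifs with h
  · rw [← hv]
    congr 1
    ext w
    simp [h]
  · have : {w : Fin (2 * 0) → ℝ | ∑ i, w i ^ 2 ≤ ρ} = ∅ := by
      ext w
      simp [h]
    rw [this]
    simp

end Pool.Agent.Helper99
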