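import Mathlib
import Pool.Agent.Helper99.Radial

set_option autoImplicit false

namespace Pool.Agent.Helper99

open MeasureTheory

theorem measurable_rad {n : ℕ} (c : ℝ) :
    Measurable (fun w : Fin n → ℝ => √(c ^ 2 + ∑ i, w i ^ 2)) := by
  fun_prop

/-- cumulative volume -/
noncomputable def Tc (l : ℕ) (c b : ℝ) : ℝ := kap l * ((max b |c|) ^ 2 - c ^ 2) ^ l

theorem volume_rad_le {l : ℕ} (hl : 1 ≤ l) (c b : ℝ) :
    volume {w : Fin (2 * l) → ℝ | √(c ^ 2 + ∑ i, w i ^ 2) ≤ b} = ENNReal.ofReal (Tc l c b) := by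
  unfold Tc
  rcases lt_or_ge b |c| with h | h
  · rw [max_eq_right h.le, sq_abs, sub_self, zero_pow (by omega), mul_zero, ENNReal.ofReal_zero]
    have : {w : Fin (2 * l) → ℝ | √(c ^ 2 + ∑ i, w i ^ 2) ≤ b} = ∅ := by
      ext w
      simp only [Set.mem_ofPred_eq, Set.mem_empty_iff_false, iff_false, not_le]
      refine lt_of_lt_of_le h ?_
      rw [← Real.sqrt_sq_eq_abs]
      apply Real.sqrt_le_sqrt
      have : 0 ≤ ∑ i, w i ^ 2 := Finset.sum_nonneg fun i _ => sq_nonneg _
      linarith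
    rw [this]
    simp
  · rw [max_eq_left h]
    have hb : 0 ≤ b := le_trans (abs_nonneg c) h
    have h2 : 0 ≤ b ^ 2 - c ^ 2 := by
      have := sq_le_sq' (by linarith [abs_nonneg c]) h
      rw [sq_abs] at this
      linarith
    have : {w : Fin (2 * l) → ℝ | √(c ^ 2 + ∑ i, w i ^ 2) ≤ b}
        = {w : Fin (2 * l) → ℝ | ∑ i, w i ^ 2 ≤ b ^ 2 - c ^ 2} := by
      ext w
      simp only [Set.mem_ofPred_eq]
      rw [Real.sqrt_le_left hb]
      constructor <;> intro h <;> linarith
    rw [this, volume_sum_sq_le hl, max_eq_left h2]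

/-- the radial density -/
noncomputable def dens (l : ℕ) (c r : ℝ) : ℝ := 2 * l * kap l * r * (r ^ 2 - c ^ 2) ^ (l - 1)

theorem dens_nonneg {l : ℕ} {c r : ℝ} (h : |c| ≤ r) : 0 ≤ dens l c r := by
  unfold dens
  have hr : 0 ≤ r := le_trans (abs_nonneg c) h
  have h2 : 0 ≤ r ^ 2 - c ^ 2 := by
    have := sq_le_sq' (by linarith [abs_nonneg c]) h
    rw [sq_abs] at this
    linarith
  have := kap_pos l
  positivity

theorem map_rad {l : ℕ} (hl : 1 ≤ l) (c : ℝ) :
    Measure.map (fun w : Fin (2 * l) → ℝ => √(c ^ 2 + ∑ i, w i ^ 2)) volume =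
      (volume.restrict (Set.Ioi |c|)).withDensity (fun r => ENNReal.ofReal (dens l c r)) := by
  have hcont : Continuous (fun r => dens l c r) := by unfold dens; fun_prop
  have key1 : ∀ a b : ℝ, a < b →
      Measure.map (fun w : Fin (2 * l) → ℝ => √(c ^ 2 + ∑ i, w i ^ 2)) volume (Set.Ioc a b)
        = ENNReal.ofReal (Tc l c b - Tc l c a) := by
    intro a b hab
    rw [Measure.map_apply (measurable_rad c) measurableSet_Ioc]
    have h1 : (fun w : Fin (2 * l) → ℝ => √(c ^ 2 + ∑ i, w i ^ 2)) ⁻¹' Set.Ioc a b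
        = {w : Fin (2 * l) → ℝ | √(c ^ 2 + ∑ i, w i ^ 2) ≤ b} \
          {w : Fin (2 * l) → ℝ | √(c ^ 2 + ∑ i, w i ^ 2) ≤ a} := by
      ext w
      simp only [Set.mem_preimage, Set.mem_Ioc, Set.mem_sdiff, Set.mem_ofPred_eq, not_le]
      tauto
    rw [h1, measure_sdiff, volume_rad_le hl, volume_rad_le hl, ← ENNReal.ofReal_sub]
    · unfold Tc
      have := kap_pos l
      have h3 : 0 ≤ (max a |c|) ^ 2 - c ^ 2 := by
        have : |c| ^ 2 ≤ (max a |c|) ^ 2 := by gcongr; exact le_max_right _ _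
        rw [sq_abs] at this
        linarith
      positivity
    · intro w hw
      simp only [Set.mem_ofPred_eq] at *
      linarith
    · exact (measurableSet_le (measurable_rad c) measurable_const).nullMeasurableSet
    · rw [volume_rad_le hl]
      exact ENNReal.ofReal_ne_top
  have key2 : ∀ a b : ℝ, a < b →
      (volume.restrict (Set.Ioi |c|)).withDensity (fun r => ENNReal.ofReal (dens l c r))
        (Set.Ioc a b) = ENNReal.ofReal (Tc l c b - Tc l c a) := by
    intro a b hab
    rw [withDensity_apply _ measurableSet_Ioc, Measure.restrict_restrict measurableSet_Ioc]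
    have hset : Set.Ioc a b ∩ Set.Ioi |c| = Set.Ioc (max a |c|) (max b |c|) := by
      ext x
      simp only [Set.mem_inter_iff, Set.mem_Ioc, Set.mem_Ioi, max_lt_iff, le_max_iff]
      constructor
      · rintro ⟨⟨h1, h2⟩, h3⟩
        exact ⟨⟨h1, h3⟩, Or.inl h2⟩
      · rintro ⟨⟨h1, h3⟩, h2 | h2⟩
        · exact ⟨⟨h1, h2⟩, h3⟩
        · exact absurd h2 (not_le.mpr h3)
    rw [hset, ← ofReal_integral_eq_lintegral_ofReal]
    · congr 1
      rw [← intervalIntegral.integral_of_le (max_le_max hab.le le_rfl)]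
      have hd : ∀ x ∈ Set.uIcc (max a |c|) (max b |c|),
          HasDerivAt (fun r => kap l * (r ^ 2 - c ^ 2) ^ l) (dens l c x) x := by
        intro x _
        have h1 : HasDerivAt (fun r : ℝ => r ^ 2 - c ^ 2) (2 * x) x := by
          simpa using (hasDerivAt_pow 2 x).sub_const (c ^ 2)
        have h2 := (h1.pow l).const_mul (kap l)
        have h3 : kap l * (↑l * (x ^ 2 - c ^ 2) ^ (l - 1) * (2 * x)) = dens l c x := by
          unfold dens; ring
        rw [← h3]
        exact h2
      rw [intervalIntegral.integral_eq_sub_of_hasDerivAt hd (hcont.intervalIntegrable _ _)]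
      rfl
    · exact (hcont.integrableOn_Ioc)
    · refine (ae_restrict_iff' measurableSet_Ioc).mpr (Filter.Eventually.of_forall ?_)
      intro x hx
      exact dens_nonneg (le_trans (le_max_right _ _) hx.1.le)
  apply Measure.ext_of_Ioc'
  · intro a b hab
    rw [key1 a b hab]
    exact ENNReal.ofReal_ne_top
  · intro a b hab
    rw [key1 a b hab, key2 a b hab]

theorem lintegral_radial {l : ℕ} (hl : 1 ≤ l) (c : ℝ) (g : ℝ → ENNReal) (hg : Measurable g) :
    ∫⁻ w : Fin (2 * l) → ℝ, g (√(c ^ 2 + ∑ i, w i ^ 2)) =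
      ∫⁻ r in Set.Ioi |c|, ENNReal.ofReal (dens l c r) * g r := by
  have hm : Measurable (fun r => ENNReal.ofReal (dens l c r)) := by
    unfold dens; fun_prop
  rw [← lintegral_map hg (measurable_rad c), map_rad hl, lintegral_withDensity_eq_lintegral_mul _ hm hg]
  rfl

end Pool.Agent.Helper99
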