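import Mathlib
import Pool.Agent.Helper99.Radial2
import Pool.Agent.Helper99.Split

set_option autoImplicit false

namespace Pool.Agent.Helper99

open MeasureTheory

/-- Splitting `ℝ^(N+1)` along the direction of a nonzero vector. -/
theorem exists_split_pi {N : ℕ} (a : Fin (N + 1) → ℝ) (ha : 0 < ∑ i, a i ^ 2) :
    ∃ Ψ : (Fin (N + 1) → ℝ) ≃ᵐ ℝ × (Fin N → ℝ), MeasurePreserving Ψ volume volume ∧
      (∀ x, ∑ i, x i ^ 2 = (Ψ x).1 ^ 2 + ∑ i, (Ψ x).2 i ^ 2) ∧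
      (∀ x, ∑ i, a i * x i = √(∑ i, a i ^ 2) * (Ψ x).1) := by
  set α := √(∑ i, a i ^ 2) with hα
  have hα0 : 0 < α := Real.sqrt_pos.mpr ha
  let v : Fin (N + 1) → EuclideanSpace ℝ (Fin (N + 1)) := fun _ => WithLp.toLp 2 (fun i => a i / α)
  have hv : Orthonormal ℝ ((({0} : Set (Fin (N + 1)))).domRestrict v) := by
    rw [orthonormal_iff_ite]
    rintro ⟨i, hi⟩ ⟨j, hj⟩
    have hi' : i = 0 := by simpa using hi
    have hj' : j = 0 := by simpa using hj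
    subst hi' hj'
    simp only [Set.domRestrict_apply, if_true]
    simp only [v, PiLp.inner_apply]
    simp only [RCLike.inner_apply, conj_trivial]
    have : ∀ i, a i / α * (a i / α) = a i ^ 2 / α ^ 2 := by intro i; ring
    simp_rw [this]
    rw [← Finset.sum_div, hα, Real.sq_sqrt ha.le]
    exact div_self ha.ne'
  obtain ⟨Ψ, h1, h2, h3, -⟩ := exists_split (E := EuclideanSpace ℝ (Fin (N + 1))) (N := N)
    (by simp) v {0} hv
  refine ⟨(MeasurableEquiv.toLp 2 (Fin (N + 1) → ℝ)).trans Ψ,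
    (PiLp.volume_preserving_toLp (Fin (N + 1))).trans h1, ?_, ?_⟩
  · intro x
    have := h2 (WithLp.toLp 2 x)
    rw [EuclideanSpace.norm_sq_eq] at this
    simpa using this
  · intro x
    have := h3 (by simp) (WithLp.toLp 2 x)
    simp only [MeasurableEquiv.trans_apply, MeasurableEquiv.coe_toLp]
    rw [this]
    simp only [v, PiLp.inner_apply]
    simp only [RCLike.inner_apply, conj_trivial]
    rw [Finset.mul_sum]
    refine Finset.sum_congr rfl fun i _ => ?_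
    field_simp

/-- first reduction of the volume of a section -/
theorem volume_section_split {N : ℕ} (a : Fin (N + 1) → ℝ) (ha : 0 < ∑ i, a i ^ 2) (h2 z : ℝ) :
    volume {x : Fin (N + 1) → ℝ | (√(∑ i, x i ^ 2) - 1) ^ 2 ≤ h2 ∧ ∑ i, a i * x i ≤ z}
      = ∫⁻ c : ℝ, volume {w : Fin N → ℝ | (√(c ^ 2 + ∑ i, w i ^ 2) - 1) ^ 2 ≤ h2 ∧
          √(∑ i, a i ^ 2) * c ≤ z} := by
  obtain ⟨Ψ, h1, h3, h4⟩ := exists_split_pi a ha
  have hm : MeasurableSet {p : ℝ × (Fin N → ℝ) | (√(p.1 ^ 2 + ∑ i, p.2 i ^ 2) - 1) ^ 2 ≤ h2 ∧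
          √(∑ i, a i ^ 2) * p.1 ≤ z} := by
    have e1 : MeasurableSet {p : ℝ × (Fin N → ℝ) |
        (√(p.1 ^ 2 + ∑ i, p.2 i ^ 2) - 1) ^ 2 ≤ h2} :=
      measurableSet_le (by fun_prop) measurable_const
    have e2 : MeasurableSet {p : ℝ × (Fin N → ℝ) | √(∑ i, a i ^ 2) * p.1 ≤ z} :=
      measurableSet_le (by fun_prop) measurable_const
    exact e1.inter e2
  have : {x : Fin (N + 1) → ℝ | (√(∑ i, x i ^ 2) - 1) ^ 2 ≤ h2 ∧ ∑ i, a i * x i ≤ z}
      = Ψ ⁻¹' {p : ℝ × (Fin N → ℝ) | (√(p.1 ^ 2 + ∑ i, p.2 i ^ 2) - 1) ^ 2 ≤ h2 ∧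
          √(∑ i, a i ^ 2) * p.1 ≤ z} := by
    ext x
    simp only [Set.mem_ofPred_eq, Set.mem_preimage]
    rw [h3, h4]
  rw [this, h1.measure_preimage hm.nullMeasurableSet, Measure.volume_eq_prod, Measure.prod_apply hm]
  rfl

end Pool.Agent.Helper99
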