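import Mathlib
import Pool.Agent.Helper99.XSec

set_option autoImplicit false

namespace Pool.Agent.Helper99

open MeasureTheory

/-- primitive of `(r^2-c^2)^p` with respect to `c`, in any real algebra -/
noncomputable def PrA {R : Type*} [CommRing R] [Algebra ℝ R] (p : ℕ) (r c : R) : R :=
  ∑ j ∈ Finset.range (p + 1), algebraMap ℝ R ((p.choose j : ℝ) * (-1) ^ j / (2 * j + 1)) *
    (r ^ (2 * (p - j)) * c ^ (2 * j + 1))

theorem PrA_map {R S : Type*} [CommRing R] [Algebra ℝ R] [CommRing S] [Algebra ℝ S]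
    (f : R →ₐ[ℝ] S) (p : ℕ) (r c : R) : f (PrA p r c) = PrA p (f r) (f c) := by
  simp [PrA, map_sum, map_mul, map_pow]

theorem PrA_hasDerivAt (p : ℕ) (r c : ℝ) :
    HasDerivAt (fun c : ℝ => PrA p r c) ((r ^ 2 - c ^ 2) ^ p) c := by
  have h1 : ((r ^ 2 - c ^ 2) ^ p) = ∑ j ∈ Finset.range (p + 1),
      ((p.choose j : ℝ) * (-1) ^ j / (2 * j + 1)) * (r ^ (2 * (p - j)) *
        (((2 * j + 1 : ℕ) : ℝ) * c ^ (2 * j))) := by
    rw [sub_eq_neg_add, add_pow]
    refine Finset.sum_congr rfl fun j _ => ?_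
    have : (2 * (j : ℝ) + 1) ≠ 0 := by positivity
    rw [neg_pow, ← pow_mul, ← pow_mul]
    push_cast
    field_simp
  rw [h1]
  unfold PrA
  apply HasDerivAt.fun_sum
  intro j _
  have h2 := (hasDerivAt_pow (2 * j + 1) c)
  simp only [Nat.add_sub_cancel] at h2
  exact (h2.const_mul (r ^ (2 * (p - j)))).const_mul _

theorem integral_sq_sub (p : ℕ) (r u v : ℝ) :
    ∫ c in u..v, (r ^ 2 - c ^ 2) ^ p = PrA p r v - PrA p r u := by
  have hc : Continuous (fun c : ℝ => (r ^ 2 - c ^ 2) ^ p) := by fun_prop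
  exact intervalIntegral.integral_eq_sub_of_hasDerivAt (fun x _ => PrA_hasDerivAt p r x)
    (hc.intervalIntegrable _ _)

open MvPolynomial in
noncomputable def P1 (l : ℕ) : MvPolynomial (Fin 2) ℝ :=
  if l = 0 then 1 else
  C (2 * l * kap l) * X 0 * (PrA (l - 1) (X 0) (X 1) - PrA (l - 1) (X 0) (- X 0))

open MvPolynomial in
noncomputable def P2 (l : ℕ) : MvPolynomial (Fin 2) ℝ :=
  if l = 0 then 1 else
  C (2 * l * kap l) * X 0 * (PrA (l - 1) (X 0) (X 0) - PrA (l - 1) (X 0) (X 1))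

theorem eval_P1 {l : ℕ} (hl : 1 ≤ l) (r z : ℝ) : MvPolynomial.eval ![r, z] (P1 l)
    = 2 * l * kap l * r * (PrA (l - 1) r z - PrA (l - 1) r (-r)) := by
  unfold P1
  rw [if_neg (by omega)]
  have h : ∀ (p : ℕ) (a b : MvPolynomial (Fin 2) ℝ), MvPolynomial.eval ![r, z] (PrA p a b) =
      PrA p (MvPolynomial.eval ![r, z] a) (MvPolynomial.eval ![r, z] b) := fun p a b =>
    PrA_map (MvPolynomial.aeval ![r, z] : MvPolynomial (Fin 2) ℝ →ₐ[ℝ] ℝ) p a b
  rw [map_mul, map_mul, map_sub]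
  simp [h]

theorem eval_P2 {l : ℕ} (hl : 1 ≤ l) (r z : ℝ) : MvPolynomial.eval ![r, z] (P2 l)
    = 2 * l * kap l * r * (PrA (l - 1) r r - PrA (l - 1) r z) := by
  unfold P2
  rw [if_neg (by omega)]
  have h : ∀ (p : ℕ) (a b : MvPolynomial (Fin 2) ℝ), MvPolynomial.eval ![r, z] (PrA p a b) =
      PrA p (MvPolynomial.eval ![r, z] a) (MvPolynomial.eval ![r, z] b) := fun p a b =>
    PrA_map (MvPolynomial.aeval ![r, z] : MvPolynomial (Fin 2) ℝ →ₐ[ℝ] ℝ) p a b
  rw [map_mul, map_mul, map_sub]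
  simp [h]

/-- the radial profile of a spherical shell cut by a half space -/
noncomputable def prof (l : ℕ) (α z r : ℝ) : ℝ :=
  (if -α * r ≤ z then MvPolynomial.eval ![r, z / α] (P1 l) else 0) +
  (if α * r ≤ z then MvPolynomial.eval ![r, z / α] (P2 l) else 0)

theorem prof_eq {l : ℕ} (hl : 1 ≤ l) {α z r : ℝ} (hα : 0 < α) (hr : 0 < r) :
    prof l α z r = 2 * l * kap l * r *
      (PrA (l - 1) r (max (-r) (min (z / α) r)) - PrA (l - 1) r (-r)) := by
  unfold prof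
  rw [eval_P1 hl, eval_P2 hl]
  have e1 : (-α * r ≤ z) ↔ -r ≤ z / α := by
    rw [le_div_iff₀ hα]
    constructor <;> intro h <;> linarith
  have e2 : (α * r ≤ z) ↔ r ≤ z / α := by
    rw [le_div_iff₀ hα]
    constructor <;> intro h <;> linarith
  rw [if_congr e1 rfl rfl, if_congr e2 rfl rfl]
  by_cases h1 : -r ≤ z / α
  · by_cases h2 : r ≤ z / α
    · rw [if_pos h1, if_pos h2, min_eq_right h2, max_eq_right (by linarith)]
      ring
    · rw [if_pos h1, if_neg h2, min_eq_left (by linarith), max_eq_right h1]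
      ring
  · have h2 : ¬ (r ≤ z / α) := by intro h; exact h1 (by linarith)
    rw [if_neg h1, if_neg h2, min_eq_left (by linarith), max_eq_left (by linarith)]
    ring

theorem inner_integral {l : ℕ} (hl : 1 ≤ l) {α z r : ℝ} (hα : 0 < α) (hr : 0 < r) :
    ∫⁻ c in {c : ℝ | |c| < r ∧ α * c ≤ z}, ENNReal.ofReal (dens l c r)
      = ENNReal.ofReal (prof l α z r) := by
  rw [prof_eq hl hα hr]
  set m := max (-r) (min (z / α) r) with hm
  have hm1 : -r ≤ m := le_max_left _ _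
  have hm2 : m ≤ r := max_le (by linarith) (min_le_right _ _)
  have hcont : Continuous (fun c => dens l c r) := by unfold dens; fun_prop
  have hset : ({c : ℝ | |c| < r ∧ α * c ≤ z} : Set ℝ) =ᵐ[volume] Set.Ioc (-r) m := by
    have h1 : ({c : ℝ | |c| < r ∧ α * c ≤ z} : Set ℝ) \ {r} = Set.Ioc (-r) m \ {r} := by
      ext c
      simp only [Set.mem_sdiff, Set.mem_ofPred_eq, Set.mem_singleton_iff, Set.mem_Ioc, abs_lt]
      have e2 : (α * c ≤ z) ↔ c ≤ z / α := by
        rw [le_div_iff₀ hα]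
        constructor <;> intro h <;> linarith
      rw [e2, hm, le_max_iff, le_min_iff]
      constructor
      · rintro ⟨⟨⟨h1, h2⟩, h3⟩, h4⟩
        exact ⟨⟨h1, Or.inr ⟨h3, h2.le⟩⟩, h4⟩
      · rintro ⟨⟨h1, h2 | ⟨h2, h3⟩⟩, h4⟩
        · exact absurd h2 (not_le.mpr h1)
        · exact ⟨⟨⟨h1, lt_of_le_of_ne h3 h4⟩, h2⟩, h4⟩
    have h2 : ∀ s : Set ℝ, (s \ {r} : Set ℝ) =ᵐ[volume] s := fun s =>
      sdiff_null_ae_eq_self (by simp)
    exact (h2 _).symm.trans ((Filter.EventuallyEq.of_eq h1).trans (h2 _))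
  rw [setLIntegral_congr hset, ← ofReal_integral_eq_lintegral_ofReal]
  · congr 1
    rw [← intervalIntegral.integral_of_le hm1]
    unfold dens
    rw [intervalIntegral.integral_const_mul, integral_sq_sub]
  · exact hcont.integrableOn_Ioc
  · refine (ae_restrict_iff' measurableSet_Ioc).mpr (Filter.Eventually.of_forall ?_)
    intro x hx
    exact dens_nonneg (abs_le.mpr ⟨hx.1.le, le_trans hx.2 hm2⟩)

end Pool.Agent.Helper99
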