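import Mathlib
import Pool.Agent.Helper99.XSec2

set_option autoImplicit false

namespace Pool.Agent.Helper99

open MeasureTheory

theorem measurable_prof_aux (P : MvPolynomial (Fin 2) ℝ) :
    Measurable (fun p : ℝ × ℝ => MvPolynomial.eval ![p.1, p.2] P) := by
  have h1 : Continuous (fun x : Fin 2 → ℝ => MvPolynomial.eval x P) :=
    MvPolynomial.continuous_eval P
  have h2 : Continuous (fun p : ℝ × ℝ => (![p.1, p.2] : Fin 2 → ℝ)) := by
    refine continuous_pi fun i => ?_
    fin_cases i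
    · exact continuous_fst
    · exact continuous_snd
  exact (h1.comp h2).measurable

theorem xsec_pos {l : ℕ} (hl : 1 ≤ l) (a : Fin (2 * l + 1) → ℝ) (ha : 0 < ∑ i, a i ^ 2)
    {h2 : ℝ} (hh : h2 < 1) (z : ℝ) :
    volume {x : Fin (2 * l + 1) → ℝ | (√(∑ i, x i ^ 2) - 1) ^ 2 ≤ h2 ∧ ∑ i, a i * x i ≤ z}
      = ∫⁻ r in {r : ℝ | (r - 1) ^ 2 ≤ h2}, ENNReal.ofReal (prof l (√(∑ i, a i ^ 2)) z r) := by
  have hα : 0 < √(∑ i, a i ^ 2) := Real.sqrt_pos.mpr ha
  rw [volume_section_split a ha]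
  set α := √(∑ i, a i ^ 2) with hαdef
  let F : ℝ → ℝ → ENNReal := fun c r =>
    ({p : ℝ × ℝ | |p.1| < p.2 ∧ α * p.1 ≤ z ∧ (p.2 - 1) ^ 2 ≤ h2}).indicator
      (fun p => ENNReal.ofReal (dens l p.1 p.2)) (c, r)
  have hFm : Measurable (Function.uncurry F) := by
    have e1 : MeasurableSet {p : ℝ × ℝ | |p.1| < p.2} :=
      measurableSet_lt (by fun_prop) measurable_snd
    have e2 : MeasurableSet {p : ℝ × ℝ | α * p.1 ≤ z} :=
      measurableSet_le (by fun_prop) measurable_const
    have e3 : MeasurableSet {p : ℝ × ℝ | (p.2 - 1) ^ 2 ≤ h2} :=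
      measurableSet_le (by fun_prop) measurable_const
    have e4 : Measurable (fun p : ℝ × ℝ => ENNReal.ofReal (dens l p.1 p.2)) := by
      unfold dens; fun_prop
    exact e4.indicator (e1.inter (e2.inter e3))
  have step1 : ∀ c : ℝ, volume {w : Fin (2 * l) → ℝ | (√(c ^ 2 + ∑ i, w i ^ 2) - 1) ^ 2 ≤ h2 ∧
      α * c ≤ z} = ∫⁻ r, F c r := by
    intro c
    let g : ℝ → ENNReal := ({r : ℝ | (r - 1) ^ 2 ≤ h2 ∧ α * c ≤ z}).indicator (fun _ => 1)
    have hgs : MeasurableSet {r : ℝ | (r - 1) ^ 2 ≤ h2 ∧ α * c ≤ z} := by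
      have e1 : MeasurableSet {r : ℝ | (r - 1) ^ 2 ≤ h2} :=
        measurableSet_le (by fun_prop) measurable_const
      have e2 : MeasurableSet {r : ℝ | α * c ≤ z} :=
        measurableSet_le measurable_const measurable_const
      exact e1.inter e2
    have hg : Measurable g := measurable_const.indicator hgs
    have h := lintegral_radial hl c g hg
    have h' : ∫⁻ w : Fin (2 * l) → ℝ, g (√(c ^ 2 + ∑ i, w i ^ 2)) =
        volume {w : Fin (2 * l) → ℝ | (√(c ^ 2 + ∑ i, w i ^ 2) - 1) ^ 2 ≤ h2 ∧ α * c ≤ z} := by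
      rw [← lintegral_indicator_one]
      · rfl
      · exact (measurable_rad c) hgs
    rw [← h', h, ← lintegral_indicator measurableSet_Ioi]
    congr 1
    funext r
    simp only [F, g, Set.indicator, Set.mem_Ioi, Set.mem_ofPred_eq]
    by_cases h1 : |c| < r <;> by_cases h2' : α * c ≤ z <;> by_cases h3 : (r - 1) ^ 2 ≤ h2 <;>
      simp [h1, h2', h3]
  simp_rw [step1]
  rw [lintegral_lintegral_swap hFm.aemeasurable, ← lintegral_indicator]
  · congr 1
    funext r
    by_cases h3 : (r - 1) ^ 2 ≤ h2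
    · have hr : 0 < r := by nlinarith
      rw [Set.indicator_of_mem (by exact h3), ← inner_integral hl hα hr, ← lintegral_indicator]
      · congr 1
        funext c
        simp only [F, Set.indicator, Set.mem_ofPred_eq]
        by_cases h1 : |c| < r <;> by_cases h2' : α * c ≤ z <;> simp [h1, h2', h3]
      · have e1 : MeasurableSet {c : ℝ | |c| < r} :=
          measurableSet_lt (by fun_prop) measurable_const
        have e2 : MeasurableSet {c : ℝ | α * c ≤ z} :=
          measurableSet_le (by fun_prop) measurable_const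
        exact e1.inter e2
    · rw [Set.indicator_of_notMem (by exact h3)]
      have : ∀ c, F c r = 0 := by
        intro c
        simp only [F, Set.indicator, Set.mem_ofPred_eq]
        simp [h3]
      simp [this]
  · exact measurableSet_le (by fun_prop) measurable_const

theorem xsec_zero (a : Fin (2 * 0 + 1) → ℝ) (ha : 0 < ∑ i, a i ^ 2)
    {h2 : ℝ} (hh : h2 < 1) (z : ℝ) :
    volume {x : Fin (2 * 0 + 1) → ℝ | (√(∑ i, x i ^ 2) - 1) ^ 2 ≤ h2 ∧ ∑ i, a i * x i ≤ z}
      = ∫⁻ r in {r : ℝ | (r - 1) ^ 2 ≤ h2}, ENNReal.ofReal (prof 0 (√(∑ i, a i ^ 2)) z r) := by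
  have hα : 0 < √(∑ i, a i ^ 2) := Real.sqrt_pos.mpr ha
  rw [volume_section_split a ha]
  set α := √(∑ i, a i ^ 2) with hαdef
  have hE : IsEmpty (Fin (2 * 0)) := by simpa using Fin.isEmpty
  have hv : volume (Set.univ : Set (Fin (2 * 0) → ℝ)) = 1 := by
    rw [Measure.volume_pi_eq_dirac (fun _ => 0 : Fin (2 * 0) → ℝ)]
    simp
  have step1 : ∀ c : ℝ, volume {w : Fin (2 * 0) → ℝ | (√(c ^ 2 + ∑ i, w i ^ 2) - 1) ^ 2 ≤ h2 ∧
      α * c ≤ z} = ({c : ℝ | (|c| - 1) ^ 2 ≤ h2 ∧ α * c ≤ z}).indicator (fun _ => 1) c := by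
    intro c
    by_cases h : (|c| - 1) ^ 2 ≤ h2 ∧ α * c ≤ z
    · rw [Set.indicator_of_mem (by exact h), ← hv]
      congr 1
      ext w
      simp [Real.sqrt_sq_eq_abs, h]
    · rw [Set.indicator_of_notMem (by exact h)]
      have : {w : Fin (2 * 0) → ℝ | (√(c ^ 2 + ∑ i, w i ^ 2) - 1) ^ 2 ≤ h2 ∧
        α * c ≤ z} = ∅ := by
        ext w
        simpa [Real.sqrt_sq_eq_abs] using h
      rw [this, measure_empty]
  simp_rw [step1]
  have m1 : MeasurableSet {c : ℝ | (|c| - 1) ^ 2 ≤ h2 ∧ α * c ≤ z} := by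
    have e1 : MeasurableSet {c : ℝ | (|c| - 1) ^ 2 ≤ h2} :=
      measurableSet_le (by fun_prop) measurable_const
    have e2 : MeasurableSet {c : ℝ | α * c ≤ z} :=
      measurableSet_le (by fun_prop) measurable_const
    exact e1.inter e2
  have m0 : MeasurableSet {r : ℝ | (r - 1) ^ 2 ≤ h2} :=
    measurableSet_le (by fun_prop) measurable_const
  have m2 : MeasurableSet {r : ℝ | α * r ≤ z} :=
      measurableSet_le (by fun_prop) measurable_const
  have m3 : MeasurableSet {r : ℝ | -α * r ≤ z} :=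
      measurableSet_le (by fun_prop) measurable_const
  rw [lintegral_indicator_const m1, one_mul]
  have hR : ∀ r, ENNReal.ofReal (prof 0 α z r) =
      ({r : ℝ | -α * r ≤ z}).indicator (fun _ => 1) r +
      ({r : ℝ | α * r ≤ z}).indicator (fun _ => 1) r := by
    intro r
    unfold prof P1 P2
    simp only [if_true, map_one, Set.indicator, Set.mem_ofPred_eq]
    split_ifs <;> norm_num
  simp_rw [hR]
  rw [lintegral_add_left (measurable_const.indicator m3), lintegral_indicator_const m3,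
    lintegral_indicator_const m2, one_mul, one_mul, Measure.restrict_apply m3,
    Measure.restrict_apply m2]
  have hset : {c : ℝ | (|c| - 1) ^ 2 ≤ h2 ∧ α * c ≤ z} =
      (Neg.neg ⁻¹' ({r : ℝ | -α * r ≤ z} ∩ {r : ℝ | (r - 1) ^ 2 ≤ h2})) ∪
      ({r : ℝ | α * r ≤ z} ∩ {r : ℝ | (r - 1) ^ 2 ≤ h2}) := by
    ext c
    simp only [Set.mem_ofPred_eq, Set.mem_union, Set.mem_preimage, Set.mem_inter_iff]
    constructor
    · rintro ⟨h1, h3⟩
      rcases le_total 0 c with h | h
      · rw [abs_of_nonneg h] at h1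
        exact Or.inr ⟨h3, h1⟩
      · rw [abs_of_nonpos h] at h1
        exact Or.inl ⟨by linarith, h1⟩
    · rintro (⟨h1, h3⟩ | ⟨h1, h3⟩)
      · have : 0 < -c := by nlinarith
        rw [abs_of_neg (by linarith)]
        exact ⟨h3, by linarith⟩
      · have : 0 < c := by nlinarith
        rw [abs_of_pos this]
        exact ⟨h3, h1⟩
  rw [hset, measure_union _ (m2.inter m0)]
  · congr 1
    exact (Measure.measurePreserving_neg volume).measure_preimage (m3.inter m0).nullMeasurableSet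
  · rw [Set.disjoint_left]
    rintro c ⟨_, h1⟩ ⟨_, h3⟩
    simp only [Set.mem_ofPred_eq] at h1 h3
    nlinarith

theorem xsec (l : ℕ) (a : Fin (2 * l + 1) → ℝ) (ha : 0 < ∑ i, a i ^ 2)
    {h2 : ℝ} (hh : h2 < 1) (z : ℝ) :
    volume {x : Fin (2 * l + 1) → ℝ | (√(∑ i, x i ^ 2) - 1) ^ 2 ≤ h2 ∧ ∑ i, a i * x i ≤ z}
      = ∫⁻ r in {r : ℝ | (r - 1) ^ 2 ≤ h2}, ENNReal.ofReal (prof l (√(∑ i, a i ^ 2)) z r) := by
  rcases Nat.eq_zero_or_pos l with h | h
  · subst h
    exact xsec_zero a ha hh z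
  · exact xsec_pos h a ha hh z

theorem prof_nonneg (l : ℕ) {α z r : ℝ} (hα : 0 < α) (hr : 0 < r) : 0 ≤ prof l α z r := by
  rcases Nat.eq_zero_or_pos l with h | h
  · subst h
    unfold prof P1 P2
    simp only [if_true, map_one]
    split_ifs <;> norm_num
  · rw [prof_eq h hα hr, ← integral_sq_sub]
    have hm1 : -r ≤ max (-r) (min (z / α) r) := le_max_left _ _
    have hm2 : max (-r) (min (z / α) r) ≤ r := max_le (by linarith) (min_le_right _ _)
    have := kap_pos l
    refine mul_nonneg (by positivity) ?_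
    apply intervalIntegral.integral_nonneg hm1
    intro c hc
    have : c ^ 2 ≤ r ^ 2 := by
      apply sq_le_sq'
      · exact hc.1
      · exact le_trans hc.2 hm2
    exact pow_nonneg (by linarith) _

end Pool.Agent.Helper99
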