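import Mathlib
import Pool.Agent.Helper99.XSec3

set_option autoImplicit false

namespace Pool.Agent.Helper99

open MeasureTheory

/-- ball of radius `ε` about `(1,0)` in `ℝ × ℝ^m` -/
def Bl (m : ℕ) (ε : ℝ) : Set (ℝ × (Fin m → ℝ)) := {p | (p.1 - 1) ^ 2 + ∑ i, p.2 i ^ 2 ≤ ε ^ 2}

theorem isCompact_Bl (m : ℕ) (ε : ℝ) : IsCompact (Bl m ε) := by
  apply Metric.isCompact_of_isClosed_isBounded
  · exact isClosed_le (by fun_prop) continuous_const
  · refine (Metric.isBounded_closedBall (x := ((1 : ℝ), (0 : Fin m → ℝ))) (r := |ε|)).subset ?_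
    intro p hp
    simp only [Bl, Set.mem_ofPred_eq] at hp
    have hs : 0 ≤ ∑ i, p.2 i ^ 2 := Finset.sum_nonneg fun i _ => sq_nonneg _
    rw [Metric.mem_closedBall, Prod.dist_eq, max_le_iff]
    constructor
    · rw [Real.dist_eq]
      apply sq_le_sq.mp
      linarith
    · rw [dist_pi_le_iff (abs_nonneg _)]
      intro i
      simp only [Pi.zero_apply]
      rw [Real.dist_eq, sub_zero]
      apply sq_le_sq.mp
      have : p.2 i ^ 2 ≤ ∑ i, p.2 i ^ 2 :=
        Finset.single_le_sum (f := fun i => p.2 i ^ 2) (fun i _ => sq_nonneg _) (Finset.mem_univ i)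
      nlinarith [sq_nonneg (p.1 - 1)]

theorem measurableSet_Bl (m : ℕ) (ε : ℝ) : MeasurableSet (Bl m ε) :=
  (isCompact_Bl m ε).measurableSet

/-- the integral over a ball cut by a half space -/
noncomputable def Icut (m : ℕ) (ε α A : ℝ) (b : Fin m → ℝ) (t : ℝ) (P : MvPolynomial (Fin 2) ℝ) :
    ℝ :=
  ∫ p in Bl m ε ∩ {p | A * p.1 + ∑ j, b j * p.2 j ≤ t},
    MvPolynomial.eval ![p.1, (t - ∑ j, b j * p.2 j) / α] P

theorem continuous_integrand {m : ℕ} (α : ℝ) (b : Fin m → ℝ) (t : ℝ)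
    (P : MvPolynomial (Fin 2) ℝ) :
    Continuous (fun p : ℝ × (Fin m → ℝ) =>
      MvPolynomial.eval ![p.1, (t - ∑ j, b j * p.2 j) / α] P) := by
  have h1 : Continuous (fun x : Fin 2 → ℝ => MvPolynomial.eval x P) :=
    MvPolynomial.continuous_eval P
  have h2 : Continuous (fun p : ℝ × (Fin m → ℝ) =>
      (![p.1, (t - ∑ j, b j * p.2 j) / α] : Fin 2 → ℝ)) := by
    refine continuous_pi fun i => ?_
    fin_cases i
    · exact continuous_fst
    · simp only [Fin.mk_one, Matrix.cons_val_one, Matrix.cons_val_fin_one]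
      fun_prop
  exact h1.comp h2

theorem measurableSet_half {m : ℕ} (A : ℝ) (b : Fin m → ℝ) (t : ℝ) :
    MeasurableSet {p : ℝ × (Fin m → ℝ) | A * p.1 + ∑ j, b j * p.2 j ≤ t} :=
  measurableSet_le (by fun_prop) measurable_const

theorem volume_tube {l m : ℕ} {ε : ℝ} (hε0 : 0 < ε) (hε : ε < 1) (a : Fin (2 * l + 1) → ℝ)
    (b : Fin m → ℝ) (t : ℝ) (ha : 0 < ∑ i, a i ^ 2) :
    (volume {p : (Fin (2 * l + 1) → ℝ) × (Fin m → ℝ) |
        (√(∑ i, p.1 i ^ 2) - 1) ^ 2 + ∑ j, p.2 j ^ 2 ≤ ε ^ 2 ∧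
        ∑ i, a i * p.1 i + ∑ j, b j * p.2 j ≤ t}).toReal =
      Icut m ε (√(∑ i, a i ^ 2)) (-√(∑ i, a i ^ 2)) b t (P1 l) +
      Icut m ε (√(∑ i, a i ^ 2)) (√(∑ i, a i ^ 2)) b t (P2 l) := by
  have hα : 0 < √(∑ i, a i ^ 2) := Real.sqrt_pos.mpr ha
  have hS : MeasurableSet {p : (Fin (2 * l + 1) → ℝ) × (Fin m → ℝ) |
        (√(∑ i, p.1 i ^ 2) - 1) ^ 2 + ∑ j, p.2 j ^ 2 ≤ ε ^ 2 ∧
        ∑ i, a i * p.1 i + ∑ j, b j * p.2 j ≤ t} := by
    have e1 : MeasurableSet {p : (Fin (2 * l + 1) → ℝ) × (Fin m → ℝ) |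
        (√(∑ i, p.1 i ^ 2) - 1) ^ 2 + ∑ j, p.2 j ^ 2 ≤ ε ^ 2} :=
      measurableSet_le (by fun_prop) measurable_const
    have e2 : MeasurableSet {p : (Fin (2 * l + 1) → ℝ) × (Fin m → ℝ) |
        ∑ i, a i * p.1 i + ∑ j, b j * p.2 j ≤ t} :=
      measurableSet_le (by fun_prop) measurable_const
    exact e1.inter e2
  set α := √(∑ i, a i ^ 2) with hαdef
  rw [Measure.volume_eq_prod, Measure.prod_apply_symm hS]
  let f : ℝ × (Fin m → ℝ) → ℝ := fun p => prof l α (t - ∑ j, b j * p.2 j) p.1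
  have hfeq : f = fun p : ℝ × (Fin m → ℝ) =>
      ({p : ℝ × (Fin m → ℝ) | -α * p.1 + ∑ j, b j * p.2 j ≤ t}).indicator
        (fun p => MvPolynomial.eval ![p.1, (t - ∑ j, b j * p.2 j) / α] (P1 l)) p +
      ({p : ℝ × (Fin m → ℝ) | α * p.1 + ∑ j, b j * p.2 j ≤ t}).indicator
        (fun p => MvPolynomial.eval ![p.1, (t - ∑ j, b j * p.2 j) / α] (P2 l)) p := by
    funext p
    simp only [f, prof, Set.indicator, Set.mem_ofPred_eq]
    have e1 : (-α * p.1 ≤ t - ∑ j, b j * p.2 j) ↔ (-α * p.1 + ∑ j, b j * p.2 j ≤ t) := by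
      constructor <;> intro h <;> linarith
    have e2 : (α * p.1 ≤ t - ∑ j, b j * p.2 j) ↔ (α * p.1 + ∑ j, b j * p.2 j ≤ t) := by
      constructor <;> intro h <;> linarith
    rw [if_congr e1 rfl rfl, if_congr e2 rfl rfl]
  have hfm : Measurable f := by
    rw [hfeq]
    exact ((continuous_integrand α b t _).measurable.indicator (measurableSet_half _ b t)).add
      ((continuous_integrand α b t _).measurable.indicator (measurableSet_half _ b t))
  have hint : ∀ (A : ℝ) (P : MvPolynomial (Fin 2) ℝ), IntegrableOn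
      (({p : ℝ × (Fin m → ℝ) | A * p.1 + ∑ j, b j * p.2 j ≤ t}).indicator
        (fun p => MvPolynomial.eval ![p.1, (t - ∑ j, b j * p.2 j) / α] P)) (Bl m ε) := by
    intro A P
    exact ((continuous_integrand α b t P).continuousOn.integrableOn_compact
      (isCompact_Bl m ε)).indicator (measurableSet_half A b t)
  have step1 : ∀ y : Fin m → ℝ, volume ((fun x => (x, y)) ⁻¹'
      {p : (Fin (2 * l + 1) → ℝ) × (Fin m → ℝ) |
        (√(∑ i, p.1 i ^ 2) - 1) ^ 2 + ∑ j, p.2 j ^ 2 ≤ ε ^ 2 ∧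
        ∑ i, a i * p.1 i + ∑ j, b j * p.2 j ≤ t}) =
      ∫⁻ r : ℝ, (Bl m ε).indicator (fun p => ENNReal.ofReal (f p)) (r, y) := by
    intro y
    have hset : ((fun x => (x, y)) ⁻¹'
      {p : (Fin (2 * l + 1) → ℝ) × (Fin m → ℝ) |
        (√(∑ i, p.1 i ^ 2) - 1) ^ 2 + ∑ j, p.2 j ^ 2 ≤ ε ^ 2 ∧
        ∑ i, a i * p.1 i + ∑ j, b j * p.2 j ≤ t}) =
        {x : Fin (2 * l + 1) → ℝ | (√(∑ i, x i ^ 2) - 1) ^ 2 ≤ ε ^ 2 - ∑ j, y j ^ 2 ∧
          ∑ i, a i * x i ≤ t - ∑ j, b j * y j} := by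
      ext x
      simp only [Set.mem_preimage, Set.mem_ofPred_eq]
      constructor
      · rintro ⟨h1, h2⟩
        exact ⟨by linarith, by linarith⟩
      · rintro ⟨h1, h2⟩
        exact ⟨by linarith, by linarith⟩
    have hy : ε ^ 2 - ∑ j, y j ^ 2 < 1 := by
      have : 0 ≤ ∑ j, y j ^ 2 := Finset.sum_nonneg fun i _ => sq_nonneg _
      nlinarith
    rw [hset, xsec l a ha hy, ← lintegral_indicator]
    · congr 1
      funext r
      simp only [Set.indicator, Bl, Set.mem_ofPred_eq, f]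
      have e1 : ((r - 1) ^ 2 ≤ ε ^ 2 - ∑ j, y j ^ 2) ↔ ((r - 1) ^ 2 + ∑ j, y j ^ 2 ≤ ε ^ 2) := by
        constructor <;> intro h <;> linarith
      rw [if_congr e1 rfl rfl]
    · exact measurableSet_le (by fun_prop) measurable_const
  simp_rw [step1]
  rw [← lintegral_prod_symm', lintegral_indicator (measurableSet_Bl m ε),
    ← ofReal_integral_eq_lintegral_ofReal]
  · have hnn : 0 ≤ ∫ p in Bl m ε, f p := by
      apply setIntegral_nonneg (measurableSet_Bl m ε)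
      intro p hp
      apply prof_nonneg l hα
      have hs : 0 ≤ ∑ i, p.2 i ^ 2 := Finset.sum_nonneg fun i _ => sq_nonneg _
      simp only [Bl, Set.mem_ofPred_eq] at hp
      nlinarith
    rw [← Measure.volume_eq_prod, ENNReal.toReal_ofReal hnn, hfeq, integral_add (hint _ _) (hint _ _),
      setIntegral_indicator (measurableSet_half _ b t),
      setIntegral_indicator (measurableSet_half _ b t)]
    rfl
  · rw [← Measure.volume_eq_prod, hfeq]
    exact (hint _ _).add (hint _ _)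
  · refine (ae_restrict_iff' (measurableSet_Bl m ε)).mpr (Filter.Eventually.of_forall ?_)
    intro p hp
    apply prof_nonneg l hα
    have hs : 0 ≤ ∑ i, p.2 i ^ 2 := Finset.sum_nonneg fun i _ => sq_nonneg _
    simp only [Bl, Set.mem_ofPred_eq] at hp
    nlinarith
  · exact (ENNReal.measurable_ofReal.comp hfm).indicator (measurableSet_Bl m ε)

end Pool.Agent.Helper99
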