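import Mathlib
import Pool.Agent.Helper99.Split
import Pool.Agent.Helper99.Vol

set_option autoImplicit false

namespace Pool.Agent.Helper99

open MeasureTheory

/-- first coordinate (or zero in dimension zero) -/
def fst0 {m : ℕ} (w : Fin m → ℝ) : ℝ := if h : 0 < m then w ⟨0, h⟩ else 0

theorem measurable_fst0 {m : ℕ} : Measurable (fst0 : (Fin m → ℝ) → ℝ) := by
  unfold fst0
  split_ifs with h
  · exact measurable_pi_apply _
  · exact measurable_const

abbrev EE (m : ℕ) := WithLp 2 (ℝ × EuclideanSpace ℝ (Fin m))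

/-- identification of `ℝ × ℝ^m` with the Euclidean product -/
noncomputable def JJ (m : ℕ) : ℝ × (Fin m → ℝ) ≃ᵐ EE m :=
  (MeasurableEquiv.prodCongr (MeasurableEquiv.refl ℝ) (MeasurableEquiv.toLp 2 (Fin m → ℝ))).trans
    (MeasurableEquiv.toLp 2 (ℝ × EuclideanSpace ℝ (Fin m)))

theorem JJ_mp (m : ℕ) : MeasurePreserving (JJ m) volume volume := by
  unfold JJ
  refine MeasurePreserving.trans (μb := volume) ?_ ?_
  · exact (MeasurePreserving.id volume).prod (PiLp.volume_preserving_toLp (Fin m))
  · exact WithLp.volume_preserving_toLp _ _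

theorem JJ_fst {m : ℕ} (p : ℝ × (Fin m → ℝ)) : (JJ m p).fst = p.1 := rfl

theorem JJ_snd {m : ℕ} (p : ℝ × (Fin m → ℝ)) (j : Fin m) : (JJ m p).snd.ofLp j = p.2 j := rfl

theorem JJ_inner {m : ℕ} (p q : ℝ × (Fin m → ℝ)) :
    inner ℝ (JJ m p) (JJ m q) = p.1 * q.1 + ∑ j, p.2 j * q.2 j := by
  rw [WithLp.prod_inner_apply, PiLp.inner_apply]
  simp only [RCLike.inner_apply, conj_trivial]
  rw [mul_comm p.1]
  congr 1
  exact Finset.sum_congr rfl fun j _ => mul_comm _ _

theorem JJ_norm {m : ℕ} (p : ℝ × (Fin m → ℝ)) :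
    ‖JJ m p‖ ^ 2 = p.1 ^ 2 + ∑ j, p.2 j ^ 2 := by
  rw [← real_inner_self_eq_norm_sq, JJ_inner]
  simp only [sq]

theorem finrank_EE (m : ℕ) : Module.finrank ℝ (EE m) = m + 1 := by
  have h : EE m ≃ₗ[ℝ] (ℝ × EuclideanSpace ℝ (Fin m)) := WithLp.linearEquiv 2 ℝ _
  rw [h.finrank_eq]
  simp [add_comm]

theorem exists_rot (m : ℕ) (A : ℝ) (b : Fin m → ℝ) (hD : 0 < A ^ 2 + ∑ j, b j ^ 2) :
    ∃ Φ : ℝ × (Fin m → ℝ) ≃ᵐ ℝ × (Fin m → ℝ), MeasurePreserving Φ volume volume ∧
      (∀ p, (p.1 - 1) ^ 2 + ∑ j, p.2 j ^ 2 = (Φ p).1 ^ 2 + ∑ j, (Φ p).2 j ^ 2) ∧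
      (∀ p, p.1 - 1 = A / √(A ^ 2 + ∑ j, b j ^ 2) * (Φ p).1 +
        √(∑ j, b j ^ 2) / √(A ^ 2 + ∑ j, b j ^ 2) * fst0 (Φ p).2) ∧
      (∀ p, ∑ j, b j * p.2 j = (∑ j, b j ^ 2) / √(A ^ 2 + ∑ j, b j ^ 2) * (Φ p).1 -
        A * (√(∑ j, b j ^ 2) / √(A ^ 2 + ∑ j, b j ^ 2)) * fst0 (Φ p).2) := by
  set B := ∑ j, b j ^ 2 with hB
  have hB0 : 0 ≤ B := Finset.sum_nonneg fun i _ => sq_nonneg _
  set D := √(A ^ 2 + B) with hDdef
  have hD0 : 0 < D := Real.sqrt_pos.mpr hD
  have hD2 : D ^ 2 = A ^ 2 + B := Real.sq_sqrt hD.le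
  set β := √B with hβ
  have hβ2 : β ^ 2 = B := Real.sq_sqrt hB0
  have hβ0 : 0 ≤ β := Real.sqrt_nonneg B
  let T : ℝ × (Fin m → ℝ) ≃ᵐ ℝ × (Fin m → ℝ) := MeasurableEquiv.subRight (1, 0)
  have hT : MeasurePreserving T volume volume := by
    have hI : (volume : Measure (ℝ × (Fin m → ℝ))).IsAddRightInvariant := by
      rw [Measure.volume_eq_prod]; infer_instance
    exact measurePreserving_sub_right volume _
  have hT1 : ∀ p, (T p).1 = p.1 - 1 := fun p => rfl
  have hT2 : ∀ p, (T p).2 = p.2 := fun p => by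
    show p.2 - 0 = p.2
    simp
  let n : EE m := JJ m (A / D, fun j => b j / D)
  have hn : inner ℝ n n = (1 : ℝ) := by
    simp only [n]
    rw [JJ_inner]
    have : ∀ j, b j / D * (b j / D) = b j ^ 2 / D ^ 2 := by intro j; ring
    simp only [this]
    rw [← Finset.sum_div, ← hB, hD2]
    have : A / D * (A / D) = A ^ 2 / (A ^ 2 + B) := by rw [← hD2]; ring
    rw [this, ← add_div]
    exact div_self hD.ne'
  have hnp : ∀ p : ℝ × (Fin m → ℝ), inner ℝ n (JJ m (T p)) =
      (A * (p.1 - 1) + ∑ j, b j * p.2 j) / D := by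
    intro p
    simp only [n]
    rw [JJ_inner, hT1, hT2, add_div, Finset.sum_div]
    congr 1
    · ring
    · refine Finset.sum_congr rfl fun j _ => ?_
      ring
  rcases m with _ | m'
  · -- dimension zero
    have hB' : B = 0 := by simp [hB]
    have hβ' : β = 0 := by rw [hβ, hB']; simp
    obtain ⟨Ψ, h1, h2, h3, -⟩ := exists_split (E := EE 0) (N := 0) (finrank_EE 0)
      (fun _ => n) {0} (by
        rw [orthonormal_iff_ite]
        rintro ⟨i, hi⟩ ⟨j, hj⟩
        have hi' : i = 0 := by simpa using hi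
        have hj' : j = 0 := by simpa using hj
        subst hi' hj'
        simpa using hn)
    refine ⟨T.trans ((JJ 0).trans Ψ), hT.trans ((JJ_mp 0).trans h1), ?_, ?_, ?_⟩
    · intro p
      have := h2 (JJ 0 (T p))
      rw [JJ_norm, hT1, hT2] at this
      exact this
    · intro p
      have e1 := h3 (by simp) (JJ 0 (T p))
      rw [hnp] at e1
      simp only [MeasurableEquiv.trans_apply]
      rw [e1, hβ', zero_div, zero_mul, add_zero]
      have : D ^ 2 = A ^ 2 := by rw [hD2, hB']; ring
      simp only [Finset.univ_eq_empty, Finset.sum_empty, add_zero]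
      field_simp
      rw [this]
    · intro p
      rw [hβ', hB']
      simp
  · -- positive dimension
    have hu : ∃ u : EE (m' + 1), inner ℝ u u = (1 : ℝ) ∧ inner ℝ n u = (0 : ℝ) ∧
        ∀ p : ℝ × (Fin (m' + 1) → ℝ), β * inner ℝ u (JJ (m' + 1) (T p)) =
          (B * (p.1 - 1) - A * ∑ j, b j * p.2 j) / D := by
      rcases eq_or_lt_of_le hβ0 with h0 | h0
      · -- `b = 0`
        have hB' : B = 0 := by rw [← hβ2, ← h0]; ring
        have hbj : ∀ j, b j = 0 := by
          intro j
          have := (Finset.sum_eq_zero_iff_of_nonneg (fun i _ => sq_nonneg (b i))).mp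
            (hB.symm.trans hB') j (Finset.mem_univ j)
          exact pow_eq_zero_iff (two_ne_zero) |>.mp this
        refine ⟨JJ (m' + 1) (0, Pi.single 0 1), ?_, ?_, ?_⟩
        · rw [JJ_inner]
          simp [Pi.single_apply]
        · simp only [n]
          rw [JJ_inner]
          simp [hbj]
        · intro p
          rw [← h0, hB']
          simp [hbj]
      · refine ⟨JJ (m' + 1) (β / D, fun j => -(A * b j / (D * β))), ?_, ?_, ?_⟩
        · rw [JJ_inner]
          have : ∀ j, -(A * b j / (D * β)) * -(A * b j / (D * β)) = b j ^ 2 * (A ^ 2 / (D * β) ^ 2) := by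
            intro j; ring
          simp only [this]
          rw [← Finset.sum_mul, ← hB, mul_pow, hβ2]
          have hBne : B ≠ 0 := by rw [← hβ2]; positivity
          have e : β / D * (β / D) = B / D ^ 2 := by rw [← hβ2]; ring
          rw [e]
          field_simp
          rw [hD2]
          ring
        · simp only [n]
          rw [JJ_inner]
          have : ∀ j, b j / D * -(A * b j / (D * β)) = b j ^ 2 * (-(A / (D ^ 2 * β))) := by
            intro j
            field_simp
          simp only [this]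
          rw [← Finset.sum_mul, ← hB, ← hβ2]
          field_simp
          ring
        · intro p
          rw [JJ_inner, hT1, hT2]
          have : ∀ j, -(A * b j / (D * β)) * p.2 j = (b j * p.2 j) * (-(A / (D * β))) := by
            intro j; ring
          simp only [this]
          rw [← Finset.sum_mul, ← hβ2]
          field_simp
          ring
    obtain ⟨u, hu1, hu2, hu3⟩ := hu
    obtain ⟨Ψ, h1, h2, h3, h4⟩ := exists_split (E := EE (m' + 1)) (N := m' + 1)
      (finrank_EE (m' + 1))
      (fun i => if i = 0 then n else u) {0, 1} (by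
        rw [orthonormal_iff_ite]
        rintro ⟨i, hi⟩ ⟨j, hj⟩
        have h10 : (1 : Fin (m' + 1 + 1)) ≠ 0 := by
          intro h; simpa using congrArg Fin.val h
        have hun : inner ℝ u n = (0 : ℝ) := by rw [real_inner_comm]; exact hu2
        rcases hi with hi | hi <;> rcases hj with hj | hj
        · subst hi hj; simpa using hn
        · have hj' : j = 1 := hj
          subst hi hj'
          have hne : (⟨0, Or.inl rfl⟩ : ({0, 1} : Set (Fin (m' + 1 + 1)))) ≠ ⟨1, Or.inr rfl⟩ :=
            fun h => h10 (congrArg Subtype.val h).symm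
          rw [if_neg hne]
          simp only [Set.domRestrict_apply, if_neg h10, if_true]
          exact hu2
        · have hi' : i = 1 := hi
          subst hj hi'
          have hne : (⟨1, Or.inr rfl⟩ : ({0, 1} : Set (Fin (m' + 1 + 1)))) ≠ ⟨0, Or.inl rfl⟩ :=
            fun h => h10 (congrArg Subtype.val h)
          rw [if_neg hne]
          simp only [Set.domRestrict_apply, if_neg h10, if_true]
          exact hun
        · have hi' : i = 1 := hi
          have hj' : j = 1 := hj
          subst hi' hj'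
          simp only [Set.domRestrict_apply, if_neg h10, if_true]
          exact hu1)
    refine ⟨T.trans ((JJ (m' + 1)).trans Ψ), hT.trans ((JJ_mp (m' + 1)).trans h1), ?_, ?_, ?_⟩
    · intro p
      have := h2 (JJ (m' + 1) (T p))
      rw [JJ_norm, hT1, hT2] at this
      exact this
    · intro p
      have e1 := h3 (by simp) (JJ (m' + 1) (T p))
      have e2 := h4 0 (by simp) (JJ (m' + 1) (T p))
      have e3 : fst0 (Ψ (JJ (m' + 1) (T p))).2 = (Ψ (JJ (m' + 1) (T p))).2 0 := by
        simp [fst0]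
      have h10 : (Fin.succ 0 : Fin (m' + 1 + 1)) ≠ 0 := Fin.succ_ne_zero 0
      simp only [if_true] at e1
      simp only [if_neg h10] at e2
      rw [hnp] at e1
      simp only [MeasurableEquiv.trans_apply]
      rw [e3, e1, e2]
      have := hu3 p
      have e4 : β / D * inner ℝ u (JJ (m' + 1) (T p)) =
          ((B * (p.1 - 1) - A * ∑ j, b j * p.2 j) / D) / D := by
        rw [← this]; ring
      rw [e4]
      field_simp
      rw [hD2]
      ring
    · intro p
      have e1 := h3 (by simp) (JJ (m' + 1) (T p))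
      have e2 := h4 0 (by simp) (JJ (m' + 1) (T p))
      have e3 : fst0 (Ψ (JJ (m' + 1) (T p))).2 = (Ψ (JJ (m' + 1) (T p))).2 0 := by
        simp [fst0]
      have h10 : (Fin.succ 0 : Fin (m' + 1 + 1)) ≠ 0 := Fin.succ_ne_zero 0
      simp only [if_true] at e1
      simp only [if_neg h10] at e2
      rw [hnp] at e1
      simp only [MeasurableEquiv.trans_apply]
      rw [e3, e1, e2]
      have := hu3 p
      have e4 : A * (β / D) * inner ℝ u (JJ (m' + 1) (T p)) =
          A * (((B * (p.1 - 1) - A * ∑ j, b j * p.2 j) / D) / D) := by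
        rw [← this]; ring
      rw [e4]
      field_simp
      rw [hD2]
      ring

end Pool.Agent.Helper99
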