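import Mathlib
import Pool.Agent.Helper99.Rot

set_option autoImplicit false

namespace Pool.Agent.Helper99

open MeasureTheory

theorem exists_primitive (P : Polynomial ℝ) : ∃ Q : Polynomial ℝ, Q.derivative = P := by
  induction P using Polynomial.induction_on' with
  | add p q hp hq =>
    obtain ⟨a, ha⟩ := hp
    obtain ⟨b, hb⟩ := hq
    exact ⟨a + b, by rw [Polynomial.derivative_add, ha, hb]⟩
  | monomial n a =>
    refine ⟨Polynomial.monomial (n + 1) (a / (n + 1)), ?_⟩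
    rw [Polynomial.derivative_monomial]
    congr 1
    push_cast
    have : (n : ℝ) + 1 ≠ 0 := by positivity
    field_simp

theorem integral_polynomial (P : Polynomial ℝ) (a : ℝ) :
    ∃ Q : Polynomial ℝ, ∀ x, ∫ c in a..x, P.eval c = Q.eval x := by
  obtain ⟨Q, hQ⟩ := exists_primitive P
  refine ⟨Q - Polynomial.C (Q.eval a), fun x => ?_⟩
  rw [intervalIntegral.integral_eq_sub_of_hasDerivAt (f := fun c => Q.eval c)]
  · simp
  · intro y _
    rw [← hQ]
    exact Q.hasDerivAt y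
  · exact (Polynomial.continuous P).intervalIntegrable _ _

/-- moments of the ball of squared radius `ρ` -/
noncomputable def Bm (m j : ℕ) (ρ : ℝ) : ℝ :=
  ∫ w in {w : Fin m → ℝ | ∑ i, w i ^ 2 ≤ ρ}, fst0 w ^ j

theorem measurableSet_sq {m : ℕ} (ρ : ℝ) : MeasurableSet {w : Fin m → ℝ | ∑ i, w i ^ 2 ≤ ρ} :=
  measurableSet_le (by fun_prop) measurable_const

theorem fst0_smul {m : ℕ} (R : ℝ) (w : Fin m → ℝ) : fst0 (R • w) = R * fst0 w := by
  unfold fst0
  split_ifs <;> simp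

theorem Bm_odd (m j : ℕ) (hj : Odd j) (ρ : ℝ) : Bm m j ρ = 0 := by
  have h : Bm m j ρ = - Bm m j ρ := by
    conv_lhs => unfold Bm
    rw [← integral_indicator (measurableSet_sq ρ),
      ← integral_neg_eq_self (fun w => Set.indicator {w : Fin m → ℝ | ∑ i, w i ^ 2 ≤ ρ}
        (fun w => fst0 w ^ j) w) volume]
    unfold Bm
    rw [← integral_indicator (measurableSet_sq ρ), ← integral_neg]
    congr 1
    funext w
    simp only [Set.indicator, Set.mem_ofPred_eq, Pi.neg_apply, even_two, Even.neg_pow]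
    split_ifs
    · have : fst0 (-w) = - fst0 w := by
        have := fst0_smul (-1) w
        simpa using this
      rw [this, hj.neg_pow]
    · simp
  linarith

theorem Bm_scale (m j : ℕ) {ρ : ℝ} (hρ : 0 < ρ) :
    Bm m j ρ = √ρ ^ (m + j) * Bm m j 1 := by
  have hR : 0 < √ρ := Real.sqrt_pos.mpr hρ
  have h := Measure.integral_comp_smul (volume : Measure (Fin m → ℝ))
    (fun w => Set.indicator {w : Fin m → ℝ | ∑ i, w i ^ 2 ≤ ρ} (fun w => fst0 w ^ j) w) (√ρ)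
  rw [integral_indicator (measurableSet_sq ρ)] at h
  have h1 : ∀ w : Fin m → ℝ, Set.indicator {w : Fin m → ℝ | ∑ i, w i ^ 2 ≤ ρ}
      (fun w => fst0 w ^ j) (√ρ • w) =
      √ρ ^ j * Set.indicator {w : Fin m → ℝ | ∑ i, w i ^ 2 ≤ 1} (fun w => fst0 w ^ j) w := by
    intro w
    simp only [Set.indicator, Set.mem_ofPred_eq]
    have e : (∑ i, (√ρ • w) i ^ 2 ≤ ρ) ↔ (∑ i, w i ^ 2 ≤ 1) := by
      simp only [Pi.smul_apply, smul_eq_mul, mul_pow, Real.sq_sqrt hρ.le]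
      rw [← Finset.mul_sum]
      constructor
      · intro h
        by_contra h'
        push Not at h'
        nlinarith
      · intro h
        nlinarith
    rw [if_congr e rfl rfl]
    split_ifs
    · rw [fst0_smul, mul_pow]
    · simp
  simp_rw [h1] at h
  rw [integral_const_mul, integral_indicator (measurableSet_sq 1)] at h
  have h2 : √ρ ^ j * Bm m j 1 = (√ρ ^ m)⁻¹ * Bm m j ρ := by
    have e : |(√ρ ^ Module.finrank ℝ (Fin m → ℝ))⁻¹| = (√ρ ^ m)⁻¹ := by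
      rw [Module.finrank_fin_fun, abs_of_pos (by positivity)]
    rw [e] at h
    simpa [Bm] using h
  rw [pow_add, mul_assoc, h2]
  field_simp

theorem Bm_eq (l j : ℕ) {ρ : ℝ} (hρ : 0 < ρ) :
    Bm (2 * l) j ρ = Bm (2 * l) j 1 * ρ ^ (l + j / 2) := by
  rcases Nat.even_or_odd j with hj | hj
  · obtain ⟨k, hk⟩ := hj
    rw [Bm_scale _ _ hρ, mul_comm]
    congr 1
    have : 2 * l + j = 2 * (l + j / 2) := by omega
    rw [this, pow_mul, Real.sq_sqrt hρ.le]
  · rw [Bm_odd _ _ hj, Bm_odd _ _ hj, zero_mul]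

/-- half-ball moments -/
noncomputable def Mom (m : ℕ) (ε : ℝ) (i j : ℕ) (s : ℝ) : ℝ :=
  ∫ p in {p : ℝ × (Fin m → ℝ) | p.1 ^ 2 + ∑ i, p.2 i ^ 2 ≤ ε ^ 2 ∧ p.1 ≤ s}, p.1 ^ i * fst0 p.2 ^ j

theorem isCompact_ball0 (m : ℕ) (ε : ℝ) :
    IsCompact {p : ℝ × (Fin m → ℝ) | p.1 ^ 2 + ∑ i, p.2 i ^ 2 ≤ ε ^ 2} := by
  apply Metric.isCompact_of_isClosed_isBounded
  · exact isClosed_le (by fun_prop) continuous_const
  · refine (Metric.isBounded_closedBall (x := ((0 : ℝ), (0 : Fin m → ℝ))) (r := |ε|)).subset ?_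
    intro p hp
    simp only [Set.mem_ofPred_eq] at hp
    have hs : 0 ≤ ∑ i, p.2 i ^ 2 := Finset.sum_nonneg fun i _ => sq_nonneg _
    rw [Metric.mem_closedBall, Prod.dist_eq, max_le_iff]
    constructor
    · rw [Real.dist_eq, sub_zero]
      apply sq_le_sq.mp
      linarith
    · rw [dist_pi_le_iff (abs_nonneg _)]
      intro i
      simp only [Pi.zero_apply]
      rw [Real.dist_eq, sub_zero]
      apply sq_le_sq.mp
      have : p.2 i ^ 2 ≤ ∑ i, p.2 i ^ 2 :=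
        Finset.single_le_sum (f := fun i => p.2 i ^ 2) (fun i _ => sq_nonneg _) (Finset.mem_univ i)
      nlinarith [sq_nonneg p.1]

theorem continuous_fst0 {m : ℕ} : Continuous (fst0 : (Fin m → ℝ) → ℝ) := by
  unfold fst0
  split_ifs with h
  · exact continuous_apply _
  · exact continuous_const

theorem Mom_integrable (m : ℕ) (ε : ℝ) (i j : ℕ) (s : ℝ) :
    IntegrableOn (fun p : ℝ × (Fin m → ℝ) => p.1 ^ i * fst0 p.2 ^ j)
      {p : ℝ × (Fin m → ℝ) | p.1 ^ 2 + ∑ i, p.2 i ^ 2 ≤ ε ^ 2 ∧ p.1 ≤ s} := by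
  have hc : Continuous (fun p : ℝ × (Fin m → ℝ) => p.1 ^ i * fst0 p.2 ^ j) :=
    (continuous_fst.pow i).mul ((continuous_fst0.comp continuous_snd).pow j)
  exact (hc.continuousOn.integrableOn_compact (isCompact_ball0 m ε)).mono_set
    (fun p hp => hp.1)

theorem exists_Mom (l : ℕ) {ε : ℝ} (hε : 0 < ε) (i j : ℕ) :
    ∃ Q : Polynomial ℝ, ∀ s, Mom (2 * l) ε i j s = Q.eval (max (-ε) (min s ε)) := by
  obtain ⟨Q, hQ⟩ := integral_polynomial
    (Polynomial.X ^ i * (Polynomial.C (Bm (2 * l) j 1) *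
      (Polynomial.C (ε ^ 2) - Polynomial.X ^ 2) ^ (l + j / 2))) (-ε)
  refine ⟨Q, fun s => ?_⟩
  rw [← hQ]
  have hms : MeasurableSet {p : ℝ × (Fin (2 * l) → ℝ) |
      p.1 ^ 2 + ∑ i, p.2 i ^ 2 ≤ ε ^ 2 ∧ p.1 ≤ s} := by
    have e1 : MeasurableSet {p : ℝ × (Fin (2 * l) → ℝ) | p.1 ^ 2 + ∑ i, p.2 i ^ 2 ≤ ε ^ 2} :=
      measurableSet_le (by fun_prop) measurable_const
    have e2 : MeasurableSet {p : ℝ × (Fin (2 * l) → ℝ) | p.1 ≤ s} :=
      measurableSet_le (by fun_prop) measurable_const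
    exact e1.inter e2
  have hI := (integrable_indicator_iff hms).mpr (Mom_integrable (2 * l) ε i j s)
  unfold Mom
  rw [← integral_indicator hms, Measure.volume_eq_prod, integral_prod _
    (by rw [← Measure.volume_eq_prod]; exact hI)]
  set m := max (-ε) (min s ε) with hm
  have hm1 : -ε ≤ m := le_max_left _ _
  have hm2 : m ≤ ε := max_le (by linarith) (min_le_right _ _)
  have hinner : ∀ c : ℝ, ∫ w : Fin (2 * l) → ℝ, Set.indicator {p : ℝ × (Fin (2 * l) → ℝ) |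
      p.1 ^ 2 + ∑ i, p.2 i ^ 2 ≤ ε ^ 2 ∧ p.1 ≤ s} (fun p => p.1 ^ i * fst0 p.2 ^ j) (c, w) =
      Set.indicator {c : ℝ | c ≤ s} (fun c => c ^ i * Bm (2 * l) j (ε ^ 2 - c ^ 2)) c := by
    intro c
    by_cases h : c ≤ s
    · rw [Set.indicator_of_mem (by exact h)]
      unfold Bm
      rw [← integral_indicator (measurableSet_sq _), ← integral_const_mul]
      congr 1
      funext w
      simp only [Set.indicator, Set.mem_ofPred_eq]
      have e : (c ^ 2 + ∑ i, w i ^ 2 ≤ ε ^ 2 ∧ c ≤ s) ↔ (∑ i, w i ^ 2 ≤ ε ^ 2 - c ^ 2) := by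
        constructor
        · rintro ⟨h1, _⟩; linarith
        · intro h1; exact ⟨by linarith, h⟩
      rw [if_congr e rfl rfl]
      split_ifs <;> simp
    · rw [Set.indicator_of_notMem (by exact h)]
      have : ∀ w : Fin (2 * l) → ℝ, Set.indicator {p : ℝ × (Fin (2 * l) → ℝ) |
        p.1 ^ 2 + ∑ i, p.2 i ^ 2 ≤ ε ^ 2 ∧ p.1 ≤ s} (fun p => p.1 ^ i * fst0 p.2 ^ j) (c, w) = 0 := by
        intro w
        simp [Set.indicator, h]
      simp [this]
  simp_rw [hinner]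
  rw [intervalIntegral.integral_of_le hm1, ← integral_indicator measurableSet_Ioc]
  apply integral_congr_ae
  have hae : ∀ᵐ c : ℝ, c ≠ -ε ∧ c ≠ ε := by
    have h1 : ∀ᵐ c : ℝ, c ≠ -ε := by
      rw [ae_iff]; simp
    have h2 : ∀ᵐ c : ℝ, c ≠ ε := by
      rw [ae_iff]; simp
    filter_upwards [h1, h2] with c h1 h2 using ⟨h1, h2⟩
  filter_upwards [hae] with c hc
  simp only [Set.indicator, Set.mem_ofPred_eq, Set.mem_Ioc]
  by_cases hc1 : -ε < c ∧ c < ε
  · have hρ : 0 < ε ^ 2 - c ^ 2 := by nlinarith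
    have e : (-ε < c ∧ c ≤ m) ↔ c ≤ s := by
      rw [hm, le_max_iff, le_min_iff]
      constructor
      · rintro ⟨h1, h2 | ⟨h2, _⟩⟩
        · linarith
        · exact h2
      · intro h
        exact ⟨hc1.1, Or.inr ⟨h, hc1.2.le⟩⟩
    rw [if_congr e rfl rfl, Bm_eq l j hρ]
    simp
  · have e : ¬ (-ε < c ∧ c ≤ m) := by
      rintro ⟨h1, h2⟩
      exact hc1 ⟨h1, lt_of_le_of_ne (le_trans h2 hm2) hc.2⟩
    rw [if_neg e]
    have hρ : ε ^ 2 - c ^ 2 < 0 := by
      by_contra hcon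
      push Not at hcon
      have h3 : |c| ≤ |ε| := sq_le_sq.mp (by linarith)
      rw [abs_of_pos hε, abs_le] at h3
      exact hc1 ⟨lt_of_le_of_ne h3.1 (Ne.symm hc.1), lt_of_le_of_ne h3.2 hc.2⟩
    have hB : Bm (2 * l) j (ε ^ 2 - c ^ 2) = 0 := by
      unfold Bm
      have : {w : Fin (2 * l) → ℝ | ∑ i, w i ^ 2 ≤ ε ^ 2 - c ^ 2} = ∅ := by
        ext w
        simp only [Set.mem_ofPred_eq, Set.mem_empty_iff_false, iff_false, not_le]
        exact lt_of_lt_of_le hρ (Finset.sum_nonneg fun i _ => sq_nonneg _)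
      rw [this]
      simp
    rw [hB]
    simp

end Pool.Agent.Helper99
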