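import Mathlib
import Pool.Agent.Helper99.AlgFun
import Pool.Agent.Helper99.Mom

set_option autoImplicit false

namespace Pool.Agent.Helper99

open MeasureTheory

section

variable {τ : Type} (D : Set (τ → ℝ))

/-- polynomials in two variables whose coefficients are algebraic functions on `D` -/
def BiAlg (R : (τ → ℝ) → ℝ → ℝ → ℝ) : Prop :=
  ∃ (ι : Type) (_ : Fintype ι) (c : ι → (τ → ℝ) → ℝ) (i j : ι → ℕ), (∀ l, AlgOn D (c l)) ∧
    ∀ x ∈ D, ∀ σ w, R x σ w = ∑ l, c l x * (σ ^ (i l) * w ^ (j l))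

variable {D}

theorem BiAlg.coef {f : (τ → ℝ) → ℝ} (hf : AlgOn D f) : BiAlg D (fun x _ _ => f x) :=
  ⟨Unit, inferInstance, fun _ => f, fun _ => 0, fun _ => 0, fun _ => hf, fun x _ σ w => by simp⟩

theorem BiAlg.fst : BiAlg D (fun _ σ _ => σ) :=
  ⟨Unit, inferInstance, fun _ _ => 1, fun _ => 1, fun _ => 0, fun _ => AlgOn.const 1,
    fun x _ σ w => by simp⟩

theorem BiAlg.snd : BiAlg D (fun _ _ w => w) :=
  ⟨Unit, inferInstance, fun _ _ => 1, fun _ => 0, fun _ => 1, fun _ => AlgOn.const 1,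
    fun x _ σ w => by simp⟩

theorem BiAlg.add {R S : (τ → ℝ) → ℝ → ℝ → ℝ} (hR : BiAlg D R) (hS : BiAlg D S) :
    BiAlg D (fun x σ w => R x σ w + S x σ w) := by
  obtain ⟨ι, hι, c, i, j, hc, h⟩ := hR
  obtain ⟨κ, hκ, d, i', j', hd, h'⟩ := hS
  refine ⟨ι ⊕ κ, inferInstance, Sum.elim c d, Sum.elim i i', Sum.elim j j', ?_, ?_⟩
  · rintro (l | l)
    · exact hc l
    · exact hd l
  · intro x hx σ w
    show R x σ w + S x σ w = _
    rw [Fintype.sum_sum_type, h x hx, h' x hx]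
    rfl

theorem BiAlg.mul {R S : (τ → ℝ) → ℝ → ℝ → ℝ} (hR : BiAlg D R) (hS : BiAlg D S) :
    BiAlg D (fun x σ w => R x σ w * S x σ w) := by
  obtain ⟨ι, hι, c, i, j, hc, h⟩ := hR
  obtain ⟨κ, hκ, d, i', j', hd, h'⟩ := hS
  refine ⟨ι × κ, inferInstance, fun p x => c p.1 x * d p.2 x, fun p => i p.1 + i' p.2,
    fun p => j p.1 + j' p.2, ?_, ?_⟩
  · rintro ⟨l, l'⟩
    exact (hc l).mul (hd l')
  · intro x hx σ w
    show R x σ w * S x σ w = _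
    rw [Fintype.sum_prod_type, h x hx, h' x hx, Finset.sum_mul_sum]
    refine Finset.sum_congr rfl fun l _ => Finset.sum_congr rfl fun l' _ => ?_
    simp only [pow_add]
    ring

theorem BiAlg.congr {R S : (τ → ℝ) → ℝ → ℝ → ℝ} (hR : BiAlg D R)
    (h : ∀ x ∈ D, ∀ σ w, S x σ w = R x σ w) : BiAlg D S := by
  obtain ⟨ι, hι, c, i, j, hc, h'⟩ := hR
  exact ⟨ι, hι, c, i, j, hc, fun x hx σ w => by rw [h x hx, h' x hx]⟩

theorem BiAlg.evalPoly (P : MvPolynomial (Fin 2) ℝ) {u v : (τ → ℝ) → ℝ → ℝ → ℝ}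
    (hu : BiAlg D u) (hv : BiAlg D v) :
    BiAlg D (fun x σ w => MvPolynomial.eval ![u x σ w, v x σ w] P) := by
  induction P using MvPolynomial.induction_on with
  | C a => exact (BiAlg.coef (AlgOn.const a)).congr (fun x _ σ w => by simp)
  | add p q hp hq => exact (hp.add hq).congr (fun x _ σ w => by simp)
  | mul_X p n hp =>
    fin_cases n
    · exact (hp.mul hu).congr (fun x _ σ w => by simp)
    · exact (hp.mul hv).congr (fun x _ σ w => by simp)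

theorem BiAlg.integral {R : (τ → ℝ) → ℝ → ℝ → ℝ} (hR : BiAlg D R) (l : ℕ) {ε : ℝ} (hε : 0 < ε)
    {s : (τ → ℝ) → ℝ} (hs : AlgOn D s) :
    AlgOn D (fun x => ∫ p in {p : ℝ × (Fin (2 * l) → ℝ) |
      p.1 ^ 2 + ∑ i, p.2 i ^ 2 ≤ ε ^ 2 ∧ p.1 ≤ s x}, R x p.1 (fst0 p.2)) := by
  obtain ⟨ι, hι, c, i, j, hc, h⟩ := hR
  have h1 : ∀ x ∈ D, (∫ p in {p : ℝ × (Fin (2 * l) → ℝ) |
      p.1 ^ 2 + ∑ i, p.2 i ^ 2 ≤ ε ^ 2 ∧ p.1 ≤ s x}, R x p.1 (fst0 p.2)) =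
      ∑ q, c q x * Mom (2 * l) ε (i q) (j q) (s x) := by
    intro x hx
    simp_rw [h x hx]
    rw [integral_finsetSum]
    · refine Finset.sum_congr rfl fun q _ => ?_
      rw [integral_const_mul]
      rfl
    · intro q _
      exact (Mom_integrable (2 * l) ε (i q) (j q) (s x)).const_mul _
  refine AlgOn.congr ?_ h1
  refine AlgOn.sum _ fun q _ => (hc q).mul ?_
  obtain ⟨Q, hQ⟩ := exists_Mom l hε (i q) (j q)
  refine AlgOn.congr (AlgOn.polyComp Q ((AlgOn.const (-ε)).max (hs.min (AlgOn.const ε)))) ?_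
  intro x _
  exact hQ (s x)

theorem AlgOn.sqrt {f : (τ → ℝ) → ℝ} (hf : AlgOn D f) (h0 : ∀ x ∈ D, 0 ≤ f x) :
    AlgOn D (fun x => √(f x)) :=
  AlgOn.of_sq (hf.congr fun x hx => Real.sq_sqrt (h0 x hx))

theorem algOn_Icut (l : ℕ) {ε : ℝ} (hε : 0 < ε) {α A t : (τ → ℝ) → ℝ}
    {b : Fin (2 * l) → (τ → ℝ) → ℝ} (hα : AlgOn D α) (hA : AlgOn D A) (ht : AlgOn D t)
    (hb : ∀ j, AlgOn D (b j)) (hα0 : ∀ x ∈ D, α x ≠ 0) (hA0 : ∀ x ∈ D, A x ≠ 0)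
    (P : MvPolynomial (Fin 2) ℝ) :
    AlgOn D (fun x => Icut (2 * l) ε (α x) (A x) (fun j => b j x) (t x) P) := by
  have hB : AlgOn D (fun x => ∑ j, b j x ^ 2) := AlgOn.sum _ fun j _ => (hb j).pow 2
  have hD : AlgOn D (fun x => √(A x ^ 2 + ∑ j, b j x ^ 2)) :=
    ((hA.pow 2).add hB).sqrt (fun x _ => by positivity)
  have hD0 : ∀ x ∈ D, 0 < A x ^ 2 + ∑ j, b j x ^ 2 := by
    intro x hx
    have h1 : 0 < A x ^ 2 := by have := hA0 x hx; positivity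
    have h2 : 0 ≤ ∑ j, b j x ^ 2 := Finset.sum_nonneg fun i _ => sq_nonneg _
    linarith
  have hD0' : ∀ x ∈ D, √(A x ^ 2 + ∑ j, b j x ^ 2) ≠ 0 := fun x hx =>
    (Real.sqrt_pos.mpr (hD0 x hx)).ne'
  have hβ : AlgOn D (fun x => √(∑ j, b j x ^ 2)) :=
    hB.sqrt (fun x _ => Finset.sum_nonneg fun i _ => sq_nonneg _)
  -- the new integrand
  let u : (τ → ℝ) → ℝ → ℝ → ℝ := fun x σ w =>
    1 + (A x / √(A x ^ 2 + ∑ j, b j x ^ 2) * σ +
      √(∑ j, b j x ^ 2) / √(A x ^ 2 + ∑ j, b j x ^ 2) * w)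
  let v : (τ → ℝ) → ℝ → ℝ → ℝ := fun x σ w =>
    (t x - ((∑ j, b j x ^ 2) / √(A x ^ 2 + ∑ j, b j x ^ 2) * σ -
        A x * (√(∑ j, b j x ^ 2) / √(A x ^ 2 + ∑ j, b j x ^ 2)) * w)) / α x
  have hu : BiAlg D u := (BiAlg.coef (AlgOn.const 1)).add
    (((BiAlg.coef (hA.div hD hD0')).mul BiAlg.fst).add
      ((BiAlg.coef (hβ.div hD hD0')).mul BiAlg.snd))
  have hv : BiAlg D v := by
    have h1 : BiAlg D (fun x σ w => (t x + ((-(∑ j, b j x ^ 2)) / √(A x ^ 2 + ∑ j, b j x ^ 2)) * σ +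
        (A x * (√(∑ j, b j x ^ 2) / √(A x ^ 2 + ∑ j, b j x ^ 2))) * w) * (α x)⁻¹) :=
      (((BiAlg.coef ht).add ((BiAlg.coef (hB.neg.div hD hD0')).mul BiAlg.fst)).add
        ((BiAlg.coef (hA.mul (hβ.div hD hD0'))).mul BiAlg.snd)).mul (BiAlg.coef (hα.inv hα0))
    refine h1.congr ?_
    intro x _ σ w
    simp only [v]
    rw [div_eq_mul_inv]
    ring
  have hs : AlgOn D (fun x => (t x - A x) / √(A x ^ 2 + ∑ j, b j x ^ 2)) := (ht.sub hA).div hD hD0'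
  refine AlgOn.congr (BiAlg.integral (BiAlg.evalPoly P hu hv) l hε hs) ?_
  intro x hx
  obtain ⟨Φ, h1, h2, h3, h4⟩ := exists_rot (2 * l) (A x) (fun j => b j x) (hD0 x hx)
  unfold Icut
  set DD := √(A x ^ 2 + ∑ j, b j x ^ 2) with hDD
  have hDDpos : 0 < DD := Real.sqrt_pos.mpr (hD0 x hx)
  have hDD2 : DD ^ 2 = A x ^ 2 + ∑ j, b j x ^ 2 := Real.sq_sqrt (hD0 x hx).le
  have hset : Bl (2 * l) ε ∩ {p | A x * p.1 + ∑ j, b j x * p.2 j ≤ t x} =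
      Φ ⁻¹' {p : ℝ × (Fin (2 * l) → ℝ) |
      p.1 ^ 2 + ∑ i, p.2 i ^ 2 ≤ ε ^ 2 ∧ p.1 ≤ (t x - A x) / DD} := by
    ext p
    simp only [Bl, Set.mem_inter_iff, Set.mem_ofPred_eq, Set.mem_preimage]
    rw [h2 p]
    have e : A x * p.1 + ∑ j, b j x * p.2 j = A x + DD * (Φ p).1 := by
      have e1 := h3 p
      have e2 := h4 p
      have : A x * p.1 + ∑ j, b j x * p.2 j = A x + (A x * (p.1 - 1) + ∑ j, b j x * p.2 j) := by
        ring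
      rw [this, e1, e2]
      field_simp
      linear_combination (-(Φ p).1) * hDD2
    rw [e, le_div_iff₀ hDDpos]
    constructor
    · rintro ⟨h5, h6⟩; exact ⟨h5, by linarith⟩
    · rintro ⟨h5, h6⟩; exact ⟨h5, by linarith⟩
  have hmp := h1.setIntegral_preimage_emb Φ.measurableEmbedding
    (fun q => MvPolynomial.eval ![u x q.1 (fst0 q.2), v x q.1 (fst0 q.2)] P)
    {p : ℝ × (Fin (2 * l) → ℝ) |
      p.1 ^ 2 + ∑ i, p.2 i ^ 2 ≤ ε ^ 2 ∧ p.1 ≤ (t x - A x) / DD}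
  rw [hset, ← hmp]
  refine setIntegral_congr_fun ?_ ?_
  · have hms : MeasurableSet {p : ℝ × (Fin (2 * l) → ℝ) |
      p.1 ^ 2 + ∑ i, p.2 i ^ 2 ≤ ε ^ 2 ∧ p.1 ≤ (t x - A x) / DD} := by
      have e1 : MeasurableSet {p : ℝ × (Fin (2 * l) → ℝ) | p.1 ^ 2 + ∑ i, p.2 i ^ 2 ≤ ε ^ 2} :=
        measurableSet_le (by fun_prop) measurable_const
      have e2 : MeasurableSet {p : ℝ × (Fin (2 * l) → ℝ) | p.1 ≤ (t x - A x) / DD} :=
        measurableSet_le (by fun_prop) measurable_const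
      exact e1.inter e2
    exact Φ.measurable hms
  · intro p _
    simp only [u, v]
    rw [← h3 p, ← h4 p, add_sub_cancel]

end

/-- the parameters `(a, b, t)` -/
abbrev Par (k m : ℕ) := (Fin k ⊕ Fin m) ⊕ Fin 1

theorem tube_algebraic (l m' : ℕ) {ε : ℝ} (hε0 : 0 < ε) (hε : ε < 1) :
    AlgOn (Set.univ : Set (Par (2 * l + 1) (2 * m') → ℝ)) (fun x =>
      (volume {p : (Fin (2 * l + 1) → ℝ) × (Fin (2 * m') → ℝ) |
        (√(∑ i, p.1 i ^ 2) - 1) ^ 2 + ∑ j, p.2 j ^ 2 ≤ ε ^ 2 ∧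
        ∑ i, x (Sum.inl (Sum.inl i)) * p.1 i + ∑ j, x (Sum.inl (Sum.inr j)) * p.2 j ≤
          x (Sum.inr 0)}).toReal) := by
  let D : Set (Par (2 * l + 1) (2 * m') → ℝ) := {x | 0 < ∑ i, x (Sum.inl (Sum.inl i)) ^ 2}
  have hA : AlgOn D (fun x => ∑ i, x (Sum.inl (Sum.inl i)) ^ 2) :=
    AlgOn.sum _ fun i _ => (AlgOn.coord _).pow 2
  have hα : AlgOn D (fun x => √(∑ i, x (Sum.inl (Sum.inl i)) ^ 2)) :=
    hA.sqrt fun x hx => le_of_lt hx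
  have hα0 : ∀ x ∈ D, √(∑ i, x (Sum.inl (Sum.inl i)) ^ 2) ≠ 0 := fun x hx =>
    (Real.sqrt_pos.mpr hx).ne'
  have main : AlgOn D (fun x =>
      (volume {p : (Fin (2 * l + 1) → ℝ) × (Fin (2 * m') → ℝ) |
        (√(∑ i, p.1 i ^ 2) - 1) ^ 2 + ∑ j, p.2 j ^ 2 ≤ ε ^ 2 ∧
        ∑ i, x (Sum.inl (Sum.inl i)) * p.1 i + ∑ j, x (Sum.inl (Sum.inr j)) * p.2 j ≤
          x (Sum.inr 0)}).toReal) := by
    have h1 := algOn_Icut (D := D) m' hε0 hα hα.neg (AlgOn.coord (Sum.inr 0))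
      (b := fun j x => x (Sum.inl (Sum.inr j))) (fun j => AlgOn.coord _) hα0
      (fun x hx => neg_ne_zero.mpr (hα0 x hx)) (P1 l)
    have h2 := algOn_Icut (D := D) m' hε0 hα hα (AlgOn.coord (Sum.inr 0))
      (b := fun j x => x (Sum.inl (Sum.inr j))) (fun j => AlgOn.coord _) hα0 hα0 (P2 l)
    refine (h1.add h2).congr ?_
    intro x hx
    exact volume_tube hε0 hε (fun i => x (Sum.inl (Sum.inl i))) (fun j => x (Sum.inl (Sum.inr j)))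
      (x (Sum.inr 0)) hx
  refine main.extend (∑ i, MvPolynomial.X (Sum.inl (Sum.inl i)) ^ 2) ?_ ?_
  · intro h
    have := congrArg (MvPolynomial.eval (fun _ => (1 : ℝ))) h
    simp at this
    norm_cast at this
  · intro x hx
    have h1 : ¬ (0 < ∑ i, x (Sum.inl (Sum.inl i)) ^ 2) := hx
    have h2 : 0 ≤ ∑ i, x (Sum.inl (Sum.inl i)) ^ 2 := Finset.sum_nonneg fun i _ => sq_nonneg _
    simp only [map_sum, map_pow, MvPolynomial.eval_X]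
    linarith

end Pool.Agent.Helper99
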