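import Mathlib

set_option autoImplicit false

namespace Pool.Agent.Helper99.KConv

open MeasureTheory
open scoped ENNReal

/-- A symmetric convex body in `ℝ^n`. -/
def IsSymmetricConvexBody {n : ℕ} (K : Set (EuclideanSpace ℝ (Fin n))) : Prop :=
  Convex ℝ K ∧ IsCompact K ∧ (interior K).Nonempty ∧ ∀ x ∈ K, -x ∈ K

/-- Average of `f` over the unit sphere for the normalized (rotation invariant) surface measure. -/
noncomputable def sphereAvg {n : ℕ} (f : EuclideanSpace ℝ (Fin n) → ℝ) : ℝ :=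
  ⨍ x : Metric.sphere (0 : EuclideanSpace ℝ (Fin n)) 1, f x
    ∂(volume : Measure (EuclideanSpace ℝ (Fin n))).toSphere

/-- `M(K)`, the average of the norm `‖x‖_K` (the gauge of `K`) over the sphere. -/
noncomputable def M {n : ℕ} (K : Set (EuclideanSpace ℝ (Fin n))) : ℝ :=
  sphereAvg (fun x => gauge K x)

/-- `M^*(K)`, the average of `sup_{y ∈ K} ⟨x, y⟩` over the sphere. -/
noncomputable def Mstar {n : ℕ} (K : Set (EuclideanSpace ℝ (Fin n))) : ℝ :=
  sphereAvg (fun x => sSup ((fun y => inner ℝ x y) '' K))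

/-- The position-independent product `MM^*(K)`: infimum of `M(TK) M^*(TK)` over invertible
linear maps `T`. -/
noncomputable def MMstar {n : ℕ} (K : Set (EuclideanSpace ℝ (Fin n))) : ℝ :=
  ⨅ T : EuclideanSpace ℝ (Fin n) ≃L[ℝ] EuclideanSpace ℝ (Fin n), M (T '' K) * Mstar (T '' K)

/-- The Rademacher projection `R_m f = ∑ ε_i E[ε_i f]` for functions on `{-1,1}^m`. -/
noncomputable def rad {n m : ℕ} (f : (Fin m → ℤˣ) → EuclideanSpace ℝ (Fin n)) (ε : Fin m → ℤˣ) :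
    EuclideanSpace ℝ (Fin n) :=
  ∑ i, ((ε i : ℤ) : ℝ) • ((2 ^ m : ℝ)⁻¹ • ∑ δ : Fin m → ℤˣ, ((δ i : ℤ) : ℝ) • f δ)

/-- The norm of `f` in `L_2({-1,1}^m; X_K)`. -/
noncomputable def L2norm {n m : ℕ} (K : Set (EuclideanSpace ℝ (Fin n)))
    (f : (Fin m → ℤˣ) → EuclideanSpace ℝ (Fin n)) : ℝ :=
  √((2 ^ m : ℝ)⁻¹ * ∑ ε : Fin m → ℤˣ, gauge K (f ε) ^ 2)

/-- The K-convexity constant of `X_K`: the supremum over `m` of the norm of the Rademacher
projection on `L_2({-1,1}^m; X_K)`, as an extended nonnegative real. -/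
noncomputable def KConvexityConstant {n : ℕ} (K : Set (EuclideanSpace ℝ (Fin n))) : ℝ≥0∞ :=
  ⨆ (m : ℕ) (f : (Fin m → ℤˣ) → EuclideanSpace ℝ (Fin n)) (_ : L2norm K f ≠ 0),
    ENNReal.ofReal (L2norm K (rad f) / L2norm K f)

end Pool.Agent.Helper99.KConv
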