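import Mathlib
import Pool.Agent.Helper99.KConvDefs

set_option autoImplicit false

namespace Pool.Agent.Helper99.KConv

open MeasureTheory
open scoped ENNReal Pointwise

section sphere

variable {n : ℕ}

/-- the map of the sphere induced by a linear isometry -/
noncomputable def sphMap (g : EuclideanSpace ℝ (Fin n) ≃ₗᵢ[ℝ] EuclideanSpace ℝ (Fin n))
    (x : Metric.sphere (0 : EuclideanSpace ℝ (Fin n)) 1) :
    Metric.sphere (0 : EuclideanSpace ℝ (Fin n)) 1 :=
  ⟨g x, by simp⟩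

theorem measurable_sphMap (g : EuclideanSpace ℝ (Fin n) ≃ₗᵢ[ℝ] EuclideanSpace ℝ (Fin n)) :
    Measurable (sphMap g) := by
  apply Measurable.subtype_mk
  exact g.continuous.measurable.comp measurable_subtype_coe

theorem sphMap_mp (g : EuclideanSpace ℝ (Fin n) ≃ₗᵢ[ℝ] EuclideanSpace ℝ (Fin n)) :
    MeasurePreserving (sphMap g) (volume : Measure (EuclideanSpace ℝ (Fin n))).toSphere
      (volume : Measure (EuclideanSpace ℝ (Fin n))).toSphere := by
  refine ⟨measurable_sphMap g, ?_⟩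
  ext s hs
  rw [Measure.map_apply (measurable_sphMap g) hs, Measure.toSphere_apply' _ hs,
    Measure.toSphere_apply' _ (measurable_sphMap g hs)]
  congr 1
  have h1 : (Set.Ioo (0 : ℝ) 1 • (Subtype.val '' (sphMap g ⁻¹' s)) :
      Set (EuclideanSpace ℝ (Fin n))) = g ⁻¹' (Set.Ioo (0 : ℝ) 1 • (Subtype.val '' s)) := by
    ext x
    simp only [Set.mem_smul, Set.mem_image, Set.mem_preimage, Subtype.exists, exists_and_right,
      exists_eq_right]
    constructor
    · rintro ⟨t, ht, y, ⟨hy1, hy2⟩, rfl⟩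
      refine ⟨t, ht, g y, ⟨?_, hy2⟩, ?_⟩
      · simpa using hy1
      · rw [map_smul]
    · rintro ⟨t, ht, y, ⟨hy1, hy2⟩, h⟩
      refine ⟨t, ht, g.symm y, ⟨by simpa using hy1, ?_⟩, ?_⟩
      · have : sphMap g ⟨g.symm y, by simpa using hy1⟩ = ⟨y, hy1⟩ := by
          apply Subtype.ext
          simp [sphMap]
        rw [this]
        exact hy2
      · apply g.injective
        rw [map_smul, ← h]
        simp
  rw [h1]
  have hg : MeasurePreserving (g.toHomeomorph.toMeasurableEquiv) volume volume := g.measurePreserving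
  exact hg.measure_preimage_equiv _

theorem sphere_sq_symm (i j : Fin n) :
    ∫ x : Metric.sphere (0 : EuclideanSpace ℝ (Fin n)) 1, (x : EuclideanSpace ℝ (Fin n)) i ^ 2
      ∂(volume : Measure (EuclideanSpace ℝ (Fin n))).toSphere =
    ∫ x : Metric.sphere (0 : EuclideanSpace ℝ (Fin n)) 1, (x : EuclideanSpace ℝ (Fin n)) j ^ 2
      ∂(volume : Measure (EuclideanSpace ℝ (Fin n))).toSphere := by
  let g : EuclideanSpace ℝ (Fin n) ≃ₗᵢ[ℝ] EuclideanSpace ℝ (Fin n) :=
    LinearIsometryEquiv.piLpCongrLeft 2 ℝ ℝ (Equiv.swap i j)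
  have h := (sphMap_mp g).map_eq
  conv_lhs => rw [← h]
  rw [integral_map (measurable_sphMap g).aemeasurable]
  · refine integral_congr_ae (Filter.Eventually.of_forall fun x => ?_)
    simp only [sphMap, g]
    simp [LinearIsometryEquiv.piLpCongrLeft_apply, Equiv.piCongrLeft', Equiv.symm_swap]
  · apply Continuous.aestronglyMeasurable
    fun_prop

theorem sphere_integrable {f : EuclideanSpace ℝ (Fin n) → ℝ} (hf : Continuous f) :
    Integrable (fun x : Metric.sphere (0 : EuclideanSpace ℝ (Fin n)) 1 => f x)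
      (volume : Measure (EuclideanSpace ℝ (Fin n))).toSphere := by
  have h1 : Continuous (fun x : Metric.sphere (0 : EuclideanSpace ℝ (Fin n)) 1 => f x) :=
    hf.comp continuous_subtype_val
  rw [← integrableOn_univ]
  exact h1.continuousOn.integrableOn_compact isCompact_univ

theorem sphere_sq_integral (i : Fin n) :
    (n : ℝ) * ∫ x : Metric.sphere (0 : EuclideanSpace ℝ (Fin n)) 1,
      (x : EuclideanSpace ℝ (Fin n)) i ^ 2
        ∂(volume : Measure (EuclideanSpace ℝ (Fin n))).toSphere =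
    (volume : Measure (EuclideanSpace ℝ (Fin n))).toSphere.real Set.univ := by
  have h1 : ∑ j : Fin n, ∫ x : Metric.sphere (0 : EuclideanSpace ℝ (Fin n)) 1,
      (x : EuclideanSpace ℝ (Fin n)) j ^ 2
        ∂(volume : Measure (EuclideanSpace ℝ (Fin n))).toSphere =
      (volume : Measure (EuclideanSpace ℝ (Fin n))).toSphere.real Set.univ := by
    rw [← integral_finsetSum]
    · have : ∀ x : Metric.sphere (0 : EuclideanSpace ℝ (Fin n)) 1,
          ∑ j, (x : EuclideanSpace ℝ (Fin n)) j ^ 2 = 1 := by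
        intro x
        have h2 := EuclideanSpace.norm_sq_eq (x : EuclideanSpace ℝ (Fin n))
        rw [norm_eq_of_mem_sphere] at h2
        simpa using h2.symm
      simp_rw [this]
      simp
    · intro j _
      exact sphere_integrable (f := fun x => x j ^ 2) (by fun_prop)
  rw [← h1]
  simp_rw [fun j => sphere_sq_symm j i]
  simp

end sphere

section normed

variable {n : ℕ} {κ : Type} [Fintype κ] (e : κ ↪ Fin n)

/-- indices not in the range of `e` -/
abbrev Rest : Type := {i : Fin n // i ∉ Set.range e}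

noncomputable instance : Fintype (Rest e) := Fintype.ofFinite _

abbrev Tgt : Type := WithLp 2 (PiLp 1 (fun _ : κ => ℝ) × EuclideanSpace ℝ (Rest e))

/-- the linear embedding whose pulled back norm is `ℓ_1 ⊕_2 ℓ_2` -/
noncomputable def Lam : EuclideanSpace ℝ (Fin n) →ₗ[ℝ] Tgt e where
  toFun x := WithLp.toLp 2 (WithLp.toLp 1 (fun k => x (e k)), WithLp.toLp 2 (fun i : Rest e => x i))
  map_add' _ _ := rfl
  map_smul' _ _ := rfl

theorem Lam_norm_sq (x : EuclideanSpace ℝ (Fin n)) :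
    ‖Lam e x‖ ^ 2 = (∑ k, |x (e k)|) ^ 2 + ∑ i : Rest e, x i ^ 2 := by
  rw [WithLp.prod_norm_sq_eq_of_L2]
  have h1 : ‖(Lam e x).fst‖ = ∑ k, |x (e k)| := by
    rw [PiLp.norm_eq_of_L1]
    rfl
  have h2 : ‖(Lam e x).snd‖ ^ 2 = ∑ i : Rest e, x i ^ 2 := by
    rw [EuclideanSpace.norm_sq_eq]
    simp only [Real.norm_eq_abs, sq_abs]
    rfl
  rw [h1, h2]

theorem sum_split (f : Fin n → ℝ) : ∑ i, f i = ∑ k, f (e k) + ∑ i : Rest e, f i := by
  classical
  have h1 : ∑ i, f i = ∑ i ∈ Finset.univ.filter (fun i => i ∈ Set.range e), f i +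
      ∑ i ∈ Finset.univ.filter (fun i => ¬ i ∈ Set.range e), f i :=
    (Finset.sum_filter_add_sum_filter_not _ _ _).symm
  rw [h1]
  congr 1
  · symm
    refine Finset.sum_bij (fun k _ => e k) ?_ ?_ ?_ ?_
    · intro k _; simp
    · intro a _ b _ h; exact e.injective h
    · intro b hb
      simp only [Finset.mem_filter, Finset.mem_univ, true_and] at hb
      obtain ⟨k, hk⟩ := hb
      exact ⟨k, Finset.mem_univ _, hk⟩
    · intro k _; rfl
  · symm
    refine Finset.sum_bij (fun (i : Rest e) _ => (i : Fin n)) ?_ ?_ ?_ ?_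
    · intro k _; simpa using k.2
    · intro a _ b _ h; exact Subtype.ext h
    · intro b hb
      simp only [Finset.mem_filter, Finset.mem_univ, true_and] at hb
      exact ⟨⟨b, hb⟩, Finset.mem_univ _, rfl⟩
    · intro k _; rfl

theorem norm_le_Lam (x : EuclideanSpace ℝ (Fin n)) : ‖x‖ ≤ ‖Lam e x‖ := by
  apply le_of_sq_le_sq _ (norm_nonneg _)
  rw [Lam_norm_sq, EuclideanSpace.norm_sq_eq]
  simp only [Real.norm_eq_abs, sq_abs]
  rw [sum_split e (fun i => x i ^ 2)]
  gcongr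
  have : ∀ k, x (e k) ^ 2 = |x (e k)| ^ 2 := fun k => (sq_abs _).symm
  simp_rw [this]
  exact Finset.sum_sq_le_sq_sum_of_nonneg (fun i _ => abs_nonneg _)

/-- the unit ball -/
def KK : Set (EuclideanSpace ℝ (Fin n)) := {x | ‖Lam e x‖ ≤ 1}

omit [Fintype κ] in
theorem continuous_Lam : Continuous (Lam e) := by
  show Continuous (fun x : EuclideanSpace ℝ (Fin n) => (WithLp.toLp 2
    (WithLp.toLp 1 (fun k => x (e k)), WithLp.toLp 2 (fun i : Rest e => x i)) : Tgt e))
  refine (WithLp.prod_continuous_toLp 2 _ _).comp (Continuous.prodMk ?_ ?_)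
  · refine (PiLp.continuous_toLp 1 _).comp (continuous_pi fun k => ?_)
    fun_prop
  · refine (PiLp.continuous_toLp 2 _).comp (continuous_pi fun k => ?_)
    fun_prop

theorem isSCB_KK : IsSymmetricConvexBody (KK e) := by
  refine ⟨?_, ?_, ?_, ?_⟩
  · have h1 : KK e = Lam e ⁻¹' Metric.closedBall 0 1 := by
      ext x; simp [KK]
    rw [h1]
    exact (convex_closedBall (0 : Tgt e) 1).linear_preimage (Lam e)
  · apply Metric.isCompact_of_isClosed_isBounded
    · exact isClosed_le (continuous_Lam e).norm continuous_const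
    · refine (Metric.isBounded_closedBall (x := (0 : EuclideanSpace ℝ (Fin n))) (r := 1)).subset ?_
      intro x hx
      rw [mem_closedBall_zero_iff]
      exact le_trans (norm_le_Lam e x) hx
  · refine ⟨0, ?_⟩
    have h1 : IsOpen {x : EuclideanSpace ℝ (Fin n) | ‖Lam e x‖ < 1} :=
      isOpen_lt (continuous_Lam e).norm continuous_const
    have h2 : {x : EuclideanSpace ℝ (Fin n) | ‖Lam e x‖ < 1} ⊆ KK e := by
      intro x hx
      have hx' : ‖Lam e x‖ < 1 := hx
      exact hx'.le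
    exact interior_maximal h2 h1 (by simp)
  · intro x hx
    have hx' : ‖Lam e x‖ ≤ 1 := hx
    show ‖Lam e (-x)‖ ≤ 1
    rw [map_neg, norm_neg]
    exact hx'

theorem gauge_KK (x : EuclideanSpace ℝ (Fin n)) : gauge (KK e) x = ‖Lam e x‖ := by
  have h1 : ∀ r : ℝ, 0 < r → (x ∈ r • KK e ↔ ‖Lam e x‖ ≤ r) := by
    intro r hr
    rw [Set.mem_smul_set_iff_inv_smul_mem₀ hr.ne']
    show ‖Lam e (r⁻¹ • x)‖ ≤ 1 ↔ _
    rw [map_smul, norm_smul, norm_inv, Real.norm_of_nonneg hr.le]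
    rw [inv_mul_le_iff₀ hr, mul_one]
  have h2 : {r ∈ Set.Ioi (0 : ℝ) | x ∈ r • KK e} = {r | 0 < r ∧ ‖Lam e x‖ ≤ r} := by
    ext r
    simp only [Set.mem_ofPred_eq, Set.mem_Ioi]
    constructor
    · rintro ⟨h3, h4⟩; exact ⟨h3, (h1 r h3).mp h4⟩
    · rintro ⟨h3, h4⟩; exact ⟨h3, (h1 r h3).mpr h4⟩
  have h3 : gauge (KK e) x = sInf {r | 0 < r ∧ ‖Lam e x‖ ≤ r} := by
    rw [← h2]
    rfl
  rw [h3]
  rcases eq_or_lt_of_le (norm_nonneg (Lam e x)) with h | h
  · rw [← h]
    have : {r : ℝ | 0 < r ∧ 0 ≤ r} = Set.Ioi 0 := by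
      ext r; simp only [Set.mem_ofPred_eq, Set.mem_Ioi]
      exact ⟨fun h => h.1, fun h => ⟨h, le_of_lt h⟩⟩
    rw [this, csInf_Ioi]
  · have : {r : ℝ | 0 < r ∧ ‖Lam e x‖ ≤ r} = Set.Ici ‖Lam e x‖ := by
      ext r; simp only [Set.mem_ofPred_eq, Set.mem_Ici]
      exact ⟨fun h => h.2, fun h' => ⟨lt_of_lt_of_le h h', h'⟩⟩
    rw [this, csInf_Ici]

theorem sphereAvg_eq (f : EuclideanSpace ℝ (Fin n) → ℝ) :
    sphereAvg f = ((volume : Measure (EuclideanSpace ℝ (Fin n))).toSphere.real Set.univ)⁻¹ *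
      ∫ x : Metric.sphere (0 : EuclideanSpace ℝ (Fin n)) 1, f x
        ∂(volume : Measure (EuclideanSpace ℝ (Fin n))).toSphere := by
  unfold sphereAvg
  rw [average_eq, smul_eq_mul]

theorem sphereAvg_nonneg {f : EuclideanSpace ℝ (Fin n) → ℝ} (hf : ∀ x, 0 ≤ f x) :
    0 ≤ sphereAvg f := by
  rw [sphereAvg_eq]
  exact mul_nonneg (inv_nonneg.mpr measureReal_nonneg) (integral_nonneg fun x => hf x)

theorem M_nonneg (K : Set (EuclideanSpace ℝ (Fin n))) : 0 ≤ M K :=
  sphereAvg_nonneg fun x => gauge_nonneg x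

theorem toSphere_pos (hn : 0 < n) :
    0 < (volume : Measure (EuclideanSpace ℝ (Fin n))).toSphere.real Set.univ := by
  have : Nonempty (Fin n) := ⟨⟨0, hn⟩⟩
  have h1 : (volume : Measure (EuclideanSpace ℝ (Fin n))).toSphere ≠ 0 :=
    Measure.toSphere_ne_zero _
  rw [measureReal_def]
  apply ENNReal.toReal_pos
  · rwa [Ne, Measure.measure_univ_eq_zero]
  · exact measure_ne_top _ _

theorem support_nonneg {K : Set (EuclideanSpace ℝ (Fin n))} (hK : (0 : EuclideanSpace ℝ (Fin n)) ∈ K)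
    (x : EuclideanSpace ℝ (Fin n)) : 0 ≤ sSup ((fun y => (inner ℝ x y : ℝ)) '' K) := by
  apply Real.sSup_nonneg'
  exact ⟨0, ⟨0, hK, by simp⟩, le_rfl⟩

theorem zero_mem_KK : (0 : EuclideanSpace ℝ (Fin n)) ∈ KK e := by
  show ‖Lam e 0‖ ≤ 1
  simp

theorem Mstar_KK_le : Mstar (KK e) ≤ 1 := by
  unfold Mstar
  rw [sphereAvg_eq]
  rcases Nat.eq_zero_or_pos n with hn | hn
  · subst hn
    have : (volume : Measure (EuclideanSpace ℝ (Fin 0))).toSphere = 0 :=
      (Measure.toSphere_eq_zero_iff _).mpr inferInstance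
    rw [this]
    simp
  · have hpos := toSphere_pos hn
    rw [inv_mul_le_iff₀ hpos, mul_one]
    have h1 : ∀ x : Metric.sphere (0 : EuclideanSpace ℝ (Fin n)) 1,
        sSup ((fun y => (inner ℝ (x : EuclideanSpace ℝ (Fin n)) y : ℝ)) '' KK e) ≤ 1 := by
      intro x
      apply Real.sSup_le _ zero_le_one
      rintro _ ⟨y, hy, rfl⟩
      have h2 : ‖(x : EuclideanSpace ℝ (Fin n))‖ = 1 := norm_eq_of_mem_sphere x
      have h3 : ‖y‖ ≤ 1 := le_trans (norm_le_Lam e y) hy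
      have h4 := real_inner_le_norm (x : EuclideanSpace ℝ (Fin n)) y
      rw [h2, one_mul] at h4
      exact le_trans h4 h3
    calc ∫ x : Metric.sphere (0 : EuclideanSpace ℝ (Fin n)) 1,
        sSup ((fun y => (inner ℝ (x : EuclideanSpace ℝ (Fin n)) y : ℝ)) '' KK e)
        ∂(volume : Measure (EuclideanSpace ℝ (Fin n))).toSphere
        ≤ ∫ x : Metric.sphere (0 : EuclideanSpace ℝ (Fin n)) 1, (1 : ℝ)
        ∂(volume : Measure (EuclideanSpace ℝ (Fin n))).toSphere := by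
          apply integral_mono_of_nonneg
          · exact Filter.Eventually.of_forall fun x => support_nonneg (zero_mem_KK e) _
          · exact integrable_const _
          · exact Filter.Eventually.of_forall h1
      _ = _ := by simp

theorem M_KK_le (hn : 0 < n) (hcard : Fintype.card κ ^ 2 ≤ n) : M (KK e) ≤ √2 := by
  unfold M
  rw [sphereAvg_eq]
  have hpos := toSphere_pos hn
  rw [inv_mul_le_iff₀ hpos]
  simp_rw [gauge_KK]
  set S := (volume : Measure (EuclideanSpace ℝ (Fin n))).toSphere.real Set.univ with hS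
  have hsq : ∀ i : Fin n, ∫ x : Metric.sphere (0 : EuclideanSpace ℝ (Fin n)) 1,
      (x : EuclideanSpace ℝ (Fin n)) i ^ 2
        ∂(volume : Measure (EuclideanSpace ℝ (Fin n))).toSphere = S / n := by
    intro i
    have := sphere_sq_integral i
    rw [eq_div_iff (by positivity), mul_comm]
    exact this
  have hs2 : √2 ^ 2 = (2 : ℝ) := Real.sq_sqrt (by norm_num)
  have hs0 : 0 < √(2 : ℝ) := by positivity
  -- pointwise bound
  have hpt : ∀ x : EuclideanSpace ℝ (Fin n), ‖Lam e x‖ ≤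
      (((Fintype.card κ : ℝ) * ∑ k, x (e k) ^ 2 + ∑ i : Rest e, x i ^ 2) + 2) / (2 * √2) := by
    intro x
    rw [le_div_iff₀ (by positivity)]
    have h1 := Lam_norm_sq e x
    have h2 : (∑ k, |x (e k)|) ^ 2 ≤ (Fintype.card κ : ℝ) * ∑ k, x (e k) ^ 2 := by
      have := sq_sum_le_card_mul_sum_sq (s := Finset.univ) (f := fun k => |x (e k)|)
      simpa using this
    have h3 : 0 ≤ (‖Lam e x‖ - √2) ^ 2 := sq_nonneg _
    nlinarith
  have hI : Integrable (fun x : Metric.sphere (0 : EuclideanSpace ℝ (Fin n)) 1 =>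
      (((Fintype.card κ : ℝ) * ∑ k, (x : EuclideanSpace ℝ (Fin n)) (e k) ^ 2 +
        ∑ i : Rest e, (x : EuclideanSpace ℝ (Fin n)) i ^ 2) + 2) / (2 * √2))
      (volume : Measure (EuclideanSpace ℝ (Fin n))).toSphere :=
    sphere_integrable (f := fun x => (((Fintype.card κ : ℝ) * ∑ k, x (e k) ^ 2 +
      ∑ i : Rest e, x i ^ 2) + 2) / (2 * √2)) (by fun_prop)
  have hmono : ∫ x : Metric.sphere (0 : EuclideanSpace ℝ (Fin n)) 1, ‖Lam e x‖
        ∂(volume : Measure (EuclideanSpace ℝ (Fin n))).toSphere ≤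
      ∫ x : Metric.sphere (0 : EuclideanSpace ℝ (Fin n)) 1,
      (((Fintype.card κ : ℝ) * ∑ k, (x : EuclideanSpace ℝ (Fin n)) (e k) ^ 2 +
        ∑ i : Rest e, (x : EuclideanSpace ℝ (Fin n)) i ^ 2) + 2) / (2 * √2)
        ∂(volume : Measure (EuclideanSpace ℝ (Fin n))).toSphere := by
    apply integral_mono_of_nonneg
    · exact Filter.Eventually.of_forall fun x => norm_nonneg _
    · exact hI
    · exact Filter.Eventually.of_forall fun x => hpt x
  refine le_trans hmono ?_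
  have hcalc : ∫ x : Metric.sphere (0 : EuclideanSpace ℝ (Fin n)) 1,
      (((Fintype.card κ : ℝ) * ∑ k, (x : EuclideanSpace ℝ (Fin n)) (e k) ^ 2 +
        ∑ i : Rest e, (x : EuclideanSpace ℝ (Fin n)) i ^ 2) + 2) / (2 * √2)
        ∂(volume : Measure (EuclideanSpace ℝ (Fin n))).toSphere =
      (((Fintype.card κ : ℝ) * (Fintype.card κ * (S / n)) +
        Fintype.card (Rest e) * (S / n)) + 2 * S) / (2 * √2) := by
    have i1 : ∀ i : Fin n, Integrable (fun x : Metric.sphere (0 : EuclideanSpace ℝ (Fin n)) 1 =>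
        (x : EuclideanSpace ℝ (Fin n)) i ^ 2)
        (volume : Measure (EuclideanSpace ℝ (Fin n))).toSphere := fun i =>
      sphere_integrable (f := fun x => x i ^ 2) (by fun_prop)
    have i2 : Integrable (fun x : Metric.sphere (0 : EuclideanSpace ℝ (Fin n)) 1 =>
        (Fintype.card κ : ℝ) * ∑ k, (x : EuclideanSpace ℝ (Fin n)) (e k) ^ 2)
        (volume : Measure (EuclideanSpace ℝ (Fin n))).toSphere :=
      (integrable_finsetSum _ fun k _ => i1 (e k)).const_mul _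
    have i3 : Integrable (fun x : Metric.sphere (0 : EuclideanSpace ℝ (Fin n)) 1 =>
        ∑ i : Rest e, (x : EuclideanSpace ℝ (Fin n)) i ^ 2)
        (volume : Measure (EuclideanSpace ℝ (Fin n))).toSphere :=
      (integrable_finsetSum _ fun k _ => i1 k)
    have i23 : Integrable (fun x : Metric.sphere (0 : EuclideanSpace ℝ (Fin n)) 1 =>
        (Fintype.card κ : ℝ) * ∑ k, (x : EuclideanSpace ℝ (Fin n)) (e k) ^ 2 +
        ∑ i : Rest e, (x : EuclideanSpace ℝ (Fin n)) i ^ 2)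
        (volume : Measure (EuclideanSpace ℝ (Fin n))).toSphere := i2.add i3
    rw [integral_div, integral_add i23 (integrable_const _), integral_add i2 i3,
      integral_const_mul, integral_finsetSum _ (fun k _ => i1 (e k)),
      integral_finsetSum (Finset.univ : Finset (Rest e)) (f := fun (k : Rest e)
        (x : Metric.sphere (0 : EuclideanSpace ℝ (Fin n)) 1) =>
        (x : EuclideanSpace ℝ (Fin n)) (k : Fin n) ^ 2) (fun k _ => i1 k)]
    simp_rw [hsq]
    rw [integral_const]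
    simp only [Finset.sum_const, Finset.card_univ, nsmul_eq_mul, smul_eq_mul]
    rw [mul_comm 2 S]
  rw [hcalc]
  have hn' : (0 : ℝ) < n := by exact_mod_cast hn
  have hc1 : ((Fintype.card κ : ℝ)) ^ 2 ≤ n := by exact_mod_cast hcard
  have hc2 : (Fintype.card (Rest e) : ℝ) ≤ n := by
    have : Fintype.card (Rest e) ≤ Fintype.card (Fin n) :=
      Fintype.card_le_of_injective (fun i : Rest e => (i : Fin n)) Subtype.val_injective
    rw [Fintype.card_fin] at this
    exact_mod_cast this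
  rw [div_le_iff₀ (by positivity)]
  have h5 : (Fintype.card κ : ℝ) * (Fintype.card κ * (S / n)) ≤ S := by
    have : (Fintype.card κ : ℝ) * (Fintype.card κ * (S / n)) = (Fintype.card κ : ℝ) ^ 2 * S / n := by
      ring
    rw [this, div_le_iff₀ hn']
    nlinarith
  have h6 : (Fintype.card (Rest e) : ℝ) * (S / n) ≤ S := by
    have : (Fintype.card (Rest e) : ℝ) * (S / n) = (Fintype.card (Rest e) : ℝ) * S / n := by ring
    rw [this, div_le_iff₀ hn']
    nlinarith
  have h7 : S * √2 * (2 * √2) = 4 * S := by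
    have : S * √2 * (2 * √2) = 2 * S * √2 ^ 2 := by ring
    rw [this, hs2]; ring
  rw [h7]
  linarith

theorem MMstar_KK_le (hn : 0 < n) (hcard : Fintype.card κ ^ 2 ≤ n) : MMstar (KK e) ≤ √2 := by
  unfold MMstar
  have hb : BddBelow (Set.range fun T : EuclideanSpace ℝ (Fin n) ≃L[ℝ] EuclideanSpace ℝ (Fin n) =>
      M (T '' KK e) * Mstar (T '' KK e)) := by
    refine ⟨0, ?_⟩
    rintro _ ⟨T, rfl⟩
    refine mul_nonneg (M_nonneg _) (sphereAvg_nonneg fun x => support_nonneg ?_ x)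
    exact ⟨0, zero_mem_KK e, by simp⟩
  refine le_trans (ciInf_le hb (ContinuousLinearEquiv.refl ℝ _)) ?_
  have h1 : ((ContinuousLinearEquiv.refl ℝ (EuclideanSpace ℝ (Fin n))) '' KK e) = KK e := by
    simp
  rw [h1]
  calc M (KK e) * Mstar (KK e) ≤ M (KK e) * 1 :=
        mul_le_mul_of_nonneg_left (Mstar_KK_le e) (M_nonneg _)
    _ ≤ √2 := by rw [mul_one]; exact M_KK_le e hn hcard

end normed

section moments

theorem units_cast_sq (u : ℤˣ) : (((u : ℤ) : ℝ)) ^ 2 = 1 := by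
  rcases Int.units_eq_one_or u with h | h <;> simp [h]

/-- sum of the signs -/
def sg {j : ℕ} (δ : Fin j → ℤˣ) : ℝ := ∑ i, ((δ i : ℤ) : ℝ)

theorem sum_cons {j : ℕ} (g : (Fin (j + 1) → ℤˣ) → ℝ) :
    ∑ δ, g δ = ∑ δ : Fin j → ℤˣ, (g (Fin.cons 1 δ) + g (Fin.cons (-1) δ)) := by
  have h1 := Fintype.sum_equiv (Fin.consEquiv (fun _ : Fin (j + 1) => ℤˣ))
    (fun p : ℤˣ × (Fin j → ℤˣ) => g (Fin.cons p.1 p.2)) g (fun p => rfl)
  rw [← h1, Fintype.sum_prod_type]
  have h2 : (Finset.univ : Finset ℤˣ) = {1, -1} := by decide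
  rw [h2, Finset.sum_pair (by decide), ← Finset.sum_add_distrib]

theorem sg_cons {j : ℕ} (u : ℤˣ) (δ : Fin j → ℤˣ) :
    sg (Fin.cons u δ : Fin (j + 1) → ℤˣ) = ((u : ℤ) : ℝ) + sg δ := by
  unfold sg
  rw [Fin.sum_univ_succ]
  simp

theorem card_cube (j : ℕ) : Fintype.card (Fin j → ℤˣ) = 2 ^ j := by
  simp

theorem sum_sg_sq (j : ℕ) : ∑ δ : Fin j → ℤˣ, sg δ ^ 2 = 2 ^ j * j := by
  induction j with
  | zero => simp [sg]
  | succ j ih =>
    rw [sum_cons]
    simp only [sg_cons]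
    have : ∀ δ : Fin j → ℤˣ, ((((1 : ℤˣ) : ℤ) : ℝ) + sg δ) ^ 2 + ((((-1 : ℤˣ) : ℤ) : ℝ) + sg δ) ^ 2
        = 2 * sg δ ^ 2 + 2 := by
      intro δ
      push_cast
      ring
    simp_rw [this]
    rw [Finset.sum_add_distrib, ← Finset.mul_sum, ih]
    simp only [Finset.sum_const, Finset.card_univ, card_cube, nsmul_eq_mul]
    push_cast
    ring

theorem sum_sg_four (j : ℕ) : ∑ δ : Fin j → ℤˣ, sg δ ^ 4 = 2 ^ j * (3 * j ^ 2 - 2 * j) := by
  induction j with
  | zero => simp [sg]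
  | succ j ih =>
    rw [sum_cons]
    simp only [sg_cons]
    have : ∀ δ : Fin j → ℤˣ, ((((1 : ℤˣ) : ℤ) : ℝ) + sg δ) ^ 4 + ((((-1 : ℤˣ) : ℤ) : ℝ) + sg δ) ^ 4
        = 2 * sg δ ^ 4 + 12 * sg δ ^ 2 + 2 := by
      intro δ
      push_cast
      ring
    simp_rw [this]
    rw [Finset.sum_add_distrib, Finset.sum_add_distrib, ← Finset.mul_sum, ← Finset.mul_sum, ih,
      sum_sg_sq]
    simp only [Finset.sum_const, Finset.card_univ, card_cube, nsmul_eq_mul]
    push_cast
    ring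

/-- the first absolute moment of a Rademacher sum -/
theorem sum_abs_sg (j : ℕ) (hj : 1 ≤ j) : 2 ^ j * √(j / 3 : ℝ) ≤ ∑ δ : Fin j → ℤˣ, |sg δ| := by
  set T := √(3 * j : ℝ) with hT
  have hj0 : (0 : ℝ) < j := by exact_mod_cast hj
  have hT0 : 0 < T := Real.sqrt_pos.mpr (by positivity)
  have hT2 : T ^ 2 = 3 * j := Real.sq_sqrt (by positivity)
  have hpt : ∀ δ : Fin j → ℤˣ, 3 / (2 * T) * sg δ ^ 2 - 1 / (2 * T ^ 3) * sg δ ^ 4 ≤ |sg δ| := by
    intro δ
    have h1 : sg δ ^ 2 = |sg δ| ^ 2 := (sq_abs _).symm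
    have h2 : sg δ ^ 4 = |sg δ| ^ 4 := by
      have : sg δ ^ 4 = (sg δ ^ 2) ^ 2 := by ring
      rw [this, h1]; ring
    rw [h1, h2]
    set t := |sg δ|
    have ht : 0 ≤ t := abs_nonneg _
    have h3 : t - (3 / (2 * T) * t ^ 2 - 1 / (2 * T ^ 3) * t ^ 4) =
        t * (t - T) ^ 2 * (t + 2 * T) / (2 * T ^ 3) := by
      field_simp
      ring
    have h4 : 0 ≤ t * (t - T) ^ 2 * (t + 2 * T) / (2 * T ^ 3) := by positivity
    linarith
  have hsum := Finset.sum_le_sum (fun δ (_ : δ ∈ (Finset.univ : Finset (Fin j → ℤˣ))) => hpt δ)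
  refine le_trans ?_ hsum
  rw [Finset.sum_sub_distrib, ← Finset.mul_sum, ← Finset.mul_sum, sum_sg_sq, sum_sg_four]
  have h5 : √(j / 3 : ℝ) = j / T := by
    rw [Real.sqrt_eq_iff_mul_self_eq (by positivity) (by positivity)]
    have : (j : ℝ) / T * (j / T) = j ^ 2 / T ^ 2 := by ring
    rw [this, hT2]
    field_simp
  rw [h5]
  have h6 : T ^ 3 = T * (3 * j) := by
    have : T ^ 3 = T * T ^ 2 := by ring
    rw [this, hT2]
  rw [h6]
  have h7 : 3 / (2 * T) * (2 ^ j * (j : ℝ)) - 1 / (2 * (T * (3 * j))) * (2 ^ j * (3 * j ^ 2 - 2 * j))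
      = 2 ^ j * (j / T) + 2 ^ j / (3 * T) := by
    field_simp
    ring
  rw [h7]
  have : (0 : ℝ) ≤ 2 ^ j / (3 * T) := by positivity
  linarith

end moments

section lower

variable {n j : ℕ} (e : (Fin j → ℤˣ) ↪ Fin n)

/-- the test function -/
noncomputable def tf (ε : Fin j → ℤˣ) : EuclideanSpace ℝ (Fin n) := EuclideanSpace.single (e ε) 1

theorem gauge_tf (ε : Fin j → ℤˣ) : gauge (KK e) (tf e ε) = 1 := by
  rw [gauge_KK, ← sq_eq_sq₀ (norm_nonneg _) zero_le_one, Lam_norm_sq]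
  have h1 : ∑ k, |(tf e ε) (e k)| = 1 := by
    unfold tf
    rw [Finset.sum_eq_single ε]
    · simp
    · intro b _ hb
      simp [hb]
    · intro h; exact absurd (Finset.mem_univ _) h
  have h2 : ∑ i : Rest e, (tf e ε) i ^ 2 = 0 := by
    apply Finset.sum_eq_zero
    intro i _
    have : (i : Fin n) ≠ e ε := fun h => i.2 ⟨ε, h.symm⟩
    unfold tf
    simp [this]
  rw [h1, h2]
  norm_num

theorem L2_tf : L2norm (KK e) (tf e) = 1 := by
  unfold L2norm
  simp_rw [gauge_tf]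
  simp

theorem rad_tf (ε : Fin j → ℤˣ) : rad (tf e) ε =
    (2 ^ j : ℝ)⁻¹ • ∑ δ : Fin j → ℤˣ, (∑ i, ((ε i : ℤ) : ℝ) * ((δ i : ℤ) : ℝ)) • tf e δ := by
  unfold rad
  simp_rw [Finset.sum_smul, Finset.smul_sum]
  rw [Finset.sum_comm]
  refine Finset.sum_congr rfl fun δ _ => Finset.sum_congr rfl fun i _ => ?_
  simp only [smul_smul]
  congr 1
  ring

theorem gauge_rad (ε : Fin j → ℤˣ) : gauge (KK e) (rad (tf e) ε) =
    (2 ^ j : ℝ)⁻¹ * ∑ δ : Fin j → ℤˣ, |sg δ| := by
  have hcoord : ∀ k : Fin j → ℤˣ, (rad (tf e) ε) (e k) =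
      (2 ^ j : ℝ)⁻¹ * ∑ i, ((ε i : ℤ) : ℝ) * ((k i : ℤ) : ℝ) := by
    intro k
    rw [rad_tf]
    simp only [PiLp.smul_apply, smul_eq_mul]
    congr 1
    rw [WithLp.ofLp_sum, Finset.sum_apply, Finset.sum_eq_single k]
    · simp [tf]
    · intro b _ hb
      simp [tf, Ne.symm hb]
    · intro h; exact absurd (Finset.mem_univ _) h
  have hrest : ∀ i : Rest e, (rad (tf e) ε) i = 0 := by
    intro i
    rw [rad_tf]
    simp only [PiLp.smul_apply, smul_eq_mul]
    rw [WithLp.ofLp_sum, Finset.sum_apply, Finset.sum_eq_zero, mul_zero]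
    intro δ _
    have : (i : Fin n) ≠ e δ := fun h => i.2 ⟨δ, h.symm⟩
    simp [tf, this]
  have hsum : ∑ k : Fin j → ℤˣ, |∑ i, ((ε i : ℤ) : ℝ) * ((k i : ℤ) : ℝ)| =
      ∑ δ : Fin j → ℤˣ, |sg δ| := by
    refine Fintype.sum_equiv (Equiv.mulLeft ε) _ _ fun k => ?_
    unfold sg
    simp
  have hnn : 0 ≤ (2 ^ j : ℝ)⁻¹ * ∑ δ : Fin j → ℤˣ, |sg δ| := by positivity
  rw [gauge_KK, ← sq_eq_sq₀ (norm_nonneg _) hnn, Lam_norm_sq]
  simp_rw [hcoord, hrest, abs_mul]
  rw [← Finset.mul_sum, hsum]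
  simp

theorem L2_rad : L2norm (KK e) (rad (tf e)) = (2 ^ j : ℝ)⁻¹ * ∑ δ : Fin j → ℤˣ, |sg δ| := by
  have hnn : 0 ≤ (2 ^ j : ℝ)⁻¹ * ∑ δ : Fin j → ℤˣ, |sg δ| := by positivity
  unfold L2norm
  simp_rw [gauge_rad]
  rw [Finset.sum_const, Finset.card_univ, card_cube, nsmul_eq_mul]
  push_cast
  rw [← mul_assoc, inv_mul_cancel₀ (by positivity), one_mul, Real.sqrt_sq hnn]

theorem KConv_ge (hj : 1 ≤ j) : ENNReal.ofReal √(j / 3 : ℝ) ≤ KConvexityConstant (KK e) := by
  unfold KConvexityConstant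
  refine le_iSup_of_le j (le_iSup_of_le (tf e) (le_iSup_of_le (by rw [L2_tf]; norm_num) ?_))
  apply ENNReal.ofReal_le_ofReal
  rw [L2_tf, div_one, L2_rad]
  have h1 := sum_abs_sg j hj
  rw [le_inv_mul_iff₀ (by positivity)]
  exact h1

end lower

theorem exists_bad (C : ℝ) (hC : 0 < C) :
    ∃ (n : ℕ) (K : Set (EuclideanSpace ℝ (Fin n))), IsSymmetricConvexBody K ∧
      ENNReal.ofReal (C * MMstar K) < KConvexityConstant K := by
  obtain ⟨j, hj⟩ := exists_nat_gt (6 * C ^ 2 + 1)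
  have hj1 : 1 ≤ j := by
    have : (1 : ℝ) < j := by nlinarith [sq_nonneg C]
    exact_mod_cast this.le
  let n := (2 ^ j) ^ 2
  have hcard : Fintype.card (Fin j → ℤˣ) ≤ Fintype.card (Fin n) := by
    rw [card_cube, Fintype.card_fin]
    exact Nat.le_self_pow (by norm_num) _
  obtain ⟨e⟩ := Function.Embedding.nonempty_of_card_le hcard
  refine ⟨n, KK e, isSCB_KK e, ?_⟩
  refine lt_of_lt_of_le ?_ (KConv_ge e hj1)
  have hn : 0 < n := by positivity
  have h1 := MMstar_KK_le e hn (by rw [card_cube])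
  rw [ENNReal.ofReal_lt_ofReal_iff (by positivity)]
  have h2 : C * MMstar (KK e) ≤ C * √2 := mul_le_mul_of_nonneg_left h1 hC.le
  refine lt_of_le_of_lt h2 ?_
  apply Real.lt_sqrt_of_sq_lt
  rw [mul_pow, Real.sq_sqrt (by norm_num)]
  linarith

end Pool.Agent.Helper99.KConv
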