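import Mathlib
set_option autoImplicit false
namespace Pool.Agent.Helper99.Rad
open MeasureTheory

theorem ball_bound (m d : ℕ) (hm : 0 < m) (hd : d = 2 * m) (a : ℝ) (ha : 0 < a) (c : Fin d → ℝ) :
    volume {y : Fin d → ℝ | ∑ j, (y j + c j) ^ 2 ≤ a ^ 2 * (4 * m : ℝ)}
      ≤ ENNReal.ofReal ((36 * a ^ 2) ^ m) := by
  have hR : (0:ℝ) ≤ a ^ 2 * (4 * m : ℝ) := by positivity
  have h1 : (@WithLp.ofLp 2 (Fin d → ℝ)) ⁻¹' {y : Fin d → ℝ | ∑ j, (y j + c j) ^ 2 ≤ a ^ 2 * (4 * m : ℝ)}
      = Metric.closedBall (WithLp.toLp 2 (fun j => - c j)) (Real.sqrt (a ^ 2 * (4 * m : ℝ))) := by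
    ext y
    simp only [Set.mem_preimage, Set.mem_ofPred_eq, Metric.mem_closedBall, EuclideanSpace.dist_eq]
    rw [Real.sqrt_le_sqrt_iff hR]
    simp [Real.dist_eq, sq_abs]
  have hmeas : MeasurableSet {y : Fin d → ℝ | ∑ j, (y j + c j) ^ 2 ≤ a ^ 2 * (4 * m : ℝ)} := by
    apply measurableSet_le
    · fun_prop
    · fun_prop
  have h2 := (PiLp.volume_preserving_ofLp (Fin d)).measure_preimage hmeas.nullMeasurableSet
  rw [← h2, h1]
  haveI : Nonempty (Fin d) := ⟨⟨0, by omega⟩⟩
  rw [InnerProductSpace.volume_closedBall_of_dim_even (k := m) (by simp [hd])]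
  rw [finrank_euclideanSpace, Fintype.card_fin, ← ENNReal.ofReal_pow (Real.sqrt_nonneg _),
    ← ENNReal.ofReal_mul (by positivity)]
  apply ENNReal.ofReal_le_ofReal
  rw [hd, pow_mul, Real.sq_sqrt hR]
  have h3 : (m:ℝ) ^ m / (m.factorial : ℝ) ≤ Real.exp m := by
    have := Real.pow_div_factorial_le_exp (m:ℝ) (by positivity) m
    simpa using this
  have h4 : (a ^ 2 * (4 * (m:ℝ))) ^ m * (Real.pi ^ m / (m.factorial : ℝ)) =
      (4 * Real.pi * a ^ 2) ^ m * ((m:ℝ) ^ m / (m.factorial : ℝ)) := by
    rw [mul_pow, mul_pow, mul_pow, mul_pow]; ring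
  rw [h4]
  calc (4 * Real.pi * a ^ 2) ^ m * ((m:ℝ) ^ m / (m.factorial : ℝ))
      ≤ (4 * Real.pi * a ^ 2) ^ m * Real.exp m := by gcongr
    _ = (4 * Real.pi * a ^ 2 * Real.exp 1) ^ m := by
        rw [mul_pow _ (Real.exp 1), ← Real.exp_nat_mul]; simp
    _ ≤ (36 * a ^ 2) ^ m := by
        apply pow_le_pow_left₀ (by positivity)
        have hpi : Real.pi < 3.1416 := Real.pi_lt_d4
        have he : Real.exp 1 < 2.7182818286 := Real.exp_one_lt_d9
        have h5 : Real.pi * Real.exp 1 ≤ 3.1416 * 2.7182818286 := by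
          apply mul_le_mul hpi.le he.le (by positivity) (by norm_num)
        have ha2 : 0 ≤ a ^ 2 := by positivity
        nlinarith

/-- Small ball estimate for a linear image of the uniform distribution on the cube, from one
large minor. -/
theorem small_ball (m n d : ℕ) (hd : d = 2 * m) (hn : n = 4 * m)
    (T : Matrix (Fin n) (Fin n) ℝ) (L J : Fin d ↪ Fin n)
    (hdet : 1 ≤ |(T.submatrix L J).det|) (y : Fin n → ℝ) (a : ℝ) (ha : 0 < a) :
    volume {g : Fin n → ℝ | (∀ i, |g i| ≤ 1) ∧
      ∑ i, ((∑ l, T l i * g l) - y i) ^ 2 ≤ a ^ 2 * (n : ℝ)}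
      ≤ ENNReal.ofReal ((9 * a ^ 2) ^ m * 2 ^ n) := by
  classical
  rcases Nat.eq_zero_or_pos m with hm | hm
  · subst hm
    have hn0 : n = 0 := by omega
    subst hn0
    refine (measure_mono (Set.subset_univ _)).trans ?_
    rw [volume_pi, Measure.pi_univ]
    simp
  obtain ⟨p, hp⟩ : ∃ p : Fin n → Prop, ∀ i, p i ↔ i ∈ Set.range L := ⟨_, fun i => Iff.rfl⟩
  set S := {g : Fin n → ℝ | (∀ i, |g i| ≤ 1) ∧
      ∑ i, ((∑ l, T l i * g l) - y i) ^ 2 ≤ a ^ 2 * (n : ℝ)} with hS
  have hSmeas : MeasurableSet S := by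
    have hA : MeasurableSet {g : Fin n → ℝ | ∀ i, |g i| ≤ 1} := by
      have : {g : Fin n → ℝ | ∀ i, |g i| ≤ 1} = Set.pi Set.univ (fun _ => Set.Icc (-1:ℝ) 1) := by
        ext g
        constructor
        · intro h i _
          exact abs_le.mp (h i)
        · intro h i
          exact abs_le.mpr (h i (Set.mem_univ _))
      rw [this]
      exact MeasurableSet.univ_pi (fun _ => measurableSet_Icc)
    have hB : MeasurableSet {g : Fin n → ℝ | ∑ i, ((∑ l, T l i * g l) - y i) ^ 2 ≤ a ^ 2 * (n : ℝ)} := by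
      apply measurableSet_le
      · fun_prop
      · fun_prop
    exact hA.inter hB
  set e := MeasurableEquiv.piEquivPiSubtypeProd (fun _ : Fin n => ℝ) p with he
  have hmp := volume_preserving_piEquivPiSubtypeProd (fun _ : Fin n => ℝ) p
  have h1 : volume S = (volume : Measure (({i // p i} → ℝ) × ({i // ¬ p i} → ℝ))) (e.symm ⁻¹' S) := by
    exact ((hmp.symm).measure_preimage hSmeas.nullMeasurableSet).symm
  rw [h1]
  rw [Measure.volume_eq_prod, Measure.prod_apply_symm (e.symm.measurable hSmeas)]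
  -- equivalence
  obtain ⟨f, hf⟩ : ∃ f : Fin d ≃ {i // p i}, ∀ j, ((f j : {i // p i}) : Fin n) = L j := by
    refine ⟨Equiv.ofBijective (fun j => ⟨L j, (hp _).2 ⟨j, rfl⟩⟩) ⟨?_, ?_⟩, fun j => rfl⟩
    · intro x y hxy
      exact L.injective (congrArg Subtype.val hxy)
    · rintro ⟨i, hi⟩
      obtain ⟨j, hj⟩ := (hp i).1 hi
      exact ⟨j, Subtype.ext hj⟩
  have hsec : ∀ z : {i // ¬ p i} → ℝ,
      volume ((fun x : {i // p i} → ℝ => (x, z)) ⁻¹' (e.symm ⁻¹' S)) ≤
        Set.indicator (Set.pi Set.univ (fun _ => Set.Icc (-1:ℝ) 1))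
          (fun _ => ENNReal.ofReal ((36 * a ^ 2) ^ m)) z := by
    intro z
    by_cases hz : z ∈ Set.pi Set.univ (fun _ : {i // ¬ p i} => Set.Icc (-1:ℝ) 1)
    · rw [Set.indicator_of_mem hz]
      -- section
      set c : Fin d → ℝ := fun j => (∑ l : {i // ¬ p i}, T l (J j) * z l) - y (J j) with hc
      have hmp2 := volume_measurePreserving_piCongrLeft (fun _ : {i // p i} => ℝ) f
      set M : Matrix (Fin d) (Fin d) ℝ := (T.submatrix L J).transpose with hM
      have hdetM : M.det = (T.submatrix L J).det := Matrix.det_transpose _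
      have hdetne : LinearMap.det (Matrix.toLin' M) ≠ 0 := by
        rw [LinearMap.det_toLin', hdetM]
        intro h0
        rw [h0] at hdet
        simp at hdet
        linarith
      have hsub : (MeasurableEquiv.piCongrLeft (fun _ : {i // p i} => ℝ) f) ⁻¹'
          ((fun x : {i // p i} → ℝ => (x, z)) ⁻¹' (e.symm ⁻¹' S)) ⊆
          (Matrix.toLin' M) ⁻¹' {w : Fin d → ℝ | ∑ j, (w j + c j) ^ 2 ≤ a ^ 2 * (4 * m : ℝ)} := by
        intro x hx
        simp only [Set.mem_preimage] at hx ⊢
        rw [hS] at hx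
        obtain ⟨-, hx2⟩ := hx
        simp only [Set.mem_ofPred_eq]
        have hle : ∑ j, (Matrix.toLin' M x j + c j) ^ 2 ≤
            ∑ i, ((∑ l, T l i * (e.symm (MeasurableEquiv.piCongrLeft (fun _ : {i // p i} => ℝ) f x, z)) l) - y i) ^ 2 := by
          have key : ∀ j : Fin d, (Matrix.toLin' M x j + c j) =
            ((∑ l, T l (J j) * (e.symm (MeasurableEquiv.piCongrLeft (fun _ : {i // p i} => ℝ) f x, z)) l) - y (J j)) := by
            intro j
            rw [hc]
            simp only
            rw [← Fintype.sum_subtype_add_sum_subtype p (fun l => T l (J j) * (e.symm (MeasurableEquiv.piCongrLeft (fun _ : {i // p i} => ℝ) f x, z)) l)]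
            have e1 : Matrix.toLin' M x j = ∑ l : {i // p i}, T l (J j) * (e.symm (MeasurableEquiv.piCongrLeft (fun _ : {i // p i} => ℝ) f x, z)) l := by
              rw [← Equiv.sum_comp f, Matrix.toLin'_apply, Matrix.mulVec, dotProduct]
              apply Finset.sum_congr rfl
              intro l _
              have e2 : (e.symm (MeasurableEquiv.piCongrLeft (fun _ : {i // p i} => ℝ) f x, z)) (f l : Fin n) = x l := by
                have hpl : p (f l : Fin n) := (f l).2
                simp only [he, MeasurableEquiv.piEquivPiSubtypeProd, MeasurableEquiv.symm_mk,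
                  MeasurableEquiv.coe_mk, Equiv.piEquivPiSubtypeProd_symm_apply, dif_pos hpl]
                have : (⟨(f l : Fin n), hpl⟩ : {i // p i}) = f l := rfl
                rw [this]
                exact Equiv.piCongrLeft_apply_apply (fun _ : {i // p i} => ℝ) f x l
              rw [e2, hf l]
              rfl
            have e3 : ∑ l : {i // ¬ p i}, T l (J j) * (e.symm (MeasurableEquiv.piCongrLeft (fun _ : {i // p i} => ℝ) f x, z)) l
                = ∑ l : {i // ¬ p i}, T l (J j) * z l := by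
              apply Finset.sum_congr rfl
              intro l _
              have hpl : ¬ p (l : Fin n) := l.2
              simp only [he, MeasurableEquiv.piEquivPiSubtypeProd, MeasurableEquiv.symm_mk,
                  MeasurableEquiv.coe_mk, Equiv.piEquivPiSubtypeProd_symm_apply, dif_neg hpl]
            rw [e1, e3, sub_eq_add_neg, sub_eq_add_neg]; abel
          simp only [key]
          have : ∑ j : Fin d, ((∑ l, T l (J j) * (e.symm (MeasurableEquiv.piCongrLeft (fun _ : {i // p i} => ℝ) f x, z)) l) - y (J j)) ^ 2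
              = ∑ i ∈ Finset.univ.map J, ((∑ l, T l i * (e.symm (MeasurableEquiv.piCongrLeft (fun _ : {i // p i} => ℝ) f x, z)) l) - y i) ^ 2 := by
            rw [Finset.sum_map]
          rw [this]
          exact Finset.sum_le_univ_sum_of_nonneg (fun i => sq_nonneg _)
        refine hle.trans (hx2.trans ?_)
        rw [hn]; push_cast; exact le_rfl
      have hsm : MeasurableSet ((fun x : {i // p i} → ℝ => (x, z)) ⁻¹' (e.symm ⁻¹' S)) :=
        measurable_prodMk_right (e.symm.measurable hSmeas)
      rw [← hmp2.measure_preimage hsm.nullMeasurableSet]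
      refine (measure_mono hsub).trans ?_
      rw [Measure.addHaar_preimage_linearMap volume hdetne]
      calc ENNReal.ofReal |(LinearMap.det (Matrix.toLin' M))⁻¹| *
            volume {w : Fin d → ℝ | ∑ j, (w j + c j) ^ 2 ≤ a ^ 2 * (4 * m : ℝ)}
          ≤ 1 * ENNReal.ofReal ((36 * a ^ 2) ^ m) := by
            gcongr
            · rw [LinearMap.det_toLin', hdetM, abs_inv]
              rw [← ENNReal.ofReal_one]
              apply ENNReal.ofReal_le_ofReal
              exact inv_le_one_of_one_le₀ hdet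
            · exact ball_bound m d hm hd a ha c
        _ = _ := one_mul _
    · rw [Set.indicator_of_notMem hz]
      have : (fun x : {i // p i} → ℝ => (x, z)) ⁻¹' (e.symm ⁻¹' S) = ∅ := by
        ext x
        simp only [Set.mem_preimage, Set.mem_empty_iff_false, iff_false]
        intro hx
        apply hz
        intro l _
        rw [hS] at hx
        have := hx.1 l
        have hpl : ¬ p (l : Fin n) := l.2
        simp only [he, MeasurableEquiv.piEquivPiSubtypeProd, MeasurableEquiv.symm_mk,
                  MeasurableEquiv.coe_mk, Equiv.piEquivPiSubtypeProd_symm_apply, dif_neg hpl] at this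
        exact abs_le.mp this
      rw [this]; simp
  refine (lintegral_mono hsec).trans ?_
  rw [lintegral_indicator_const (MeasurableSet.univ_pi (fun _ => measurableSet_Icc))]
  rw [volume_pi, Measure.pi_pi]
  simp only [Real.volume_Icc]
  rw [Finset.prod_const, Finset.card_univ]
  have hcard : Fintype.card {i // ¬ p i} = 2 * m := by
    rw [Fintype.card_subtype_compl, Fintype.card_fin]
    have : Fintype.card {i // p i} = d := by
      rw [← Fintype.card_congr f, Fintype.card_fin]
    rw [this]; omega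
  rw [hcard, ← ENNReal.ofReal_pow (by norm_num), ← ENNReal.ofReal_mul (by positivity)]
  apply ENNReal.ofReal_le_ofReal
  have : (36 * a ^ 2) ^ m * (1 - -1 : ℝ) ^ (2 * m) = (9 * a ^ 2) ^ m * 2 ^ n := by
    rw [hn, pow_mul, pow_mul, ← mul_pow, ← mul_pow]; norm_num; ring
  exact this.le

end Pool.Agent.Helper99.Rad
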