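import Mathlib
set_option autoImplicit false
namespace Pool.Agent.Helper99.Rad

theorem hadam (d : ℕ) (M : Matrix (Fin d) (Fin d) ℝ) (hM : ∀ i, ∑ j, M i j ^ 2 ≤ 1) :
    |M.det| ≤ 1 := by
  classical
  have : Fact (Module.finrank ℝ (EuclideanSpace ℝ (Fin d)) = d) := ⟨by simp⟩
  let b := EuclideanSpace.basisFun (Fin d) ℝ
  let o := b.toBasis.orientation
  let v : Fin d → EuclideanSpace ℝ (Fin d) := fun i => WithLp.toLp 2 (M i)
  have h1 := o.abs_volumeForm_apply_le v
  rw [o.volumeForm_robust' b] at h1
  have h2 : b.toBasis.det v = M.det := by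
    rw [Module.Basis.det_apply, ← Matrix.det_transpose]
    rfl
  rw [h2] at h1
  refine h1.trans ?_
  apply Finset.prod_le_one
  · intro i _; positivity
  · intro i _
    rw [EuclideanSpace.norm_eq]
    rw [Real.sqrt_le_one]
    simpa [v] using hM i

theorem expand (d n : ℕ) (A : Matrix (Fin d) (Fin n) ℝ) (X : Matrix (Fin n) (Fin d) ℝ) :
    (A * X).det = ∑ f : Fin d → Fin n, (∏ i, A i (f i)) * (X.submatrix f id).det := by
  classical
  let D := (Matrix.detRowAlternating : (Fin d → ℝ) [⋀^(Fin d)]→ₗ[ℝ] ℝ).toMultilinearMap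
  have h1 : (A * X).det = D (fun i => ∑ l, A i l • X l) := by
    show (A * X).det = Matrix.det (fun i => ∑ l, A i l • X l)
    congr 1
    ext i j
    simp [Matrix.mul_apply, Finset.sum_apply]
  rw [h1, D.map_sum]
  apply Finset.sum_congr rfl
  intro f _
  rw [D.map_smul_univ]
  rfl

theorem cb (d n : ℕ) (A : Matrix (Fin d) (Fin n) ℝ) (X : Matrix (Fin n) (Fin d) ℝ) :
    (A * X).det = ∑ Q : {Q : Finset (Fin n) // Q.card = d},
      (A.submatrix id (Q.1.orderEmbOfFin Q.2)).det * (X.submatrix (Q.1.orderEmbOfFin Q.2) id).det := by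
  classical
  rw [expand]
  have h0 : ∑ f : Fin d → Fin n, (∏ i, A i (f i)) * (X.submatrix f id).det
      = ∑ f ∈ Finset.univ.filter (fun f : Fin d → Fin n => Function.Injective f),
        (∏ i, A i (f i)) * (X.submatrix f id).det := by
    symm
    apply Finset.sum_subset (Finset.filter_subset _ _)
    intro f _ hf
    simp only [Finset.mem_filter, Finset.mem_univ, true_and] at hf
    unfold Function.Injective at hf
    push Not at hf
    obtain ⟨a, b, hab, hne⟩ := hf
    rw [Matrix.det_zero_of_row_eq hne, mul_zero]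
    ext j
    simp [Matrix.submatrix_apply, hab]
  rw [h0]
  have himg : ∀ f : Fin d → Fin n, Function.Injective f → (Finset.univ.image f).card = d := by
    intro f hf
    rw [Finset.card_image_of_injective _ hf]; simp
  rw [show (∑ Q : {Q : Finset (Fin n) // Q.card = d},
      (A.submatrix id (Q.1.orderEmbOfFin Q.2)).det * (X.submatrix (Q.1.orderEmbOfFin Q.2) id).det)
      = ∑ Q : {Q : Finset (Fin n) // Q.card = d}, ∑ σ : Equiv.Perm (Fin d),
        (∏ i, A i (Q.1.orderEmbOfFin Q.2 (σ i))) *
          (X.submatrix (fun i => Q.1.orderEmbOfFin Q.2 (σ i)) id).det from ?_]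
  · rw [← Finset.sum_product' (Finset.univ : Finset {Q : Finset (Fin n) // Q.card = d})
      (Finset.univ : Finset (Equiv.Perm (Fin d)))
      (fun Q σ => (∏ i, A i (Q.1.orderEmbOfFin Q.2 (σ i))) *
          (X.submatrix (fun i => Q.1.orderEmbOfFin Q.2 (σ i)) id).det)]
    symm
    refine Finset.sum_bij (fun p _ => fun i => p.1.1.orderEmbOfFin p.1.2 (p.2 i)) ?_ ?_ ?_ ?_
    · intro p _
      simp only [Finset.mem_filter, Finset.mem_univ, true_and]
      intro a b hab
      exact p.2.injective ((p.1.1.orderEmbOfFin p.1.2).injective hab)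
    · intro p _ q _ hpq
      have hr : ∀ p : {Q : Finset (Fin n) // Q.card = d} × Equiv.Perm (Fin d),
          Finset.univ.image (fun i => p.1.1.orderEmbOfFin p.1.2 (p.2 i)) = p.1.1 := by
        intro p
        ext x
        simp only [Finset.mem_image, Finset.mem_univ, true_and]
        constructor
        · rintro ⟨i, rfl⟩
          exact Finset.orderEmbOfFin_mem _ _ _
        · intro hx
          refine ⟨p.2.symm ((p.1.1.orderIsoOfFin p.1.2).symm ⟨x, hx⟩), ?_⟩
          rw [Equiv.apply_symm_apply, ← Finset.coe_orderIsoOfFin_apply]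
          simp
      have h1 : p.1 = q.1 := by
        apply Subtype.ext
        rw [← hr p, ← hr q, hpq]
      obtain ⟨P, σ⟩ := p
      obtain ⟨P', σ'⟩ := q
      simp only at h1
      subst h1
      congr 1
      ext i
      have := congrFun hpq i
      simp only at this
      exact congrArg _ ((P.1.orderEmbOfFin P.2).injective this)
    · intro f hf
      simp only [Finset.mem_filter, Finset.mem_univ, true_and] at hf
      set Q := Finset.univ.image f with hQ
      have hc : Q.card = d := himg f hf
      let g : Fin d → Fin d := fun i => (Q.orderIsoOfFin hc).symm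
        ⟨f i, Finset.mem_image_of_mem _ (Finset.mem_univ i)⟩
      have hg : Function.Injective g := by
        intro a b hab
        have := (Q.orderIsoOfFin hc).symm.injective hab
        exact hf (Subtype.mk.inj this)
      refine ⟨(⟨Q, hc⟩, Equiv.ofBijective g (Finite.injective_iff_bijective.1 hg)),
        Finset.mem_product.2 ⟨Finset.mem_univ _, Finset.mem_univ _⟩, ?_⟩
      ext i
      simp only [Equiv.ofBijective_apply]
      rw [← Finset.coe_orderIsoOfFin_apply]
      simp [g]
    · intro p _
      rfl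
  · apply Finset.sum_congr rfl
    intro Q _
    have h2 : ∀ σ : Equiv.Perm (Fin d), (X.submatrix (fun i => Q.1.orderEmbOfFin Q.2 (σ i)) id).det
        = (Equiv.Perm.sign σ : ℤ) * (X.submatrix (Q.1.orderEmbOfFin Q.2) id).det := by
      intro σ
      have := Matrix.det_permute σ (X.submatrix (Q.1.orderEmbOfFin Q.2) id)
      rw [← this]
      rfl
    simp_rw [h2]
    rw [← Matrix.det_transpose (A.submatrix id (Q.1.orderEmbOfFin Q.2)), Matrix.det_apply',
      Finset.sum_mul]
    apply Finset.sum_congr rfl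
    intro σ _
    simp only [Matrix.transpose_apply, Matrix.submatrix_apply, id]
    ring

/-- Consequence of the Cauchy-Binet formula and Hadamard's inequality. -/
theorem cauchy_binet_bound (d n : ℕ) (hdn : d ≤ n) (A : Matrix (Fin d) (Fin n) ℝ)
    (hA : ∀ i, ∑ l, A i l ^ 2 ≤ 1) (X : Matrix (Fin n) (Fin d) ℝ) :
    ∃ L : Fin d ↪o Fin n, |(A * X).det| ≤ 2 ^ n * |(X.submatrix L id).det| := by
  classical
  have hne : Nonempty {Q : Finset (Fin n) // Q.card = d} := by
    obtain ⟨Q, _, hQ⟩ := Finset.exists_subset_card_eq (s := (Finset.univ : Finset (Fin n))) (n := d)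
      (by simpa using hdn)
    exact ⟨⟨Q, hQ⟩⟩
  obtain ⟨Q0, hQ0⟩ := Finite.exists_max (fun Q : {Q : Finset (Fin n) // Q.card = d} =>
    |(X.submatrix (Q.1.orderEmbOfFin Q.2) id).det|)
  refine ⟨Q0.1.orderEmbOfFin Q0.2, ?_⟩
  rw [cb]
  refine (Finset.abs_sum_le_sum_abs _ _).trans ?_
  have h1 : ∀ Q : {Q : Finset (Fin n) // Q.card = d},
      |(A.submatrix id (Q.1.orderEmbOfFin Q.2)).det * (X.submatrix (Q.1.orderEmbOfFin Q.2) id).det|
      ≤ |(X.submatrix (Q0.1.orderEmbOfFin Q0.2) id).det| := by
    intro Q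
    rw [abs_mul]
    have h2 : |(A.submatrix id (Q.1.orderEmbOfFin Q.2)).det| ≤ 1 := by
      apply hadam
      intro i
      refine le_trans ?_ (hA i)
      simp only [Matrix.submatrix_apply, id]
      have := Finset.sum_map (Finset.univ : Finset (Fin d)) (Q.1.orderEmbOfFin Q.2).toEmbedding
        (fun l => A i l ^ 2)
      simp only [RelEmbedding.coe_toEmbedding] at this
      rw [← this]
      exact Finset.sum_le_sum_of_subset_of_nonneg (Finset.subset_univ _) (fun _ _ _ => sq_nonneg _)
    calc _ ≤ 1 * |(X.submatrix (Q.1.orderEmbOfFin Q.2) id).det| :=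
          mul_le_mul_of_nonneg_right h2 (abs_nonneg _)
      _ ≤ _ := by rw [one_mul]; exact hQ0 Q
  refine (Finset.sum_le_sum (fun Q _ => h1 Q)).trans ?_
  rw [Finset.sum_const, nsmul_eq_mul]
  apply mul_le_mul_of_nonneg_right _ (abs_nonneg _)
  have h3 : (Finset.univ : Finset {Q : Finset (Fin n) // Q.card = d}).card ≤ 2 ^ n := by
    rw [Finset.card_univ]
    calc _ ≤ Fintype.card (Finset (Fin n)) := Fintype.card_subtype_le _
      _ = 2 ^ n := by simp
  exact_mod_cast h3

end Pool.Agent.Helper99.Rad
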