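import Mathlib
set_option autoImplicit false
namespace Pool.Agent.Helper99.Rad

theorem card_int_aux (x : ℝ) (hx0 : 0 ≤ x) (hx1 : x < 1) (B : ℕ) :
    ∑ k ∈ Finset.Icc (-(B:ℤ)) B, x ^ k.natAbs ≤ 2 / (1 - x) := by
  have hsub : Finset.Icc (-(B:ℤ)) B ⊆
      ((Finset.range (B+1)).image (fun k : ℕ => (k:ℤ))) ∪
      ((Finset.range (B+1)).image (fun k : ℕ => -(k:ℤ))) := by
    intro k hk
    rw [Finset.mem_Icc] at hk
    rw [Finset.mem_union, Finset.mem_image, Finset.mem_image]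
    rcases le_total 0 k with h | h
    · left
      exact ⟨k.toNat, by rw [Finset.mem_range]; omega, by omega⟩
    · right
      exact ⟨(-k).toNat, by rw [Finset.mem_range]; omega, by omega⟩
  have hg : ∑ k ∈ Finset.range (B+1), x ^ k ≤ 1 / (1 - x) := by
    have := (summable_geometric_of_lt_one hx0 hx1).sum_le_tsum (Finset.range (B+1))
      (fun i _ => by positivity)
    rw [tsum_geometric_of_lt_one hx0 hx1] at this
    simpa using this
  calc ∑ k ∈ Finset.Icc (-(B:ℤ)) B, x ^ k.natAbs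
      ≤ ∑ k ∈ ((Finset.range (B+1)).image (fun k : ℕ => (k:ℤ))) ∪
      ((Finset.range (B+1)).image (fun k : ℕ => -(k:ℤ))), x ^ k.natAbs :=
        Finset.sum_le_sum_of_subset_of_nonneg hsub (fun _ _ _ => by positivity)
    _ ≤ ∑ k ∈ ((Finset.range (B+1)).image (fun k : ℕ => (k:ℤ))), x ^ k.natAbs
        + ∑ k ∈ ((Finset.range (B+1)).image (fun k : ℕ => -(k:ℤ))), x ^ k.natAbs := by
        rw [← Finset.sum_union_inter]
        have : 0 ≤ ∑ k ∈ ((Finset.range (B+1)).image (fun k : ℕ => (k:ℤ))) ∩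
          ((Finset.range (B+1)).image (fun k : ℕ => -(k:ℤ))), x ^ k.natAbs :=
          Finset.sum_nonneg (fun _ _ => by positivity)
        linarith
    _ = ∑ k ∈ Finset.range (B+1), x ^ k + ∑ k ∈ Finset.range (B+1), x ^ k := by
        rw [Finset.sum_image, Finset.sum_image]
        · simp
        · intro a _ b _ h
          simpa using h
        · intro a _ b _ h
          simpa using h
    _ ≤ 1 / (1 - x) + 1 / (1 - x) := by linarith
    _ = 2 / (1 - x) := by ring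

/-- Number of integer points in a Euclidean ball of radius `ρ √D` in dimension `D`. -/
theorem card_int {ι : Type*} [Fintype ι] [DecidableEq ι] (ρ : ℝ) (hρ : 1 ≤ ρ)
    (s : Finset (ι → ℤ))
    (hs : ∀ z ∈ s, ∑ i, (z i : ℝ) ^ 2 ≤ ρ ^ 2 * (Fintype.card ι : ℝ)) :
    (s.card : ℝ) ≤ (11 * ρ) ^ Fintype.card ι := by
  have hρ0 : 0 < ρ := by linarith
  set x : ℝ := Real.exp (-(1/ρ)) with hx
  have hx0 : 0 ≤ x := (Real.exp_pos _).le
  have hy0 : 0 < 1/ρ := by positivity
  have hy1 : 1/ρ ≤ 1 := by rw [div_le_one hρ0]; exact hρ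
  have hx1 : x < 1 := by rw [hx, Real.exp_lt_one_iff]; linarith
  -- 1 - exp(-y) ≥ y/2
  have hxy : 1 - x ≥ (1/ρ)/2 := by
    have h3 : 1 + 1/ρ ≤ Real.exp (1/ρ) := by
      have := Real.add_one_le_exp (1/ρ); linarith
    have h4 : x ≤ 1/(1+1/ρ) := by
      rw [hx, Real.exp_neg, ← one_div]
      exact one_div_le_one_div_of_le (by positivity) h3
    have h5 : 1/(1+1/ρ) ≤ 1 - (1/ρ)/2 := by
      rw [div_le_iff₀ (by positivity)]
      nlinarith
    linarith
  have hbox : ∀ B : ℕ, ∑ k ∈ Finset.Icc (-(B:ℤ)) B, x ^ k.natAbs ≤ 4 * ρ := by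
    intro B
    refine (card_int_aux x hx0 hx1 B).trans ?_
    rw [div_le_iff₀ (by linarith)]
    have : ρ * (1/ρ) = 1 := by field_simp
    nlinarith
  have hmem : ∀ z ∈ s, (1:ℝ) ≤ Real.exp 1 ^ Fintype.card ι * ∏ i, x ^ (z i).natAbs := by
    intro z hz
    have h1 : (∑ i, |(z i : ℝ)|) ^ 2 ≤ (Fintype.card ι : ℝ) * ∑ i, |(z i : ℝ)| ^ 2 := by
      have := sq_sum_le_card_mul_sum_sq (s := (Finset.univ : Finset ι)) (f := fun i => |(z i : ℝ)|)
      simpa using this
    have h2 : (∑ i, |(z i : ℝ)|) ^ 2 ≤ (ρ * Fintype.card ι) ^ 2 := by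
      have h3 := hs z hz
      simp only [sq_abs] at h1
      have hD : (0:ℝ) ≤ (Fintype.card ι : ℝ) := by positivity
      nlinarith
    have h3 : ∑ i, |(z i : ℝ)| ≤ ρ * Fintype.card ι :=
      le_of_sq_le_sq h2 (by positivity)
    have h4 : ∏ i, x ^ (z i).natAbs = Real.exp (-(∑ i, |(z i : ℝ)|)/ρ) := by
      have : -(∑ i, |(z i : ℝ)|)/ρ = ∑ i, ((z i).natAbs : ℝ) * (-(1/ρ)) := by
        rw [neg_div, Finset.sum_div, ← Finset.sum_neg_distrib]
        apply Finset.sum_congr rfl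
        intro i _
        rw [Nat.cast_natAbs]
        push_cast
        ring
      rw [this, Real.exp_sum]
      apply Finset.prod_congr rfl
      intro i _
      rw [hx, ← Real.exp_nat_mul]
    rw [h4, ← Real.exp_nat_mul, ← Real.exp_add]
    apply Real.one_le_exp
    have : (∑ i, |(z i : ℝ)|)/ρ ≤ Fintype.card ι := by
      rw [div_le_iff₀ hρ0]; linarith
    rw [neg_div]; linarith
  obtain ⟨B, hB⟩ : ∃ B : ℕ, ∀ z ∈ s, ∀ i, (z i).natAbs ≤ B := by
    refine ⟨∑ z ∈ s, ∑ i, (z i).natAbs, fun z hz i => ?_⟩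
    exact (Finset.single_le_sum (f := fun i => (z i).natAbs) (fun _ _ => Nat.zero_le _)
      (Finset.mem_univ i)).trans
      (Finset.single_le_sum (f := fun z : ι → ℤ => ∑ i, (z i).natAbs) (fun _ _ => Nat.zero_le _) hz)
  have hsub : s ⊆ Fintype.piFinset (fun _ : ι => Finset.Icc (-(B:ℤ)) B) := by
    intro z hz
    rw [Fintype.mem_piFinset]
    intro i
    have := hB z hz i
    rw [Finset.mem_Icc]; omega
  calc (s.card : ℝ) = ∑ z ∈ s, (1:ℝ) := by simp
    _ ≤ ∑ z ∈ s, Real.exp 1 ^ Fintype.card ι * ∏ i, x ^ (z i).natAbs := Finset.sum_le_sum hmem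
    _ ≤ ∑ z ∈ Fintype.piFinset (fun _ : ι => Finset.Icc (-(B:ℤ)) B),
          Real.exp 1 ^ Fintype.card ι * ∏ i, x ^ (z i).natAbs :=
        Finset.sum_le_sum_of_subset_of_nonneg hsub (fun _ _ _ => by positivity)
    _ = Real.exp 1 ^ Fintype.card ι * ∏ _i : ι, ∑ k ∈ Finset.Icc (-(B:ℤ)) B, x ^ k.natAbs := by
        rw [← Finset.mul_sum, Finset.prod_univ_sum]
    _ ≤ Real.exp 1 ^ Fintype.card ι * (4 * ρ) ^ Fintype.card ι := by
        gcongr
        rw [Finset.prod_const, Finset.card_univ]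
        have h0 : 0 ≤ ∑ k ∈ Finset.Icc (-(B:ℤ)) B, x ^ k.natAbs :=
          Finset.sum_nonneg (fun _ _ => by positivity)
        exact pow_le_pow_left₀ h0 (hbox B) _
    _ = (Real.exp 1 * (4 * ρ)) ^ Fintype.card ι := (mul_pow _ _ _).symm
    _ ≤ (11 * ρ) ^ Fintype.card ι := by
        have he := Real.exp_one_lt_d9
        have he0 := Real.exp_pos 1
        apply pow_le_pow_left₀ (by positivity)
        nlinarith

end Pool.Agent.Helper99.Rad
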