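import Mathlib
set_option autoImplicit false
namespace Pool.Agent.Helper99.Rad

/-- Discretisation of a vector close to a centre off a sparse set. -/
theorem discretise (n k : ℕ) (hn : 0 < n) (A a : ℝ) (hA : 0 < A) (ha : 0 < a) (W : ℕ)
    (hW : A * Real.sqrt n / a + 1 ≤ (W : ℝ)) (h w : Fin n → ℝ)
    (hh : ∑ i, h i ^ 2 ≤ A ^ 2) (hw : ∑ i, w i ^ 2 ≤ A ^ 2)
    (S : Finset (Fin n)) (hS : S.card ≤ k) (hd : ∑ i ∈ Sᶜ, (h i - w i) ^ 2 ≤ a ^ 2) :
    (∀ i, |⌊w i / (a / Real.sqrt n)⌋| ≤ (W : ℤ)) ∧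
    ∃ v : Fin n → ℤ, (∀ i, |v i| ≤ (W : ℤ)) ∧
      (Finset.univ.filter (fun i => v i ≠ ⌊w i / (a / Real.sqrt n)⌋)).card ≤ k ∧
      ∑ i, (h i - (a / Real.sqrt n) * v i) ^ 2 ≤ (2 * a) ^ 2 := by
  classical
  set q : ℝ := a / Real.sqrt n with hq
  have hn' : (0:ℝ) < n := by exact_mod_cast hn
  have hsq : 0 < Real.sqrt n := Real.sqrt_pos.2 hn'
  have hq0 : 0 < q := div_pos ha hsq
  have hq2 : (n:ℝ) * q ^ 2 = a ^ 2 := by
    rw [hq, div_pow, Real.sq_sqrt hn'.le]
    field_simp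
  have hb : ∀ x : ℝ, |x| ≤ A → |⌊x / q⌋| ≤ (W : ℤ) := by
    intro x hx
    have h1 : |x / q| ≤ A * Real.sqrt n / a := by
      rw [abs_div, abs_of_pos hq0, hq, div_div_eq_mul_div]
      gcongr
    have h2 : |x / q| + 1 ≤ (W:ℝ) := by linarith
    have h3 := abs_le.1 (show |x / q| ≤ (W:ℝ) - 1 by linarith)
    have h4 := Int.floor_le (x / q)
    have h5 := Int.lt_floor_add_one (x / q)
    rw [abs_le]
    constructor
    · have : (-(W:ℝ)) ≤ (⌊x / q⌋ : ℝ) := by linarith [h3.1]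
      exact_mod_cast this
    · have : (⌊x / q⌋ : ℝ) ≤ (W:ℝ) := by linarith [h3.2]
      exact_mod_cast this
  have hle : ∀ (f : Fin n → ℝ), ∑ i, f i ^ 2 ≤ A ^ 2 → ∀ i, |f i| ≤ A := by
    intro f hf i
    apply abs_le_of_sq_le_sq _ hA.le
    exact (Finset.single_le_sum (f := fun i => f i ^ 2) (fun j _ => sq_nonneg (f j))
      (Finset.mem_univ i)).trans hf
  refine ⟨fun i => hb _ (hle w hw i), fun i => if i ∈ S then ⌊h i / q⌋ else ⌊w i / q⌋, ?_, ?_, ?_⟩
  · intro i
    simp only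
    split_ifs
    · exact hb _ (hle h hh i)
    · exact hb _ (hle w hw i)
  · refine (Finset.card_le_card ?_).trans hS
    intro i hi
    rw [Finset.mem_filter] at hi
    by_contra hcon
    apply hi.2
    exact if_neg hcon
  · have hr : ∀ x : ℝ, (x - q * ⌊x / q⌋) ^ 2 ≤ q ^ 2 := by
      intro x
      have h4 := Int.floor_le (x / q)
      have h5 := Int.lt_floor_add_one (x / q)
      have e : x = q * (x / q) := by field_simp
      have h6 : x - q * ⌊x / q⌋ = q * (x / q - ⌊x / q⌋) := by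
        rw [mul_sub, ← e]
      rw [h6, mul_pow]
      have h7 : (x / q - ⌊x / q⌋) ^ 2 ≤ 1 := by nlinarith
      nlinarith [sq_nonneg q]
    have hterm : ∀ i, (h i - q * ((if i ∈ S then ⌊h i / q⌋ else ⌊w i / q⌋ : ℤ) : ℝ)) ^ 2 ≤
        2 * (if i ∈ Sᶜ then (h i - w i) ^ 2 else 0) + 2 * q ^ 2 := by
      intro i
      by_cases hi : i ∈ S
      · rw [if_pos hi, if_neg (by simpa using hi)]
        have := hr (h i)
        nlinarith [sq_nonneg q]
      · rw [if_neg hi, if_pos (by simpa using hi)]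
        have := hr (w i)
        nlinarith [sq_nonneg ((h i - w i) - (w i - q * ⌊w i / q⌋))]
    refine (Finset.sum_le_sum fun i _ => hterm i).trans ?_
    rw [Finset.sum_add_distrib, ← Finset.mul_sum, Finset.sum_ite_mem, Finset.univ_inter,
      Finset.sum_const, Finset.card_univ, Fintype.card_fin, nsmul_eq_mul]
    nlinarith


/-- Counting sparse modifications of an integer vector. -/
theorem card_sparse (n k W : ℕ) (hn : 0 < n) (ω : Fin n → ℤ) :
    ((Fintype.piFinset (fun _ : Fin n => Finset.Icc (-(W:ℤ)) (W:ℤ))).filter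
      (fun v => (Finset.univ.filter (fun i => v i ≠ ω i)).card ≤ k)).card
      ≤ (n * (2 * W + 1)) ^ k := by
  classical
  set B := Finset.Icc (-(W:ℤ)) (W:ℤ) with hB
  have hBc : B.card = 2 * W + 1 := by
    rw [hB, Int.card_Icc]; omega
  set Dom := Fintype.piFinset (fun _ : Fin k => (Finset.univ : Finset (Fin n)) ×ˢ B) with hDom
  have hDc : Dom.card = (n * (2 * W + 1)) ^ k := by
    rw [hDom, Fintype.card_piFinset]
    simp [hBc]
  let Φ : (Fin k → Fin n × ℤ) → (Fin n → ℤ) := fun s i =>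
    if h : ∃ t, (s t).1 = i then (s h.choose).2 else ω i
  rw [← hDc]
  refine (Finset.card_le_card (?_ : _ ⊆ Dom.image Φ)).trans Finset.card_image_le
  intro v hv
  rw [Finset.mem_filter, Fintype.mem_piFinset] at hv
  obtain ⟨hvB, hvk⟩ := hv
  set D := Finset.univ.filter (fun i => v i ≠ ω i) with hD
  let f : Fin k → Fin n := fun t =>
    if h : t.val < D.card then (D.equivFin.symm ⟨t.val, h⟩).1 else ⟨0, hn⟩
  rw [Finset.mem_image]
  refine ⟨fun t => (f t, v (f t)), ?_, ?_⟩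
  · rw [hDom, Fintype.mem_piFinset]
    intro t
    rw [Finset.mem_product]
    exact ⟨Finset.mem_univ _, hvB _⟩
  · funext i
    change (if h : ∃ t, f t = i then v (f h.choose) else ω i) = v i
    split_ifs with h
    · rw [h.choose_spec]
    · by_contra hcon
      apply h
      have hi : i ∈ D := by
        rw [hD, Finset.mem_filter]
        exact ⟨Finset.mem_univ _, fun e => hcon e.symm⟩
      have hlt : (D.equivFin ⟨i, hi⟩).val < k := (D.equivFin ⟨i, hi⟩).2.trans_le hvk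
      refine ⟨⟨(D.equivFin ⟨i, hi⟩).val, hlt⟩, ?_⟩
      change (if h : (D.equivFin ⟨i, hi⟩).val < D.card then
        (D.equivFin.symm ⟨(D.equivFin ⟨i, hi⟩).val, h⟩).1 else ⟨0, hn⟩) = i
      rw [dif_pos (D.equivFin ⟨i, hi⟩).2]
      simp


end Pool.Agent.Helper99.Rad
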