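import Pool.Agent.Helper99.RadGiven
set_option autoImplicit false
namespace Pool.Agent.Helper99.Rad
open MeasureTheory

/-- The dual side: if half of the sign vectors have small dual norm then the matrix `T` has a large
minor of order half of the dimension. -/
theorem dual_side (n d k : ℕ) (hn : n = 2 * d) (hk : d ≤ k) (p : Fin k → Fin n → ℝ)
    (hp : ∀ j, ∑ l, p j l ^ 2 ≤ 1)
    (O T : Matrix (Fin n) (Fin n) ℝ) (hO : O.transpose * O = 1)
    (𝒜 : Finset (Fin n → Bool)) (h𝒜 : 2 ^ n ≤ 2 * 𝒜.card)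
    (ρ : ℝ) (hρ : 0 ≤ ρ)
    (hgood : ∀ δ ∈ 𝒜, ∀ x : Fin n → ℝ, ∃ j,
      |∑ i, (if δ i then (1:ℝ) else -1) * x i| ≤ ρ * |∑ l, p j l * (T * O).mulVec x l|) :
    ∃ L J : Fin d ↪o Fin n,
      (d.factorial : ℝ) ≤ 2 ^ k * ρ ^ d * (4 ^ n * |(T.submatrix L J).det|) := by
  classical
  obtain ⟨σ, hσ⟩ := shatter_half n d hn 𝒜 h𝒜
  set B : Fin k → Fin d → ℝ := fun j i => ∑ l, p j l * (T * O) l (σ i) with hB
  have h1 : ∀ x : Fin d → ℝ, ∃ j, ∑ i, |x i| ≤ ρ * |∑ i, B j i * x i| := by
    intro x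
    obtain ⟨δ, hδ, hδσ⟩ := hσ (fun i => decide (0 ≤ x i))
    obtain ⟨j, hj⟩ := hgood δ hδ (fun l => ∑ i, if σ i = l then x i else 0)
    refine ⟨j, ?_⟩
    have e1 : ∑ l, (if δ l then (1:ℝ) else -1) * (∑ i, if σ i = l then x i else 0) = ∑ i, |x i| := by
      have : ∀ l, (if δ l then (1:ℝ) else -1) * (∑ i, if σ i = l then x i else 0)
          = ∑ i, if σ i = l then (if δ l then (1:ℝ) else -1) * x i else 0 := by
        intro l
        rw [Finset.mul_sum]
        refine Finset.sum_congr rfl fun i _ => ?_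
        split_ifs <;> simp
      rw [Finset.sum_congr rfl fun l _ => this l, Finset.sum_comm]
      refine Finset.sum_congr rfl fun i _ => ?_
      rw [Finset.sum_ite_eq]
      simp only [Finset.mem_univ, if_true]
      rw [hδσ i]
      by_cases hx : 0 ≤ x i
      · simp [hx, abs_of_nonneg hx]
      · simp [hx, abs_of_neg (not_le.mp hx)]
    have e2 : ∑ l, p j l * (T * O).mulVec (fun l => ∑ i, if σ i = l then x i else 0) l
        = ∑ i, B j i * x i := by
      have e3 : ∀ l, (T * O).mulVec (fun l => ∑ i, if σ i = l then x i else 0) l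
          = ∑ i, (T * O) l (σ i) * x i := by
        intro l
        simp only [Matrix.mulVec, dotProduct]
        have : ∀ l', (T * O) l l' * (∑ i, if σ i = l' then x i else 0)
            = ∑ i, if σ i = l' then (T * O) l l' * x i else 0 := by
          intro l'
          rw [Finset.mul_sum]
          refine Finset.sum_congr rfl fun i _ => ?_
          split_ifs <;> simp
        rw [Finset.sum_congr rfl fun l' _ => this l', Finset.sum_comm]
        refine Finset.sum_congr rfl fun i _ => ?_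
        rw [Finset.sum_ite_eq]
        simp
      simp only [e3, hB, Finset.sum_mul, Finset.mul_sum]
      rw [Finset.sum_comm]
      refine Finset.sum_congr rfl fun i _ => Finset.sum_congr rfl fun l _ => by ring
    rw [e1, e2] at hj
    rwa [abs_of_nonneg (Finset.sum_nonneg fun i _ => abs_nonneg _)] at hj
  have h2 : ∀ y : Fin d → ℝ, (∀ i, |y i| ≤ 1) → ∃ t : Fin k → ℝ, ∑ j, |t j| ≤ ρ ∧
      (∀ i, ∑ j, t j * B j i = y i) ∧
      (Finset.univ.filter (fun j => t j ≠ 0)).card ≤ d := by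
    intro y hy
    obtain ⟨t, ht, hty⟩ := hb_rep k d B ρ hρ h1 y hy
    obtain ⟨t', ht', h', hc⟩ := sparse_rep k d B ρ t ht
    exact ⟨t', ht', fun i => (h' i).trans (hty i), hc⟩
  obtain ⟨f, hf⟩ := hull_minor k d hk B ρ hρ h2
  -- Cauchy-Binet twice
  have hdn : d ≤ n := by omega
  set A : Matrix (Fin d) (Fin n) ℝ := Matrix.of (fun i l => p (f i) l) with hA
  set X : Matrix (Fin n) (Fin d) ℝ := (T * O).submatrix id σ with hX
  have eAX : Matrix.of (fun i j => B (f i) j) = A * X := by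
    ext i j
    simp [hB, hA, hX, Matrix.mul_apply]
  obtain ⟨L, hL⟩ := cauchy_binet_bound d n hdn A (fun i => hp (f i)) X
  set A' : Matrix (Fin d) (Fin n) ℝ := (O.submatrix id σ).transpose with hA'
  set X' : Matrix (Fin n) (Fin d) ℝ := (T.submatrix L id).transpose with hX'
  have hA'1 : ∀ i, ∑ l, A' i l ^ 2 ≤ 1 := by
    intro i
    have : ∑ l, A' i l ^ 2 = (O.transpose * O) (σ i) (σ i) := by
      simp [hA', Matrix.mul_apply, sq]
    rw [this, hO]; simp
  obtain ⟨J, hJ⟩ := cauchy_binet_bound d n hdn A' hA'1 X'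
  have e5 : (X.submatrix L id) = (A' * X').transpose := by
    ext i j
    simp only [hX, hA', hX', Matrix.mul_apply, Matrix.submatrix_apply, Matrix.transpose_apply, id]
    exact Finset.sum_congr rfl fun l _ => mul_comm _ _
  have e6 : (X'.submatrix J id).det = (T.submatrix L J).det := by
    rw [← Matrix.det_transpose]
    congr 1
  refine ⟨L, J, ?_⟩
  have h4 : |(Matrix.of (fun i j => B (f i) j)).det| ≤ 4 ^ n * |(T.submatrix L J).det| := by
    rw [eAX]
    calc |(A * X).det| ≤ 2 ^ n * |(X.submatrix L id).det| := hL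
      _ = 2 ^ n * |(A' * X').det| := by rw [e5, Matrix.det_transpose]
      _ ≤ 2 ^ n * (2 ^ n * |(X'.submatrix J id).det|) := by gcongr
      _ = 4 ^ n * |(T.submatrix L J).det| := by
        rw [e6, show (4:ℝ) = 2 * 2 by norm_num, mul_pow]; ring
  calc (d.factorial : ℝ) ≤ 2 ^ k * ρ ^ d * |(Matrix.of (fun i j => B (f i) j)).det| := hf
    _ ≤ 2 ^ k * ρ ^ d * (4 ^ n * |(T.submatrix L J).det|) := by gcongr

end Pool.Agent.Helper99.Rad
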