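import Pool.Agent.Helper99.RadGiven
set_option autoImplicit false
set_option linter.unusedVariables false
namespace Pool.Agent.Helper99.Rad
open MeasureTheory

theorem sum_add_sq_le {ι : Type*} [Fintype ι] (u w : ι → ℝ) (α β : ℝ) (hα : 0 ≤ α) (hβ : 0 ≤ β)
    (hu : ∑ i, u i ^ 2 ≤ α ^ 2) (hw : ∑ i, w i ^ 2 ≤ β ^ 2) :
    ∑ i, (u i + w i) ^ 2 ≤ (α + β) ^ 2 := by
  have h1 : (∑ i, u i * w i) ^ 2 ≤ (∑ i, u i ^ 2) * ∑ i, w i ^ 2 :=
    Finset.sum_mul_sq_le_sq_mul_sq _ _ _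
  have h2 : (∑ i, u i * w i) ^ 2 ≤ (α * β) ^ 2 := by
    refine h1.trans ?_
    rw [mul_pow]
    exact mul_le_mul hu hw (Finset.sum_nonneg fun i _ => sq_nonneg _) (sq_nonneg _)
  have h3 : ∑ i, u i * w i ≤ α * β := le_of_sq_le_sq h2 (mul_nonneg hα hβ)
  have h4 : ∑ i, (u i + w i) ^ 2 = ∑ i, u i ^ 2 + 2 * ∑ i, u i * w i + ∑ i, w i ^ 2 := by
    rw [Finset.mul_sum, ← Finset.sum_add_distrib, ← Finset.sum_add_distrib]
    exact Finset.sum_congr rfl fun i _ => by ring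
  rw [h4]; nlinarith

/-- integer vectors in the box which differ from `ω` in at most `k` places -/
noncomputable def sparseSet (n k W : ℕ) (ω : Fin n → ℤ) : Finset (Fin n → ℤ) :=
  (Fintype.piFinset (fun _ : Fin n => Finset.Icc (-(W:ℤ)) (W:ℤ))).filter
      (fun v => (Finset.univ.filter (fun i => v i ≠ ω i)).card ≤ k)

/-- the small set in which a row has to lie -/
def smallSet (n k W M : ℕ) (a : ℝ) (T : Matrix (Fin n) (Fin n) ℝ) (ω : Fin M → Fin n → ℤ) :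
    Set (Fin n → ℝ) :=
  {g | ∃ t, ∃ v ∈ sparseSet n k W (ω t),
    ∑ i, ((∑ l, T l i * g l) - a * v i) ^ 2 ≤ (3 * a) ^ 2 * (n : ℝ)}

theorem partA (R0 a : ℝ) (hR0 : 1 ≤ R0) (ha : 0 < a) :
    ∃ M k : ℕ, ∀ (n N W : ℕ) (hn : 1 ≤ n)
      (hW : (2 * R0) * Real.sqrt n / a + 1 ≤ (W : ℝ))
      (G : Fin N → Fin n → ℝ)
      (hG : ∀ j i, |G j i| ≤ 1)
      (hop : ∀ x : Fin n → ℝ, (∀ i, |x i| ≤ 1) →
        ∑ j, (∑ i, G j i * x i) ^ 2 ≤ 49 * (N : ℝ) * (n : ℝ))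
      (T : Matrix (Fin n) (Fin n) ℝ) (F : (Fin n → Bool) → ℝ)
      (hF2 : ∀ ε j, |∑ l, G j l * ∑ i, (if ε i then (1:ℝ) else -1) * T l i|
        ≤ Real.sqrt n * F ε)
      (hF : ∑ ε, F ε ≤ R0 * 2 ^ n)
      (T' : Matrix (Fin n) (Fin n) ℝ)
      (hT' : ∀ l i, |T l i - T' l i| ≤ (a / 14) / Real.sqrt n),
      ∃ ω : Fin M → Fin n → ℤ, (∀ t i, |ω t i| ≤ (W : ℤ)) ∧
        ∃ s : Finset (Fin N), 3 * N ≤ 4 * s.card ∧ ∀ j ∈ s, G j ∈ smallSet n k W M a T' ω := by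
  obtain ⟨M, k, hMk⟩ := bern_structure (2 * R0) R0 a (by linarith) (by linarith) ha
  refine ⟨M, k, ?_⟩
  intro n N W hn hW G hG hop T F hF2 hF T' hT'
  have hn0 : (0 : ℝ) < n := by exact_mod_cast hn
  have hsn : 0 < Real.sqrt n := Real.sqrt_pos.mpr hn0
  have hsn2 : Real.sqrt n ^ 2 = n := Real.sq_sqrt hn0.le
  -- the vectors h
  set h : Fin N → Fin n → ℝ := fun j i => (∑ l, T l i * G j l) / Real.sqrt n with hh
  have hhF : ∀ ε j, |∑ i, (if ε i then (1:ℝ) else -1) * h j i| ≤ F ε := by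
    intro ε j
    have e1 : ∑ i, (if ε i then (1:ℝ) else -1) * h j i
        = (∑ l, G j l * ∑ i, (if ε i then (1:ℝ) else -1) * T l i) / Real.sqrt n := by
      simp only [hh, Finset.sum_div, Finset.mul_sum]
      rw [Finset.sum_comm]
      refine Finset.sum_congr rfl fun l _ => Finset.sum_congr rfl fun i _ => by ring
    rw [e1, abs_div, abs_of_pos hsn, div_le_iff₀ hsn]
    linarith [hF2 ε j]
  have h2n : (0:ℝ) < 2 ^ n := by positivity
  have hhA : ∀ j, ∑ i, h j i ^ 2 ≤ (2 * R0) ^ 2 := by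
    intro j
    have h1 := khinchine_lower (h j)
    have h2 : (∑ ε : Fin n → Bool, |∑ i, (if ε i then (1:ℝ) else -1) * h j i|) / 2 ^ n ≤ R0 := by
      rw [div_le_iff₀ h2n]
      exact (Finset.sum_le_sum fun ε _ => hhF ε j).trans hF
    have h3 : 0 ≤ (∑ ε : Fin n → Bool, |∑ i, (if ε i then (1:ℝ) else -1) * h j i|) / 2 ^ n := by
      positivity
    nlinarith
  obtain ⟨w, c, hw, hc⟩ := hMk n N h F hhA hhF hF
  refine ⟨fun t i => ⌊w t i / (a / Real.sqrt n)⌋, ?_, ?_⟩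
  · intro t i
    exact (discretise n 0 hn (2 * R0) a (by linarith) ha W hW (w t) (w t) (hw t) (hw t) ∅ (by simp)
      (by simp; positivity)).1 i
  -- good rows
  have hcol : ∀ i, ∑ j, (∑ l, G j l * (T l i - T' l i)) ^ 2 ≤ (a ^ 2 / 4) * N := by
    intro i
    have hq : 0 < (a / 14) / Real.sqrt n := by positivity
    have h1 := hop (fun l => (T l i - T' l i) / ((a / 14) / Real.sqrt n)) (by
      intro l
      rw [abs_div, abs_of_pos hq, div_le_one hq]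
      exact hT' l i)
    have h2 : ∀ j, (∑ l, G j l * (T l i - T' l i)) ^ 2
        = ((a / 14) / Real.sqrt n) ^ 2 *
          (∑ l, G j l * ((T l i - T' l i) / ((a / 14) / Real.sqrt n))) ^ 2 := by
      intro j
      rw [← mul_pow, Finset.mul_sum]
      congr 1
      refine Finset.sum_congr rfl fun l _ => ?_
      field_simp
    rw [Finset.sum_congr rfl fun j _ => h2 j, ← Finset.mul_sum]
    calc ((a / 14) / Real.sqrt n) ^ 2 * _ ≤ ((a / 14) / Real.sqrt n) ^ 2 * (49 * (N : ℝ) * (n : ℝ)) := by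
          gcongr
      _ = (a ^ 2 / 4) * N := by
          rw [div_pow, hsn2]; field_simp; ring
  have htot : ∑ j, ∑ i, (∑ l, G j l * (T l i - T' l i)) ^ 2 ≤ (a ^ 2 / 4) * N * n := by
    rw [Finset.sum_comm]
    calc ∑ i, ∑ j, (∑ l, G j l * (T l i - T' l i)) ^ 2 ≤ ∑ i : Fin n, (a ^ 2 / 4) * N :=
          Finset.sum_le_sum fun i _ => hcol i
      _ = (a ^ 2 / 4) * N * n := by simp; ring
  classical
  set s : Finset (Fin N) := Finset.univ.filter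
    (fun j => ∑ i, (∑ l, G j l * (T l i - T' l i)) ^ 2 ≤ a ^ 2 * n) with hs
  refine ⟨s, ?_, ?_⟩
  · have h1 : (sᶜ.card : ℝ) * (a ^ 2 * n) ≤ (a ^ 2 / 4) * N * n := by
      calc (sᶜ.card : ℝ) * (a ^ 2 * n) = ∑ j ∈ sᶜ, a ^ 2 * (n:ℝ) := by simp
        _ ≤ ∑ j ∈ sᶜ, ∑ i, (∑ l, G j l * (T l i - T' l i)) ^ 2 := by
            refine Finset.sum_le_sum fun j hj => ?_
            simp only [hs, Finset.mem_compl, Finset.mem_filter, Finset.mem_univ, true_and,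
              not_le] at hj
            exact hj.le
        _ ≤ ∑ j, ∑ i, (∑ l, G j l * (T l i - T' l i)) ^ 2 := by
            refine Finset.sum_le_sum_of_subset_of_nonneg (Finset.subset_univ _) fun j _ _ => ?_
            exact Finset.sum_nonneg fun i _ => sq_nonneg _
        _ ≤ _ := htot
    have h2 : (sᶜ.card : ℝ) ≤ N / 4 := by
      have : 0 < a ^ 2 * n := by positivity
      by_contra hcon
      push Not at hcon
      nlinarith
    have h3 : (sᶜ.card : ℝ) = N - s.card := by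
      rw [Finset.card_compl, Fintype.card_fin, Nat.cast_sub]
      exact (Finset.card_le_univ s).trans (by simp)
    have h4 : (3 * N : ℝ) ≤ 4 * s.card := by rw [h3] at h2; linarith
    exact_mod_cast h4
  · intro j hj
    simp only [hs, Finset.mem_filter, Finset.mem_univ, true_and] at hj
    obtain ⟨S, hSk, hSd⟩ := hc j
    obtain ⟨-, v, hv1, hv2, hv3⟩ := discretise n k hn (2 * R0) a (by linarith) ha W hW (h j)
      (w (c j)) (hhA j) (hw (c j)) S hSk hSd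
    refine ⟨c j, v, ?_, ?_⟩
    · simp only [sparseSet, Finset.mem_filter, Fintype.mem_piFinset, Finset.mem_Icc]
      refine ⟨fun i => abs_le.mp (hv1 i), ?_⟩
      convert hv2 using 2
    · have e1 : ∀ i, (∑ l, T' l i * G j l) - a * v i
          = (-(∑ l, G j l * (T l i - T' l i))) + Real.sqrt n * (h j i - (a / Real.sqrt n) * v i) := by
        intro i
        have : Real.sqrt n * h j i = ∑ l, T l i * G j l := by
          simp only [hh]; field_simp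
        rw [mul_sub, this, ← mul_assoc, mul_div_cancel₀ _ hsn.ne']
        have : ∑ l, G j l * (T l i - T' l i) = ∑ l, T l i * G j l - ∑ l, T' l i * G j l := by
          rw [← Finset.sum_sub_distrib]
          exact Finset.sum_congr rfl fun l _ => by ring
        rw [this]; ring
      rw [Finset.sum_congr rfl fun i _ => by rw [e1 i]]
      have h5 : ∑ i, (-(∑ l, G j l * (T l i - T' l i))) ^ 2 ≤ (a * Real.sqrt n) ^ 2 := by
        rw [mul_pow, hsn2]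
        simpa using hj
      have h6 : ∑ i, (Real.sqrt n * (h j i - (a / Real.sqrt n) * v i)) ^ 2
          ≤ (2 * a * Real.sqrt n) ^ 2 := by
        calc ∑ i, (Real.sqrt n * (h j i - (a / Real.sqrt n) * v i)) ^ 2
            = Real.sqrt n ^ 2 * ∑ i, (h j i - (a / Real.sqrt n) * v i) ^ 2 := by
              rw [Finset.mul_sum]
              exact Finset.sum_congr rfl fun i _ => by ring
          _ ≤ Real.sqrt n ^ 2 * (2 * a) ^ 2 := by gcongr
          _ = _ := by ring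
      have h7 := sum_add_sq_le _ _ _ _ (by positivity) (by positivity) h5 h6
      refine h7.trans (le_of_eq ?_)
      have : (3 * a) ^ 2 * (n:ℝ) = (3 * a) ^ 2 * Real.sqrt n ^ 2 := by rw [hsn2]
      rw [this]; ring


theorem vol_smallSet (m n d k W M : ℕ) (hm : 1 ≤ m) (hd : d = 2 * m) (hn : n = 4 * m)
    (a : ℝ) (ha : 0 < a) (T : Matrix (Fin n) (Fin n) ℝ) (L J : Fin d ↪ Fin n)
    (hdet : 1 ≤ |(T.submatrix L J).det|) (ω : Fin M → Fin n → ℤ) :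
    volume (smallSet n k W M a T ω ∩ {g | ∀ i, |g i| ≤ 1})
      ≤ ENNReal.ofReal (((M * (n * (2 * W + 1)) ^ k : ℕ) : ℝ) * (81 * a ^ 2) ^ m * 2 ^ n) := by
  have hn1 : 0 < n := by omega
  set c : ℝ := (9 * (3 * a) ^ 2) ^ m * 2 ^ n with hc
  have hc0 : 0 ≤ c := by positivity
  have hsub : smallSet n k W M a T ω ∩ {g | ∀ i, |g i| ≤ 1} ⊆
      ⋃ t ∈ (Finset.univ : Finset (Fin M)), ⋃ v ∈ sparseSet n k W (ω t),
        {g : Fin n → ℝ | (∀ i, |g i| ≤ 1) ∧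
          ∑ i, ((∑ l, T l i * g l) - a * v i) ^ 2 ≤ (3 * a) ^ 2 * (n : ℝ)} := by
    rintro g ⟨⟨t, v, hv, hg⟩, hg1⟩
    simp only [Set.mem_iUnion]
    exact ⟨t, Finset.mem_univ _, v, hv, hg1, hg⟩
  refine (measure_mono hsub).trans ((measure_biUnion_finset_le _ _).trans ?_)
  have h1 : ∀ t : Fin M, volume (⋃ v ∈ sparseSet n k W (ω t),
        {g : Fin n → ℝ | (∀ i, |g i| ≤ 1) ∧
          ∑ i, ((∑ l, T l i * g l) - a * v i) ^ 2 ≤ (3 * a) ^ 2 * (n : ℝ)})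
        ≤ ENNReal.ofReal (((n * (2 * W + 1)) ^ k : ℕ) * c) := by
    intro t
    refine (measure_biUnion_finset_le _ _).trans ?_
    calc ∑ v ∈ sparseSet n k W (ω t), volume {g : Fin n → ℝ | (∀ i, |g i| ≤ 1) ∧
          ∑ i, ((∑ l, T l i * g l) - a * v i) ^ 2 ≤ (3 * a) ^ 2 * (n : ℝ)}
        ≤ ∑ v ∈ sparseSet n k W (ω t), ENNReal.ofReal c :=
          Finset.sum_le_sum fun v _ =>
            small_ball m n d hd hn T L J hdet (fun i => a * v i) (3 * a) (by positivity)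
      _ = ((sparseSet n k W (ω t)).card : ENNReal) * ENNReal.ofReal c := by
          rw [Finset.sum_const, nsmul_eq_mul]
      _ ≤ (((n * (2 * W + 1)) ^ k : ℕ) : ENNReal) * ENNReal.ofReal c := by
          gcongr
          exact card_sparse n k W hn1 (ω t)
      _ = ENNReal.ofReal (((n * (2 * W + 1)) ^ k : ℕ) * c) := by
          rw [← ENNReal.ofReal_natCast, ← ENNReal.ofReal_mul (by positivity)]
  calc ∑ t : Fin M, _ ≤ ∑ t : Fin M, ENNReal.ofReal (((n * (2 * W + 1)) ^ k : ℕ) * c) :=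
        Finset.sum_le_sum fun t _ => h1 t
    _ = (M : ENNReal) * ENNReal.ofReal (((n * (2 * W + 1)) ^ k : ℕ) * c) := by
        simp
    _ = ENNReal.ofReal (((M * (n * (2 * W + 1)) ^ k : ℕ) : ℝ) * (81 * a ^ 2) ^ m * 2 ^ n) := by
        rw [← ENNReal.ofReal_natCast, ← ENNReal.ofReal_mul (by positivity)]
        congr 1
        rw [hc]
        push_cast
        rw [show 9 * (3 * a) ^ 2 = 81 * a ^ 2 by ring]
        ring

/-- admissible matrices in a given cell -/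
def Rep (n d : ℕ) (R0 q : ℝ) (L J : Fin d ↪ Fin n) (z : Fin n × Fin n → ℤ)
    (T : Matrix (Fin n) (Fin n) ℝ) : Prop :=
  (∀ l, ∑ i, T l i ^ 2 ≤ 3 * R0 ^ 2) ∧ 1 ≤ |(T.submatrix L J).det| ∧
    ∀ l i, ⌊T l i / q⌋ = z (l, i)

/-- bad matrices `G` -/
def badSet (n N d r k W M : ℕ) (R0 q a : ℝ) (L J : Fin d ↪ Fin n) (z : Fin n × Fin n → ℤ)
    (ω : Fin M → Fin n → ℤ) : Set (Fin N → Fin n → ℝ) :=
  {G | (∀ j i, |G j i| ≤ 1) ∧ ∃ hr : ∃ T, Rep n d R0 q L J z T,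
    ∃ s : Finset (Fin N), r ≤ s.card ∧ ∀ j ∈ s, G j ∈ smallSet n k W M a (Classical.choose hr) ω}

theorem vol_badSet (m n N d r k W M : ℕ) (hm : 1 ≤ m) (hd : d = 2 * m) (hn : n = 4 * m)
    (R0 q a : ℝ) (ha : 0 < a) (L J : Fin d ↪ Fin n) (z : Fin n × Fin n → ℤ)
    (ω : Fin M → Fin n → ℤ) :
    volume (badSet n N d r k W M R0 q a L J z ω)
      ≤ ENNReal.ofReal (2 ^ N * (((M * (n * (2 * W + 1)) ^ k : ℕ) : ℝ) * (81 * a ^ 2) ^ m) ^ r
          * 2 ^ (N * n)) := by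
  by_cases hr : ∃ T, Rep n d R0 q L J z T
  · have hs := Classical.choose_spec hr
    refine (measure_mono ?_).trans (many_in N n r (smallSet n k W M a (Classical.choose hr) ω) _
      (by positivity) (vol_smallSet m n d k W M hm hd hn a ha _ L J hs.2.1 ω))
    rintro G ⟨hG, hr', s, hs1, hs2⟩
    exact ⟨hG, s, hs1, hs2⟩
  · have : badSet n N d r k W M R0 q a L J z ω = ∅ := by
      ext G
      simp only [badSet, Set.mem_ofPred_eq, Set.mem_empty_iff_false, iff_false]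
      rintro ⟨_, hr', _⟩
      exact hr hr'
    rw [this]; simp


/-- integer matrices of bounded Hilbert-Schmidt norm -/
noncomputable def zSet (n : ℕ) (ρ : ℝ) : Finset (Fin n × Fin n → ℤ) :=
  (Fintype.piFinset (fun _ : Fin n × Fin n =>
    Finset.Icc (-(⌈ρ * n⌉₊ : ℤ)) (⌈ρ * n⌉₊ : ℤ))).filter
      (fun z => ∑ i, (z i : ℝ) ^ 2 ≤ ρ ^ 2 * (Fintype.card (Fin n × Fin n) : ℝ))

theorem card_zSet (n : ℕ) (ρ : ℝ) (hρ : 1 ≤ ρ) :
    ((zSet n ρ).card : ℝ) ≤ (11 * ρ) ^ (n * n) := by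
  have h := card_int (ι := Fin n × Fin n) ρ hρ (zSet n ρ) (fun z hz => (Finset.mem_filter.mp hz).2)
  simpa using h

theorem mem_zSet (n : ℕ) (hn : 1 ≤ n) (ρ : ℝ) (hρ : 1 ≤ ρ) (z : Fin n × Fin n → ℤ)
    (hz : ∑ i, (z i : ℝ) ^ 2 ≤ ρ ^ 2 * ((n : ℝ) * n)) : z ∈ zSet n ρ := by
  have hz' : ∑ i, (z i : ℝ) ^ 2 ≤ ρ ^ 2 * (Fintype.card (Fin n × Fin n) : ℝ) := by
    simpa using hz
  refine Finset.mem_filter.mpr ⟨?_, hz'⟩
  rw [Fintype.mem_piFinset]
  intro i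
  rw [Finset.mem_Icc, ← abs_le]
  have h1 : (z i : ℝ) ^ 2 ≤ (ρ * n) ^ 2 := by
    calc (z i : ℝ) ^ 2 ≤ ∑ i, (z i : ℝ) ^ 2 :=
          Finset.single_le_sum (f := fun i => (z i : ℝ) ^ 2) (fun i _ => sq_nonneg _)
            (Finset.mem_univ i)
      _ ≤ ρ ^ 2 * ((n : ℝ) * n) := hz
      _ = (ρ * n) ^ 2 := by ring
  have h2 : |(z i : ℝ)| ≤ ρ * n := abs_le_of_sq_le_sq h1 (by positivity)
  have h3 : |(z i : ℝ)| ≤ (⌈ρ * n⌉₊ : ℝ) := h2.trans (Nat.le_ceil _)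
  exact_mod_cast h3

/-- boxes of integer vectors -/
noncomputable def omSet (n M W : ℕ) : Finset (Fin M → Fin n → ℤ) :=
  Fintype.piFinset (fun _ : Fin M => Fintype.piFinset
    (fun _ : Fin n => Finset.Icc (-(W:ℤ)) (W:ℤ)))

theorem card_omSet (n M W : ℕ) : (omSet n M W).card = (2 * W + 1) ^ (n * M) := by
  simp only [omSet, Fintype.card_piFinset_const, Int.card_Icc]
  rw [← pow_mul]
  congr 1
  omega

theorem mem_omSet (n M W : ℕ) (ω : Fin M → Fin n → ℤ) (h : ∀ t i, |ω t i| ≤ (W : ℤ)) :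
    ω ∈ omSet n M W := by
  simp only [omSet, Fintype.mem_piFinset, Finset.mem_Icc]
  exact fun t i => abs_le.mp (h t i)

theorem card_emb (n d : ℕ) : Fintype.card (Fin d ↪ Fin n) ≤ n ^ d := by
  rw [Fintype.card_embedding_eq]
  simpa using Nat.descFactorial_le_pow n d


theorem key_const (R0 a : ℝ) (hR0 : 1 ≤ R0) (ha : a = 1 / (2 * 10 ^ 8 * R0 ^ 2)) :
    (11 * (40 * R0 / a)) ^ 16 * (81 * a ^ 2) ^ 12 ≤ 1 / 2 := by
  have hR : (0:ℝ) < R0 := by linarith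
  have h1 : (11 * (40 * R0 / a)) ^ 16 * (81 * a ^ 2) ^ 12
      = 440 ^ 16 * 81 ^ 12 / (2 * 10 ^ 8) ^ 8 := by
    rw [ha]; field_simp; norm_num
  rw [h1]; norm_num

theorem total_bound (m n d N r W w M k : ℕ) (R0 a : ℝ) (hR0 : 1 ≤ R0)
    (ha : a = 1 / (2 * 10 ^ 8 * R0 ^ 2))
    (hd : d = 2 * m) (hn : n = 4 * m) (hN : N = 16 * m) (hr : r = 12 * m) (hW : W = w * m)
    (hnum : 4 * ((4 * m) ^ (4 * m) * (2 * (w * m) + 1) ^ (4 * m * M) * 2 ^ (16 * m) *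
        (M * (4 * m * (2 * (w * m) + 1)) ^ k) ^ (12 * m)) ≤ 2 ^ (m ^ 2)) :
    ((n:ℝ) ^ d * (n:ℝ) ^ d * (11 * (40 * R0 / a)) ^ (n * n) * ((2 * W + 1) ^ (n * M) : ℕ)) *
      (2 ^ N * (((M * (n * (2 * W + 1)) ^ k : ℕ) : ℝ) * (81 * a ^ 2) ^ m) ^ r) ≤ 1 / 4 := by
  have hnum' : (4:ℝ) * (((4 * m : ℕ):ℝ) ^ (4 * m) * ((2 * (w * m) + 1 : ℕ) : ℝ) ^ (4 * m * M) *
      2 ^ (16 * m) * ((M * (4 * m * (2 * (w * m) + 1)) ^ k : ℕ) : ℝ) ^ (12 * m)) ≤ 2 ^ (m ^ 2) := by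
    exact_mod_cast hnum
  have hk := key_const R0 a hR0 ha
  have ha0 : 0 < a := by rw [ha]; positivity
  have hR : (0:ℝ) < R0 := by linarith
  have hk2 : ((11 * (40 * R0 / a)) ^ 16 * (81 * a ^ 2) ^ 12) ^ (m ^ 2) ≤ (1 / 2) ^ (m ^ 2) :=
    pow_le_pow_left₀ (by positivity) hk _
  have e : ((n:ℝ) ^ d * (n:ℝ) ^ d * (11 * (40 * R0 / a)) ^ (n * n) * ((2 * W + 1) ^ (n * M) : ℕ)) *
      (2 ^ N * (((M * (n * (2 * W + 1)) ^ k : ℕ) : ℝ) * (81 * a ^ 2) ^ m) ^ r)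
      = (((4 * m : ℕ):ℝ) ^ (4 * m) * ((2 * (w * m) + 1 : ℕ) : ℝ) ^ (4 * m * M) *
      2 ^ (16 * m) * ((M * (4 * m * (2 * (w * m) + 1)) ^ k : ℕ) : ℝ) ^ (12 * m)) *
      ((11 * (40 * R0 / a)) ^ 16 * (81 * a ^ 2) ^ 12) ^ (m ^ 2) := by
    subst hn hd hN hr hW
    have e1 : (((4 * m : ℕ):ℝ)) ^ (2 * m) * ((4 * m : ℕ):ℝ) ^ (2 * m) = ((4 * m : ℕ):ℝ) ^ (4 * m) := by
      rw [← pow_add]; congr 1; ring
    have e2 : (11 * (40 * R0 / a)) ^ (4 * m * (4 * m)) = ((11 * (40 * R0 / a)) ^ 16) ^ (m ^ 2) := by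
      rw [← pow_mul]; congr 1; ring
    have e3 : ((81 * a ^ 2) ^ m) ^ (12 * m) = ((81 * a ^ 2) ^ 12) ^ (m ^ 2) := by
      rw [← pow_mul, ← pow_mul]; congr 1; ring
    rw [e1, e2, mul_pow (((M * (4 * m * (2 * (w * m) + 1)) ^ k : ℕ) : ℝ)) _ (12 * m), e3,
      mul_pow ((11 * (40 * R0 / a)) ^ 16) _ (m ^ 2), Nat.cast_pow (2 * (w * m) + 1)]
    ring
  rw [e]
  have h4 : (((4 * m : ℕ):ℝ) ^ (4 * m) * ((2 * (w * m) + 1 : ℕ) : ℝ) ^ (4 * m * M) *
      2 ^ (16 * m) * ((M * (4 * m * (2 * (w * m) + 1)) ^ k : ℕ) : ℝ) ^ (12 * m))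
      ≤ 2 ^ (m ^ 2) / 4 := by linarith
  calc _ ≤ (2 ^ (m ^ 2) / 4 : ℝ) * (1 / 2) ^ (m ^ 2) := by
        apply mul_le_mul h4 hk2 (by positivity) (by positivity)
    _ = 1 / 4 := by
        rw [one_div, inv_pow]; field_simp

theorem floor_sq_le (x : ℝ) : ((⌊x⌋ : ℤ) : ℝ) ^ 2 ≤ 2 * x ^ 2 + 2 := by
  have h1 := Int.floor_le x
  have h2 := Int.lt_floor_add_one x
  nlinarith [sq_nonneg ((⌊x⌋ : ℝ) - 2 * x), sq_nonneg ((⌊x⌋ : ℝ) - x)]

theorem primal_side (R0 : ℝ) (hR0 : 1 ≤ R0) :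
    ∃ m n d N : ℕ, 1 ≤ m ∧ d = 2 * m ∧ n = 4 * m ∧ N = 16 * m ∧
      ∃ G : Fin N → Fin n → ℝ, (∀ j i, |G j i| ≤ 1) ∧
      ∀ (T : Matrix (Fin n) (Fin n) ℝ) (L J : Fin d ↪ Fin n), 1 ≤ |(T.submatrix L J).det| →
      ∀ F : (Fin n → Bool) → ℝ,
        (∀ ε l, |∑ i, (if ε i then (1:ℝ) else -1) * T l i| ≤ F ε) →
        (∀ ε j, |∑ l, G j l * ∑ i, (if ε i then (1:ℝ) else -1) * T l i|
          ≤ Real.sqrt n * F ε) →
        R0 * 2 ^ n < ∑ ε, F ε := by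
  classical
  have hR : (0:ℝ) < R0 := by linarith
  obtain ⟨a, ha⟩ : ∃ a : ℝ, a = 1 / (2 * 10 ^ 8 * R0 ^ 2) := ⟨_, rfl⟩
  have ha0 : 0 < a := by rw [ha]; positivity
  have ha1 : a ≤ 1 := by
    rw [ha, div_le_one (by positivity)]
    nlinarith
  obtain ⟨M, k, hA⟩ := partA R0 a hR0 ha0
  obtain ⟨w, hw⟩ := exists_nat_ge (4 * R0 / a + 1)
  obtain ⟨m, -, hm, hnum⟩ := numeric_m w M k 0
  obtain ⟨n, hn⟩ : ∃ n, n = 4 * m := ⟨_, rfl⟩
  obtain ⟨d, hd⟩ : ∃ d, d = 2 * m := ⟨_, rfl⟩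
  obtain ⟨N, hN⟩ : ∃ N, N = 16 * m := ⟨_, rfl⟩
  obtain ⟨r, hr⟩ : ∃ r, r = 12 * m := ⟨_, rfl⟩
  obtain ⟨W, hW⟩ : ∃ W, W = w * m := ⟨_, rfl⟩
  have hn1 : 1 ≤ n := by omega
  have hn0 : (0:ℝ) < n := by exact_mod_cast hn1
  have hsn : 0 < Real.sqrt n := Real.sqrt_pos.mpr hn0
  have hsn2 : Real.sqrt n ^ 2 = n := Real.sq_sqrt hn0.le
  obtain ⟨q, hq⟩ : ∃ q : ℝ, q = (a / 14) / Real.sqrt n := ⟨_, rfl⟩
  have hq0 : 0 < q := by rw [hq]; positivity
  obtain ⟨ρ, hρ⟩ : ∃ ρ : ℝ, ρ = 40 * R0 / a := ⟨_, rfl⟩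
  have hRa : 1 ≤ R0 / a := by rw [le_div_iff₀ ha0]; linarith
  have hρ1 : 1 ≤ ρ := by
    rw [hρ, mul_div_assoc]; linarith
  have htot := total_bound m n d N r W w M k R0 a hR0 ha hd hn hN hr hW hnum
  refine ⟨m, n, d, N, hm, hd, hn, hN, ?_⟩
  -- the bad sets
  set opBad : Set (Fin N → Fin n → ℝ) := {G : Fin N → Fin n → ℝ | (∀ j i, |G j i| ≤ 1) ∧
      ∃ x : Fin n → ℝ, (∀ i, |x i| ≤ 1) ∧
        49 * (N : ℝ) * (n : ℝ) < ∑ j, (∑ i, G j i * x i) ^ 2} with hop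
  set I : Finset (((Fin d ↪ Fin n) × (Fin d ↪ Fin n)) × ((Fin n × Fin n → ℤ) × (Fin M → Fin n → ℤ))) :=
    Finset.univ ×ˢ (zSet n ρ ×ˢ omSet n M W) with hI
  set bad : Set (Fin N → Fin n → ℝ) := ⋃ x ∈ I,
    badSet n N d r k W M R0 q a x.1.1 x.1.2 x.2.1 x.2.2 with hbad
  have hv1 : volume opBad ≤ ENNReal.ofReal (2 ^ (N * n) / 4) :=
    opnorm_cube N n hn1 (by omega)
  have hv2 : volume bad ≤ ENNReal.ofReal (2 ^ (N * n) / 4) := by
    refine (measure_biUnion_finset_le _ _).trans ?_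
    set c : ℝ := 2 ^ N * (((M * (n * (2 * W + 1)) ^ k : ℕ) : ℝ) * (81 * a ^ 2) ^ m) ^ r with hc
    have hc0 : 0 ≤ c := by positivity
    calc ∑ x ∈ I, volume (badSet n N d r k W M R0 q a x.1.1 x.1.2 x.2.1 x.2.2)
        ≤ ∑ x ∈ I, ENNReal.ofReal (c * 2 ^ (N * n)) :=
          Finset.sum_le_sum fun x _ => vol_badSet m n N d r k W M hm hd hn R0 q a ha0 _ _ _ _
      _ = (I.card : ENNReal) * ENNReal.ofReal (c * 2 ^ (N * n)) := by
          rw [Finset.sum_const, nsmul_eq_mul]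
      _ = ENNReal.ofReal (I.card * (c * 2 ^ (N * n))) := by
          rw [← ENNReal.ofReal_natCast, ← ENNReal.ofReal_mul (by positivity)]
      _ ≤ ENNReal.ofReal (2 ^ (N * n) / 4) := by
          apply ENNReal.ofReal_le_ofReal
          have hcard : (I.card : ℝ) ≤ (n:ℝ) ^ d * (n:ℝ) ^ d * (11 * ρ) ^ (n * n) *
              ((2 * W + 1) ^ (n * M) : ℕ) := by
            rw [hI, Finset.card_product, Finset.card_product, card_omSet, Finset.card_univ,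
              Fintype.card_prod]
            have h1 : (Fintype.card (Fin d ↪ Fin n) : ℝ) ≤ (n:ℝ) ^ d := by
              exact_mod_cast card_emb n d
            have h2 := card_zSet n ρ hρ1
            push_cast
            calc (Fintype.card (Fin d ↪ Fin n) : ℝ) * (Fintype.card (Fin d ↪ Fin n) : ℝ) *
                (((zSet n ρ).card : ℝ) * (2 * W + 1) ^ (n * M))
                = (Fintype.card (Fin d ↪ Fin n) : ℝ) * (Fintype.card (Fin d ↪ Fin n) : ℝ) *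
                ((zSet n ρ).card : ℝ) * (2 * W + 1) ^ (n * M) := by ring
              _ ≤ (n:ℝ) ^ d * (n:ℝ) ^ d * (11 * ρ) ^ (n * n) * (2 * W + 1) ^ (n * M) := by
                  gcongr
          rw [hρ] at hcard
          have h3 : (I.card : ℝ) * c ≤ 1 / 4 :=
            (mul_le_mul_of_nonneg_right hcard hc0).trans htot
          have h4 : (0:ℝ) < 2 ^ (N * n) := by positivity
          nlinarith
  have hex : ∃ G : Fin N → Fin n → ℝ, (∀ j i, |G j i| ≤ 1) ∧ G ∉ opBad ∧ G ∉ bad := by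
    by_contra hcon
    push Not at hcon
    have hsub : {G : Fin N → Fin n → ℝ | ∀ j i, |G j i| ≤ 1} ⊆ opBad ∪ bad := by
      intro G hG
      by_cases h : G ∈ opBad
      · exact Or.inl h
      · exact Or.inr (hcon G hG h)
    have h1 := (measure_mono hsub).trans (measure_union_le (μ := volume) opBad bad)
    rw [volume_cube] at h1
    have h2 : ENNReal.ofReal (2 ^ (N * n)) ≤ ENNReal.ofReal (2 ^ (N * n) / 4 + 2 ^ (N * n) / 4) := by
      rw [ENNReal.ofReal_add (by positivity) (by positivity)]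
      exact h1.trans (add_le_add hv1 hv2)
    have h4 : (0:ℝ) < 2 ^ (N * n) := by positivity
    rw [ENNReal.ofReal_le_ofReal_iff (by positivity)] at h2
    linarith
  obtain ⟨G, hG1, hG2, hG3⟩ := hex
  refine ⟨G, hG1, ?_⟩
  intro T L J hdet F hF1 hF2
  by_contra hcon
  push Not at hcon
  apply hG3
  have h2n : (0:ℝ) < 2 ^ n := by positivity
  -- rows of T
  have hrow : ∀ l, ∑ i, T l i ^ 2 ≤ 3 * R0 ^ 2 := by
    intro l
    have h1 := khinchine_lower (T l)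
    have h2 : (∑ ε : Fin n → Bool, |∑ i, (if ε i then (1:ℝ) else -1) * T l i|) / 2 ^ n ≤ R0 := by
      rw [div_le_iff₀ h2n]
      exact (Finset.sum_le_sum fun ε _ => hF1 ε l).trans hcon
    have h3 : 0 ≤ (∑ ε : Fin n → Bool, |∑ i, (if ε i then (1:ℝ) else -1) * T l i|) / 2 ^ n := by
      positivity
    nlinarith
  set z : Fin n × Fin n → ℤ := fun x => ⌊T x.1 x.2 / q⌋ with hz
  have hrep : ∃ T, Rep n d R0 q L J z T := ⟨T, hrow, hdet, fun l i => rfl⟩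
  have hs := Classical.choose_spec hrep
  set T' := Classical.choose hrep with hT'
  have hcell : ∀ l i, |T l i - T' l i| ≤ (a / 14) / Real.sqrt n := by
    intro l i
    rw [← hq]
    have h1 : ⌊T' l i / q⌋ = ⌊T l i / q⌋ := hs.2.2 l i
    have h2 := Int.abs_sub_lt_one_of_floor_eq_floor h1.symm
    rw [← sub_div, abs_div, abs_of_pos hq0, div_lt_one hq0] at h2
    exact h2.le
  have hW' : (2 * R0) * Real.sqrt n / a + 1 ≤ (W : ℝ) := by
    have h1 : Real.sqrt n ≤ 2 * m := by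
      rw [Real.sqrt_le_left (by positivity), hn]
      push_cast
      have : (1:ℝ) ≤ m := by exact_mod_cast hm
      nlinarith
    have h2 : (2 * R0) * Real.sqrt n / a ≤ (4 * R0 / a) * m := by
      have : (2 * R0) * Real.sqrt n / a ≤ (2 * R0) * (2 * m) / a := by gcongr
      refine this.trans (le_of_eq (by ring))
    have h3 : (1:ℝ) ≤ m := by exact_mod_cast hm
    calc (2 * R0) * Real.sqrt n / a + 1 ≤ (4 * R0 / a) * m + m := by linarith
      _ = (4 * R0 / a + 1) * m := by ring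
      _ ≤ w * m := by gcongr
      _ = W := by rw [hW]; push_cast; ring
  have hop' : ∀ x : Fin n → ℝ, (∀ i, |x i| ≤ 1) →
        ∑ j, (∑ i, G j i * x i) ^ 2 ≤ 49 * (N : ℝ) * (n : ℝ) := by
    intro x hx
    by_contra hc
    push Not at hc
    exact hG2 ⟨hG1, x, hx, hc⟩
  obtain ⟨ω, hω, s, hs1, hs2⟩ := hA n N W hn1 hW' G hG1 hop' T F hF2 hcon T' hcell
  have hzmem : z ∈ zSet n ρ := by
    apply mem_zSet n hn1 ρ hρ1
    rw [Fintype.sum_prod_type]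
    have h1 : ∀ l, ∑ i, ((z (l, i) : ℤ) : ℝ) ^ 2 ≤ (1176 * R0 ^ 2 / a ^ 2 + 2) * n := by
      intro l
      calc ∑ i, ((z (l, i) : ℤ) : ℝ) ^ 2 ≤ ∑ i, (2 * (T l i / q) ^ 2 + 2) :=
            Finset.sum_le_sum fun i _ => floor_sq_le _
        _ = (2 / q ^ 2) * ∑ i, T l i ^ 2 + 2 * n := by
            rw [Finset.sum_add_distrib, Finset.mul_sum]
            congr 1
            · exact Finset.sum_congr rfl fun i _ => by field_simp
            · simp; ring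
        _ ≤ (2 / q ^ 2) * (3 * R0 ^ 2) + 2 * n := by
            have := hrow l
            gcongr
        _ = (1176 * R0 ^ 2 / a ^ 2 + 2) * n := by
            rw [hq, div_pow, hsn2]
            field_simp
            ring
    calc ∑ l, ∑ i, ((z (l, i) : ℤ) : ℝ) ^ 2 ≤ ∑ l : Fin n, (1176 * R0 ^ 2 / a ^ 2 + 2) * n :=
          Finset.sum_le_sum fun l _ => h1 l
      _ = (1176 * R0 ^ 2 / a ^ 2 + 2) * (n * n) := by simp; ring
      _ ≤ ρ ^ 2 * (n * n) := by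
          gcongr
          rw [hρ, div_pow, mul_pow]
          have h5 : 1 ≤ R0 ^ 2 / a ^ 2 := by rw [← div_pow]; exact one_le_pow₀ hRa
          have e1 : 1176 * R0 ^ 2 / a ^ 2 = 1176 * (R0 ^ 2 / a ^ 2) := by ring
          have e2 : 40 ^ 2 * R0 ^ 2 / a ^ 2 = 1600 * (R0 ^ 2 / a ^ 2) := by ring
          rw [e1, e2]; linarith
  rw [hbad, Set.mem_iUnion₂]
  refine ⟨((L, J), (z, ω)), ?_, ?_⟩
  · simp only [hI, Finset.mem_product, Finset.mem_univ, true_and]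
    exact ⟨hzmem, mem_omSet n M W ω hω⟩
  · exact ⟨hG1, hrep, s, by omega, hs2⟩

end Pool.Agent.Helper99.Rad
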