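import Pool.Agent.Helper99.RadDual
import Pool.Agent.Helper99.RadPrimal
set_option autoImplicit false
set_option linter.unusedVariables false
namespace Pool.Agent.Helper99.Rad

/-- the norm given by finitely many functionals -/
noncomputable def nrm {k n : ℕ} (p : Fin k → Fin n → ℝ) (x : EuclideanSpace ℝ (Fin n)) : ℝ :=
  ⨆ j : Fin k, |∑ l, p j l * x l|

theorem le_nrm {k n : ℕ} (p : Fin k → Fin n → ℝ) (x : EuclideanSpace ℝ (Fin n)) (j : Fin k) :
    |∑ l, p j l * x l| ≤ nrm p x :=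
  le_ciSup (f := fun j : Fin k => |∑ l, p j l * x l|) (Set.finite_range _).bddAbove j

theorem nrm_attained {k n : ℕ} (hk : 0 < k) (p : Fin k → Fin n → ℝ)
    (x : EuclideanSpace ℝ (Fin n)) : ∃ j, nrm p x = |∑ l, p j l * x l| := by
  have : Nonempty (Fin k) := ⟨⟨0, hk⟩⟩
  obtain ⟨j, hj⟩ := exists_eq_ciSup_of_finite (f := fun j : Fin k => |∑ l, p j l * x l|)
  exact ⟨j, hj.symm⟩

theorem nrm_nonneg {k n : ℕ} (p : Fin k → Fin n → ℝ) (x : EuclideanSpace ℝ (Fin n)) :
    0 ≤ nrm p x := Real.iSup_nonneg fun j => abs_nonneg _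

theorem nrm_smul {k n : ℕ} (p : Fin k → Fin n → ℝ) (c : ℝ) (x : EuclideanSpace ℝ (Fin n)) :
    nrm p (c • x) = |c| * nrm p x := by
  unfold nrm
  rw [Real.mul_iSup_of_nonneg (abs_nonneg c)]
  congr 1
  ext j
  rw [← abs_mul, Finset.mul_sum]
  congr 1
  refine Finset.sum_congr rfl fun l _ => ?_
  simp only [PiLp.smul_apply, smul_eq_mul]
  ring

theorem nrm_add {k n : ℕ} (hk : 0 < k) (p : Fin k → Fin n → ℝ)
    (x y : EuclideanSpace ℝ (Fin n)) : nrm p (x + y) ≤ nrm p x + nrm p y := by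
  obtain ⟨j, hj⟩ := nrm_attained hk p (x + y)
  rw [hj]
  have : ∑ l, p j l * (x + y) l = ∑ l, p j l * x l + ∑ l, p j l * y l := by
    rw [← Finset.sum_add_distrib]
    refine Finset.sum_congr rfl fun l _ => ?_
    simp only [PiLp.add_apply]
    ring
  rw [this]
  exact (abs_add_le _ _).trans (add_le_add (le_nrm p x j) (le_nrm p y j))

/-- The functionals: the scaled rows and the coordinates. -/
noncomputable def fam {N n : ℕ} (G : Fin N → Fin n → ℝ) : Fin (N + n) → Fin n → ℝ :=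
  Fin.append (fun j l => G j l / Real.sqrt n) (fun i l => if i = l then 1 else 0)

theorem fam_left {N n : ℕ} (G : Fin N → Fin n → ℝ) (j : Fin N) :
    fam G (Fin.castAdd n j) = fun l => G j l / Real.sqrt n := by
  simp [fam]

theorem fam_right {N n : ℕ} (G : Fin N → Fin n → ℝ) (i : Fin n) :
    fam G (Fin.natAdd N i) = fun l => if i = l then 1 else 0 := by
  simp [fam]

theorem fam_norm {N n : ℕ} (hn : 1 ≤ n) (G : Fin N → Fin n → ℝ) (hG : ∀ j i, |G j i| ≤ 1)
    (j : Fin (N + n)) : ∑ l, fam G j l ^ 2 ≤ 1 := by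
  have hn0 : (0:ℝ) < n := by exact_mod_cast hn
  refine Fin.addCases (fun j => ?_) (fun i => ?_) j
  · rw [fam_left]
    have h1 : ∀ l, (G j l / Real.sqrt n) ^ 2 ≤ 1 / n := by
      intro l
      rw [div_pow, Real.sq_sqrt hn0.le]
      have := (sq_le_one_iff_abs_le_one (G j l)).mpr (hG j l)
      gcongr
    calc ∑ l, (G j l / Real.sqrt n) ^ 2 ≤ ∑ l : Fin n, (1 / n : ℝ) :=
          Finset.sum_le_sum fun l _ => h1 l
      _ = 1 := by simp; field_simp
  · rw [fam_right]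
    simp

theorem coord_le_nrm {N n : ℕ} (G : Fin N → Fin n → ℝ) (x : EuclideanSpace ℝ (Fin n))
    (l : Fin n) : |x l| ≤ nrm (fam G) x := by
  have h := le_nrm (fam G) x (Fin.natAdd N l)
  rw [fam_right] at h
  simpa using h

theorem row_le_nrm {N n : ℕ} (hn : 1 ≤ n) (G : Fin N → Fin n → ℝ)
    (x : EuclideanSpace ℝ (Fin n)) (j : Fin N) :
    |∑ l, G j l * x l| ≤ Real.sqrt n * nrm (fam G) x := by
  have hn0 : (0:ℝ) < n := by exact_mod_cast hn
  have hs : 0 < Real.sqrt n := Real.sqrt_pos.mpr hn0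
  have h := le_nrm (fam G) x (Fin.castAdd n j)
  rw [fam_left] at h
  have e : ∑ l, G j l / Real.sqrt n * x l = (∑ l, G j l * x l) / Real.sqrt n := by
    rw [Finset.sum_div]
    exact Finset.sum_congr rfl fun l _ => by ring
  rw [e, abs_div, abs_of_pos hs, div_le_iff₀ hs] at h
  linarith

theorem nrm_eq_zero {N n : ℕ} (G : Fin N → Fin n → ℝ) (x : EuclideanSpace ℝ (Fin n))
    (h : nrm (fam G) x = 0) : x = 0 := by
  ext l
  have h1 := coord_le_nrm G x l
  rw [h] at h1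
  simpa using abs_nonpos_iff.mp h1

theorem unit_ball_bounded {N n : ℕ} (G : Fin N → Fin n → ℝ) (x : EuclideanSpace ℝ (Fin n))
    (h : nrm (fam G) x ≤ 1) : x ∈ Metric.closedBall (0 : EuclideanSpace ℝ (Fin n)) (n + 1) := by
  rw [mem_closedBall_zero_iff, EuclideanSpace.norm_eq, Real.sqrt_le_left (by positivity)]
  have h1 : ∀ l, ‖x l‖ ^ 2 ≤ 1 := by
    intro l
    have h2 := (coord_le_nrm G x l).trans h
    rw [Real.norm_eq_abs, sq_abs]
    exact (sq_le_one_iff_abs_le_one _).mpr h2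
  calc ∑ l, ‖x l‖ ^ 2 ≤ ∑ l : Fin n, (1:ℝ) := Finset.sum_le_sum fun l _ => h1 l
    _ = n := by simp
    _ ≤ (n + 1) ^ 2 := by nlinarith [Nat.cast_nonneg (α := ℝ) n]

/-- The dual norm bound. -/
theorem inner_le_dual {N n : ℕ} (hk : 0 < N + n) (G : Fin N → Fin n → ℝ)
    (u : EuclideanSpace ℝ (Fin n) ≃ₗ[ℝ] EuclideanSpace ℝ (Fin n))
    (v x : EuclideanSpace ℝ (Fin n)) :
    |inner ℝ v (u.symm x)| ≤
      sSup ((fun x : EuclideanSpace ℝ (Fin n) => |inner ℝ v (u.symm x)|)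
        '' {x | nrm (fam G) x ≤ 1}) * nrm (fam G) x := by
  set S := (fun x : EuclideanSpace ℝ (Fin n) => |inner ℝ v (u.symm x)|)
        '' {x | nrm (fam G) x ≤ 1} with hS
  have hcont : Continuous (fun x : EuclideanSpace ℝ (Fin n) => |inner ℝ v (u.symm x)|) := by
    have h1 : Continuous (fun x : EuclideanSpace ℝ (Fin n) => u.symm x) :=
      LinearMap.continuous_of_finiteDimensional u.symm.toLinearMap
    exact (continuous_const.inner h1).abs
  have hbdd : BddAbove S := by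
    have h1 := (isCompact_closedBall (0 : EuclideanSpace ℝ (Fin n)) (n + 1)).bddAbove_image
      hcont.continuousOn
    exact h1.mono (Set.image_mono fun x hx => unit_ball_bounded G x hx)
  by_cases hx : x = 0
  · subst hx
    simp only [map_zero, inner_zero_right, abs_zero]
    apply mul_nonneg _ (nrm_nonneg _ _)
    apply Real.sSup_nonneg
    rintro _ ⟨y, _, rfl⟩
    exact abs_nonneg _
  · have hpos : 0 < nrm (fam G) x :=
      lt_of_le_of_ne (nrm_nonneg _ _) fun h => hx (nrm_eq_zero G x h.symm)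
    have hmem : |inner ℝ v (u.symm ((nrm (fam G) x)⁻¹ • x))| ∈ S := by
      refine ⟨(nrm (fam G) x)⁻¹ • x, ?_, rfl⟩
      show nrm (fam G) ((nrm (fam G) x)⁻¹ • x) ≤ 1
      rw [nrm_smul, abs_of_pos (inv_pos.mpr hpos), inv_mul_cancel₀ hpos.ne']
    have h := le_csSup hbdd hmem
    rw [map_smul, inner_smul_right, abs_mul, abs_of_pos (inv_pos.mpr hpos)] at h
    rw [inv_mul_le_iff₀ hpos] at h
    linarith


theorem markov_half {α : Type*} [Fintype α] [DecidableEq α] (D : α → ℝ) (hD : ∀ x, 0 ≤ D x)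
    (r : ℝ) (hr : (∑ x, D x) / Fintype.card α = r) :
    Fintype.card α ≤ 2 * (Finset.univ.filter (fun x => D x ≤ 2 * r)).card := by
  classical
  by_cases hα : Fintype.card α = 0
  · omega
  have hα' : (0:ℝ) < Fintype.card α := by exact_mod_cast Nat.pos_of_ne_zero hα
  have hsum : ∑ x, D x = r * Fintype.card α := by rw [← hr]; field_simp
  by_contra hcon
  push Not at hcon
  set A := Finset.univ.filter (fun x => D x ≤ 2 * r) with hA
  have hc : (Aᶜ.card : ℝ) = Fintype.card α - A.card := by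
    rw [Finset.card_compl, Nat.cast_sub (Finset.card_le_univ A)]
  have h1 : (Fintype.card α : ℝ) < 2 * Aᶜ.card := by
    have : (2 * A.card : ℝ) < Fintype.card α := by exact_mod_cast hcon
    rw [hc]; linarith
  have hne : Aᶜ.Nonempty := by
    rw [← Finset.card_pos]
    have : (0:ℝ) < Aᶜ.card := by linarith
    exact_mod_cast this
  have h2 : ∑ x ∈ Aᶜ, 2 * r < ∑ x ∈ Aᶜ, D x := by
    apply Finset.sum_lt_sum_of_nonempty hne
    intro x hx
    simp only [hA, Finset.mem_compl, Finset.mem_filter, Finset.mem_univ, true_and, not_le] at hx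
    exact hx
  have h3 : ∑ x ∈ Aᶜ, D x ≤ ∑ x, D x :=
    Finset.sum_le_sum_of_subset_of_nonneg (Finset.subset_univ _) fun x _ _ => hD x
  have hr0 : 0 ≤ r := by
    rw [← hr]; exact div_nonneg (Finset.sum_nonneg fun x _ => hD x) hα'.le
  simp only [Finset.sum_const, nsmul_eq_mul] at h2
  nlinarith

theorem fact_lower (d : ℕ) : ((d:ℝ) / 3) ^ d ≤ (d.factorial : ℝ) := by
  have h1 := Real.pow_div_factorial_le_exp (d : ℝ) (Nat.cast_nonneg d) d
  have h2 : Real.exp (d:ℝ) ≤ 3 ^ d := by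
    have : Real.exp (d:ℝ) = Real.exp 1 ^ d := by rw [← Real.exp_nat_mul]; simp
    rw [this]
    exact pow_le_pow_left₀ (Real.exp_pos 1).le (by linarith [Real.exp_one_lt_d9]) d
  have hf : (0:ℝ) < d.factorial := by exact_mod_cast d.factorial_pos
  rw [div_pow, div_le_iff₀ (by positivity)]
  rw [div_le_iff₀ hf] at h1
  calc (d:ℝ) ^ d ≤ Real.exp d * d.factorial := h1
    _ ≤ 3 ^ d * d.factorial := by gcongr
    _ = _ := mul_comm _ _

theorem final (C : ℝ) (h : ∀ (n : ℕ) (N : EuclideanSpace ℝ (Fin n) → ℝ),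
    (∀ x, N x = 0 → x = 0) →
    (∀ (c : ℝ) (x : EuclideanSpace ℝ (Fin n)), N (c • x) = |c| * N x) →
    (∀ x y, N (x + y) ≤ N x + N y) →
    ∃ (u : EuclideanSpace ℝ (Fin n) ≃ₗ[ℝ] EuclideanSpace ℝ (Fin n))
      (e η : OrthonormalBasis (Fin n) ℝ (EuclideanSpace ℝ (Fin n))),
      ((∑ ε : Fin n → Bool,
          N (∑ i, (if ε i then (1:ℝ) else -1) • u (e i))) / 2 ^ n) *
      ((∑ ε : Fin n → Bool,
          sSup ((fun x : EuclideanSpace ℝ (Fin n) =>
              |inner ℝ (∑ i, (if ε i then (1:ℝ) else -1) • η i) (u.symm x)|)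
            '' {x | N x ≤ 1})) / 2 ^ n)
      ≤ C * (n : ℝ)) : False := by
  classical
  obtain ⟨R0, hR0⟩ : ∃ R0 : ℝ, R0 = max 1 (3 * 2 ^ 16 * C + 1) := ⟨_, rfl⟩
  have hR1 : 1 ≤ R0 := by rw [hR0]; exact le_max_left _ _
  have hR2 : 3 * 2 ^ 16 * C < R0 := by
    rw [hR0]; exact lt_of_lt_of_le (by linarith) (le_max_right _ _)
  obtain ⟨m, n, d, N, hm, hd, hn, hN, G, hG, hprim⟩ := primal_side R0 hR1
  have hn1 : 1 ≤ n := by omega
  have hk : 0 < N + n := by omega
  obtain ⟨u, e, η, hprod⟩ := h n (nrm (fam G)) (nrm_eq_zero G) (nrm_smul (fam G))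
    (nrm_add hk (fam G))
  set D : (Fin n → Bool) → ℝ := fun ε => sSup ((fun x : EuclideanSpace ℝ (Fin n) =>
      |inner ℝ (∑ i, (if ε i then (1:ℝ) else -1) • η i) (u.symm x)|)
        '' {x | nrm (fam G) x ≤ 1}) with hD
  have hD0 : ∀ ε, 0 ≤ D ε := by
    intro ε
    apply Real.sSup_nonneg
    rintro _ ⟨y, _, rfl⟩
    exact abs_nonneg _
  obtain ⟨r, hr⟩ : ∃ r : ℝ, r = (∑ ε, D ε) / 2 ^ n := ⟨_, rfl⟩
  have hcardB : Fintype.card (Fin n → Bool) = 2 ^ n := by simp
  have hr0 : 0 ≤ r := by rw [hr]; exact div_nonneg (Finset.sum_nonneg fun ε _ => hD0 ε) (by positivity)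
  set 𝒜 : Finset (Fin n → Bool) := Finset.univ.filter (fun ε => D ε ≤ 2 * r) with h𝒜
  have h𝒜c : 2 ^ n ≤ 2 * 𝒜.card := by
    have := markov_half D hD0 r (by rw [hcardB, hr]; push_cast; rfl)
    rwa [hcardB] at this
  -- matrices
  set T : Matrix (Fin n) (Fin n) ℝ := fun l i => (u (e i)) l with hT
  set O : Matrix (Fin n) (Fin n) ℝ := fun i j => inner ℝ (e i) (η j) with hO
  have hOO : O.transpose * O = 1 := by
    ext j k
    rw [Matrix.mul_apply]
    have h1 : ∑ i, O.transpose j i * O i k = inner ℝ (η j) (η k) := by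
      rw [← e.sum_inner_mul_inner (η j) (η k)]
      refine Finset.sum_congr rfl fun i _ => ?_
      rw [Matrix.transpose_apply]
      simp only [hO]
      rw [real_inner_comm (e i) (η j)]
    rw [h1, orthonormal_iff_ite.mp η.orthonormal j k, Matrix.one_apply]
  have hTO : ∀ (x : Fin n → ℝ) (l : Fin n),
      (u (∑ j, x j • η j)) l = (T * O).mulVec x l := by
    intro x l
    have h1 : ∀ j, u (η j) = ∑ i, O i j • u (e i) := by
      intro j
      have h2 : η j = ∑ i, O i j • e i := by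
        conv_lhs => rw [← e.sum_repr (η j)]
        refine Finset.sum_congr rfl fun i _ => ?_
        rw [e.repr_apply_apply]
      conv_lhs => rw [h2]
      rw [map_sum]
      exact Finset.sum_congr rfl fun i _ => by rw [map_smul]
    rw [map_sum]
    simp only [map_smul, h1, Matrix.mulVec, dotProduct, Matrix.mul_apply]
    simp only [WithLp.ofLp_sum, WithLp.ofLp_smul, Finset.sum_apply, Pi.smul_apply, smul_eq_mul,
      Finset.sum_mul, Finset.mul_sum, hT]
    refine Finset.sum_congr rfl fun j _ => Finset.sum_congr rfl fun i _ => by ring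
  have hgood : ∀ δ ∈ 𝒜, ∀ x : Fin n → ℝ, ∃ j,
      |∑ i, (if δ i then (1:ℝ) else -1) * x i| ≤
        (2 * r) * |∑ l, fam G j l * (T * O).mulVec x l| := by
    intro δ hδ x
    have h1 := inner_le_dual hk G u (∑ i, (if δ i then (1:ℝ) else -1) • η i) (u (∑ j, x j • η j))
    obtain ⟨j, hj⟩ := nrm_attained hk (fam G) (u (∑ j, x j • η j))
    refine ⟨j, ?_⟩
    rw [LinearEquiv.symm_apply_apply] at h1
    have h2 : inner ℝ (∑ i, (if δ i then (1:ℝ) else -1) • η i) (∑ j, x j • η j)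
        = ∑ i, (if δ i then (1:ℝ) else -1) * x i := by
      rw [η.orthonormal.inner_sum]
      simp
    rw [h2, hj] at h1
    have h3 : ∑ l, fam G j l * (u (∑ j, x j • η j)) l = ∑ l, fam G j l * (T * O).mulVec x l :=
      Finset.sum_congr rfl fun l _ => by rw [hTO]
    rw [h3] at h1
    refine h1.trans ?_
    have h4 : D δ ≤ 2 * r := (Finset.mem_filter.mp hδ).2
    exact mul_le_mul_of_nonneg_right h4 (abs_nonneg _)
  obtain ⟨L, J, hLJ⟩ := dual_side n d (N + n) (by omega) (by omega) (fam G) (fam_norm hn1 G hG)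
    O T hOO 𝒜 h𝒜c (2 * r) (by linarith) hgood
  -- consequences
  have hd1 : 1 ≤ d := by omega
  have hd0 : (0:ℝ) < d := by exact_mod_cast hd1
  have hfac := fact_lower d
  have hr1 : 0 < r := by
    rcases hr0.lt_or_eq with h1 | h1
    · exact h1
    · exfalso
      rw [← h1] at hLJ
      have : (0:ℝ) < d.factorial := by exact_mod_cast d.factorial_pos
      rw [mul_zero, zero_pow (by omega), mul_zero, zero_mul] at hLJ
      linarith
  obtain ⟨Γ, hΓ⟩ : ∃ Γ : ℝ, Γ = d / (3 * 2 ^ 15 * r) := ⟨_, rfl⟩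
  have hΓ0 : 0 < Γ := by rw [hΓ]; positivity
  have hdet : Γ ^ d ≤ |(T.submatrix L J).det| := by
    have e1 : (2:ℝ) ^ (N + n) * (2 * r) ^ d * (4 ^ n * |(T.submatrix L J).det|)
        = (2 ^ 15 * r) ^ d * |(T.submatrix L J).det| := by
      have e2 : (2:ℝ) ^ (N + n) * 4 ^ n = (2 ^ 14) ^ d := by
        rw [show (4:ℝ) = 2 ^ 2 by norm_num, ← pow_mul, ← pow_add, ← pow_mul]
        congr 1; omega
      calc (2:ℝ) ^ (N + n) * (2 * r) ^ d * (4 ^ n * |(T.submatrix L J).det|)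
          = ((2:ℝ) ^ (N + n) * 4 ^ n) * (2 * r) ^ d * |(T.submatrix L J).det| := by ring
        _ = _ := by rw [e2, ← mul_pow]; ring
    rw [e1] at hLJ
    have h5 := hfac.trans hLJ
    rw [hΓ]
    have h6 : (0:ℝ) < (2 ^ 15 * r) ^ d := by positivity
    have h7 : ((d:ℝ) / (3 * 2 ^ 15 * r)) ^ d = (d / 3) ^ d / (2 ^ 15 * r) ^ d := by
      rw [← div_pow]; congr 1; field_simp
    rw [h7, div_le_iff₀ h6]
    linarith
  have hdet1 : 1 ≤ |((Γ⁻¹ • T).submatrix L J).det| := by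
    have e1 : (Γ⁻¹ • T).submatrix L J = Γ⁻¹ • (T.submatrix L J) := rfl
    rw [e1, Matrix.det_smul, abs_mul, Fintype.card_fin, abs_of_pos (by positivity), inv_pow,
      inv_mul_eq_div, le_div_iff₀ (by positivity)]
    linarith
  set F : (Fin n → Bool) → ℝ := fun ε =>
    Γ⁻¹ * nrm (fam G) (∑ i, (if ε i then (1:ℝ) else -1) • u (e i)) with hF
  have hcoord : ∀ (ε : Fin n → Bool) (l : Fin n),
      (∑ i, (if ε i then (1:ℝ) else -1) • u (e i)) l
        = ∑ i, (if ε i then (1:ℝ) else -1) * T l i := by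
    intro ε l
    simp only [WithLp.ofLp_sum, WithLp.ofLp_smul, Finset.sum_apply, Pi.smul_apply, smul_eq_mul, hT]
  have hsum : ∀ (ε : Fin n → Bool) (l : Fin n),
      ∑ i, (if ε i then (1:ℝ) else -1) * (Γ⁻¹ • T) l i
        = Γ⁻¹ * ∑ i, (if ε i then (1:ℝ) else -1) * T l i := by
    intro ε l
    rw [Finset.mul_sum]
    refine Finset.sum_congr rfl fun i _ => ?_
    simp only [Matrix.smul_apply, smul_eq_mul]; ring
  have hfin := hprim (Γ⁻¹ • T) L.toEmbedding J.toEmbedding hdet1 F (by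
      intro ε l
      rw [hsum, abs_mul, abs_of_pos (inv_pos.mpr hΓ0), ← hcoord]
      exact mul_le_mul_of_nonneg_left (coord_le_nrm G _ l) (inv_pos.mpr hΓ0).le) (by
      intro ε j
      have e1 : ∑ l, G j l * ∑ i, (if ε i then (1:ℝ) else -1) * (Γ⁻¹ • T) l i
          = Γ⁻¹ * ∑ l, G j l * (∑ i, (if ε i then (1:ℝ) else -1) • u (e i)) l := by
        rw [Finset.mul_sum]
        refine Finset.sum_congr rfl fun l _ => ?_
        rw [hsum, hcoord]; ring
      rw [e1, abs_mul, abs_of_pos (inv_pos.mpr hΓ0)]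
      have h8 := row_le_nrm hn1 G (∑ i, (if ε i then (1:ℝ) else -1) • u (e i)) j
      calc Γ⁻¹ * _ ≤ Γ⁻¹ * (Real.sqrt n * nrm (fam G)
            (∑ i, (if ε i then (1:ℝ) else -1) • u (e i))) :=
            mul_le_mul_of_nonneg_left h8 (inv_pos.mpr hΓ0).le
        _ = _ := by simp only [hF]; ring)
  rw [hF, ← Finset.mul_sum] at hfin
  have h2n : (0:ℝ) < 2 ^ n := by positivity
  obtain ⟨S, hS⟩ : ∃ S : ℝ, S = ∑ ε : Fin n → Bool,
    nrm (fam G) (∑ i, (if ε i then (1:ℝ) else -1) • u (e i)) := ⟨_, rfl⟩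
  rw [← hS] at hfin
  rw [← hr, ← hS] at hprod
  have h9 : R0 * Γ < S / 2 ^ n := by
    rw [lt_div_iff₀ h2n]
    have : R0 * 2 ^ n * Γ < S := by
      have := (mul_lt_mul_iff_left₀ hΓ0).mpr hfin
      calc R0 * 2 ^ n * Γ < Γ⁻¹ * S * Γ := this
        _ = S := by field_simp
    linarith
  have h10 : R0 * Γ * r ≤ C * n := by
    have := mul_le_mul_of_nonneg_right h9.le hr1.le
    linarith
  have h11 : Γ * r = d / (3 * 2 ^ 15) := by rw [hΓ]; field_simp
  rw [mul_assoc, h11] at h10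
  have h12 : (n:ℝ) = 2 * d := by rw [hn, hd]; push_cast; ring
  rw [h12] at h10
  have h13 : R0 ≤ 3 * 2 ^ 16 * C := by
    have : R0 * (d / (3 * 2 ^ 15)) = (R0 / (3 * 2 ^ 15)) * d := by ring
    rw [this, show C * (2 * (d:ℝ)) = (2 * C) * d by ring] at h10
    have := le_of_mul_le_mul_right h10 hd0
    rw [div_le_iff₀ (by positivity)] at this
    linarith
  linarith

end Pool.Agent.Helper99.Rad
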