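import Mathlib
set_option autoImplicit false
namespace Pool.Agent.Helper99.Rad
open MeasureTheory

theorem vol_l1_ball (d : ℕ) (hd : 0 < d) (ρ : ℝ) (hρ : 0 ≤ ρ) :
    volume {x : Fin d → ℝ | ∑ i, |x i| ≤ ρ} = ENNReal.ofReal (ρ ^ d * (2 ^ d / d.factorial)) := by
  haveI : Nonempty (Fin d) := ⟨⟨0, hd⟩⟩
  have h := MeasureTheory.volume_sum_rpow_le (ι := Fin d) (p := 1) le_rfl ρ
  simp only [Real.rpow_one, div_one, Fintype.card_fin] at h
  rw [h]
  rw [show (1:ℝ) + 1 = 2 by norm_num, Real.Gamma_two, Real.Gamma_nat_eq_factorial, mul_one,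
    ← ENNReal.ofReal_pow hρ, ← ENNReal.ofReal_mul (by positivity)]

theorem exists_fun_of_support (k d : ℕ) (hdk : d ≤ k) (t : Fin k → ℝ)
    (ht : (Finset.univ.filter (fun j => t j ≠ 0)).card ≤ d) :
    ∃ Q : Finset (Fin k), ∃ hQ : Q.card = d, (∀ j, j ∉ Q → t j = 0) := by
  obtain ⟨Q, hQ1, hQ2, hQ3⟩ := Finset.exists_subsuperset_card_eq
    (Finset.subset_univ (Finset.univ.filter (fun j => t j ≠ 0))) ht (by simpa using hdk)
  refine ⟨Q, hQ3, fun j hj => ?_⟩
  by_contra hne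
  exact hj (hQ1 (by simpa using hne))

/-- A cube covered by sparse combinations has a large minor. -/
theorem hull_minor (k d : ℕ) (hdk : d ≤ k) (B : Fin k → Fin d → ℝ) (ρ : ℝ) (hρ : 0 ≤ ρ)
    (h : ∀ y : Fin d → ℝ, (∀ i, |y i| ≤ 1) → ∃ t : Fin k → ℝ, ∑ j, |t j| ≤ ρ ∧
      (∀ i, ∑ j, t j * B j i = y i) ∧
      (Finset.univ.filter (fun j => t j ≠ 0)).card ≤ d) :
    ∃ f : Fin d ↪o Fin k,
      (d.factorial : ℝ) ≤ 2 ^ k * ρ ^ d * |Matrix.det (Matrix.of (fun i j => B (f i) j))| := by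
  classical
  rcases Nat.eq_zero_or_pos d with hd | hd
  · subst hd
    refine ⟨(Fin.castLEOrderEmb (Nat.zero_le k)), ?_⟩
    simp
    exact one_le_pow₀ (by norm_num)
  -- f_Q
  let F : Finset (Fin k) → Fin d ↪o Fin k := fun Q =>
    if hQ : Q.card = d then Q.orderEmbOfFin hQ else Fin.castLEOrderEmb hdk
  let P : Finset (Finset (Fin k)) := Finset.powersetCard d Finset.univ
  let D : Finset (Fin k) → ℝ := fun Q => |Matrix.det (Matrix.of (fun i j => B (F Q i) j))|
  have hPne : P.Nonempty := by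
    apply Finset.powersetCard_nonempty.2
    simpa using hdk
  obtain ⟨Q₀, hQ₀, hmax⟩ := Finset.exists_max_image P D hPne
  refine ⟨F Q₀, ?_⟩
  change (d.factorial : ℝ) ≤ 2 ^ k * ρ ^ d * D Q₀
  -- the linear map
  let L : Finset (Fin k) → (Fin d → ℝ) →ₗ[ℝ] (Fin d → ℝ) := fun Q =>
    Matrix.toLin' (Matrix.of (fun i j => B (F Q i) j)).transpose
  let S : Set (Fin d → ℝ) := {x | ∑ i, |x i| ≤ ρ}
  have hcover : Set.Icc (fun _ : Fin d => (-1:ℝ)) (fun _ => 1) ⊆ ⋃ Q ∈ P, (L Q) '' S := by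
    intro y hy
    have hy' : ∀ i, |y i| ≤ 1 := fun i => abs_le.2 ⟨hy.1 i, hy.2 i⟩
    obtain ⟨t, ht1, ht2, ht3⟩ := h y hy'
    obtain ⟨Q, hQ, hQ0⟩ := exists_fun_of_support k d hdk t ht3
    have hFQ : F Q = Q.orderEmbOfFin hQ := by simp only [F, dif_pos hQ]
    have hsum : ∀ g : Fin k → ℝ, (∀ j, j ∉ Q → g j = 0) →
        ∑ j, g j = ∑ i : Fin d, g (F Q i) := by
      intro g hg
      rw [hFQ]
      rw [← Finset.sum_subset (Finset.subset_univ Q) (fun j _ hj => hg j hj)]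
      symm
      apply Finset.sum_bij (fun i _ => Q.orderEmbOfFin hQ i)
      · intro i _; exact Finset.orderEmbOfFin_mem Q hQ i
      · intro a _ b _ hab; exact (Q.orderEmbOfFin hQ).injective hab
      · intro b hb
        have : b ∈ Set.range (Q.orderEmbOfFin hQ) := by
          rw [Finset.range_orderEmbOfFin]; exact hb
        obtain ⟨i, hi⟩ := this
        exact ⟨i, Finset.mem_univ _, hi⟩
      · intro i _; rfl
    simp only [Set.mem_iUnion]
    refine ⟨Q, ?_, fun i => t (F Q i), ?_, ?_⟩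
    · simp only [P, Finset.mem_powersetCard]
      exact ⟨Finset.subset_univ _, hQ⟩
    · change ∑ i, |t (F Q i)| ≤ ρ
      rw [← hsum (fun j => |t j|) (fun j hj => by simp [hQ0 j hj])]
      exact ht1
    · funext i
      simp only [L, Matrix.toLin'_apply, Matrix.mulVec, dotProduct, Matrix.transpose_apply,
        Matrix.of_apply]
      rw [← ht2 i, hsum (fun j => t j * B j i) (fun j hj => by simp [hQ0 j hj])]
      apply Finset.sum_congr rfl
      intro j _
      ring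
  have hvolS : volume S = ENNReal.ofReal (ρ ^ d * (2 ^ d / d.factorial)) := vol_l1_ball d hd ρ hρ
  have hvolL : ∀ Q, volume ((L Q) '' S) = ENNReal.ofReal (D Q) * volume S := by
    intro Q
    rw [MeasureTheory.Measure.addHaar_image_linearMap]
    simp only [L, LinearMap.det_toLin', Matrix.det_transpose, D]
  have hcube : volume (Set.Icc (fun _ : Fin d => (-1:ℝ)) (fun _ => 1)) = ENNReal.ofReal (2 ^ d) := by
    rw [Real.volume_Icc_pi]
    simp only [Finset.prod_const, Finset.card_univ, Fintype.card_fin]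
    rw [← ENNReal.ofReal_pow (by norm_num)]
    norm_num
  have h1 : ENNReal.ofReal (2 ^ d) ≤ ∑ Q ∈ P, ENNReal.ofReal (D Q) * volume S := by
    rw [← hcube]
    calc volume (Set.Icc (fun _ : Fin d => (-1:ℝ)) (fun _ => 1))
        ≤ volume (⋃ Q ∈ P, (L Q) '' S) := measure_mono hcover
      _ ≤ ∑ Q ∈ P, volume ((L Q) '' S) := measure_biUnion_finset_le _ _
      _ = ∑ Q ∈ P, ENNReal.ofReal (D Q) * volume S := by simp_rw [hvolL]
  have hPcard : (P.card : ℝ) ≤ 2 ^ k := by
    have : P.card ≤ 2 ^ k := by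
      simp only [P, Finset.card_powersetCard, Finset.card_univ, Fintype.card_fin]
      exact Nat.choose_le_two_pow k d
    exact_mod_cast this
  have hD0 : ∀ Q, 0 ≤ D Q := fun Q => abs_nonneg _
  have h2 : (2:ℝ) ^ d ≤ 2 ^ k * (D Q₀ * (ρ ^ d * (2 ^ d / d.factorial))) := by
    have h3 : ENNReal.ofReal (2 ^ d) ≤
        ENNReal.ofReal (2 ^ k * (D Q₀ * (ρ ^ d * (2 ^ d / d.factorial)))) := by
      refine h1.trans ?_
      rw [hvolS]
      have h4 : ∀ Q ∈ P, ENNReal.ofReal (D Q) * ENNReal.ofReal (ρ ^ d * (2 ^ d / d.factorial)) ≤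
          ENNReal.ofReal (D Q₀ * (ρ ^ d * (2 ^ d / d.factorial))) := by
        intro Q hQ
        rw [← ENNReal.ofReal_mul (hD0 Q)]
        apply ENNReal.ofReal_le_ofReal
        apply mul_le_mul_of_nonneg_right (hmax Q hQ) (by positivity)
      refine (Finset.sum_le_sum h4).trans ?_
      rw [Finset.sum_const, nsmul_eq_mul]
      rw [show ((P.card : ENNReal)) = ENNReal.ofReal (P.card : ℝ) by simp]
      rw [← ENNReal.ofReal_mul (by positivity)]
      apply ENNReal.ofReal_le_ofReal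
      apply mul_le_mul_of_nonneg_right hPcard
      have := hD0 Q₀
      positivity
    exact (ENNReal.ofReal_le_ofReal_iff (by have := hD0 Q₀; positivity)).1 h3
  have hf : (0:ℝ) < d.factorial := by exact_mod_cast Nat.factorial_pos d
  have h2d : (0:ℝ) < 2 ^ d := by positivity
  have h5 : 2 ^ k * (D Q₀ * (ρ ^ d * (2 ^ d / d.factorial))) =
      (2 ^ k * ρ ^ d * D Q₀) * 2 ^ d / d.factorial := by ring
  rw [h5, le_div_iff₀ hf] at h2
  nlinarith [h2]

end Pool.Agent.Helper99.Rad
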