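import Mathlib
set_option autoImplicit false
namespace Pool.Agent.Helper99.Rad
open MeasureTheory

lemma vol_Q (n : ℕ) : volume {g : Fin n → ℝ | ∀ i, |g i| ≤ 1} = ENNReal.ofReal (2 ^ n) := by
  have h : {g : Fin n → ℝ | ∀ i, |g i| ≤ 1} = Set.pi Set.univ (fun _ => Set.Icc (-1 : ℝ) 1) := by
    ext g
    simp only [Set.mem_ofPred_eq, abs_le, Set.mem_pi, Set.mem_univ, forall_true_left, Set.mem_Icc]
  rw [h, volume_pi_pi]
  simp only [Real.volume_Icc, Finset.prod_const, Finset.card_univ, Fintype.card_fin]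
  rw [← ENNReal.ofReal_pow (by norm_num)]
  norm_num

/-- Union bound over the set of rows lying in a small set. -/
theorem many_in (N n r : ℕ) (E : Set (Fin n → ℝ)) (p : ℝ) (hp : 0 ≤ p)
    (hE : volume (E ∩ {g | ∀ i, |g i| ≤ 1}) ≤ ENNReal.ofReal (p * 2 ^ n)) :
    volume {G : Fin N → Fin n → ℝ | (∀ j i, |G j i| ≤ 1) ∧
        ∃ s : Finset (Fin N), r ≤ s.card ∧ ∀ j ∈ s, G j ∈ E}
      ≤ ENNReal.ofReal (2 ^ N * p ^ r * 2 ^ (N * n)) := by
  classical
  set Q : Set (Fin n → ℝ) := {g | ∀ i, |g i| ≤ 1} with hQ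
  have hvQ : volume Q = ENNReal.ofReal (2 ^ n) := vol_Q n
  set F : Finset (Fin N) → Set (Fin N → Fin n → ℝ) :=
    fun s' => Set.pi Set.univ (fun j => if j ∈ s' then E ∩ Q else Q) with hF
  have hsub : {G : Fin N → Fin n → ℝ | (∀ j i, |G j i| ≤ 1) ∧
        ∃ s : Finset (Fin N), r ≤ s.card ∧ ∀ j ∈ s, G j ∈ E} ⊆
      ⋃ s' ∈ Finset.powersetCard r (Finset.univ : Finset (Fin N)), F s' := by
    rintro G ⟨h1, s, hs, h2⟩
    obtain ⟨t, hts, htc⟩ := Finset.exists_subset_card_eq hs
    simp only [Set.mem_iUnion]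
    refine ⟨t, Finset.mem_powersetCard.mpr ⟨Finset.subset_univ _, htc⟩, ?_⟩
    rw [hF, Set.mem_pi]
    intro j _
    have hj : G j ∈ Q := fun i => h1 j i
    by_cases h : j ∈ t
    · rw [if_pos h]; exact ⟨h2 j (hts h), hj⟩
    · rw [if_neg h]; exact hj
  have hone : ∀ s' ∈ Finset.powersetCard r (Finset.univ : Finset (Fin N)),
      volume (F s') ≤ ENNReal.ofReal (p ^ r * 2 ^ (N * n)) := by
    intro s' hs'
    have hc : s'.card = r := (Finset.mem_powersetCard.mp hs').2
    have hrN : r ≤ N := by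
      rw [← hc]
      have := Finset.card_le_univ s'
      simpa using this
    rw [hF, volume_pi_pi]
    have h1 : (∏ j : Fin N, volume (if j ∈ s' then E ∩ Q else Q)) =
        volume (E ∩ Q) ^ r * volume Q ^ (N - r) := by
      have h2 : ∀ j : Fin N, volume (if j ∈ s' then E ∩ Q else Q) =
          if j ∈ s' then volume (E ∩ Q) else volume Q := by
        intro j; split_ifs <;> rfl
      rw [Finset.prod_congr rfl (fun j _ => h2 j), Finset.prod_ite, Finset.prod_const, Finset.prod_const]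
      have h3 : (Finset.univ.filter (fun j => j ∈ s')) = s' := by ext; simp
      have h4 : (Finset.univ.filter (fun j => j ∉ s')).card = N - r := by
        have h5 : (Finset.univ.filter (fun j => j ∉ s')) = s'ᶜ := by ext; simp
        rw [h5, Finset.card_compl, Fintype.card_fin, hc]
      rw [h3, h4, hc]
    rw [h1]
    calc volume (E ∩ Q) ^ r * volume Q ^ (N - r)
        ≤ ENNReal.ofReal (p * 2 ^ n) ^ r * ENNReal.ofReal (2 ^ n) ^ (N - r) := by
          rw [hvQ]
          gcongr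
      _ = ENNReal.ofReal ((p * 2 ^ n) ^ r * (2 ^ n) ^ (N - r)) := by
          rw [← ENNReal.ofReal_pow (by positivity), ← ENNReal.ofReal_pow (by positivity),
            ← ENNReal.ofReal_mul (by positivity)]
      _ = ENNReal.ofReal (p ^ r * 2 ^ (N * n)) := by
          congr 1
          have h6 : N = r + (N - r) := by omega
          rw [mul_pow, mul_assoc, ← pow_add, ← h6, ← pow_mul, mul_comm n N]
  calc volume {G : Fin N → Fin n → ℝ | (∀ j i, |G j i| ≤ 1) ∧
        ∃ s : Finset (Fin N), r ≤ s.card ∧ ∀ j ∈ s, G j ∈ E}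
      ≤ volume (⋃ s' ∈ Finset.powersetCard r (Finset.univ : Finset (Fin N)), F s') := measure_mono hsub
    _ ≤ ∑ s' ∈ Finset.powersetCard r (Finset.univ : Finset (Fin N)), volume (F s') :=
        measure_biUnion_finset_le _ _
    _ ≤ ∑ s' ∈ Finset.powersetCard r (Finset.univ : Finset (Fin N)),
          ENNReal.ofReal (p ^ r * 2 ^ (N * n)) := Finset.sum_le_sum hone
    _ = ((N.choose r : ℕ) : ENNReal) * ENNReal.ofReal (p ^ r * 2 ^ (N * n)) := by
        rw [Finset.sum_const, Finset.card_powersetCard, nsmul_eq_mul]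
        simp
    _ ≤ ((2 ^ N : ℕ) : ENNReal) * ENNReal.ofReal (p ^ r * 2 ^ (N * n)) := by
        gcongr
        exact Nat.choose_le_two_pow N r
    _ = ENNReal.ofReal (2 ^ N * p ^ r * 2 ^ (N * n)) := by
        rw [← ENNReal.ofReal_natCast, ← ENNReal.ofReal_mul (by positivity)]
        congr 1
        push_cast
        ring

/-- The volume of the cube of matrices. -/
theorem volume_cube (N n : ℕ) :
    volume {G : Fin N → Fin n → ℝ | ∀ j i, |G j i| ≤ 1} = ENNReal.ofReal (2 ^ (N * n)) := by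
  have h : {G : Fin N → Fin n → ℝ | ∀ j i, |G j i| ≤ 1} =
      Set.pi Set.univ (fun _ : Fin N => {g : Fin n → ℝ | ∀ i, |g i| ≤ 1}) := by
    ext G
    simp
  rw [h, volume_pi_pi]
  simp only [vol_Q, Finset.prod_const, Finset.card_univ, Fintype.card_fin]
  rw [← ENNReal.ofReal_pow (by positivity), ← pow_mul, mul_comm]

end Pool.Agent.Helper99.Rad
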