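import Mathlib
set_option autoImplicit false
namespace Pool.Agent.Helper99.Rad

theorem exists_s (C1 C2 m0 : ℕ) : ∃ s : ℕ, C1 + C2 * s ≤ 2 ^ s ∧ m0 ≤ 2 ^ s := by
  obtain ⟨A, hA⟩ : ∃ A, A = C1 + C2 + m0 := ⟨_, rfl⟩
  refine ⟨3 * A, ?_, ?_⟩
  · have h1 : A + 1 ≤ 2 ^ A := Nat.lt_two_pow_self
    have h2 : (A + 1) ^ 3 ≤ (2 ^ A) ^ 3 := Nat.pow_le_pow_left h1 3
    have h3 : 2 ^ (3 * A) = (2 ^ A) ^ 3 := by rw [← pow_mul, mul_comm]
    rw [h3]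
    refine le_trans ?_ h2
    have h4 : C2 * (3 * A) ≤ A * (3 * A) := Nat.mul_le_mul_right _ (by omega)
    have h5 : C1 ≤ A := by omega
    calc C1 + C2 * (3 * A) ≤ A + A * (3 * A) := Nat.add_le_add h5 h4
      _ ≤ A + A * (3 * A) + (A * A * A + 2 * A + 1) := Nat.le_add_right _ _
      _ = (A + 1) ^ 3 := by ring
  · have h1 : A + 1 ≤ 2 ^ A := Nat.lt_two_pow_self
    have h2 : 2 ^ A ≤ 2 ^ (3 * A) := Nat.pow_le_pow_right (by norm_num) (by omega)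
    omega

/-- `m^2` beats `m log m`. -/
theorem numeric_m (w M k m0 : ℕ) :
    ∃ m : ℕ, m0 ≤ m ∧ 1 ≤ m ∧
      4 * ((4 * m) ^ (4 * m) * (2 * (w * m) + 1) ^ (4 * m * M) * 2 ^ (16 * m) *
        (M * (4 * m * (2 * (w * m) + 1)) ^ k) ^ (12 * m)) ≤ 2 ^ (m ^ 2) := by
  obtain ⟨s, hs1, hs2⟩ := exists_s (2 + 8 + 4 * M * (w + 2) + 16 + 12 * M + 12 * k * (w + 4))
    (4 + 4 * M + 24 * k) m0
  obtain ⟨m, hm⟩ : ∃ m, m = 2 ^ s := ⟨_, rfl⟩
  rw [← hm] at hs1 hs2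
  have hm1 : 1 ≤ m := by rw [hm]; exact Nat.one_le_two_pow
  refine ⟨m, hs2, hm1, ?_⟩
  have e1 : 4 * m = 2 ^ (s + 2) := by rw [hm, pow_add]; ring
  have e2 : 2 * (w * m) + 1 ≤ 2 ^ (w + s + 2) := by
    have h1 : w + 1 ≤ 2 ^ w := Nat.lt_two_pow_self
    have h2 : w * m ≤ 2 ^ w * m := Nat.mul_le_mul_right _ (by omega)
    have h3 : 1 ≤ 2 ^ w * m := Nat.mul_pos (by positivity) hm1
    have h4 : 2 ^ (w + s + 2) = 4 * (2 ^ w * m) := by rw [pow_add, pow_add, hm]; ring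
    omega
  have e3 : M ≤ 2 ^ M := Nat.lt_two_pow_self.le
  have t1 : (4 * m) ^ (4 * m) = 2 ^ ((s + 2) * (4 * m)) := by
    rw [pow_mul 2 (s + 2) (4 * m), ← e1]
  have t2 : (2 * (w * m) + 1) ^ (4 * m * M) ≤ 2 ^ ((w + s + 2) * (4 * m * M)) := by
    rw [pow_mul 2 (w + s + 2) (4 * m * M)]; exact Nat.pow_le_pow_left e2 _
  have t3 : (M * (4 * m * (2 * (w * m) + 1)) ^ k) ^ (12 * m) ≤
      2 ^ ((M + (s + 2 + (w + s + 2)) * k) * (12 * m)) := by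
    rw [pow_mul 2 (M + (s + 2 + (w + s + 2)) * k) (12 * m)]
    apply Nat.pow_le_pow_left
    rw [pow_add]
    apply Nat.mul_le_mul e3
    rw [pow_mul 2 (s + 2 + (w + s + 2)) k]
    apply Nat.pow_le_pow_left
    rw [pow_add, ← e1]
    exact Nat.mul_le_mul_left _ e2
  calc 4 * ((4 * m) ^ (4 * m) * (2 * (w * m) + 1) ^ (4 * m * M) * 2 ^ (16 * m) *
        (M * (4 * m * (2 * (w * m) + 1)) ^ k) ^ (12 * m))
      ≤ 2 ^ 2 * (2 ^ ((s + 2) * (4 * m)) * 2 ^ ((w + s + 2) * (4 * m * M)) * 2 ^ (16 * m) *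
        2 ^ ((M + (s + 2 + (w + s + 2)) * k) * (12 * m))) := by
        rw [t1]
        gcongr
        norm_num
    _ = 2 ^ (2 + ((s + 2) * (4 * m) + (w + s + 2) * (4 * m * M) + 16 * m +
        (M + (s + 2 + (w + s + 2)) * k) * (12 * m))) := by
        simp only [← pow_add]
    _ ≤ 2 ^ (m ^ 2) := by
        apply Nat.pow_le_pow_right (by norm_num)
        calc _ ≤ 2 * m + ((s + 2) * (4 * m) + (w + s + 2) * (4 * m * M) + 16 * m +
            (M + (s + 2 + (w + s + 2)) * k) * (12 * m)) := by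
              have : 2 ≤ 2 * m := by omega
              omega
          _ = (2 + 8 + 4 * M * (w + 2) + 16 + 12 * M + 12 * k * (w + 4) +
              (4 + 4 * M + 24 * k) * s) * m := by ring
          _ ≤ m * m := Nat.mul_le_mul_right _ hs1
          _ = m ^ 2 := by ring

end Pool.Agent.Helper99.Rad
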