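import Mathlib
import Pool.Agent.Helper99.RadCount
set_option autoImplicit false
namespace Pool.Agent.Helper99.Rad
open MeasureTheory



namespace OpN

/-- exponential on `[-1,1]`. -/
noncomputable def gg (c u : ℝ) : ℝ := (Set.Icc (-1 : ℝ) 1).indicator (fun u => Real.exp (c * u)) u

lemma gg_nonneg (c u : ℝ) : 0 ≤ gg c u :=
  Set.indicator_nonneg (fun _ _ => (Real.exp_pos _).le) _

lemma gg_int (c : ℝ) : Integrable (gg c) := by
  unfold gg
  have : Continuous fun u : ℝ => Real.exp (c * u) := by fun_prop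
  exact (this.integrableOn_Icc).integrable_indicator measurableSet_Icc

lemma exp_le_lin (c u : ℝ) (hu : |u| ≤ 1) : Real.exp (c * u) ≤ Real.cosh c + u * Real.sinh c := by
  obtain ⟨h1, h2⟩ := abs_le.1 hu
  have hconv := convexOn_exp.2 (Set.mem_univ c) (Set.mem_univ (-c))
    (show (0 : ℝ) ≤ (1 + u) / 2 by linarith) (show (0 : ℝ) ≤ (1 - u) / 2 by linarith) (by ring)
  simp only [smul_eq_mul] at hconv
  have e1 : (1 + u) / 2 * c + (1 - u) / 2 * -c = c * u := by ring
  rw [e1] at hconv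
  rw [Real.cosh_eq, Real.sinh_eq]
  linarith

lemma gg_integral (c : ℝ) : ∫ u, gg c u ≤ 2 * Real.exp (c ^ 2 / 2) := by
  unfold gg
  rw [integral_indicator measurableSet_Icc]
  have h1 : ∫ u in Set.Icc (-1 : ℝ) 1, Real.exp (c * u)
      ≤ ∫ u in Set.Icc (-1 : ℝ) 1, (Real.cosh c + u * Real.sinh c) := by
    have c1 : Continuous fun u : ℝ => Real.exp (c * u) := by fun_prop
    have c2 : Continuous fun u : ℝ => Real.cosh c + u * Real.sinh c := by fun_prop
    refine setIntegral_mono_on c1.integrableOn_Icc c2.integrableOn_Icc measurableSet_Icc ?_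
    intro u hu
    exact exp_le_lin c u (abs_le.2 ⟨hu.1, hu.2⟩)
  refine h1.trans ?_
  rw [integral_Icc_eq_integral_Ioc, ← intervalIntegral.integral_of_le (by norm_num)]
  have hadd : ∫ x in (-1 : ℝ)..1, (Real.cosh c + x * Real.sinh c)
      = (∫ x in (-1 : ℝ)..1, Real.cosh c) + ∫ x in (-1 : ℝ)..1, x * Real.sinh c :=
    intervalIntegral.integral_add (by simp) ((by fun_prop : Continuous fun x : ℝ => x * Real.sinh c).intervalIntegrable _ _)
  rw [hadd,
    intervalIntegral.integral_const, intervalIntegral.integral_mul_const, integral_id]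
  have := Real.cosh_le_exp_half_sq c
  simp only [smul_eq_mul]
  norm_num
  linarith

/-- the event of one pair of test vectors. -/
def AA (N n : ℕ) (τ : ℝ) (w : Fin N → ℝ) (σ : Fin n → ℝ) : Set (Fin N → Fin n → ℝ) :=
  {G | (∀ j i, |G j i| ≤ 1) ∧ τ < ∑ j, ∑ i, w j * σ i * G j i}

lemma AA_measure (N n : ℕ) (hn : 1 ≤ n) (w : Fin N → ℝ) (σ : Fin n → ℝ)
    (hw : ∑ j, w j ^ 2 ≤ 4 * (N : ℝ)) (hσ : ∀ i, σ i ^ 2 = 1) :
    volume (AA N n (7 * N * Real.sqrt n) w σ)
      ≤ ENNReal.ofReal (2 ^ (N * n) * Real.exp (-(49 / 8 * N))) := by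
  have hn' : (0 : ℝ) < n := by exact_mod_cast hn
  have hsn : 0 < Real.sqrt n := Real.sqrt_pos.2 hn'
  set s : ℝ := 7 / (4 * Real.sqrt n) with hs
  have hspos : 0 < s := by positivity
  set τ : ℝ := 7 * N * Real.sqrt n with hτ
  have hsτ : s * τ = 49 / 4 * N := by
    rw [hs, hτ]; field_simp; ring
  have hs2 : s ^ 2 * n = 49 / 16 := by
    rw [hs, div_pow, mul_pow, Real.sq_sqrt hn'.le]; field_simp; norm_num
  let F : (Fin N → Fin n → ℝ) → ℝ := fun G => ∏ j, ∏ i, gg (s * (w j * σ i)) (G j i)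
  have hrow : ∀ j : Fin N, Integrable (fun r : Fin n → ℝ => ∏ i, gg (s * (w j * σ i)) (r i)) :=
    fun j => Integrable.fintype_prod (fun i => gg_int _)
  have hFint : Integrable F :=
    Integrable.fintype_prod (f := fun j (r : Fin n → ℝ) => ∏ i, gg (s * (w j * σ i)) (r i)) hrow
  have hF0 : ∀ G, 0 ≤ F G := fun G => Finset.prod_nonneg fun j _ => Finset.prod_nonneg fun i _ => gg_nonneg _ _
  have hFI : ∫ G, F G = ∏ j : Fin N, ∏ i : Fin n, ∫ u, gg (s * (w j * σ i)) u := by
    have h1 := integral_fintype_prod_volume_eq_prod (𝕜 := ℝ)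
      (fun (j : Fin N) (r : Fin n → ℝ) => ∏ i, gg (s * (w j * σ i)) (r i))
    have h2 : ∀ j : Fin N, ∫ r : Fin n → ℝ, ∏ i, gg (s * (w j * σ i)) (r i)
        = ∏ i : Fin n, ∫ u, gg (s * (w j * σ i)) u := fun j =>
      integral_fintype_prod_volume_eq_prod (𝕜 := ℝ) (fun (i : Fin n) (u : ℝ) => gg (s * (w j * σ i)) u)
    simp_rw [h2] at h1
    exact h1
  have hgI0 : ∀ c, 0 ≤ ∫ u, gg c u := fun c => integral_nonneg (gg_nonneg c)
  have hFIle : ∫ G, F G ≤ 2 ^ (N * n) * Real.exp (49 / 8 * N) := by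
    rw [hFI]
    calc ∏ j : Fin N, ∏ i : Fin n, ∫ u, gg (s * (w j * σ i)) u
        ≤ ∏ j : Fin N, ∏ i : Fin n, (2 * Real.exp (s ^ 2 * w j ^ 2 / 2)) := by
          refine Finset.prod_le_prod (fun j _ => Finset.prod_nonneg fun i _ => hgI0 _) fun j _ => ?_
          refine Finset.prod_le_prod (fun i _ => hgI0 _) fun i _ => ?_
          refine (gg_integral _).trans (le_of_eq ?_)
          congr 2
          rw [mul_pow, mul_pow, hσ i, mul_one]
      _ = 2 ^ (N * n) * Real.exp (∑ j : Fin N, (n : ℝ) * (s ^ 2 * w j ^ 2 / 2)) := by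
          rw [Real.exp_sum]
          simp only [Finset.prod_mul_distrib, Finset.prod_const, Finset.card_univ, Fintype.card_fin]
          congr 1
          · rw [← pow_mul, mul_comm n N]
          · refine Finset.prod_congr rfl fun j _ => ?_
            rw [← Real.exp_nat_mul]
      _ ≤ 2 ^ (N * n) * Real.exp (49 / 8 * N) := by
          refine mul_le_mul_of_nonneg_left (Real.exp_le_exp.2 ?_) (by positivity)
          have e : ∑ j : Fin N, (n : ℝ) * (s ^ 2 * w j ^ 2 / 2) = (s ^ 2 * n) / 2 * ∑ j, w j ^ 2 := by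
            rw [Finset.mul_sum]
            refine Finset.sum_congr rfl fun j _ => by ring
          rw [e, hs2]
          linarith
  have hmain : volume (AA N n τ w σ) ≤ ∫⁻ G, ENNReal.ofReal (Real.exp (-(s * τ)) * F G) := by
    refine meas_le_lintegral₀ ?_ ?_
    · exact (hFint.const_mul _).aestronglyMeasurable.aemeasurable.ennreal_ofReal
    · rintro G ⟨hG1, hG2⟩
      rw [← ENNReal.ofReal_one]
      refine ENNReal.ofReal_le_ofReal ?_
      have hFG : F G = Real.exp (s * ∑ j, ∑ i, w j * σ i * G j i) := by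
        show ∏ j, ∏ i, gg (s * (w j * σ i)) (G j i) = _
        rw [Finset.mul_sum, Real.exp_sum]
        refine Finset.prod_congr rfl fun j _ => ?_
        rw [Finset.mul_sum, Real.exp_sum]
        refine Finset.prod_congr rfl fun i _ => ?_
        unfold gg
        have hmem : G j i ∈ Set.Icc (-1 : ℝ) 1 := Set.mem_Icc.2 (abs_le.1 (hG1 j i))
        rw [Set.indicator_of_mem hmem]
        congr 1; ring
      rw [hFG, ← Real.exp_add]
      refine Real.one_le_exp ?_
      have := mul_lt_mul_of_pos_left hG2 hspos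
      linarith
  refine hmain.trans ?_
  rw [← ofReal_integral_eq_lintegral_ofReal (hFint.const_mul _)
    (Filter.Eventually.of_forall fun G => mul_nonneg (Real.exp_pos _).le (hF0 G)),
    integral_const_mul]
  refine ENNReal.ofReal_le_ofReal ?_
  calc Real.exp (-(s * τ)) * ∫ G, F G
      ≤ Real.exp (-(s * τ)) * (2 ^ (N * n) * Real.exp (49 / 8 * N)) :=
        mul_le_mul_of_nonneg_left hFIle (Real.exp_pos _).le
    _ = 2 ^ (N * n) * Real.exp (-(49 / 8 * N)) := by
        rw [hsτ, mul_left_comm, ← Real.exp_add]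
        congr 2; ring

/-- sign of a boolean. -/
def sg (b : Bool) : ℝ := if b then 1 else -1

lemma sg_sq (b : Bool) : sg b ^ 2 = 1 := by cases b <;> simp [sg]

/-- rounding away from zero. -/
noncomputable def rnd (c y : ℝ) : ℤ := if 0 ≤ c then ⌈y⌉ else ⌊y⌋

lemma rnd_mul (c y : ℝ) : y * c ≤ (rnd c y : ℝ) * c := by
  unfold rnd
  split_ifs with h
  · exact mul_le_mul_of_nonneg_right (Int.le_ceil y) h
  · exact mul_le_mul_of_nonpos_right (Int.floor_le y) (not_le.1 h).le

lemma rnd_sq (c y : ℝ) (hy : 0 ≤ c → 0 ≤ y) (hy' : c < 0 → y ≤ 0) : (rnd c y : ℝ) ^ 2 ≤ 2 * y ^ 2 + 2 := by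
  unfold rnd
  split_ifs with h
  · have h1 := Int.ceil_lt_add_one y
    have h2 := Int.le_ceil y
    have h3 := hy h
    nlinarith [sq_nonneg (y - 1)]
  · have h1 := Int.lt_floor_add_one y
    have h2 := Int.floor_le y
    have h3 := hy' (not_le.1 h)
    nlinarith [sq_nonneg (y + 1)]

lemma cover (N n : ℕ) (hn : 1 ≤ n) (hN : 1 ≤ N) (G : Fin N → Fin n → ℝ) (hG : ∀ j i, |G j i| ≤ 1)
    (x : Fin n → ℝ) (hx : ∀ i, |x i| ≤ 1)
    (hbig : 49 * (N : ℝ) * (n : ℝ) < ∑ j, (∑ i, G j i * x i) ^ 2) :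
    ∃ (w : Fin N → ℤ) (b : Fin n → Bool), ∑ j, (w j : ℝ) ^ 2 ≤ 4 * (N : ℝ) ∧
      G ∈ AA N n (7 * N * Real.sqrt n) (fun j => (w j : ℝ)) (fun i => sg (b i)) := by
  have hn' : (0 : ℝ) < n := by exact_mod_cast hn
  have hN' : (0 : ℝ) < N := by exact_mod_cast hN
  set c : Fin N → ℝ := fun j => ∑ i, G j i * x i with hc
  have hbig' : 49 * (N : ℝ) * (n : ℝ) < ∑ j, c j ^ 2 := hbig
  set R : ℝ := Real.sqrt (∑ j, c j ^ 2) with hR
  have hRsq : R ^ 2 = ∑ j, c j ^ 2 := Real.sq_sqrt (Finset.sum_nonneg fun j _ => sq_nonneg _)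
  have hRpos : 0 < R := Real.sqrt_pos.2 (lt_of_le_of_lt (by positivity) hbig')
  set y : Fin N → ℝ := fun j => Real.sqrt N * c j / R with hy
  have hysq : ∑ j, y j ^ 2 = N := by
    have : ∀ j, y j ^ 2 = (N : ℝ) / R ^ 2 * c j ^ 2 := by
      intro j
      rw [hy]
      simp only [div_pow, mul_pow, Real.sq_sqrt hN'.le]
      ring
    simp_rw [this]
    rw [← Finset.mul_sum, ← hRsq]
    field_simp
  have hyc : ∑ j, y j * c j = Real.sqrt N * R := by
    have : ∀ j, y j * c j = Real.sqrt N / R * c j ^ 2 := by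
      intro j
      rw [hy]
      ring
    simp_rw [this]
    rw [← Finset.mul_sum, ← hRsq]
    field_simp
  have hlow : 7 * N * Real.sqrt n < Real.sqrt N * R := by
    have h1 : 7 * (Real.sqrt N * Real.sqrt n) < R := by
      rw [hR]
      apply Real.lt_sqrt_of_sq_lt
      rw [mul_pow, mul_pow, Real.sq_sqrt hN'.le, Real.sq_sqrt hn'.le]
      linarith
    have h2 : 0 < Real.sqrt N := Real.sqrt_pos.2 hN'
    calc 7 * N * Real.sqrt n = Real.sqrt N * (7 * (Real.sqrt N * Real.sqrt n)) := by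
          have := Real.mul_self_sqrt hN'.le
          linear_combination (-7 * Real.sqrt n) * this
      _ < _ := mul_lt_mul_of_pos_left h1 h2
  set w : Fin N → ℤ := fun j => rnd (c j) (y j) with hw
  set b : Fin n → Bool := fun i => decide (0 ≤ ∑ j, (w j : ℝ) * G j i) with hb
  refine ⟨w, b, ?_, hG, ?_⟩
  · calc ∑ j, (w j : ℝ) ^ 2 ≤ ∑ j, (2 * y j ^ 2 + 2) := by
          refine Finset.sum_le_sum fun j _ => rnd_sq _ _ ?_ ?_
          · intro h; exact div_nonneg (mul_nonneg (Real.sqrt_nonneg _) h) hRpos.le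
          · intro h
            exact div_nonpos_of_nonpos_of_nonneg
              (mul_nonpos_of_nonneg_of_nonpos (Real.sqrt_nonneg _) h.le) hRpos.le
      _ = 4 * (N : ℝ) := by
          rw [Finset.sum_add_distrib, ← Finset.mul_sum, hysq]
          simp
          ring
  · calc 7 * N * Real.sqrt n < Real.sqrt N * R := hlow
      _ = ∑ j, y j * c j := hyc.symm
      _ ≤ ∑ j, (w j : ℝ) * c j := Finset.sum_le_sum fun j _ => rnd_mul _ _
      _ = ∑ i, (∑ j, (w j : ℝ) * G j i) * x i := by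
          simp only [hc, Finset.mul_sum, Finset.sum_mul]
          rw [Finset.sum_comm]
          refine Finset.sum_congr rfl fun i _ => Finset.sum_congr rfl fun j _ => by ring
      _ ≤ ∑ i, (∑ j, (w j : ℝ) * G j i) * sg (b i) := by
          refine Finset.sum_le_sum fun i _ => ?_
          obtain ⟨hx1, hx2⟩ := abs_le.1 (hx i)
          by_cases h : 0 ≤ ∑ j, (w j : ℝ) * G j i
          · have : sg (b i) = 1 := by simp [sg, hb, h]
            rw [this]
            exact mul_le_mul_of_nonneg_left hx2 h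
          · have : sg (b i) = -1 := by simp [sg, hb, h]
            rw [this]
            exact mul_le_mul_of_nonpos_left hx1 (not_le.1 h).le
      _ = _ := by
          simp only [Finset.sum_mul]
          rw [Finset.sum_comm]
          refine Finset.sum_congr rfl fun i _ => Finset.sum_congr rfl fun j _ => by ring

lemma num (N : ℕ) (hN : 1 ≤ N) : (44 : ℝ) ^ N * Real.exp (-(49 / 8 * N)) ≤ 1 / 4 := by
  have h1 : (176 : ℝ) ≤ Real.exp (49 / 8) := by
    have h2 : Real.exp 6 ≤ Real.exp (49 / 8) := Real.exp_le_exp.2 (by norm_num)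
    have h3 : Real.exp 6 = Real.exp 1 ^ 6 := by rw [← Real.exp_nat_mul]; norm_num
    have h4 : (2.7 : ℝ) ^ 6 ≤ Real.exp 1 ^ 6 :=
      pow_le_pow_left₀ (by norm_num) (by linarith [Real.exp_one_gt_d9]) 6
    norm_num at h4
    linarith
  have h5 : Real.exp (-(49 / 8 * N)) = (Real.exp (49 / 8))⁻¹ ^ N := by
    rw [← Real.exp_neg, ← Real.exp_nat_mul]; congr 1; ring
  rw [h5, ← mul_pow]
  have h6 : 44 * (Real.exp (49 / 8))⁻¹ ≤ 1 / 4 := by
    rw [← div_eq_mul_inv, div_le_iff₀ (Real.exp_pos _)]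
    linarith
  have h7 : 0 ≤ 44 * (Real.exp (49 / 8))⁻¹ := by positivity
  calc (44 * (Real.exp (49 / 8))⁻¹) ^ N ≤ (1 / 4) ^ N := pow_le_pow_left₀ h7 h6 N
    _ ≤ (1 / 4) ^ 1 := pow_le_pow_of_le_one (by norm_num) (by norm_num) hN
    _ = 1 / 4 := by norm_num

end OpN

open OpN in
/-- Target: random matrices with entries uniform in [-1,1] have small operator norm. -/
theorem opnorm_cube (N n : ℕ) (hn : 1 ≤ n) (hnN : n ≤ N) :
    volume {G : Fin N → Fin n → ℝ | (∀ j i, |G j i| ≤ 1) ∧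
      ∃ x : Fin n → ℝ, (∀ i, |x i| ≤ 1) ∧
        49 * (N : ℝ) * (n : ℝ) < ∑ j, (∑ i, G j i * x i) ^ 2}
      ≤ ENNReal.ofReal (2 ^ (N * n) / 4) := by
  classical
  have hN : 1 ≤ N := hn.trans hnN
  let W : Finset (Fin N → ℤ) :=
    (Fintype.piFinset fun _ => Finset.Icc (-(2 * N : ℤ)) (2 * N)).filter
      (fun w => ∑ j, (w j : ℝ) ^ 2 ≤ 4 * (N : ℝ))
  have hWmem : ∀ w : Fin N → ℤ, ∑ j, (w j : ℝ) ^ 2 ≤ 4 * (N : ℝ) → w ∈ W := by
    intro w hw
    refine Finset.mem_filter.2 ⟨?_, hw⟩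
    rw [Fintype.mem_piFinset]
    intro j
    have h1 : (w j : ℝ) ^ 2 ≤ ∑ j, (w j : ℝ) ^ 2 :=
      Finset.single_le_sum (f := fun j => (w j : ℝ) ^ 2) (fun _ _ => sq_nonneg _) (Finset.mem_univ j)
    have h2 : (w j) ^ 2 ≤ 4 * (N : ℤ) := by exact_mod_cast h1.trans hw
    have hN' : (1 : ℤ) ≤ N := by exact_mod_cast hN
    have h3 : (w j) ^ 2 ≤ (2 * (N : ℤ)) ^ 2 := by nlinarith
    exact Finset.mem_Icc.2 (abs_le.1 (abs_le_of_sq_le_sq h3 (by positivity)))
  have hWcard : (W.card : ℝ) ≤ 22 ^ N := by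
    have h := card_int (ι := Fin N) 2 (by norm_num) W (fun z hz => by
      have := (Finset.mem_filter.1 hz).2
      rw [Fintype.card_fin]; linarith)
    rw [Fintype.card_fin] at h
    norm_num at h
    exact h
  have hsub : {G : Fin N → Fin n → ℝ | (∀ j i, |G j i| ≤ 1) ∧
      ∃ x : Fin n → ℝ, (∀ i, |x i| ≤ 1) ∧
        49 * (N : ℝ) * (n : ℝ) < ∑ j, (∑ i, G j i * x i) ^ 2}
      ⊆ ⋃ p ∈ W ×ˢ (Finset.univ : Finset (Fin n → Bool)),
        AA N n (7 * N * Real.sqrt n) (fun j => (p.1 j : ℝ)) (fun i => sg (p.2 i)) := by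
    rintro G ⟨hG, x, hx, hbig⟩
    obtain ⟨w, b, hw, hmem⟩ := cover N n hn hN G hG x hx hbig
    refine Set.mem_biUnion (x := (w, b)) ?_ hmem
    simp [hWmem w hw]
  refine (measure_mono hsub).trans ?_
  refine (measure_biUnion_finset_le _ _).trans ?_
  calc ∑ p ∈ W ×ˢ (Finset.univ : Finset (Fin n → Bool)),
        volume (AA N n (7 * N * Real.sqrt n) (fun j => (p.1 j : ℝ)) (fun i => sg (p.2 i)))
      ≤ ∑ p ∈ W ×ˢ (Finset.univ : Finset (Fin n → Bool)),
          ENNReal.ofReal (2 ^ (N * n) * Real.exp (-(49 / 8 * N))) := by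
        refine Finset.sum_le_sum fun p hp => ?_
        have hp1 : p.1 ∈ W := (Finset.mem_product.1 hp).1
        exact AA_measure N n hn _ _ (Finset.mem_filter.1 hp1).2 (fun i => sg_sq _)
    _ = ENNReal.ofReal (((W ×ˢ (Finset.univ : Finset (Fin n → Bool))).card : ℝ)
          * (2 ^ (N * n) * Real.exp (-(49 / 8 * N)))) := by
        rw [Finset.sum_const, nsmul_eq_mul, ENNReal.ofReal_mul (p := ((W ×ˢ (Finset.univ : Finset (Fin n → Bool))).card : ℝ)) (by positivity),
          ENNReal.ofReal_natCast]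
    _ ≤ ENNReal.ofReal (2 ^ (N * n) / 4) := by
        refine ENNReal.ofReal_le_ofReal ?_
        rw [Finset.card_product, Finset.card_univ, Fintype.card_fun, Fintype.card_bool,
          Fintype.card_fin]
        push_cast
        have h1 : (W.card : ℝ) * 2 ^ n ≤ 44 ^ N := by
          calc (W.card : ℝ) * 2 ^ n ≤ 22 ^ N * 2 ^ N :=
                mul_le_mul hWcard (pow_le_pow_right₀ (by norm_num) hnN) (by positivity) (by positivity)
            _ = 44 ^ N := by rw [← mul_pow]; norm_num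
        have h2 := num N hN
        calc (W.card : ℝ) * 2 ^ n * (2 ^ (N * n) * Real.exp (-(49 / 8 * N)))
            ≤ 44 ^ N * (2 ^ (N * n) * Real.exp (-(49 / 8 * N))) :=
              mul_le_mul_of_nonneg_right h1 (by positivity)
          _ = 2 ^ (N * n) * (44 ^ N * Real.exp (-(49 / 8 * N))) := by ring
          _ ≤ 2 ^ (N * n) * (1 / 4) := mul_le_mul_of_nonneg_left h2 (by positivity)
          _ = 2 ^ (N * n) / 4 := by ring

end Pool.Agent.Helper99.Rad
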