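import Mathlib
set_option autoImplicit false
namespace Pool.Agent.Helper99.Rad

/-- Sauer-Shelah for half of the cube: a set of half of the sign vectors shatters half of the
coordinates. -/
theorem shatter_half (n d : ℕ) (hn : n = 2 * d) (𝒜 : Finset (Fin n → Bool))
    (h : 2 ^ n ≤ 2 * 𝒜.card) :
    ∃ σ : Fin d ↪o Fin n, ∀ τ : Fin d → Bool, ∃ δ ∈ 𝒜, ∀ i, δ (σ i) = τ i := by
  classical
  let φ : (Fin n → Bool) → Finset (Fin n) := fun ε => Finset.univ.filter (fun i => ε i = true)
  have hφ : Function.Injective φ := by
    intro a b hab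
    funext i
    have h1 : i ∈ φ a ↔ i ∈ φ b := by rw [hab]
    simp only [φ, Finset.mem_filter, Finset.mem_univ, true_and] at h1
    cases ha : a i <;> cases hb : b i <;> simp_all
  let B := 𝒜.image φ
  have hB : B.card = 𝒜.card := Finset.card_image_of_injective _ hφ
  have hsh : ∃ s ∈ B.shatterer, d ≤ s.card := by
    by_contra hcon
    push Not at hcon
    have h1 : B.shatterer ⊆ Finset.univ.filter (fun s : Finset (Fin n) => s.card < d) := by
      intro s hs
      simp only [Finset.mem_filter, Finset.mem_univ, true_and]
      exact hcon s hs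
    have h2 := (Finset.card_le_card_shatterer B).trans (Finset.card_le_card h1)
    have h3 : (Finset.univ.filter (fun s : Finset (Fin n) => s.card < d)).card ≤
        (Finset.univ.filter (fun s : Finset (Fin n) => d < s.card)).card := by
      refine Finset.card_le_card_of_injOn (fun s => sᶜ) ?_ ?_
      · intro s hs
        simp only [Finset.coe_filter, Finset.mem_univ, true_and, Set.mem_setOf_eq] at hs ⊢
        rw [Finset.card_compl, Fintype.card_fin]
        omega
      · intro s _ t _ hst
        exact compl_injective hst
    obtain ⟨s0, -, hs0⟩ := Finset.exists_subset_card_eq (s := (Finset.univ : Finset (Fin n)))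
      (n := d) (by rw [Finset.card_univ, Fintype.card_fin]; omega)
    have h4 : Disjoint (Finset.univ.filter (fun s : Finset (Fin n) => s.card < d))
        (Finset.univ.filter (fun s : Finset (Fin n) => d < s.card)) := by
      rw [Finset.disjoint_left]
      intro s hs ht
      simp only [Finset.mem_filter, Finset.mem_univ, true_and] at hs ht
      omega
    have h5 : ((Finset.univ.filter (fun s : Finset (Fin n) => s.card < d)) ∪
        (Finset.univ.filter (fun s : Finset (Fin n) => d < s.card))) ⊂ Finset.univ := by
      rw [Finset.ssubset_iff_of_subset (Finset.subset_univ _)]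
      refine ⟨s0, Finset.mem_univ _, ?_⟩
      simp only [Finset.mem_union, Finset.mem_filter, Finset.mem_univ, true_and]
      omega
    have h6 := Finset.card_lt_card h5
    rw [Finset.card_union_of_disjoint h4, Finset.card_univ, Fintype.card_finset,
      Fintype.card_fin] at h6
    omega
  obtain ⟨s, hs, hsd⟩ := hsh
  rw [Finset.mem_shatterer] at hs
  obtain ⟨t, hts, htd⟩ := Finset.exists_subset_card_eq hsd
  have ht : B.Shatters t := hs.mono_right hts
  refine ⟨t.orderEmbOfFin htd, ?_⟩
  intro τ
  obtain ⟨v, hv, hvu⟩ := ht (t := (Finset.univ.filter (fun i => τ i = true)).image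
    (t.orderEmbOfFin htd)) (by
      intro x hx
      obtain ⟨i, -, rfl⟩ := Finset.mem_image.1 hx
      exact Finset.orderEmbOfFin_mem t htd i)
  obtain ⟨δ, hδ, rfl⟩ := Finset.mem_image.1 hv
  refine ⟨δ, hδ, ?_⟩
  intro i
  have h1 : (t.orderEmbOfFin htd i) ∈ t ∩ φ δ ↔ τ i = true := by
    rw [hvu]
    simp
  simp only [φ, Finset.mem_inter, Finset.orderEmbOfFin_mem, true_and, Finset.mem_filter,
    Finset.mem_univ] at h1
  cases h2 : δ (t.orderEmbOfFin htd i) <;> cases h3 : τ i <;> simp_all

end Pool.Agent.Helper99.Rad
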