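import Mathlib
set_option autoImplicit false
namespace Pool.Agent.Helper99.Rad

/-- Linear Caratheodory with l1 control. -/
theorem sparse_rep (k d : ℕ) (B : Fin k → Fin d → ℝ) (ρ : ℝ) (t : Fin k → ℝ)
    (ht : ∑ j, |t j| ≤ ρ) :
    ∃ t' : Fin k → ℝ, ∑ j, |t' j| ≤ ρ ∧
      (∀ i, ∑ j, t' j * B j i = ∑ j, t j * B j i) ∧
      (Finset.univ.filter (fun j => t' j ≠ 0)).card ≤ d := by
  classical
  let P : ℕ → Prop := fun n => ∃ t' : Fin k → ℝ, ∑ j, |t' j| ≤ ρ ∧
      (∀ i, ∑ j, t' j * B j i = ∑ j, t j * B j i) ∧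
      (Finset.univ.filter (fun j => t' j ≠ 0)).card = n
  have hP : ∃ n, P n := ⟨_, t, ht, fun _ => rfl, rfl⟩
  obtain ⟨t', h1, h2, h3⟩ := Nat.find_spec hP
  refine ⟨t', h1, h2, ?_⟩
  by_contra hcon
  push Not at hcon
  set S := Finset.univ.filter (fun j => t' j ≠ 0) with hS
  -- a nontrivial relation
  have hrel : ∃ c : Fin k → ℝ, (∀ j, t' j = 0 → c j = 0) ∧ (∀ i, ∑ j, c j * B j i = 0) ∧
      ∃ j, c j ≠ 0 := by
    let L : (S → ℝ) →ₗ[ℝ] (Fin d → ℝ) := Fintype.linearCombination ℝ (fun j : S => B j)
    have hker : LinearMap.ker L ≠ ⊥ := by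
      apply LinearMap.ker_ne_bot_of_finrank_lt
      simp
      exact hcon
    obtain ⟨c, hc, hc0⟩ := (Submodule.ne_bot_iff _).1 hker
    refine ⟨fun j => if h : j ∈ S then c ⟨j, h⟩ else 0, ?_, ?_, ?_⟩
    · intro j hj
      have : j ∉ S := by simp [hS, hj]
      simp [this]
    · intro i
      have h4 : L c i = 0 := by
        have := LinearMap.mem_ker.1 hc
        rw [this]; rfl
      have h5 : L c i = ∑ j : S, c j * B j i := by
        simp [L, Fintype.linearCombination_apply]
      rw [h5] at h4
      refine Eq.trans ?_ h4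
      rw [← Finset.sum_subset (Finset.subset_univ S)]
      · rw [← Finset.sum_coe_sort S]
        apply Finset.sum_congr rfl
        intro j _
        simp
      · intro j _ hj
        simp [hj]
    · by_contra h6
      push Not at h6
      apply hc0
      ext j
      have := h6 j
      simpa using this
  -- sign
  have hrel2 : ∃ c : Fin k → ℝ, (∀ j, t' j = 0 → c j = 0) ∧ (∀ i, ∑ j, c j * B j i = 0) ∧
      (∃ j, c j ≠ 0) ∧ ∑ j, SignType.sign (t' j) * c j ≤ 0 := by
    obtain ⟨c, a1, a2, a3⟩ := hrel
    rcases le_total (∑ j, (SignType.sign (t' j) : ℝ) * c j) 0 with h | h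
    · exact ⟨c, a1, a2, a3, h⟩
    · refine ⟨fun j => - c j, fun j hj => by simp [a1 j hj], fun i => ?_, ?_, ?_⟩
      · have := a2 i
        simp only [neg_mul, Finset.sum_neg_distrib, this, neg_zero]
      · obtain ⟨j, hj⟩ := a3
        exact ⟨j, by simpa using hj⟩
      · simp only [mul_neg, Finset.sum_neg_distrib]
        linarith
  obtain ⟨c, c1, c2, ⟨j0, hj0⟩, c4⟩ := hrel2
  -- some j with sgn c_j < 0
  set N := Finset.univ.filter (fun j => (SignType.sign (t' j) : ℝ) * c j < 0) with hN
  have hNne : N.Nonempty := by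
    by_contra hne
    rw [Finset.not_nonempty_iff_eq_empty] at hne
    have hall : ∀ j, 0 ≤ (SignType.sign (t' j) : ℝ) * c j := by
      intro j
      by_contra hj
      push Not at hj
      have : j ∈ N := by simp [hN, hj]
      rw [hne] at this
      simp at this
    have hz : ∑ j, (SignType.sign (t' j) : ℝ) * c j = 0 :=
      le_antisymm c4 (Finset.sum_nonneg (fun j _ => hall j))
    rw [Finset.sum_eq_zero_iff_of_nonneg (fun j _ => hall j)] at hz
    have := hz j0 (Finset.mem_univ _)
    have ht0 : t' j0 ≠ 0 := fun h => hj0 (c1 j0 h)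
    have hs : (SignType.sign (t' j0) : ℝ) ≠ 0 := by
      rcases lt_or_gt_of_ne ht0 with h | h
      · simp [sign_neg h]
      · simp [sign_pos h]
    exact (mul_ne_zero hs hj0) this
  obtain ⟨j1, hj1N, hj1⟩ := Finset.exists_min_image N (fun j => |t' j| / |c j|) hNne
  have hj1' : (SignType.sign (t' j1) : ℝ) * c j1 < 0 := by
    simpa [hN] using hj1N
  have hcj1 : c j1 ≠ 0 := by
    intro h; rw [h] at hj1'; simp at hj1'
  have htj1 : t' j1 ≠ 0 := fun h => hcj1 (c1 j1 h)
  set s := |t' j1| / |c j1| with hs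
  have hspos : 0 < s := div_pos (abs_pos.2 htj1) (abs_pos.2 hcj1)
  have habs : ∀ j, |t' j| = (SignType.sign (t' j) : ℝ) * t' j := by
    intro j
    exact (sign_mul_self (t' j)).symm
  have hnn : ∀ j, 0 ≤ (SignType.sign (t' j) : ℝ) * (t' j + s * c j) := by
    intro j
    rw [mul_add, ← habs]
    by_cases hj : (SignType.sign (t' j) : ℝ) * c j < 0
    · have hjN : j ∈ N := by simp [hN, hj]
      have h7 := hj1 j hjN
      have hcj : c j ≠ 0 := by
        intro h; rw [h] at hj; simp at hj
      have htj : t' j ≠ 0 := fun h => hcj (c1 j h)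
      have h8 : (SignType.sign (t' j) : ℝ) * c j = - |c j| := by
        rcases lt_or_gt_of_ne htj with h | h
        · rw [sign_neg h] at hj ⊢
          simp at hj ⊢
          rw [abs_of_pos hj]
        · rw [sign_pos h] at hj ⊢
          simp at hj ⊢
          rw [abs_of_neg hj]; ring
      have h9 : s * |c j| ≤ |t' j| := by
        rw [← le_div_iff₀ (abs_pos.2 hcj)]
        exact h7
      calc (0:ℝ) ≤ |t' j| - s * |c j| := by linarith
        _ = |t' j| + (SignType.sign (t' j) : ℝ) * (s * c j) := by
            have : (SignType.sign (t' j) : ℝ) * (s * c j) = s * ((SignType.sign (t' j) : ℝ) * c j) := by ring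
            rw [this, h8]; ring
    · push Not at hj
      have : (SignType.sign (t' j) : ℝ) * (s * c j) = s * ((SignType.sign (t' j) : ℝ) * c j) := by ring
      rw [this]
      have := mul_nonneg hspos.le hj
      have := abs_nonneg (t' j)
      linarith
  have habs2 : ∀ j, |t' j + s * c j| = (SignType.sign (t' j) : ℝ) * (t' j + s * c j) := by
    intro j
    rcases lt_trichotomy (t' j) 0 with h | h | h
    · have := hnn j
      rw [sign_neg h] at this ⊢
      simp at this ⊢
      rw [abs_of_nonpos (by linarith)]; ring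
    · simp [h, c1 j h]
    · have := hnn j
      rw [sign_pos h] at this ⊢
      simp at this ⊢
      exact this
  have hsum : ∑ j, |t' j + s * c j| ≤ ρ := by
    have : ∑ j, |t' j + s * c j| = ∑ j, |t' j| + s * ∑ j, (SignType.sign (t' j) : ℝ) * c j := by
      rw [Finset.mul_sum, ← Finset.sum_add_distrib]
      apply Finset.sum_congr rfl
      intro j _
      rw [habs2, habs]; ring
    rw [this]
    have := mul_nonpos_of_nonneg_of_nonpos hspos.le c4
    linarith
  have hcomb : ∀ i, ∑ j, (t' j + s * c j) * B j i = ∑ j, t j * B j i := by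
    intro i
    rw [← h2 i]
    have : ∑ j, (t' j + s * c j) * B j i = ∑ j, t' j * B j i + s * ∑ j, c j * B j i := by
      rw [Finset.mul_sum, ← Finset.sum_add_distrib]
      apply Finset.sum_congr rfl
      intro j _
      ring
    rw [this, c2 i]; ring
  have hlt : (Finset.univ.filter (fun j => t' j + s * c j ≠ 0)).card < Nat.find hP := by
    rw [← h3]
    apply Finset.card_lt_card
    rw [Finset.ssubset_iff_of_subset]
    · refine ⟨j1, by simp [hS, htj1], ?_⟩
      simp only [Finset.mem_filter, Finset.mem_univ, true_and, not_not]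
      have h10 : |t' j1 + s * c j1| = 0 := by
        rw [habs2, mul_add, ← habs]
        have h8 : (SignType.sign (t' j1) : ℝ) * c j1 = - |c j1| := by
          rcases lt_or_gt_of_ne htj1 with h | h
          · rw [sign_neg h] at hj1' ⊢
            simp at hj1' ⊢
            rw [abs_of_pos hj1']
          · rw [sign_pos h] at hj1' ⊢
            simp at hj1' ⊢
            rw [abs_of_neg hj1']; ring
        have : (SignType.sign (t' j1) : ℝ) * (s * c j1) = s * ((SignType.sign (t' j1) : ℝ) * c j1) := by ring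
        rw [this, h8, hs]
        field_simp
        ring
      exact abs_eq_zero.1 h10
    · intro j hj
      simp only [hS, Finset.mem_filter, Finset.mem_univ, true_and] at hj ⊢
      intro h
      apply hj
      rw [h, c1 j h]; ring
  exact Nat.find_min hP hlt ⟨fun j => t' j + s * c j, hsum, hcomb, rfl⟩

/-- Finite dimensional Hahn-Banach. -/
theorem hb_rep (k d : ℕ) (B : Fin k → Fin d → ℝ) (ρ : ℝ) (hρ : 0 ≤ ρ)
    (h : ∀ x : Fin d → ℝ, ∃ j, ∑ i, |x i| ≤ ρ * |∑ i, B j i * x i|)
    (y : Fin d → ℝ) (hy : ∀ i, |y i| ≤ 1) :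
    ∃ t : Fin k → ℝ, ∑ j, |t j| ≤ ρ ∧ ∀ i, ∑ j, t j * B j i = y i := by
  classical
  set K : Set (Fin k → ℝ) := {t | ∑ j, |t j| ≤ ρ} with hK
  have hKcl : IsClosed K := by
    apply isClosed_le
    · fun_prop
    · fun_prop
  have hKb : K ⊆ Set.pi Set.univ (fun _ : Fin k => Set.Icc (-ρ) ρ) := by
    intro t ht j _
    have h1 : |t j| ≤ ρ :=
      le_trans (Finset.single_le_sum (f := fun j => |t j|) (fun _ _ => abs_nonneg _)
        (Finset.mem_univ j)) ht
    exact abs_le.1 h1
  have hKc : IsCompact K :=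
    (isCompact_univ_pi (fun _ => isCompact_Icc)).of_isClosed_subset hKcl hKb
  have hKconv : Convex ℝ K := by
    intro a ha b hb u v hu hv huv
    simp only [hK, Set.mem_ofPred_eq] at ha hb ⊢
    calc ∑ j, |(u • a + v • b) j| ≤ ∑ j, (u * |a j| + v * |b j|) := by
          apply Finset.sum_le_sum
          intro j _
          simp only [Pi.add_apply, Pi.smul_apply, smul_eq_mul]
          refine (abs_add_le _ _).trans ?_
          rw [abs_mul, abs_mul, abs_of_nonneg hu, abs_of_nonneg hv]
      _ = u * ∑ j, |a j| + v * ∑ j, |b j| := by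
          rw [Finset.sum_add_distrib, Finset.mul_sum, Finset.mul_sum]
      _ ≤ u * ρ + v * ρ := by
          gcongr
      _ = ρ := by rw [← add_mul, huv, one_mul]
  let L : (Fin k → ℝ) →ₗ[ℝ] (Fin d → ℝ) := Fintype.linearCombination ℝ B
  have hL : ∀ t i, L t i = ∑ j, t j * B j i := by
    intro t i
    simp [L, Fintype.linearCombination_apply]
  have hLc : Continuous L := L.continuous_of_finiteDimensional
  set C := L '' K with hC
  have hCc : IsCompact C := hKc.image hLc
  have hCconv : Convex ℝ C := hKconv.linear_image L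
  by_contra hcon
  have hyC : y ∉ C := by
    rintro ⟨t, ht, hty⟩
    apply hcon
    refine ⟨t, ht, fun i => ?_⟩
    rw [← hL, hty]
  obtain ⟨f, u, hfu, huy⟩ := geometric_hahn_banach_closed_point hCconv hCc.isClosed hyC
  set x : Fin d → ℝ := fun i => f (Pi.single i 1) with hx
  have hf : ∀ v : Fin d → ℝ, f v = ∑ i, v i * x i := by
    intro v
    have hv : v = ∑ i, v i • (Pi.single i (1:ℝ) : Fin d → ℝ) := by
      ext j
      simp [Finset.sum_apply, Pi.single_apply]
    conv_lhs => rw [hv]
    rw [map_sum]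
    apply Finset.sum_congr rfl
    intro i _
    rw [map_smul, smul_eq_mul]
  obtain ⟨j, hj⟩ := h x
  have hpt : ∀ e : ℝ, |e| = 1 → e * ρ * ∑ i, B j i * x i < u := by
    intro e he
    have hm : L (Pi.single j (e * ρ)) ∈ C := by
      refine ⟨_, ?_, rfl⟩
      simp only [hK, Set.mem_ofPred_eq]
      have : ∀ i, |(Pi.single j (e * ρ) : Fin k → ℝ) i| = if i = j then ρ else 0 := by
        intro i
        by_cases hij : i = j
        · subst hij
          simp [abs_mul, he, abs_of_nonneg hρ]
        · simp [hij]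
      simp only [this]
      simp
    have := hfu _ hm
    rw [hf] at this
    have h2 : ∑ i, (L (Pi.single j (e * ρ))) i * x i = e * ρ * ∑ i, B j i * x i := by
      rw [Finset.mul_sum]
      apply Finset.sum_congr rfl
      intro i _
      rw [hL]
      have : ∑ j_1, (Pi.single j (e * ρ) : Fin k → ℝ) j_1 * B j_1 i = e * ρ * B j i := by
        rw [Finset.sum_eq_single j]
        · simp
        · intro b _ hb; simp [hb]
        · simp
      rw [this]; ring
    rw [h2] at this
    exact this
  have h3 : ρ * |∑ i, B j i * x i| < u := by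
    rcases abs_cases (∑ i, B j i * x i) with ⟨h4, _⟩ | ⟨h4, _⟩
    · rw [h4]
      have := hpt 1 (by simp)
      linarith
    · rw [h4]
      have := hpt (-1) (by simp)
      linarith
  have h5 : f y ≤ ∑ i, |x i| := by
    rw [hf]
    apply Finset.sum_le_sum
    intro i _
    calc y i * x i ≤ |y i * x i| := le_abs_self _
      _ = |y i| * |x i| := abs_mul _ _
      _ ≤ 1 * |x i| := by gcongr; exact hy i
      _ = |x i| := one_mul _
  linarith

end Pool.Agent.Helper99.Rad
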