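import Mathlib
set_option autoImplicit false
namespace Pool.Agent.Helper99.Rad

/-- sum of products over all functions. -/
theorem bs_sum_prod {ι α : Type} [Fintype ι] [DecidableEq ι] [Fintype α] [DecidableEq α]
    (f : ι → α → ℝ) :
    ∑ ω : ι → α, ∏ i, f i (ω i) = ∏ i, ∑ a, f i a := by
  rw [Finset.prod_univ_sum, Fintype.piFinset_univ]

/-- marginal of a product weight. -/
theorem bs_marg_fst {ι α β : Type} [Fintype ι] [DecidableEq ι] [Fintype α] [DecidableEq α]
    [Fintype β] [DecidableEq β] (w : ι → α × β → ℝ) (F : (ι → α) → ℝ) :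
    ∑ ω : ι → α × β, (∏ i, w i (ω i)) * F (fun i => (ω i).1)
      = ∑ ε : ι → α, (∏ i, ∑ b, w i (ε i, b)) * F ε := by
  rw [← Equiv.sum_comp (Equiv.arrowProdEquivProdArrow ι (fun _ => α) (fun _ => β)).symm]
  rw [Fintype.sum_prod_type]
  refine Finset.sum_congr rfl fun ε _ => ?_
  rw [← bs_sum_prod (fun i b => w i (ε i, b)), Finset.sum_mul]
  refine Finset.sum_congr rfl fun η _ => ?_
  rfl

theorem bs_marg_snd {ι α β : Type} [Fintype ι] [DecidableEq ι] [Fintype α] [DecidableEq α]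
    [Fintype β] [DecidableEq β] (w : ι → α × β → ℝ) (F : (ι → β) → ℝ) :
    ∑ ω : ι → α × β, (∏ i, w i (ω i)) * F (fun i => (ω i).2)
      = ∑ ε : ι → β, (∏ i, ∑ a, w i (a, ε i)) * F ε := by
  rw [← Equiv.sum_comp (Equiv.arrowProdEquivProdArrow ι (fun _ => α) (fun _ => β)).symm]
  rw [Fintype.sum_prod_type_right]
  refine Finset.sum_congr rfl fun ε _ => ?_
  rw [← bs_sum_prod (fun i a => w i (a, ε i)), Finset.sum_mul]
  refine Finset.sum_congr rfl fun η _ => ?_
  rfl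

theorem bs_second_moment {ι α : Type} [Fintype ι] [DecidableEq ι] [Fintype α] [DecidableEq α]
    (w g : ι → α → ℝ) (h1 : ∀ i, ∑ a, w i a = 1) (h0 : ∀ i, ∑ a, w i a * g i a = 0) :
    ∑ ω : ι → α, (∏ i, w i (ω i)) * (∑ i, g i (ω i)) ^ 2 = ∑ i, ∑ a, w i a * g i a ^ 2 := by
  have key : ∀ i k : ι, ∑ ω : ι → α, (∏ j, w j (ω j)) * (g i (ω i) * g k (ω k))
      = if i = k then ∑ a, w i a * g i a ^ 2 else 0 := by
    intro i k
    have e : ∀ ω : ι → α, (∏ j, w j (ω j)) * (g i (ω i) * g k (ω k))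
        = ∏ j, (w j (ω j) * ((if j = i then g i (ω j) else 1) * (if j = k then g k (ω j) else 1))) := by
      intro ω
      rw [Finset.prod_mul_distrib, Finset.prod_mul_distrib, Finset.prod_ite_eq' Finset.univ i,
        Finset.prod_ite_eq' Finset.univ k]
      simp
    rw [Finset.sum_congr rfl (fun ω _ => e ω)]
    rw [bs_sum_prod (fun j a => w j a * ((if j = i then g i a else 1) * (if j = k then g k a else 1)))]
    by_cases hik : i = k
    · subst hik
      rw [if_pos rfl]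
      rw [Finset.prod_eq_single i]
      · refine Finset.sum_congr rfl fun a _ => ?_
        simp only [if_true]; ring
      · intro j _ hj
        simp only [if_neg hj, mul_one]
        exact h1 j
      · intro h; exact absurd (Finset.mem_univ i) h
    · rw [if_neg hik]
      apply Finset.prod_eq_zero (Finset.mem_univ i)
      simp only [if_true, if_neg hik, mul_one]
      exact h0 i
  have e2 : ∀ ω : ι → α, (∏ i, w i (ω i)) * (∑ i, g i (ω i)) ^ 2
      = ∑ i, ∑ k, (∏ j, w j (ω j)) * (g i (ω i) * g k (ω k)) := by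
    intro ω
    rw [sq, Finset.sum_mul_sum, Finset.mul_sum]
    refine Finset.sum_congr rfl fun i _ => ?_
    rw [Finset.mul_sum]
  rw [Finset.sum_congr rfl (fun ω _ => e2 ω), Finset.sum_comm]
  refine Finset.sum_congr rfl fun i _ => ?_
  rw [Finset.sum_comm, Finset.sum_congr rfl (fun k _ => key i k)]
  simp

/-- the coupling weight. -/
noncomputable def bsW (z : ℝ) : Bool × Bool → ℝ
  | (true, true) => (1 - max (-z) 0) / 2
  | (true, false) => max (-z) 0 / 2
  | (false, true) => max z 0 / 2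
  | (false, false) => (1 - max z 0) / 2

noncomputable def bsS (e : Bool) : ℝ := if e then 1 else -1

theorem bs_max_sub (z : ℝ) : max z 0 - max (-z) 0 = z := by
  rcases le_total z 0 with h | h
  · rw [max_eq_right h, max_eq_left (by linarith)]; ring
  · rw [max_eq_left h, max_eq_right (by linarith)]; ring

theorem bs_max_add (z : ℝ) : max z 0 + max (-z) 0 = |z| := by
  rcases le_total z 0 with h | h
  · rw [max_eq_right h, max_eq_left (by linarith), abs_of_nonpos h]; ring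
  · rw [max_eq_left h, max_eq_right (by linarith), abs_of_nonneg h]; ring

theorem bsW_nonneg (z : ℝ) (hz : |z| ≤ 1 / 2) (a : Bool × Bool) : 0 ≤ bsW z a := by
  have h := abs_le.1 hz
  have h1 : max z 0 ≤ 1 := max_le (by linarith) (by norm_num)
  have h2 : max (-z) 0 ≤ 1 := max_le (by linarith) (by norm_num)
  have h3 : 0 ≤ max z 0 := le_max_right _ _
  have h4 : 0 ≤ max (-z) 0 := le_max_right _ _
  rcases a with ⟨a, b⟩
  cases a <;> cases b <;> simp only [bsW] <;> linarith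

theorem bsW_fst (z : ℝ) (a : Bool) : ∑ b, bsW z (a, b) = 1 / 2 := by
  cases a <;> simp only [Fintype.sum_bool, bsW] <;> ring

theorem bsW_snd (z : ℝ) (b : Bool) : ∑ a, bsW z (a, b) = (1 + z * bsS b) / 2 := by
  have h := bs_max_sub z
  cases b <;> simp [bsW, bsS] <;> linarith

theorem bsW_sum (z : ℝ) : ∑ a, bsW z a = 1 := by
  rw [Fintype.sum_prod_type]
  simp only [bsW_fst]
  simp

theorem bsW_mean (z : ℝ) : ∑ a, bsW z a * (bsS a.2 - bsS a.1 - z) = 0 := by
  have h := bs_max_sub z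
  rw [Fintype.sum_prod_type]
  simp only [Fintype.sum_bool, bsW, bsS]
  norm_num
  linarith

theorem bsW_var (z : ℝ) : ∑ a, bsW z a * (bsS a.2 - bsS a.1 - z) ^ 2 ≤ 2 * |z| := by
  have h := bs_max_sub z
  have h' := bs_max_add z
  rw [Fintype.sum_prod_type]
  simp only [Fintype.sum_bool, bsW, bsS]
  norm_num
  have : (1 - max (-z) 0) / 2 * z ^ 2 + max (-z) 0 / 2 * (-1 - 1 - z) ^ 2 +
      (max z 0 / 2 * (1 + 1 - z) ^ 2 + (1 - max z 0) / 2 * z ^ 2)
      = z ^ 2 + 2 * (max z 0 + max (-z) 0) - 2 * z * (max z 0 - max (-z) 0) := by ring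
  nlinarith [this, sq_nonneg z]

theorem bs_pointwise {n M : ℕ} (R : ℝ) (h : Fin M → Fin n → ℝ) (z : Fin n → ℝ)
    (ε ε' : Fin n → Bool) :
    (if ∀ k, |∑ i, bsS (ε i) * h k i| ≤ R then (1:ℝ) else 0)
      - ∑ k, (∑ i, h k i * (bsS (ε' i) - bsS (ε i) - z i)) ^ 2
      ≤ (if ∀ k, |∑ i, bsS (ε' i) * h k i - ∑ i, h k i * z i| ≤ R + 1 then (1:ℝ) else 0) := by
  have hnn : 0 ≤ ∑ k, (∑ i, h k i * (bsS (ε' i) - bsS (ε i) - z i)) ^ 2 :=
    Finset.sum_nonneg fun k _ => sq_nonneg _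
  by_cases hD : ∀ k, |∑ i, bsS (ε' i) * h k i - ∑ i, h k i * z i| ≤ R + 1
  · rw [if_pos hD]
    split_ifs <;> linarith
  · rw [if_neg hD]
    by_cases hE : ∀ k, |∑ i, bsS (ε i) * h k i| ≤ R
    · rw [if_pos hE]
      push Not at hD
      obtain ⟨k, hk⟩ := hD
      have e : ∑ i, h k i * (bsS (ε' i) - bsS (ε i) - z i)
          = (∑ i, bsS (ε' i) * h k i - ∑ i, h k i * z i) - ∑ i, bsS (ε i) * h k i := by
        rw [← Finset.sum_sub_distrib, ← Finset.sum_sub_distrib]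
        refine Finset.sum_congr rfl fun i _ => ?_
        ring
      have h1 : 1 < |∑ i, h k i * (bsS (ε' i) - bsS (ε i) - z i)| := by
        rw [e]
        have := abs_sub_abs_le_abs_sub (∑ i, bsS (ε' i) * h k i - ∑ i, h k i * z i)
          (∑ i, bsS (ε i) * h k i)
        have h2 := hE k
        linarith
      have h2 : 1 ≤ (∑ i, h k i * (bsS (ε' i) - bsS (ε i) - z i)) ^ 2 := by
        rw [← sq_abs]
        nlinarith
      have h3 := Finset.single_le_sum (f := fun k => (∑ i, h k i * (bsS (ε' i) - bsS (ε i) - z i)) ^ 2)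
        (fun k _ => sq_nonneg _) (Finset.mem_univ k)
      linarith
    · rw [if_neg hE]
      linarith

theorem bs_A {n M : ℕ} (R A c : ℝ) (h : Fin M → Fin n → ℝ) (z : Fin n → ℝ)
    (hc0 : 0 ≤ c) (hc : c ≤ 1 / 2) (hz : ∀ i, |z i| ≤ c) (hA : ∀ k, ∑ i, h k i ^ 2 ≤ A ^ 2)
    (hE : 2 ^ n / 2 ≤ ((Finset.univ.filter (fun ε : Fin n → Bool =>
          ∀ j, |∑ i, bsS (ε i) * h j i| ≤ R)).card : ℝ)) :
    1 / 2 - M * (2 * c * A ^ 2) ≤
      ∑ ε ∈ Finset.univ.filter (fun ε : Fin n → Bool =>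
          ∀ k, |∑ i, bsS (ε i) * h k i - ∑ i, h k i * z i| ≤ R + 1),
        ∏ i, (1 + z i * bsS (ε i)) / 2 := by
  have hP : ∀ ω : Fin n → Bool × Bool, 0 ≤ ∏ i, bsW (z i) (ω i) := fun ω =>
    Finset.prod_nonneg fun i _ => bsW_nonneg _ ((hz i).trans hc) _
  have e1 := bs_marg_snd (fun i => bsW (z i)) (fun ε' : Fin n → Bool =>
    if ∀ k, |∑ i, bsS (ε' i) * h k i - ∑ i, h k i * z i| ≤ R + 1 then (1:ℝ) else 0)
  have e2 := bs_marg_fst (fun i => bsW (z i)) (fun ε : Fin n → Bool =>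
    if ∀ k, |∑ i, bsS (ε i) * h k i| ≤ R then (1:ℝ) else 0)
  simp only [bsW_snd] at e1
  simp only [bsW_fst] at e2
  have e1' : ∑ ε : Fin n → Bool, (∏ i, (1 + z i * bsS (ε i)) / 2) *
      (if ∀ k, |∑ i, bsS (ε i) * h k i - ∑ i, h k i * z i| ≤ R + 1 then (1:ℝ) else 0)
      = ∑ ε ∈ Finset.univ.filter (fun ε : Fin n → Bool =>
          ∀ k, |∑ i, bsS (ε i) * h k i - ∑ i, h k i * z i| ≤ R + 1),
        ∏ i, (1 + z i * bsS (ε i)) / 2 := by
    rw [Finset.sum_filter]
    refine Finset.sum_congr rfl fun ε _ => ?_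
    rw [mul_ite, mul_one, mul_zero]
  have e2' : ∑ ε : Fin n → Bool, (∏ i : Fin n, (1:ℝ) / 2) *
      (if ∀ k, |∑ i, bsS (ε i) * h k i| ≤ R then (1:ℝ) else 0)
      = ((Finset.univ.filter (fun ε : Fin n → Bool =>
          ∀ j, |∑ i, bsS (ε i) * h j i| ≤ R)).card : ℝ) / 2 ^ n := by
    rw [← Finset.mul_sum, Finset.sum_boole]
    simp only [Finset.prod_const, Finset.card_univ, Fintype.card_fin]
    rw [one_div, inv_pow, mul_comm, div_eq_mul_inv]
  have e3 : ∀ k, ∑ ω : Fin n → Bool × Bool, (∏ i, bsW (z i) (ω i)) *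
      (∑ i, h k i * (bsS (ω i).2 - bsS (ω i).1 - z i)) ^ 2 ≤ 2 * c * A ^ 2 := by
    intro k
    rw [bs_second_moment (fun i => bsW (z i)) (fun i a => h k i * (bsS a.2 - bsS a.1 - z i))
      (fun i => bsW_sum _) ?_]
    · have : ∀ i, ∑ a, bsW (z i) a * (h k i * (bsS a.2 - bsS a.1 - z i)) ^ 2
          ≤ h k i ^ 2 * (2 * c) := by
        intro i
        have e : ∑ a, bsW (z i) a * (h k i * (bsS a.2 - bsS a.1 - z i)) ^ 2
            = h k i ^ 2 * ∑ a, bsW (z i) a * (bsS a.2 - bsS a.1 - z i) ^ 2 := by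
          rw [Finset.mul_sum]
          refine Finset.sum_congr rfl fun a _ => ?_
          ring
        rw [e]
        apply mul_le_mul_of_nonneg_left _ (sq_nonneg _)
        have := bsW_var (z i)
        have := hz i
        linarith
      calc ∑ i, ∑ a, bsW (z i) a * (h k i * (bsS a.2 - bsS a.1 - z i)) ^ 2
          ≤ ∑ i, h k i ^ 2 * (2 * c) := Finset.sum_le_sum fun i _ => this i
        _ = (∑ i, h k i ^ 2) * (2 * c) := by rw [Finset.sum_mul]
        _ ≤ 2 * c * A ^ 2 := by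
          nlinarith [hA k, mul_le_mul_of_nonneg_right (hA k) (by linarith : (0:ℝ) ≤ 2 * c)]
    · intro i
      have e : ∑ a, bsW (z i) a * (h k i * (bsS a.2 - bsS a.1 - z i))
          = h k i * ∑ a, bsW (z i) a * (bsS a.2 - bsS a.1 - z i) := by
        rw [Finset.mul_sum]
        refine Finset.sum_congr rfl fun a _ => ?_
        ring
      rw [e, bsW_mean, mul_zero]
  have e4 : ∑ ω : Fin n → Bool × Bool, (∏ i, bsW (z i) (ω i)) *
      ((if ∀ k, |∑ i, bsS (ω i).1 * h k i| ≤ R then (1:ℝ) else 0)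
      - ∑ k, (∑ i, h k i * (bsS (ω i).2 - bsS (ω i).1 - z i)) ^ 2)
      ≤ ∑ ω : Fin n → Bool × Bool, (∏ i, bsW (z i) (ω i)) *
      (if ∀ k, |∑ i, bsS (ω i).2 * h k i - ∑ i, h k i * z i| ≤ R + 1 then (1:ℝ) else 0) := by
    refine Finset.sum_le_sum fun ω _ => ?_
    exact mul_le_mul_of_nonneg_left
      (bs_pointwise R h z (fun i => (ω i).1) (fun i => (ω i).2)) (hP ω)
  have e5 : ∑ ω : Fin n → Bool × Bool, (∏ i, bsW (z i) (ω i)) *
      ((if ∀ k, |∑ i, bsS (ω i).1 * h k i| ≤ R then (1:ℝ) else 0)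
      - ∑ k, (∑ i, h k i * (bsS (ω i).2 - bsS (ω i).1 - z i)) ^ 2)
      = ∑ ω : Fin n → Bool × Bool, (∏ i, bsW (z i) (ω i)) *
        (if ∀ k, |∑ i, bsS (ω i).1 * h k i| ≤ R then (1:ℝ) else 0)
      - ∑ k, ∑ ω : Fin n → Bool × Bool, (∏ i, bsW (z i) (ω i)) *
        (∑ i, h k i * (bsS (ω i).2 - bsS (ω i).1 - z i)) ^ 2 := by
    rw [Finset.sum_comm, ← Finset.sum_sub_distrib]
    refine Finset.sum_congr rfl fun ω _ => ?_
    rw [mul_sub, Finset.mul_sum]
  have e6 : ∑ k : Fin M, ∑ ω : Fin n → Bool × Bool, (∏ i, bsW (z i) (ω i)) *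
        (∑ i, h k i * (bsS (ω i).2 - bsS (ω i).1 - z i)) ^ 2 ≤ M * (2 * c * A ^ 2) := by
    calc _ ≤ ∑ k : Fin M, 2 * c * A ^ 2 := Finset.sum_le_sum fun k _ => e3 k
      _ = M * (2 * c * A ^ 2) := by simp
  have e7 : (1:ℝ) / 2 ≤ ((Finset.univ.filter (fun ε : Fin n → Bool =>
          ∀ j, |∑ i, bsS (ε i) * h j i| ≤ R)).card : ℝ) / 2 ^ n := by
    rw [le_div_iff₀ (by positivity)]
    linarith
  rw [← e1', ← e1]
  rw [e2'] at e2
  rw [e5] at e4
  linarith


/-- Sudakov-type packing bound for Rademacher sums with small coefficients. -/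
theorem bern_sudakov (A R a : ℝ) (hA : 0 < A) (hR : 0 < R) (ha : 0 < a) :
    ∃ (M : ℕ) (b : ℝ), 0 < b ∧ ∀ (n : ℕ) (h : Fin M → Fin n → ℝ),
      (∀ j, ∑ i, h j i ^ 2 ≤ A ^ 2) → (∀ j i, |h j i| ≤ b) →
      (∀ j k, j ≠ k → a ^ 2 ≤ ∑ i, (h j i - h k i) ^ 2) →
      ((Finset.univ.filter (fun ε : Fin n → Bool =>
          ∀ j, |∑ i, (if ε i then (1:ℝ) else -1) * h j i| ≤ R)).card : ℝ) < 2 ^ n / 2 := by
  set lam : ℝ := (4 * (R + 1) + 1) / a ^ 2 with hlam
  have hlam0 : 0 < lam := by positivity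
  set K : ℝ := Real.exp (lam ^ 2 * A ^ 2 + lam * (R + 1)) with hK
  have hK0 : 0 < K := Real.exp_pos _
  obtain ⟨M, hM⟩ := exists_nat_gt (4 * K)
  have hM0 : (0:ℝ) < M := lt_trans (by positivity) hM
  set b : ℝ := min (1 / (2 * lam)) (1 / (8 * M * lam * A ^ 2)) with hb
  have hb0 : 0 < b := by
    rw [hb]; apply lt_min <;> positivity
  have hb1 : lam * b ≤ 1 / 2 := by
    have : b ≤ 1 / (2 * lam) := min_le_left _ _
    calc lam * b ≤ lam * (1 / (2 * lam)) := mul_le_mul_of_nonneg_left this hlam0.le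
      _ = 1 / 2 := by field_simp
  have hb2 : M * (2 * (lam * b) * A ^ 2) ≤ 1 / 4 := by
    have : b ≤ 1 / (8 * M * lam * A ^ 2) := min_le_right _ _
    calc M * (2 * (lam * b) * A ^ 2) ≤ M * (2 * (lam * (1 / (8 * M * lam * A ^ 2))) * A ^ 2) := by
          gcongr
      _ = 1 / 4 := by field_simp; norm_num
  refine ⟨M, b, hb0, ?_⟩
  intro n h hsq hbd hsep
  by_contra hcon
  rw [not_lt] at hcon
  have hE : 2 ^ n / 2 ≤ ((Finset.univ.filter (fun ε : Fin n → Bool =>
          ∀ j, |∑ i, bsS (ε i) * h j i| ≤ R)).card : ℝ) := hcon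
  -- the sets D_j
  set D : Fin M → Finset (Fin n → Bool) := fun j => Finset.univ.filter (fun ε : Fin n → Bool =>
          ∀ k, |∑ i, bsS (ε i) * h k i - ∑ i, h k i * (lam * h j i)| ≤ R + 1) with hD
  have hA1 : ∀ j, (1:ℝ) / 4 ≤ ∑ ε ∈ D j, ∏ i, (1 + (lam * h j i) * bsS (ε i)) / 2 := by
    intro j
    have := bs_A R A (lam * b) h (fun i => lam * h j i) (by positivity) hb1 (fun i => by
      rw [abs_mul, abs_of_pos hlam0]
      exact mul_le_mul_of_nonneg_left (hbd j i) hlam0.le) hsq hE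
    have h2 : (1:ℝ) / 4 ≤ 1 / 2 - M * (2 * (lam * b) * A ^ 2) := by linarith
    exact h2.trans this
  have hC : ∀ j, ∀ ε ∈ D j, ∏ i, (1 + (lam * h j i) * bsS (ε i)) / 2 ≤ K / 2 ^ n := by
    intro j ε hε
    have hε' := (Finset.mem_filter.1 hε).2 j
    have h1 : ∏ i, (1 + (lam * h j i) * bsS (ε i)) / 2
        ≤ ∏ i, Real.exp ((lam * h j i) * bsS (ε i)) / 2 := by
      apply Finset.prod_le_prod
      · intro i _
        have : |lam * h j i| ≤ 1 / 2 := by
          rw [abs_mul, abs_of_pos hlam0]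
          exact (mul_le_mul_of_nonneg_left (hbd j i) hlam0.le).trans hb1
        have h3 := abs_le.1 this
        have : -1 ≤ lam * h j i * bsS (ε i) := by
          unfold bsS
          split_ifs <;> linarith
        linarith
      · intro i _
        have := Real.add_one_le_exp ((lam * h j i) * bsS (ε i))
        linarith
    refine h1.trans ?_
    rw [Finset.prod_div_distrib, ← Real.exp_sum]
    simp only [Finset.prod_const, Finset.card_univ, Fintype.card_fin]
    apply div_le_div_of_nonneg_right _ (by positivity)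
    rw [hK, Real.exp_le_exp]
    have e1 : ∑ i, lam * h j i * bsS (ε i) = lam * ∑ i, bsS (ε i) * h j i := by
      rw [Finset.mul_sum]
      refine Finset.sum_congr rfl fun i _ => ?_
      ring
    have e2 : ∑ i, h j i * (lam * h j i) = lam * ∑ i, h j i ^ 2 := by
      rw [Finset.mul_sum]
      refine Finset.sum_congr rfl fun i _ => ?_
      ring
    rw [e1]
    rw [e2] at hε'
    have h4 := (abs_le.1 hε').2
    have h5 : ∑ i, bsS (ε i) * h j i ≤ lam * A ^ 2 + (R + 1) := by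
      have := mul_le_mul_of_nonneg_left (hsq j) hlam0.le
      linarith
    calc lam * ∑ i, bsS (ε i) * h j i ≤ lam * (lam * A ^ 2 + (R + 1)) :=
          mul_le_mul_of_nonneg_left h5 hlam0.le
      _ = lam ^ 2 * A ^ 2 + lam * (R + 1) := by ring
  have hcard : ∀ j, (2:ℝ) ^ n / (4 * K) ≤ ((D j).card : ℝ) := by
    intro j
    have h1 : (1:ℝ) / 4 ≤ (D j).card * (K / 2 ^ n) := by
      calc (1:ℝ) / 4 ≤ ∑ ε ∈ D j, ∏ i, (1 + (lam * h j i) * bsS (ε i)) / 2 := hA1 j
        _ ≤ ∑ ε ∈ D j, K / 2 ^ n := Finset.sum_le_sum fun ε hε => hC j ε hε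
        _ = (D j).card * (K / 2 ^ n) := by rw [Finset.sum_const, nsmul_eq_mul]
    rw [div_le_iff₀ (by positivity)]
    have h2 : (0:ℝ) < 2 ^ n := by positivity
    have h3 : (D j).card * (K / 2 ^ n) * 2 ^ n = (D j).card * K := by field_simp
    nlinarith
  have hdisj : ∀ j l : Fin M, j ≠ l → Disjoint (D j) (D l) := by
    intro j l hjl
    rw [Finset.disjoint_left]
    intro ε h1 h2
    have a1 := (Finset.mem_filter.1 h1).2 j
    have a2 := (Finset.mem_filter.1 h1).2 l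
    have a3 := (Finset.mem_filter.1 h2).2 j
    have a4 := (Finset.mem_filter.1 h2).2 l
    have hs := hsep j l hjl
    have e : lam * ∑ i, (h j i - h l i) ^ 2
        = ((∑ i, h j i * (lam * h j i)) - (∑ i, h j i * (lam * h l i)))
          - ((∑ i, h l i * (lam * h j i)) - (∑ i, h l i * (lam * h l i))) := by
      rw [← Finset.sum_sub_distrib, ← Finset.sum_sub_distrib, ← Finset.sum_sub_distrib,
        Finset.mul_sum]
      refine Finset.sum_congr rfl fun i _ => ?_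
      ring
    have h5 : lam * a ^ 2 = 4 * (R + 1) + 1 := by
      rw [hlam]; field_simp
    have h6 : lam * a ^ 2 ≤ lam * ∑ i, (h j i - h l i) ^ 2 :=
      mul_le_mul_of_nonneg_left hs hlam0.le
    have b1 := abs_le.1 a1
    have b2 := abs_le.1 a2
    have b3 := abs_le.1 a3
    have b4 := abs_le.1 a4
    linarith [b1.1, b1.2, b2.1, b2.2, b3.1, b3.2, b4.1, b4.2]
  have htot : ∑ j, ((D j).card : ℝ) ≤ 2 ^ n := by
    have h1 := Finset.card_biUnion (s := (Finset.univ : Finset (Fin M))) (t := D)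
      (fun j _ l _ hjl => hdisj j l hjl)
    have h2 : ((Finset.univ : Finset (Fin M)).biUnion D).card ≤ 2 ^ n := by
      calc _ ≤ (Finset.univ : Finset (Fin n → Bool)).card := Finset.card_le_univ _
        _ = 2 ^ n := by simp
    rw [h1] at h2
    exact_mod_cast h2
  have hfin : (M:ℝ) * (2 ^ n / (4 * K)) ≤ 2 ^ n := by
    calc (M:ℝ) * (2 ^ n / (4 * K)) = ∑ j : Fin M, (2:ℝ) ^ n / (4 * K) := by simp
      _ ≤ ∑ j, ((D j).card : ℝ) := Finset.sum_le_sum fun j _ => hcard j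
      _ ≤ 2 ^ n := htot
  have h2n : (0:ℝ) < 2 ^ n := by positivity
  have : (M:ℝ) ≤ 4 * K := by
    have h3 : (M:ℝ) * 2 ^ n ≤ 4 * K * 2 ^ n := by
      have h4 : (M:ℝ) * (2 ^ n / (4 * K)) * (4 * K) = M * 2 ^ n := by field_simp
      have h5 := mul_le_mul_of_nonneg_right hfin (by positivity : (0:ℝ) ≤ 4 * K)
      rw [h4] at h5
      linarith
    exact le_of_mul_le_mul_right h3 h2n
  linarith

end Pool.Agent.Helper99.Rad
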