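import Mathlib
import Pool.Agent.Helper99.RadSud
set_option autoImplicit false
namespace Pool.Agent.Helper99.Rad



noncomputable def ip {n : ℕ} (ε : Fin n → Bool) (x : Fin n → ℝ) : ℝ :=
  ∑ i, (if ε i then (1:ℝ) else -1) * x i

/-- flip on a set -/
def flip {n : ℕ} (S : Finset (Fin n)) (ε : Fin n → Bool) : Fin n → Bool :=
  fun i => if i ∈ S then !(ε i) else ε i

theorem flip_inv {n : ℕ} (S : Finset (Fin n)) : Function.Involutive (flip S) := by
  intro ε
  funext i
  by_cases h : i ∈ S <;> simp [flip, h]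

theorem ip_flip {n : ℕ} (S : Finset (Fin n)) (ε : Fin n → Bool) (x : Fin n → ℝ) :
    ip ε (fun i => if i ∈ S then 0 else x i) = (ip ε x + ip (flip S ε) x) / 2 := by
  unfold ip
  rw [← Finset.sum_add_distrib, Finset.sum_div]
  apply Finset.sum_congr rfl
  intro i _
  by_cases h : i ∈ S
  · simp only [h, if_true, flip, mul_zero]
    cases ε i <;> simp
  · simp only [h, if_false, flip]
    ring

theorem card_big {n : ℕ} (x : Fin n → ℝ) (A b : ℝ) (hb : 0 < b) (hx : ∑ i, x i ^ 2 ≤ A ^ 2) :
    (Finset.univ.filter (fun i => b < |x i|)).card ≤ ⌊A ^ 2 / b ^ 2⌋₊ := by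
  apply Nat.le_floor
  rw [le_div_iff₀ (by positivity)]
  calc ((Finset.univ.filter (fun i => b < |x i|)).card : ℝ) * b ^ 2
      = ∑ i ∈ Finset.univ.filter (fun i => b < |x i|), b ^ 2 := by
        rw [Finset.sum_const, nsmul_eq_mul]
    _ ≤ ∑ i ∈ Finset.univ.filter (fun i => b < |x i|), x i ^ 2 := by
        apply Finset.sum_le_sum
        intro i hi
        have := (Finset.mem_filter.mp hi).2
        rw [← sq_abs (x i)]
        exact pow_le_pow_left₀ hb.le this.le 2
    _ ≤ ∑ i, x i ^ 2 := Finset.sum_le_sum_of_subset_of_nonneg (Finset.filter_subset _ _)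
        (fun _ _ _ => sq_nonneg _)
    _ ≤ A ^ 2 := hx

/-- Target: vectors with a bounded Rademacher process are, up to sparse vectors and small errors,
among boundedly many centres. -/
theorem bern_structure (A R a : ℝ) (hA : 0 < A) (hR : 0 < R) (ha : 0 < a) :
    ∃ (M k : ℕ), ∀ (n N : ℕ) (h : Fin N → Fin n → ℝ) (F : (Fin n → Bool) → ℝ),
      (∀ j, ∑ i, h j i ^ 2 ≤ A ^ 2) →
      (∀ ε j, |∑ i, (if ε i then (1:ℝ) else -1) * h j i| ≤ F ε) →
      (∑ ε, F ε ≤ R * 2 ^ n) →
      ∃ (w : Fin M → Fin n → ℝ) (c : Fin N → Fin M),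
        (∀ t, ∑ i, w t i ^ 2 ≤ A ^ 2) ∧
        ∀ j, ∃ S : Finset (Fin n), S.card ≤ k ∧
          ∑ i ∈ Sᶜ, (h j i - w (c j) i) ^ 2 ≤ a ^ 2 := by
  classical
  obtain ⟨M, b, hb, key⟩ := bern_sudakov A (2 * R) a hA (by positivity) ha
  have hM : 1 ≤ M := by
    by_contra hM
    have hM0 : M = 0 := by omega
    subst hM0
    have := key 0 (fun _ _ => 0) (fun j => j.elim0) (fun j => j.elim0) (fun j => j.elim0)
    rw [Finset.filter_true_of_mem (fun ε _ j => Fin.elim0 j)] at this
    simp at this
    norm_num at this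
  refine ⟨M, M * ⌊A ^ 2 / b ^ 2⌋₊, ?_⟩
  intro n N h F hh hF hsum
  set k := M * ⌊A ^ 2 / b ^ 2⌋₊ with hk
  rcases Nat.eq_zero_or_pos N with hN | hN
  · subst hN
    exact ⟨fun _ _ => 0, fun j => j.elim0, fun t => by simp; positivity, fun j => j.elim0⟩
  let far : Fin N → Fin N → Prop := fun j l => ∀ S : Finset (Fin n), S.card ≤ k →
    a ^ 2 < ∑ i ∈ Sᶜ, (h j i - h l i) ^ 2
  have far_symm : ∀ j l, far j l → far l j := by
    intro j l hf S hS
    have := hf S hS
    rw [Finset.sum_congr rfl (fun i _ => by ring : ∀ i ∈ Sᶜ, (h l i - h j i) ^ 2 =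
      (h j i - h l i) ^ 2)]
    exact this
  let P : Finset (Fin N) → Prop := fun C => ∀ j ∈ C, ∀ l ∈ C, j ≠ l → far j l
  obtain ⟨C, hC, hCmax⟩ := Finset.exists_max_image (Finset.univ.filter P) Finset.card
    ⟨∅, Finset.mem_filter.mpr ⟨Finset.mem_univ _, fun j hj => absurd hj (by simp)⟩⟩
  have hPC : P C := (Finset.mem_filter.mp hC).2
  by_cases hcard : M ≤ C.card
  · exfalso
    let f : Fin M → Fin N := fun t => (C.equivFin.symm (Fin.castLE hcard t)).1
    have hfC : ∀ t, f t ∈ C := fun t => (C.equivFin.symm (Fin.castLE hcard t)).2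
    have hfinj : Function.Injective f := by
      intro t t' htt
      have h1 := Subtype.ext htt
      have h2 := C.equivFin.symm.injective h1
      exact Fin.castLE_injective hcard h2
    set S : Finset (Fin n) := Finset.univ.biUnion
      (fun t : Fin M => Finset.univ.filter (fun i => b < |h (f t) i|)) with hS
    have hScard : S.card ≤ k := by
      refine Finset.card_biUnion_le.trans ?_
      calc ∑ t : Fin M, (Finset.univ.filter (fun i => b < |h (f t) i|)).card
          ≤ ∑ t : Fin M, ⌊A ^ 2 / b ^ 2⌋₊ :=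
            Finset.sum_le_sum (fun t _ => card_big _ A b hb (hh (f t)))
        _ = k := by rw [Finset.sum_const, Finset.card_univ, Fintype.card_fin, smul_eq_mul]
    have hkey := key n (fun t i => if i ∈ S then 0 else h (f t) i) (by
      intro t
      refine le_trans ?_ (hh (f t))
      apply Finset.sum_le_sum
      intro i _
      by_cases hi : i ∈ S
      · simp [hi]; positivity
      · simp [hi]) (by
      intro t i
      by_cases hi : i ∈ S
      · simp [hi]; exact hb.le
      · simp only [hi, if_false]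
        by_contra hlt
        push Not at hlt
        exact hi (Finset.mem_biUnion.mpr ⟨t, Finset.mem_univ _,
          Finset.mem_filter.mpr ⟨Finset.mem_univ _, hlt⟩⟩)) (by
      intro t t' htt
      have hfar := hPC (f t) (hfC t) (f t') (hfC t') (fun he => htt (hfinj he)) S hScard
      refine hfar.le.trans (le_of_eq ?_)
      rw [← Finset.sum_compl_add_sum S (fun i => ((if i ∈ S then 0 else h (f t) i) -
        (if i ∈ S then 0 else h (f t') i)) ^ 2)]
      have e1 : ∑ i ∈ S, ((if i ∈ S then 0 else h (f t) i) -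
        (if i ∈ S then 0 else h (f t') i)) ^ 2 = 0 := by
        apply Finset.sum_eq_zero
        intro i hi
        simp [hi]
      rw [e1, add_zero]
      apply Finset.sum_congr rfl
      intro i hi
      rw [Finset.mem_compl] at hi
      simp [hi])
    -- counting
    set F' : (Fin n → Bool) → ℝ := fun ε => (F ε + F (flip S ε)) / 2 with hF'
    have hF0 : ∀ ε, 0 ≤ F ε := fun ε => (abs_nonneg _).trans (hF ε ⟨0, hN⟩)
    have hF'0 : ∀ ε, 0 ≤ F' ε := by
      intro ε
      have h1 := hF0 ε
      have h2 := hF0 (flip S ε)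
      simp only [hF']
      positivity
    have hsum' : ∑ ε, F' ε ≤ R * 2 ^ n := by
      refine le_trans (le_of_eq ?_) hsum
      have e1 : ∑ ε, F (flip S ε) = ∑ ε, F ε :=
        Equiv.sum_comp (flip_inv S).toPerm F
      simp only [hF']
      rw [← Finset.sum_div, Finset.sum_add_distrib, e1]
      ring
    set B := Finset.univ.filter (fun ε : Fin n → Bool => 2 * R < F' ε) with hB
    have hBcard : (B.card : ℝ) * (2 * R) ≤ R * 2 ^ n := by
      calc (B.card : ℝ) * (2 * R) = ∑ ε ∈ B, 2 * R := by rw [Finset.sum_const, nsmul_eq_mul]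
        _ ≤ ∑ ε ∈ B, F' ε := Finset.sum_le_sum (fun ε hε => (Finset.mem_filter.mp hε).2.le)
        _ ≤ ∑ ε, F' ε := Finset.sum_le_sum_of_subset_of_nonneg (Finset.filter_subset _ _)
            (fun ε _ _ => hF'0 ε)
        _ ≤ R * 2 ^ n := hsum'
    have hBcard' : (B.card : ℝ) ≤ 2 ^ n / 2 := by
      have h2 : (B.card : ℝ) * (2 * R) ≤ (2 ^ n / 2) * (2 * R) := by
        calc _ ≤ R * 2 ^ n := hBcard
          _ = _ := by ring
      exact le_of_mul_le_mul_right h2 (by positivity)
    have hsub : Bᶜ ⊆ Finset.univ.filter (fun ε : Fin n → Bool =>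
          ∀ j : Fin M, |∑ i, (if ε i then (1:ℝ) else -1) *
            (if i ∈ S then 0 else h (f j) i)| ≤ 2 * R) := by
      intro ε hε
      rw [Finset.mem_compl, hB, Finset.mem_filter] at hε
      push Not at hε
      have hε' := hε (Finset.mem_univ _)
      refine Finset.mem_filter.mpr ⟨Finset.mem_univ _, ?_⟩
      intro j
      refine le_trans ?_ hε'
      have e := ip_flip S ε (h (f j))
      unfold ip at e
      rw [e]
      have h1 := hF ε (f j)
      have h2 := hF (flip S ε) (f j)
      rw [abs_div, abs_of_pos (show (0 : ℝ) < 2 by norm_num)]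
      simp only [hF']
      apply div_le_div_of_nonneg_right _ (by norm_num)
      exact (abs_add_le _ _).trans (add_le_add h1 h2)
    have hcc : (Bᶜ.card : ℝ) = 2 ^ n - B.card := by
      rw [Finset.card_compl, Nat.cast_sub (Finset.card_le_univ _)]
      simp
    have hle : (Bᶜ.card : ℝ) ≤ _ := Nat.cast_le.mpr (Finset.card_le_card hsub)
    linarith
  · push Not at hcard
    have hex : ∀ j, ∃ l ∈ C, ∃ S : Finset (Fin n), S.card ≤ k ∧
        ∑ i ∈ Sᶜ, (h j i - h l i) ^ 2 ≤ a ^ 2 := by
      intro j
      by_cases hj : j ∈ C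
      · exact ⟨j, hj, ∅, by simp, by simp; positivity⟩
      · by_contra hcon
        push Not at hcon
        have hP : P (insert j C) := by
          intro x hx y hy hxy
          rw [Finset.mem_insert] at hx hy
          rcases hx with rfl | hx
          · rcases hy with rfl | hy
            · exact absurd rfl hxy
            · exact fun S hS => hcon y hy S hS
          · rcases hy with rfl | hy
            · exact far_symm _ _ (fun S hS => hcon x hx S hS)
            · exact hPC x hx y hy hxy
        have := hCmax (insert j C) (Finset.mem_filter.mpr ⟨Finset.mem_univ _, hP⟩)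
        rw [Finset.card_insert_of_notMem hj] at this
        omega
    choose l hlC S hS hS2 using hex
    refine ⟨fun t => h (if ht : t.val < C.card then (C.equivFin.symm ⟨t.val, ht⟩).1 else ⟨0, hN⟩),
      fun j => ⟨(C.equivFin ⟨l j, hlC j⟩).val,
        (C.equivFin ⟨l j, hlC j⟩).isLt.trans hcard⟩, ?_, ?_⟩
    · intro t
      exact hh _
    · intro j
      refine ⟨S j, hS j, ?_⟩
      have e : (if ht : (C.equivFin ⟨l j, hlC j⟩).val < C.card then
          (C.equivFin.symm ⟨(C.equivFin ⟨l j, hlC j⟩).val, ht⟩).1 else ⟨0, hN⟩) = l j := by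
        rw [dif_pos (C.equivFin ⟨l j, hlC j⟩).isLt]
        simp
      simp only [e]
      exact hS2 j

end Pool.Agent.Helper99.Rad
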