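import Pool.Agent.Helper99.RadKhin
import Pool.Agent.Helper99.RadSud
import Pool.Agent.Helper99.RadStruct
import Pool.Agent.Helper99.RadCount
import Pool.Agent.Helper99.RadOpn
import Pool.Agent.Helper99.RadBall
import Pool.Agent.Helper99.RadSparse
import Pool.Agent.Helper99.RadHull
import Pool.Agent.Helper99.RadCB
import Pool.Agent.Helper99.RadSS
import Pool.Agent.Helper99.RadDisc
import Pool.Agent.Helper99.RadMany
import Pool.Agent.Helper99.RadNum
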