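import Mathlib
set_option autoImplicit false
namespace Pool.Agent.Helper99.Rad

/-- the random sum -/
noncomputable def rs {n : ℕ} (h : Fin n → ℝ) (ε : Fin n → Bool) : ℝ :=
  ∑ i, (if ε i then (1:ℝ) else -1) * h i

theorem sum_cons {n : ℕ} (F : (Fin (n + 1) → Bool) → ℝ) :
    ∑ ε, F ε = ∑ ε' : Fin n → Bool, (F (Fin.cons true ε') + F (Fin.cons false ε')) := by
  rw [← (Fin.consEquiv (fun _ => Bool)).sum_comp, Fintype.sum_prod_type, Fintype.sum_bool,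
    ← Finset.sum_add_distrib]
  rfl

theorem rs_cons {n : ℕ} (h : Fin (n + 1) → ℝ) (b : Bool) (ε' : Fin n → Bool) :
    rs h (Fin.cons b ε') = (if b then (1:ℝ) else -1) * h 0 + rs (fun i => h i.succ) ε' := by
  unfold rs
  rw [Fin.sum_univ_succ]
  simp only [Fin.cons_zero, Fin.cons_succ]

theorem mom2 {n : ℕ} (h : Fin n → ℝ) : ∑ ε, rs h ε ^ 2 = 2 ^ n * ∑ i, h i ^ 2 := by
  induction n with
  | zero => simp [rs]
  | succ n ih =>
    rw [sum_cons, Fin.sum_univ_succ (f := fun i => h i ^ 2)]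
    have h1 : ∀ ε' : Fin n → Bool, rs h (Fin.cons true ε') ^ 2 + rs h (Fin.cons false ε') ^ 2 =
        2 * rs (fun i => h i.succ) ε' ^ 2 + 2 * h 0 ^ 2 := by
      intro ε'
      rw [rs_cons, rs_cons]
      simp only [if_true, Bool.false_eq_true, if_false]
      ring
    rw [Finset.sum_congr rfl (fun ε' _ => h1 ε'), Finset.sum_add_distrib, ← Finset.mul_sum, ih,
      Finset.sum_const, Finset.card_univ, Fintype.card_fun, Fintype.card_bool, Fintype.card_fin,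
      nsmul_eq_mul]
    push_cast
    ring

theorem mom4 {n : ℕ} (h : Fin n → ℝ) : ∑ ε, rs h ε ^ 4 ≤ 3 * 2 ^ n * (∑ i, h i ^ 2) ^ 2 := by
  induction n with
  | zero => simp [rs]
  | succ n ih =>
    rw [sum_cons, Fin.sum_univ_succ (f := fun i => h i ^ 2)]
    have h1 : ∀ ε' : Fin n → Bool, rs h (Fin.cons true ε') ^ 4 + rs h (Fin.cons false ε') ^ 4 =
        2 * rs (fun i => h i.succ) ε' ^ 4 + 12 * h 0 ^ 2 * rs (fun i => h i.succ) ε' ^ 2 +
          2 * h 0 ^ 4 := by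
      intro ε'
      rw [rs_cons, rs_cons]
      simp only [if_true, Bool.false_eq_true, if_false]
      ring
    rw [Finset.sum_congr rfl (fun ε' _ => h1 ε'), Finset.sum_add_distrib, Finset.sum_add_distrib,
      ← Finset.mul_sum, ← Finset.mul_sum, mom2,
      Finset.sum_const, Finset.card_univ, Fintype.card_fun, Fintype.card_bool, Fintype.card_fin,
      nsmul_eq_mul]
    have h2 := ih (fun i => h i.succ)
    push_cast
    set s := ∑ i : Fin n, h i.succ ^ 2 with hs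
    have hs0 : 0 ≤ s := Finset.sum_nonneg fun i _ => sq_nonneg _
    have h3 : (3 : ℝ) * 2 ^ (n + 1) * (h 0 ^ 2 + s) ^ 2 =
      2 * (3 * 2 ^ n * s ^ 2) + 12 * h 0 ^ 2 * (2 ^ n * s) + 2 ^ n * (2 * h 0 ^ 4) +
        2 ^ n * (4 * h 0 ^ 4) := by ring
    rw [h3]
    have h4 : (0 : ℝ) ≤ 2 ^ n * (4 * h 0 ^ 4) := by positivity
    linarith

/-- Khinchine inequality L1-L2 with constant sqrt 3. -/
theorem khinchine_lower {n : ℕ} (h : Fin n → ℝ) :
    ∑ i, h i ^ 2 ≤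
      3 * ((∑ ε : Fin n → Bool, |∑ i, (if ε i then (1:ℝ) else -1) * h i|) / 2 ^ n) ^ 2 := by
  change ∑ i, h i ^ 2 ≤ 3 * ((∑ ε : Fin n → Bool, |rs h ε|) / 2 ^ n) ^ 2
  set σ := ∑ i, h i ^ 2 with hσ
  have hσ0 : 0 ≤ σ := Finset.sum_nonneg fun i _ => sq_nonneg _
  rcases hσ0.eq_or_lt with h0 | hpos
  · rw [← h0]; positivity
  set s := Real.sqrt (3 * σ) with hs
  have hs0 : 0 < s := Real.sqrt_pos.2 (by positivity)
  have hs2 : s ^ 2 = 3 * σ := Real.sq_sqrt (by positivity)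
  have hs4 : s ^ 4 = 9 * σ ^ 2 := by
    calc s ^ 4 = (s ^ 2) ^ 2 := by ring
      _ = _ := by rw [hs2]; ring
  have hpt : ∀ ε, 3 / s ^ 2 * rs h ε ^ 2 - 1 / s ^ 4 * rs h ε ^ 4 ≤ 2 / s * |rs h ε| := by
    intro ε
    set v := |rs h ε| / s with hv
    have hv0 : 0 ≤ v := by positivity
    have h1 : 0 ≤ v * (v - 1) ^ 2 * (v + 2) := by positivity
    have h2 : 2 / s * |rs h ε| = 2 * v := by rw [hv]; ring
    have h3 : 3 / s ^ 2 * rs h ε ^ 2 = 3 * v ^ 2 := by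
      rw [hv, div_pow, sq_abs]; ring
    have h4 : 1 / s ^ 4 * rs h ε ^ 4 = v ^ 4 := by
      rw [hv, div_pow, show |rs h ε| ^ 4 = rs h ε ^ 4 from by
        rw [show (4 : ℕ) = 2 * 2 from rfl, pow_mul, pow_mul, sq_abs]]
      ring
    rw [h2, h3, h4]
    nlinarith
  have hsum : 3 / s ^ 2 * (2 ^ n * σ) - 1 / s ^ 4 * (3 * 2 ^ n * σ ^ 2) ≤
      2 / s * ∑ ε, |rs h ε| := by
    have h1 := Finset.sum_le_sum (s := Finset.univ) fun ε _ => hpt ε
    rw [Finset.sum_sub_distrib, ← Finset.mul_sum, ← Finset.mul_sum, ← Finset.mul_sum, mom2] at h1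
    have h2 : 1 / s ^ 4 * ∑ ε, rs h ε ^ 4 ≤ 1 / s ^ 4 * (3 * 2 ^ n * σ ^ 2) := by
      have := mom4 h
      gcongr
    linarith
  have hleft : 3 / s ^ 2 * (2 ^ n * σ) - 1 / s ^ 4 * (3 * 2 ^ n * σ ^ 2) = 2 / 3 * 2 ^ n := by
    rw [hs2, hs4]
    field_simp
    norm_num
  rw [hleft] at hsum
  have hm : s / 3 ≤ (∑ ε, |rs h ε|) / 2 ^ n := by
    rw [le_div_iff₀ (by positivity)]
    have h1 : 2 / s * ∑ ε, |rs h ε| = 2 * (∑ ε, |rs h ε|) / s := by ring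
    rw [h1, le_div_iff₀ hs0] at hsum
    linarith
  calc σ = 3 * (s / 3) ^ 2 := by rw [div_pow, hs2]; ring
    _ ≤ _ := by gcongr

end Pool.Agent.Helper99.Rad
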