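import Mathlib

set_option autoImplicit false

namespace Pool.Agent.Helper99.Tube

open MeasureTheory

/-- A body in `ℝ^n`: a compact set with nonempty interior. -/
def IsBody {n : ℕ} (K : Set (EuclideanSpace ℝ (Fin n))) : Prop :=
  IsCompact K ∧ (interior K).Nonempty

/-- `C^∞`-smooth boundary: every boundary point `p` has an open neighbourhood `U` and a function
`φ`, smooth on `U` and with nowhere vanishing differential on `U`, such that inside `U` the set `K`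
is `{φ ≤ 0}` and the boundary of `K` is the regular level hypersurface `{φ = 0}`. -/
def HasSmoothBoundary {n : ℕ} (K : Set (EuclideanSpace ℝ (Fin n))) : Prop :=
  ∀ p ∈ frontier K, ∃ U : Set (EuclideanSpace ℝ (Fin n)), IsOpen U ∧ p ∈ U ∧
    ∃ φ : EuclideanSpace ℝ (Fin n) → ℝ, ContDiffOn ℝ (⊤ : ℕ∞) φ U ∧
      (∀ x ∈ U, fderiv ℝ φ x ≠ 0) ∧
      (∀ x ∈ U, x ∈ K ↔ φ x ≤ 0) ∧ (∀ x ∈ U, x ∈ frontier K ↔ φ x = 0)

/-- The cutoff function `V_K^+(ξ,t)`: the volume of the part of `K` in `⟨x,ξ⟩ ≤ t`. -/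
noncomputable def cutPlus {n : ℕ} (K : Set (EuclideanSpace ℝ (Fin n)))
    (ξ : EuclideanSpace ℝ (Fin n)) (t : ℝ) : ℝ :=
  (volume (K ∩ {x | inner ℝ x ξ ≤ t})).toReal

/-- The cutoff function `V_K^-(ξ,t)`: the volume of the part of `K` in `⟨x,ξ⟩ ≥ t`. -/
noncomputable def cutMinus {n : ℕ} (K : Set (EuclideanSpace ℝ (Fin n)))
    (ξ : EuclideanSpace ℝ (Fin n)) (t : ℝ) : ℝ :=
  (volume (K ∩ {x | t ≤ inner ℝ x ξ})).toReal

/-- Algebraic integrability: one real polynomial `Φ(ξ,t,w)` in `n+2` variables, not identically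
zero on `S^{n-1} × ℝ × ℝ`, vanishes at `(ξ, t, V_K^+(ξ,t))` and at `(ξ, t, V_K^-(ξ,t))` for every
unit vector `ξ` and every real `t`. -/
def IsAlgebraicallyIntegrable {n : ℕ} (K : Set (EuclideanSpace ℝ (Fin n))) : Prop :=
  ∃ Φ : MvPolynomial (Fin n ⊕ Fin 2) ℝ,
    (∃ (ξ : EuclideanSpace ℝ (Fin n)) (t w : ℝ), ‖ξ‖ = 1 ∧
      MvPolynomial.eval (Sum.elim (fun i => ξ i) ![t, w]) Φ ≠ 0) ∧
    ∀ (ξ : EuclideanSpace ℝ (Fin n)) (t : ℝ), ‖ξ‖ = 1 →
      MvPolynomial.eval (Sum.elim (fun i => ξ i) ![t, cutPlus K ξ t]) Φ = 0 ∧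
      MvPolynomial.eval (Sum.elim (fun i => ξ i) ![t, cutMinus K ξ t]) Φ = 0

/-- An ellipsoid: the image of the closed unit ball under an invertible affine map. -/
def IsEllipsoid {n : ℕ} (K : Set (EuclideanSpace ℝ (Fin n))) : Prop :=
  ∃ g : EuclideanSpace ℝ (Fin n) ≃ᵃ[ℝ] EuclideanSpace ℝ (Fin n),
    K = g '' Metric.closedBall 0 1

end Pool.Agent.Helper99.Tube
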