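import Mathlib
import Pool.Agent.Helper99.Final
import Pool.Agent.Helper99.TubeDefs

set_option autoImplicit false

namespace Pool.Agent.Helper99.Tube

open MeasureTheory

section construction

variable {m : ℕ}

/-- `|x|^2` for the first three coordinates -/
noncomputable def gx (z : EuclideanSpace ℝ (Fin (3 + m))) : ℝ := ∑ i : Fin 3, z (Fin.castAdd m i) ^ 2

/-- `|y|^2` for the remaining coordinates -/
noncomputable def gy (z : EuclideanSpace ℝ (Fin (3 + m))) : ℝ := ∑ j : Fin m, z (Fin.natAdd 3 j) ^ 2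

/-- defining function of the tube of radius `1/2` around the unit 2-sphere -/
noncomputable def ff (z : EuclideanSpace ℝ (Fin (3 + m))) : ℝ :=
  (√(gx z) - 1) ^ 2 + gy z - (1 / 2) ^ 2

/-- the tube -/
def Tube (m : ℕ) : Set (EuclideanSpace ℝ (Fin (3 + m))) := {z | ff z ≤ 0}

theorem gx_nonneg (z : EuclideanSpace ℝ (Fin (3 + m))) : 0 ≤ gx z :=
  Finset.sum_nonneg fun _ _ => sq_nonneg _

theorem gy_nonneg (z : EuclideanSpace ℝ (Fin (3 + m))) : 0 ≤ gy z :=
  Finset.sum_nonneg fun _ _ => sq_nonneg _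

theorem continuous_gx : Continuous (gx : EuclideanSpace ℝ (Fin (3 + m)) → ℝ) := by
  unfold gx; fun_prop

theorem continuous_gy : Continuous (gy : EuclideanSpace ℝ (Fin (3 + m)) → ℝ) := by
  unfold gy; fun_prop

theorem continuous_ff : Continuous (ff : EuclideanSpace ℝ (Fin (3 + m)) → ℝ) := by
  unfold ff
  have := continuous_gx (m := m)
  have := continuous_gy (m := m)
  fun_prop

theorem norm_sq_eq' (z : EuclideanSpace ℝ (Fin (3 + m))) : ‖z‖ ^ 2 = gx z + gy z := by
  rw [EuclideanSpace.norm_sq_eq, Fin.sum_univ_add]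
  simp [gx, gy]

theorem isCompact_Tube : IsCompact (Tube m) := by
  apply Metric.isCompact_of_isClosed_isBounded
  · exact isClosed_le continuous_ff continuous_const
  · refine (Metric.isBounded_closedBall (x := (0 : EuclideanSpace ℝ (Fin (3 + m)))) (r := 2)).subset ?_
    intro z hz
    simp only [Tube, ff, Set.mem_ofPred_eq] at hz
    rw [mem_closedBall_zero_iff]
    have h1 := norm_sq_eq' z
    have h2 := gy_nonneg z
    have h3 : √(gx z) ≤ 3 / 2 := by nlinarith [Real.sqrt_nonneg (gx z)]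
    have h4 : gx z = √(gx z) ^ 2 := (Real.sq_sqrt (gx_nonneg z)).symm
    have h5 : 0 ≤ √(gx z) := Real.sqrt_nonneg _
    nlinarith [norm_nonneg z]

/-- the point `(e_1, 0)` -/
noncomputable def pt (s : ℝ) : EuclideanSpace ℝ (Fin (3 + m)) :=
  WithLp.toLp 2 (fun i => if i = Fin.castAdd m 0 then s else 0)

theorem gx_pt (s : ℝ) : gx (pt s : EuclideanSpace ℝ (Fin (3 + m))) = s ^ 2 := by
  have h : ∀ i : Fin 3, (pt s : EuclideanSpace ℝ (Fin (3 + m))) (Fin.castAdd m i) =
      if i = 0 then s else 0 := by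
    intro i
    simp [pt]
  unfold gx
  simp [h]

theorem gy_pt (s : ℝ) : gy (pt s : EuclideanSpace ℝ (Fin (3 + m))) = 0 := by
  unfold gy pt
  apply Finset.sum_eq_zero
  intro j _
  have : Fin.natAdd 3 j ≠ Fin.castAdd m 0 := by
    intro h
    have := congrArg Fin.val h
    simp at this
  simp [this]

theorem isBody_Tube : IsBody (Tube m) := by
  refine ⟨isCompact_Tube, pt 1, ?_⟩
  have h1 : IsOpen {z : EuclideanSpace ℝ (Fin (3 + m)) | ff z < 0} :=
    isOpen_lt continuous_ff continuous_const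
  have h2 : {z : EuclideanSpace ℝ (Fin (3 + m)) | ff z < 0} ⊆ Tube m := by
    intro z hz
    have hz' : ff z < 0 := hz
    exact hz'.le
  apply interior_maximal h2 h1
  simp only [Set.mem_ofPred_eq, ff, gx_pt, gy_pt]
  norm_num

theorem not_isEllipsoid_Tube : ¬ IsEllipsoid (Tube m) := by
  rintro ⟨g, hg⟩
  have hconv : Convex ℝ (Tube m) := by
    rw [hg]
    exact (convex_closedBall 0 1).affine_image g.toAffineMap
  have h1 : (pt 1 : EuclideanSpace ℝ (Fin (3 + m))) ∈ Tube m := by
    simp only [Tube, Set.mem_ofPred_eq, ff, gx_pt, gy_pt]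
    norm_num
  have h2 : (pt (-1) : EuclideanSpace ℝ (Fin (3 + m))) ∈ Tube m := by
    simp only [Tube, Set.mem_ofPred_eq, ff, gx_pt, gy_pt]
    norm_num
  have h3 := hconv h1 h2 (a := 1 / 2) (b := 1 / 2) (by norm_num) (by norm_num) (by norm_num)
  have h4 : ((1 / 2 : ℝ) • pt 1 + (1 / 2 : ℝ) • pt (-1) : EuclideanSpace ℝ (Fin (3 + m))) = pt 0 := by
    ext i
    simp [pt]
    split_ifs <;> norm_num
  rw [h4] at h3
  simp only [Tube, Set.mem_ofPred_eq, ff, gx_pt, gy_pt] at h3
  norm_num at h3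

/-- the outward direction at `z` -/
noncomputable def dir (z : EuclideanSpace ℝ (Fin (3 + m))) : EuclideanSpace ℝ (Fin (3 + m)) :=
  WithLp.toLp 2 (fun i => Fin.addCases (motive := fun _ => ℝ)
    (fun a => (√(gx z) - 1) / √(gx z) * z (Fin.castAdd m a)) (fun b => z (Fin.natAdd 3 b)) i)

theorem ff_dir {z : EuclideanSpace ℝ (Fin (3 + m))} (hz : 0 < gx z) {t : ℝ}
    (ht : 0 ≤ √(gx z) + t * (√(gx z) - 1)) :
    ff (z + t • dir z) = (1 + t) ^ 2 * ((√(gx z) - 1) ^ 2 + gy z) - (1 / 2) ^ 2 := by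
  have hr : 0 < √(gx z) := Real.sqrt_pos.mpr hz
  have e1 : gx (z + t • dir z) = (√(gx z) + t * (√(gx z) - 1)) ^ 2 := by
    have h1 : ∀ i : Fin 3, (z + t • dir z) (Fin.castAdd m i) ^ 2 =
        (1 + t * ((√(gx z) - 1) / √(gx z))) ^ 2 * z (Fin.castAdd m i) ^ 2 := by
      intro i
      simp only [dir, PiLp.add_apply, PiLp.smul_apply, smul_eq_mul, Fin.addCases_left]
      ring
    have h2 : gx (z + t • dir z) = ∑ i : Fin 3, (z + t • dir z) (Fin.castAdd m i) ^ 2 := rfl
    rw [h2]
    simp_rw [h1]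
    rw [← Finset.mul_sum]
    have h3 : ∑ i : Fin 3, z (Fin.castAdd m i) ^ 2 = √(gx z) ^ 2 := by
      rw [Real.sq_sqrt hz.le]; rfl
    rw [h3]
    field_simp
  have e2 : gy (z + t • dir z) = (1 + t) ^ 2 * gy z := by
    have h1 : ∀ j : Fin m, (z + t • dir z) (Fin.natAdd 3 j) ^ 2 =
        (1 + t) ^ 2 * z (Fin.natAdd 3 j) ^ 2 := by
      intro j
      simp only [dir, PiLp.add_apply, PiLp.smul_apply, smul_eq_mul, Fin.addCases_right]
      ring
    have h2 : gy (z + t • dir z) = ∑ j : Fin m, (z + t • dir z) (Fin.natAdd 3 j) ^ 2 := rfl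
    rw [h2]
    simp_rw [h1]
    rw [← Finset.mul_sum]
    rfl
  unfold ff
  rw [e1, e2, Real.sqrt_sq ht]
  ring

theorem bounds_of_ff {z : EuclideanSpace ℝ (Fin (3 + m))} (hz : ff z ≤ 0) :
    1 / 2 ≤ √(gx z) ∧ √(gx z) ≤ 3 / 2 := by
  unfold ff at hz
  have h2 := gy_nonneg z
  constructor <;> nlinarith [Real.sqrt_nonneg (gx z)]

theorem gx_pos_of_ff {z : EuclideanSpace ℝ (Fin (3 + m))} (hz : ff z ≤ 0) : 0 < gx z := by
  have h := (bounds_of_ff hz).1
  exact Real.sqrt_pos.mp (by linarith)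

theorem frontier_Tube : frontier (Tube m) = {z | ff z = 0} := by
  apply Set.Subset.antisymm
  · exact frontier_le_subset_eq continuous_ff continuous_const
  · intro z hz
    have hz0 : ff z = 0 := hz
    rw [frontier_eq_closure_inter_closure]
    refine ⟨subset_closure hz0.le, ?_⟩
    have hb := bounds_of_ff hz0.le
    have hS : (√(gx z) - 1) ^ 2 + gy z = (1 / 2) ^ 2 := by
      unfold ff at hz0; linarith
    have ht : Filter.Tendsto (fun t : ℝ => z + t • dir z) (nhdsWithin 0 (Set.Ioi 0)) (nhds z) := by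
      have h1 : Continuous (fun t : ℝ => z + t • dir z) := by fun_prop
      have h2 := h1.tendsto 0
      simp only [zero_smul, add_zero] at h2
      exact h2.mono_left nhdsWithin_le_nhds
    refine mem_closure_of_tendsto ht ?_
    filter_upwards [Ioo_mem_nhdsGT (show (0 : ℝ) < 1 by norm_num)] with t ht
    simp only [Tube, Set.mem_compl_iff, Set.mem_ofPred_eq, not_le]
    rw [ff_dir (gx_pos_of_ff hz0.le) (by nlinarith [ht.1, ht.2]), hS]
    nlinarith [ht.1]

theorem contDiff_gx : ContDiff ℝ (⊤ : ℕ∞) (gx : EuclideanSpace ℝ (Fin (3 + m)) → ℝ) := by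
  unfold gx
  fun_prop

theorem contDiff_gy : ContDiff ℝ (⊤ : ℕ∞) (gy : EuclideanSpace ℝ (Fin (3 + m)) → ℝ) := by
  unfold gy
  fun_prop

theorem hasSmoothBoundary_Tube : HasSmoothBoundary (Tube m) := by
  intro p hp
  rw [frontier_Tube] at hp
  have hp0 : ff p = 0 := hp
  let U : Set (EuclideanSpace ℝ (Fin (3 + m))) := {z | 0 < gx z} ∩ {z | 0 < (√(gx z) - 1) ^ 2 + gy z}
  have hU : IsOpen U := by
    have h1 := continuous_gx (m := m)
    have h2 := continuous_gy (m := m)
    exact (isOpen_lt continuous_const h1).inter (isOpen_lt continuous_const (by fun_prop))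
  have hcd : ContDiffOn ℝ (⊤ : ℕ∞) (ff : EuclideanSpace ℝ (Fin (3 + m)) → ℝ) U := by
    have h1 : ContDiffOn ℝ (⊤ : ℕ∞) (fun z : EuclideanSpace ℝ (Fin (3 + m)) => √(gx z)) U :=
      ContDiffOn.sqrt contDiff_gx.contDiffOn (fun x hx => hx.1.ne')
    exact (((h1.sub contDiffOn_const).pow 2).add contDiff_gy.contDiffOn).sub contDiffOn_const
  refine ⟨U, hU, ⟨gx_pos_of_ff hp0.le, ?_⟩, ff, hcd, ?_, ?_, ?_⟩
  · unfold ff at hp0
    simp only [Set.mem_ofPred_eq]
    nlinarith
  · intro x hx h0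
    have hr : 0 < √(gx x) := Real.sqrt_pos.mpr hx.1
    have hd : DifferentiableAt ℝ (ff : EuclideanSpace ℝ (Fin (3 + m)) → ℝ) x :=
      (hcd.contDiffAt (hU.mem_nhds hx)).differentiableAt (by simp)
    have h1 : HasDerivAt (fun t : ℝ => ff (x + t • dir x)) 0 0 := by
      have h2 : HasDerivAt (fun t : ℝ => x + t • dir x) (dir x) 0 := by
        simpa using ((hasDerivAt_id (0 : ℝ)).smul_const (dir x)).const_add x
      have h3 : HasFDerivAt (ff : EuclideanSpace ℝ (Fin (3 + m)) → ℝ) (fderiv ℝ ff x)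
          (x + (0 : ℝ) • dir x) := by
        simpa using hd.hasFDerivAt
      rw [h0] at h3
      have h4 := h3.comp_hasDerivAt (0 : ℝ) h2
      exact h4
    have h5 : HasDerivAt (fun t : ℝ => (1 + t) ^ 2 * ((√(gx x) - 1) ^ 2 + gy x) - (1 / 2) ^ 2)
        (2 * ((√(gx x) - 1) ^ 2 + gy x)) 0 := by
      have h6 : HasDerivAt (fun t : ℝ => (1 + t) ^ 2) 2 0 := by
        have := ((hasDerivAt_id' (0 : ℝ)).const_add 1).fun_pow 2
        simpa using this
      exact (h6.mul_const _).sub_const _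
    have h7 : (fun t : ℝ => ff (x + t • dir x)) =ᶠ[nhds 0]
        (fun t : ℝ => (1 + t) ^ 2 * ((√(gx x) - 1) ^ 2 + gy x) - (1 / 2) ^ 2) := by
      have h8 : Continuous (fun t : ℝ => √(gx x) + t * (√(gx x) - 1)) := by fun_prop
      have h9 : ∀ᶠ t in nhds (0 : ℝ), 0 < √(gx x) + t * (√(gx x) - 1) :=
        (h8.tendsto 0).eventually_const_lt (by simpa using hr)
      filter_upwards [h9] with t ht
      exact ff_dir hx.1 ht.le
    have h10 := (h5.congr_of_eventuallyEq h7).unique h1
    have h11 := hx.2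
    simp only [Set.mem_ofPred_eq] at h11
    linarith
  · intro x _
    rfl
  · intro x _
    rw [frontier_Tube]
    rfl

/-- parametrization of the boundary -/
noncomputable def par (q : EuclideanSpace ℝ (Fin 3) × WithLp 2 (ℝ × EuclideanSpace ℝ (Fin m))) :
    EuclideanSpace ℝ (Fin (3 + m)) :=
  WithLp.toLp 2 (fun i => Fin.addCases (motive := fun _ => ℝ)
    (fun a => (1 + q.2.fst) * q.1 a) (fun b => q.2.snd b) i)

theorem continuous_par : Continuous (par (m := m)) := by
  unfold par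
  refine (PiLp.continuous_toLp 2 _).comp ?_
  refine continuous_pi fun i => ?_
  refine Fin.addCases (fun a => ?_) (fun b => ?_) i
  · simp only [Fin.addCases_left]
    fun_prop
  · simp only [Fin.addCases_right]
    fun_prop

theorem isConnected_frontier_Tube (hm : 1 ≤ m) : IsConnected (frontier (Tube m)) := by
  rw [frontier_Tube]
  have h1 : IsConnected (Metric.sphere (0 : EuclideanSpace ℝ (Fin 3)) 1) := by
    apply isConnected_sphere _ _ zero_le_one
    rw [← Module.finrank_eq_rank, finrank_euclideanSpace_fin]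
    norm_num
  have h2 : IsConnected (Metric.sphere (0 : WithLp 2 (ℝ × EuclideanSpace ℝ (Fin m))) (1 / 2)) := by
    apply isConnected_sphere _ _ (by norm_num)
    rw [← Module.finrank_eq_rank, Pool.Agent.Helper99.finrank_EE m]
    exact_mod_cast (by omega : 1 < m + 1)
  have h3 : {z : EuclideanSpace ℝ (Fin (3 + m)) | ff z = 0} =
      par '' ((Metric.sphere (0 : EuclideanSpace ℝ (Fin 3)) 1) ×ˢ
        (Metric.sphere (0 : WithLp 2 (ℝ × EuclideanSpace ℝ (Fin m))) (1 / 2))) := by
    apply Set.Subset.antisymm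
    · intro z hz
      have hz0 : ff z = 0 := hz
      have hr : 0 < √(gx z) := Real.sqrt_pos.mpr (gx_pos_of_ff hz0.le)
      have hr2 : √(gx z) ^ 2 = gx z := Real.sq_sqrt (gx_nonneg z)
      refine ⟨(WithLp.toLp 2 (fun a => z (Fin.castAdd m a) / √(gx z)),
        WithLp.toLp 2 (√(gx z) - 1, WithLp.toLp 2 (fun b => z (Fin.natAdd 3 b)))), ⟨?_, ?_⟩, ?_⟩
      · simp only [mem_sphere_zero_iff_norm]
        rw [← sq_eq_sq₀ (norm_nonneg _) zero_le_one, EuclideanSpace.norm_sq_eq]
        simp only [Real.norm_eq_abs, sq_abs, div_pow]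
        rw [← Finset.sum_div, hr2]
        have : ∑ i : Fin 3, z (Fin.castAdd m i) ^ 2 = gx z := rfl
        rw [this, div_self (gx_pos_of_ff hz0.le).ne']
        norm_num
      · simp only [mem_sphere_zero_iff_norm]
        rw [← sq_eq_sq₀ (norm_nonneg _) (by norm_num), WithLp.prod_norm_sq_eq_of_L2,
          EuclideanSpace.norm_sq_eq]
        simp only [Real.norm_eq_abs, sq_abs]
        have h5 : (√(gx z) - 1) ^ 2 + gy z = (1 / 2) ^ 2 := by
          unfold ff at hz0
          linarith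
        exact h5
      · ext i
        refine Fin.addCases (fun a => ?_) (fun b => ?_) i
        · simp only [par, Fin.addCases_left]
          show (1 + (√(gx z) - 1)) * (z (Fin.castAdd m a) / √(gx z)) = z (Fin.castAdd m a)
          field_simp
          ring
        · simp only [par, Fin.addCases_right]
          rfl
    · rintro _ ⟨⟨ω, q⟩, ⟨h4, h5⟩, rfl⟩
      simp only [mem_sphere_zero_iff_norm] at h4 h5
      have h6 : ∑ i, ω i ^ 2 = 1 := by
        have := EuclideanSpace.norm_sq_eq ω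
        rw [h4] at this
        simpa using this.symm
      have h7 : q.fst ^ 2 + ∑ j, q.snd j ^ 2 = (1 / 2) ^ 2 := by
        have := WithLp.prod_norm_sq_eq_of_L2 q
        rw [h5, EuclideanSpace.norm_sq_eq] at this
        simpa using this.symm
      have h8 : 0 ≤ ∑ j, q.snd j ^ 2 := Finset.sum_nonneg fun _ _ => sq_nonneg _
      have h9 : 0 ≤ 1 + q.fst := by nlinarith
      have e1 : gx (par (ω, q)) = (1 + q.fst) ^ 2 := by
        unfold gx par
        simp only [Fin.addCases_left, mul_pow]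
        rw [← Finset.mul_sum, h6, mul_one]
      have e2 : gy (par (ω, q)) = ∑ j, q.snd j ^ 2 := by
        unfold gy par
        simp only [Fin.addCases_right]
      simp only [Set.mem_ofPred_eq]
      unfold ff
      rw [e1, e2, Real.sqrt_sq h9]
      linarith
  rw [h3]
  exact (h1.prod h2).image _ continuous_par.continuousOn

/-- volume preserving coordinates -/
noncomputable def Θ (m : ℕ) : (Fin 3 → ℝ) × (Fin m → ℝ) ≃ᵐ EuclideanSpace ℝ (Fin (3 + m)) :=
  (MeasurableEquiv.sumPiEquivProdPi (fun _ : Fin 3 ⊕ Fin m => ℝ)).symm.trans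
    ((MeasurableEquiv.piCongrLeft (fun _ : Fin (3 + m) => ℝ) finSumFinEquiv).trans
      (MeasurableEquiv.toLp 2 (Fin (3 + m) → ℝ)))

theorem Θ_mp : MeasurePreserving (Θ m) volume volume := by
  unfold Θ
  refine MeasurePreserving.trans (μb := volume) ?_ (MeasurePreserving.trans (μb := volume) ?_ ?_)
  · exact volume_measurePreserving_sumPiEquivProdPi_symm _
  · exact volume_measurePreserving_piCongrLeft _ _
  · exact PiLp.volume_preserving_toLp _

theorem Θ_left (p : (Fin 3 → ℝ) × (Fin m → ℝ)) (i : Fin 3) : (Θ m p) (Fin.castAdd m i) = p.1 i := by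
  have : Fin.castAdd m i = finSumFinEquiv (Sum.inl i) := rfl
  rw [this]
  simp only [Θ, MeasurableEquiv.trans_apply, MeasurableEquiv.coe_toLp]
  exact Equiv.piCongrLeft_apply_apply (fun _ : Fin (3 + m) => ℝ) finSumFinEquiv _ (Sum.inl i)

theorem Θ_right (p : (Fin 3 → ℝ) × (Fin m → ℝ)) (j : Fin m) : (Θ m p) (Fin.natAdd 3 j) = p.2 j := by
  have : Fin.natAdd 3 j = finSumFinEquiv (Sum.inr j) := rfl
  rw [this]
  simp only [Θ, MeasurableEquiv.trans_apply, MeasurableEquiv.coe_toLp]
  exact Equiv.piCongrLeft_apply_apply (fun _ : Fin (3 + m) => ℝ) finSumFinEquiv _ (Sum.inr j)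

theorem cutPlus_eq (ξ : EuclideanSpace ℝ (Fin (3 + m))) (t : ℝ) :
    cutPlus (Tube m) ξ t = (volume {p : (Fin 3 → ℝ) × (Fin m → ℝ) |
        (√(∑ i, p.1 i ^ 2) - 1) ^ 2 + ∑ j, p.2 j ^ 2 ≤ (1 / 2) ^ 2 ∧
        ∑ i, ξ (Fin.castAdd m i) * p.1 i + ∑ j, ξ (Fin.natAdd 3 j) * p.2 j ≤ t}).toReal := by
  unfold cutPlus
  congr 1
  have hm : MeasurableSet (Tube m ∩ {x | inner ℝ x ξ ≤ t}) := by
    refine (isCompact_Tube.measurableSet).inter ?_
    exact (isClosed_le (by fun_prop) continuous_const).measurableSet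
  rw [← Θ_mp.measure_preimage hm.nullMeasurableSet]
  congr 1
  ext p
  simp only [Set.mem_preimage, Set.mem_inter_iff, Set.mem_ofPred_eq, Tube]
  have e1 : ff (Θ m p) = (√(∑ i, p.1 i ^ 2) - 1) ^ 2 + ∑ j, p.2 j ^ 2 - (1 / 2) ^ 2 := by
    unfold ff gx gy
    simp only [Θ_left, Θ_right]
  have e2 : inner ℝ (Θ m p) ξ =
      ∑ i, ξ (Fin.castAdd m i) * p.1 i + ∑ j, ξ (Fin.natAdd 3 j) * p.2 j := by
    rw [PiLp.inner_apply, Fin.sum_univ_add]
    simp only [RCLike.inner_apply, conj_trivial, Θ_left, Θ_right]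
  rw [e1, e2]
  constructor
  · rintro ⟨h1, h2⟩; exact ⟨by linarith, h2⟩
  · rintro ⟨h1, h2⟩; exact ⟨by linarith, h2⟩

end construction

theorem cutMinus_eq {n : ℕ} (K : Set (EuclideanSpace ℝ (Fin n))) (ξ : EuclideanSpace ℝ (Fin n))
    (t : ℝ) : cutMinus K ξ t = cutPlus K (-ξ) (-t) := by
  unfold cutMinus cutPlus
  congr 3
  ext x
  simp [inner_neg_right]

theorem cutPlus_scale {n : ℕ} (K : Set (EuclideanSpace ℝ (Fin n))) (ξ : EuclideanSpace ℝ (Fin n))
    (t : ℝ) {c : ℝ} (hc : 0 < c) : cutPlus K (c • ξ) (c * t) = cutPlus K ξ t := by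
  unfold cutPlus
  congr 3
  ext x
  simp only [Set.mem_ofPred_eq, inner_smul_right]
  exact mul_le_mul_iff_right₀ hc

section polynomials

open MvPolynomial in
theorem eval_option {τ : Type} (y : Option τ → ℝ) (F : MvPolynomial (Option τ) ℝ) :
    MvPolynomial.eval y F =
      (((optionEquivLeft ℝ τ) F).map (MvPolynomial.eval (fun i => y (some i)))).eval (y none) := by
  induction F using MvPolynomial.induction_on with
  | C a => simp
  | add p q hp hq => simp [hp, hq]
  | mul_X p n hp =>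
    rw [map_mul, hp, map_mul, Polynomial.map_mul, Polynomial.eval_mul]
    congr 1
    cases n with
    | none => simp
    | some i => simp

/-- the variables -/
def vars (m : ℕ) : Option ((Fin 3 ⊕ Fin m) ⊕ Fin 1) → Fin (3 + m) ⊕ Fin 2
  | none => Sum.inr 1
  | some (Sum.inl i) => Sum.inl (finSumFinEquiv i)
  | some (Sum.inr _) => Sum.inr 0

theorem vars_injective (m : ℕ) : Function.Injective (vars m) := by
  rintro (_ | (i | i)) (_ | (j | j)) h
  · rfl
  · simp [vars] at h
  · simp [vars] at h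
  · simp [vars] at h
  · simp only [vars, Sum.inl.injEq] at h
    rw [finSumFinEquiv.injective h]
  · simp [vars] at h
  · simp [vars] at h
  · simp [vars] at h
  · rw [Subsingleton.elim i j]

/-- scaling of `(ξ, t)` by `c` -/
noncomputable def scal {n : ℕ} (c : ℝ) (F : MvPolynomial (Fin n ⊕ Fin 2) ℝ) :
    MvPolynomial (Fin n ⊕ Fin 2) ℝ :=
  MvPolynomial.bind₁ (fun i : Fin n ⊕ Fin 2 =>
    if i = Sum.inr 1 then MvPolynomial.X i else MvPolynomial.C c * MvPolynomial.X i) F

theorem eval_scal {n : ℕ} (c : ℝ) (F : MvPolynomial (Fin n ⊕ Fin 2) ℝ) (ξ : Fin n → ℝ) (t w : ℝ) :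
    MvPolynomial.eval (Sum.elim ξ ![t, w]) (scal c F) =
      MvPolynomial.eval (Sum.elim (fun i => c * ξ i) ![c * t, w]) F := by
  unfold scal
  rw [MvPolynomial.eval, MvPolynomial.eval₂Hom_bind₁]
  congr 2
  funext i
  rcases i with i | i
  · simp
  · fin_cases i <;> simp

theorem exists_eval_ne {σ : Type} {F : MvPolynomial σ ℝ} (hF : F ≠ 0) :
    ∃ y : σ → ℝ, MvPolynomial.eval y F ≠ 0 := by
  by_contra h
  push Not at h
  exact hF (MvPolynomial.funext (fun y => by rw [h y, map_zero]))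

theorem elim_eta {n : ℕ} (y : Fin n ⊕ Fin 2 → ℝ) :
    y = Sum.elim (fun i => y (Sum.inl i)) ![y (Sum.inr 0), y (Sum.inr 1)] := by
  funext i
  rcases i with i | i
  · rfl
  · fin_cases i <;> rfl

theorem isAlgebraicallyIntegrable_Tube (m' : ℕ) : IsAlgebraicallyIntegrable (Tube (2 * m')) := by
  obtain ⟨p, hp, hp'⟩ := Pool.Agent.Helper99.tube_algebraic 1 m' (ε := 1 / 2) (by norm_num)
    (by norm_num)
  -- a polynomial relation for the plus cutoff function
  obtain ⟨F, hF, hF'⟩ : ∃ F : MvPolynomial (Fin (3 + 2 * m') ⊕ Fin 2) ℝ, F ≠ 0 ∧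
      ∀ (ξ : EuclideanSpace ℝ (Fin (3 + 2 * m'))) (t : ℝ),
        MvPolynomial.eval (Sum.elim (fun i => ξ i) ![t, cutPlus (Tube (2 * m')) ξ t]) F = 0 := by
    refine ⟨MvPolynomial.rename (vars (2 * m')) ((MvPolynomial.optionEquivLeft ℝ _).symm p), ?_, ?_⟩
    · intro h
      rw [← map_zero (MvPolynomial.rename (vars (2 * m')))] at h
      have h1 := MvPolynomial.rename_injective _ (vars_injective (2 * m')) h
      rw [map_eq_zero_iff _ (MvPolynomial.optionEquivLeft ℝ _).symm.injective] at h1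
      exact hp h1
    · intro ξ t
      rw [MvPolynomial.eval_rename, eval_option, AlgEquiv.apply_symm_apply]
      have h := hp' (Sum.elim (Sum.elim (fun i => ξ (Fin.castAdd (2 * m') i))
        (fun j => ξ (Fin.natAdd 3 j))) ![t]) (Set.mem_univ _)
      have hx : ∀ v : ℝ, (fun i => (Sum.elim (fun i => ξ i) ![t, v] ∘ vars (2 * m')) (some i)) =
          Sum.elim (Sum.elim (fun i => ξ (Fin.castAdd (2 * m') i))
            (fun j => ξ (Fin.natAdd 3 j))) ![t] := by
        intro v
        funext i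
        rcases i with ((i | i) | i)
        · rfl
        · rfl
        · have : i = 0 := Subsingleton.elim _ _
          subst this
          rfl
      rw [hx]
      have hV : (Sum.elim (fun i => ξ i) ![t, cutPlus (Tube (2 * m')) ξ t] ∘ vars (2 * m')) none =
          cutPlus (Tube (2 * m')) ξ t := rfl
      rw [hV, cutPlus_eq]
      exact h
  have hG : scal (-1) F ≠ 0 := by
    obtain ⟨y, hy⟩ := exists_eval_ne hF
    intro h0
    have h1 := eval_scal (-1) F (fun i => -(y (Sum.inl i))) (-(y (Sum.inr 0))) (y (Sum.inr 1))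
    rw [h0, map_zero] at h1
    apply hy
    rw [elim_eta y]
    simp only [neg_mul, one_mul, neg_neg] at h1
    exact h1.symm
  have hGvan : ∀ (ξ : EuclideanSpace ℝ (Fin (3 + 2 * m'))) (t : ℝ),
      MvPolynomial.eval (Sum.elim (fun i => ξ i) ![t, cutMinus (Tube (2 * m')) ξ t])
        (scal (-1) F) = 0 := by
    intro ξ t
    rw [eval_scal, cutMinus_eq]
    have := hF' (-ξ) (-t)
    simpa using this
  -- a point where the product does not vanish, with nonzero direction
  have hH : F * scal (-1) F * (∑ i : Fin (3 + 2 * m'), MvPolynomial.X (Sum.inl i) ^ 2) ≠ 0 := by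
    refine mul_ne_zero (mul_ne_zero hF hG) ?_
    intro h
    have := congrArg (MvPolynomial.eval (fun _ => (1 : ℝ))) h
    simp at this
    norm_cast at this
    omega
  obtain ⟨y, hy⟩ := exists_eval_ne hH
  rw [map_mul] at hy
  have hy1 : MvPolynomial.eval y (F * scal (-1) F) ≠ 0 := left_ne_zero_of_mul hy
  have hy2 : ∑ i : Fin (3 + 2 * m'), y (Sum.inl i) ^ 2 ≠ 0 := by
    have := right_ne_zero_of_mul hy
    simpa using this
  have hy3 : 0 < ∑ i : Fin (3 + 2 * m'), y (Sum.inl i) ^ 2 :=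
    lt_of_le_of_ne (Finset.sum_nonneg fun _ _ => sq_nonneg _) (Ne.symm hy2)
  set c := √(∑ i : Fin (3 + 2 * m'), y (Sum.inl i) ^ 2) with hc
  have hc0 : 0 < c := Real.sqrt_pos.mpr hy3
  refine ⟨scal c (F * scal (-1) F), ⟨WithLp.toLp 2 (fun i => y (Sum.inl i) / c),
    y (Sum.inr 0) / c, y (Sum.inr 1), ?_, ?_⟩, ?_⟩
  · rw [← sq_eq_sq₀ (norm_nonneg _) zero_le_one, EuclideanSpace.norm_sq_eq]
    simp only [Real.norm_eq_abs, sq_abs, div_pow]
    rw [← Finset.sum_div, hc, Real.sq_sqrt hy3.le, div_self hy2]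
    norm_num
  · rw [eval_scal]
    rw [elim_eta y] at hy1
    have e1 : (fun i : Fin (3 + 2 * m') => c * (WithLp.toLp 2 (fun i => y (Sum.inl i) / c) :
        EuclideanSpace ℝ (Fin (3 + 2 * m'))) i) = fun i => y (Sum.inl i) := by
      funext i
      simp only
      field_simp
    have e2 : c * (y (Sum.inr 0) / c) = y (Sum.inr 0) := by field_simp
    rw [e1, e2]
    exact hy1
  · intro ξ t _
    have e1 : (fun i => c * ξ i) = fun i => (c • ξ) i := by
      funext i
      simp
    constructor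
    · rw [eval_scal, e1, map_mul, ← cutPlus_scale (Tube (2 * m')) ξ t hc0, hF', zero_mul]
    · have e2 : cutMinus (Tube (2 * m')) ξ t = cutMinus (Tube (2 * m')) (c • ξ) (c * t) := by
        rw [cutMinus_eq, cutMinus_eq, ← cutPlus_scale (Tube (2 * m')) (-ξ) (-t) hc0]
        congr 1
        · rw [smul_neg]
        · ring
      rw [eval_scal, e1, map_mul, e2, hGvan, mul_zero]

end polynomials

/-- In every odd dimension `n ≥ 5` there is a body with connected, `C^∞`-smooth boundary that is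
algebraically integrable and is not an ellipsoid. -/
theorem exists_body : ∀ n : ℕ, Odd n → 5 ≤ n →
    ∃ K : Set (EuclideanSpace ℝ (Fin n)), IsBody K ∧ IsConnected (frontier K) ∧
      HasSmoothBoundary K ∧ IsAlgebraicallyIntegrable K ∧ ¬ IsEllipsoid K := by
  intro n hn h5
  obtain ⟨k, hk⟩ := hn
  obtain ⟨m', rfl⟩ : ∃ m', n = 3 + 2 * m' := ⟨k - 1, by omega⟩
  exact ⟨Tube (2 * m'), isBody_Tube, isConnected_frontier_Tube (by omega), hasSmoothBoundary_Tube,
    isAlgebraicallyIntegrable_Tube m', not_isEllipsoid_Tube⟩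

end Pool.Agent.Helper99.Tube
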